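import Pool.Agent.NH13.WV.Stm2
import Pool.Agent.NH13.UV.Pr

/-!
# WV-13: all the integrals are finite under GRH
-/

set_option autoImplicit false

open Complex MeasureTheory Filter Topology Set

namespace Pool.Agent.NH13.WV

open Pool.Agent.NH13.UV

namespace AFin

lemma psi_meas {q : ℕ} (χ : DirichletCharacter ℂ q) : Measurable (fun x : ℝ => UV.psi χ x) := by
  have h : Measurable (fun n : ℕ => ∑ k ∈ Finset.Icc 1 n,
      (ArithmeticFunction.vonMangoldt k : ℂ) * χ (k : ZMod q)) := measurable_from_nat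
  exact h.comp Nat.measurable_floor

lemma B_meas {q : ℕ} (χ : DirichletCharacter ℂ q) (e : ℝ) :
    Measurable (fun x : ℝ => ENNReal.ofReal (‖UV.psi χ x‖ ^ 2 * x ^ e)) :=
  ((((psi_meas χ).norm).pow_const 2).mul (measurable_id.pow_const e)).ennreal_ofReal

lemma A_meas {q : ℕ} (χ : DirichletCharacter ℂ q) (e : ℝ) :
    Measurable (fun x : ℝ => ENNReal.ofReal (‖UV.psi χ x - x‖ ^ 2 * x ^ e)) :=
  (((((psi_meas χ).sub Complex.measurable_ofReal).norm).pow_const 2).mul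
    (measurable_id.pow_const e)).ennreal_ofReal

lemma A_fin {q : ℕ} [NeZero q] (h : PsiB) {η : ℝ} (hη : 0 < η) :
    ∫⁻ x in Ioi (1 : ℝ), ENNReal.ofReal (‖UV.psi (1 : DirichletCharacter ℂ q) x - x‖ ^ 2 *
      x ^ (-2 - η)) < ⊤ := by
  obtain ⟨C, hC, hp⟩ := h
  have h0 : 0 < min η 1 := lt_min hη one_pos
  have hK : 0 ≤ (2 * (C + 2) ^ 2 + 8 * Real.log q ^ 2) * 65536 / (min η 1) ^ 4 := by positivity
  refine lt_of_le_of_lt (setLIntegral_mono_ae' measurableSet_Ioi
    (Filter.Eventually.of_forall fun x hx => ENNReal.ofReal_le_ofReal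
      (le_trans ?_ (Prin.pw (q := q) hC hp (le_of_lt hx) h0 (min_le_right _ _))))) ?_
  · refine mul_le_mul_of_nonneg_left ?_ (by positivity)
    exact Real.rpow_le_rpow_of_exponent_le (le_of_lt hx) (by linarith [min_le_left η 1])
  · rw [Prin.intg h0 hK]
    exact ENNReal.ofReal_lt_top

end AFin

/-- WV-13 -/
theorem t_AF (hF : S_Fi) (hV : S_V) : S_AF := by
  intro hG hP q hq η hη
  have : NeZero q := ⟨by omega⟩
  unfold IV
  have hφ : (1 : ℝ) ≤ (q.totient : ℝ) := by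
    exact_mod_cast Nat.totient_pos.2 hq
  have key : ∀ x ∈ Ioi (1 : ℝ), ENNReal.ofReal (UV.VV x q * x ^ (-2 - η)) ≤
      ENNReal.ofReal (‖UV.psi (1 : DirichletCharacter ℂ q) x - x‖ ^ 2 * x ^ (-2 - η)) +
        ∑ χ ∈ NT q, ENNReal.ofReal (‖UV.psi χ x‖ ^ 2 * x ^ (-2 - η)) := by
    intro x hx
    have hx0 : (0 : ℝ) < x := lt_trans one_pos hx
    have hw : 0 < x ^ (-2 - η) := Real.rpow_pos_of_pos hx0 _
    have hVV : 0 ≤ UV.VV x q := Finset.sum_nonneg (fun a _ => sq_nonneg _)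
    rw [← ENNReal.ofReal_sum_of_nonneg (fun χ _ => by positivity),
      ← ENNReal.ofReal_add (by positivity) (Finset.sum_nonneg (fun χ _ => by positivity))]
    refine ENNReal.ofReal_le_ofReal ?_
    rw [← Finset.sum_mul, ← add_mul, ← hV q x]
    refine mul_le_mul_of_nonneg_right ?_ hw.le
    nlinarith
  refine lt_of_le_of_lt (setLIntegral_mono_ae' measurableSet_Ioi
    (Filter.Eventually.of_forall key)) ?_
  rw [lintegral_add_left (AFin.A_meas _ _), lintegral_finsetSum _ (fun χ _ => AFin.B_meas χ _)]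
  refine ENNReal.add_lt_top.2 ⟨AFin.A_fin hP hη, ENNReal.sum_lt_top.2 (fun χ hχ => ?_)⟩
  have h := hF q χ (mem_NT.1 hχ) (hG q χ (mem_NT.1 hχ)) (η / 2) (by linarith)
  have e : -2 - 2 * (η / 2) = -2 - η := by ring
  rw [e] at h
  exact h

end Pool.Agent.NH13.WV
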