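import Pool.Agent.NH13.WV.Stm2

/-!
# Project WV, part AI: the Abel means and the mean squares of `Re B` (helper15)
-/

set_option autoImplicit false

open Complex MeasureTheory Filter Topology Set
open scoped ComplexConjugate

namespace Pool.Agent.NH13.WV.AIh

open Pool.Agent.NH13.UV

/-- the limit of the transforms -/
noncomputable def G0 (κ : ℝ) : ℝ := (1 - Real.exp (-2 * κ)) / (4 * κ ^ 2)

theorem G0_nonneg {κ : ℝ} (h : 0 < κ) : 0 ≤ G0 κ := by
  unfold G0
  have h1 : Real.exp (-2 * κ) ≤ 1 := Real.exp_le_one_iff.2 (by linarith)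
  exact div_nonneg (by linarith) (by positivity)

theorem Gn_nonneg (q : ℕ) [NeZero q] (κ : ℝ) : 0 ≤ Gn q κ := by
  unfold Gn
  refine mul_nonneg (by positivity) (Finset.sum_nonneg fun χ _ => ?_)
  refine setIntegral_nonneg measurableSet_Ioi fun u hu => ?_
  have hu1 : (1 : ℝ) < u := hu
  exact mul_nonneg (sq_nonneg _) (Real.rpow_nonneg (by linarith) _)

theorem Gv_lt (hA : AllFin) {q : ℕ} (hq : 2 ≤ q) {κ : ℝ} (hκ : 0 < κ) : Gv q κ < ⊤ := by
  have h1 : 0 < Real.log q := Real.log_pos (by exact_mod_cast (by omega : 1 < q))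
  unfold Gv
  refine ENNReal.div_lt_top (hA q (by omega) _ (by positivity)).ne ?_
  rw [Ne, ENNReal.ofReal_eq_zero, not_le]
  positivity

/-- the Abel means in real numbers -/
theorem abe_iff (hA : AllFin) : Abe ↔ ∀ κ : ℝ, 0 < κ →
    Tendsto (fun q : ℕ => (Gv q κ).toReal) atTop (𝓝 (G0 κ)) := by
  have key : ∀ κ : ℝ, 0 < κ → (1 - Real.exp (-2 * κ)) / (2 * κ) = 2 * κ * G0 κ := by
    intro κ hκ
    unfold G0
    field_simp
    ring
  constructor
  · intro h κ hκ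
    have h1 := h κ hκ
    have h2 : Tendsto (fun q : ℕ => (Mv q κ).toReal) atTop
        (𝓝 (ENNReal.ofReal ((1 - Real.exp (-2 * κ)) / (2 * κ))).toReal) :=
      (ENNReal.tendsto_toReal ENNReal.ofReal_ne_top).comp h1
    have h3 : 0 ≤ (1 - Real.exp (-2 * κ)) / (2 * κ) := by
      rw [key κ hκ]
      have := G0_nonneg hκ
      positivity
    rw [ENNReal.toReal_ofReal h3, key κ hκ] at h2
    have h4 := h2.div_const (2 * κ)
    have h5 : 2 * κ * G0 κ / (2 * κ) = G0 κ := by field_simp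
    rw [h5] at h4
    refine h4.congr fun q => ?_
    unfold Mv
    rw [ENNReal.toReal_mul, ENNReal.toReal_ofReal (by positivity)]
    field_simp
  · intro h κ hκ
    have h1 := h κ hκ
    have h2 : Tendsto (fun q : ℕ => ENNReal.ofReal (2 * κ * (Gv q κ).toReal)) atTop
        (𝓝 (ENNReal.ofReal (2 * κ * G0 κ))) := ENNReal.tendsto_ofReal (h1.const_mul (2 * κ))
    rw [key κ hκ]
    refine h2.congr' ?_
    filter_upwards [eventually_ge_atTop 2] with q hq
    unfold Mv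
    rw [ENNReal.ofReal_mul (by positivity), ENNReal.ofReal_toReal (Gv_lt hA hq hκ).ne]

theorem close (hA : AllFin) (hP : PsiB) (hG : S_GG) {κ ε : ℝ} (hκ : 0 < κ) (hε : 0 < ε) :
    ∃ q0 : ℕ, ∀ (q : ℕ) [NeZero q], q0 ≤ q → |(Gv q κ).toReal - Gn q κ| ≤ ε := by
  obtain ⟨q0, h0⟩ := hG.2 hP κ ε hκ hε
  refine ⟨max q0 2, fun q _ hq => ?_⟩
  have hq0 : q0 ≤ q := (le_max_left _ _).trans hq
  have hq2 : 2 ≤ q := (le_max_right _ _).trans hq
  have hf := Gv_lt hA hq2 hκ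
  have h1 := (hG.1 q hq2 κ hκ hf).2
  have h2 := h0 q hq0 hf
  have h3 : Gn q κ ≤ (Gv q κ).toReal := (ENNReal.ofReal_le_iff_le_toReal hf.ne).1 h1
  have h4 : (Gv q κ).toReal ≤ Gn q κ + ε := by
    have h5 := ENNReal.toReal_mono ENNReal.ofReal_ne_top h2
    rwa [ENNReal.toReal_ofReal (by have := Gn_nonneg q κ; linarith)] at h5
  rw [abs_le]
  constructor <;> linarith

theorem rel (hA : AllFin) (hG : S_GG) (hr : S_rel) {κ ε : ℝ} (hκ : 0 < κ) (hε : 0 < ε) :
    ∃ q0 : ℕ, ∀ (q : ℕ) [NeZero q], q0 ≤ q → |1 + 2 * Gn q κ - Ir q κ| ≤ ε * (1 + Ir q κ) := by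
  obtain ⟨q0, h0⟩ := hr κ ε hκ hε
  refine ⟨max q0 2, fun q _ hq => ?_⟩
  have hq0 : q0 ≤ q := (le_max_left _ _).trans hq
  have hq2 : 2 ≤ q := (le_max_right _ _).trans hq
  refine h0 q hq0 ⟨κ / 2, by positivity, by linarith, ?_⟩
  exact (hG.1 q hq2 (κ / 2) (by positivity) (Gv_lt hA hq2 (by positivity))).1

end Pool.Agent.NH13.WV.AIh

namespace Pool.Agent.NH13.WV

open Pool.Agent.NH13.UV AIh

theorem t_AI (hr : S_rel) (hG : S_GG) : S_AI := by
  intro hA _ hP
  rw [abe_iff hA]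
  have hlim : ∀ κ : ℝ, 0 < κ → 1 + (1 - Real.exp (-2 * κ)) / (2 * κ ^ 2) = 1 + 2 * G0 κ := by
    intro κ hκ
    unfold G0
    field_simp
    ring
  constructor
  · intro h κ ε hκ hε
    rw [hlim κ hκ]
    have hG0 := G0_nonneg hκ
    set R : ℝ := 1 + 2 * G0 κ with hR
    have hR1 : 0 < 1 + R := by rw [hR]; linarith
    set δ : ℝ := min (1 / 2) (ε / (4 * (1 + R))) with hδ
    have hδ0 : 0 < δ := lt_min (by norm_num) (by positivity)
    have hδ1 : δ ≤ 1 / 2 := min_le_left _ _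
    have hδ2 : δ * (1 + R) ≤ ε / 4 := by
      calc δ * (1 + R) ≤ ε / (4 * (1 + R)) * (1 + R) :=
            mul_le_mul_of_nonneg_right (min_le_right _ _) hR1.le
        _ = ε / 4 := by field_simp
    obtain ⟨q1, h1⟩ := close hA hP hG hκ (show 0 < ε / 16 by positivity)
    obtain ⟨q2, h2⟩ := rel hA hG hr hκ hδ0
    obtain ⟨q3, h3⟩ := (Metric.tendsto_atTop.1 (h κ hκ)) (ε / 16) (by positivity)
    refine ⟨q1 + q2 + q3, fun q _ hq => ?_⟩
    have e1 := h1 q (by omega)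
    have e2 := h2 q (by omega)
    have e3 := h3 q (by omega)
    rw [Real.dist_eq] at e3
    obtain ⟨a1, a2⟩ := abs_le.1 e1
    obtain ⟨b1, b2⟩ := abs_le.1 e2
    obtain ⟨c1, c2⟩ := abs_lt.1 e3
    rw [abs_le]
    constructor
    · nlinarith
    · nlinarith
  · intro h κ hκ
    have hG0 := G0_nonneg hκ
    rw [Metric.tendsto_atTop]
    intro ε hε
    set R : ℝ := 1 + 2 * G0 κ with hR
    have hR1 : 0 < 1 + R := by rw [hR]; linarith
    set δ : ℝ := min 1 (ε / (4 * (2 + R))) with hδ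
    have hR2 : 0 < 2 + R := by linarith
    have hδ0 : 0 < δ := lt_min (by norm_num) (by positivity)
    have hδ1 : δ ≤ 1 := min_le_left _ _
    have hδ2 : δ * (2 + R) ≤ ε / 4 := by
      calc δ * (2 + R) ≤ ε / (4 * (2 + R)) * (2 + R) :=
            mul_le_mul_of_nonneg_right (min_le_right _ _) hR2.le
        _ = ε / 4 := by field_simp
    obtain ⟨q1, h1⟩ := close hA hP hG hκ (show 0 < ε / 4 by positivity)
    obtain ⟨q2, h2⟩ := rel hA hG hr hκ hδ0
    obtain ⟨q3, h3⟩ := h κ δ hκ hδ0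
    refine ⟨q1 + q2 + q3 + 1, fun q hq => ?_⟩
    have : NeZero q := ⟨by omega⟩
    have e1 := h1 q (by omega)
    have e2 := h2 q (by omega)
    have e3 := h3 q (by omega)
    rw [hlim κ hκ, ← hR] at e3
    rw [Real.dist_eq]
    obtain ⟨a1, a2⟩ := abs_le.1 e1
    obtain ⟨b1, b2⟩ := abs_le.1 e2
    obtain ⟨c1, c2⟩ := abs_le.1 e3
    have hδ3 : δ ≤ ε / 8 := by
      have : δ * 2 ≤ δ * (2 + R) := mul_le_mul_of_nonneg_left (by rw [hR]; linarith) hδ0.le
      linarith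
    have d1 : δ * (1 + Ir q κ) ≤ δ * (2 + R) :=
      mul_le_mul_of_nonneg_left (by linarith) hδ0.le
    rw [abs_lt]
    constructor
    · linarith
    · linarith

end Pool.Agent.NH13.WV
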