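import Pool.Agent.NH13.WV.Stm4
import Pool.Agent.NH13.WV.AI

/-!
# Project WV, part AbI: the Abel means and the mean squares of `Re B` for small `κ` (helper23)
-/

set_option autoImplicit false

open Complex MeasureTheory Filter Topology Set
open scoped ComplexConjugate

namespace Pool.Agent.NH13.WV.AbIh

open Pool.Agent.NH13.UV

/-- the Abel means in real numbers -/
theorem Mv_le_iff (hA : AllFin) {q : ℕ} (hq : 2 ≤ q) {κ r : ℝ} (hκ : 0 < κ) (hr : 0 ≤ r) :
    Mv q κ ≤ ENNReal.ofReal r ↔ 2 * κ * (Gv q κ).toReal ≤ r := by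
  have h1 : Mv q κ = ENNReal.ofReal (2 * κ * (Gv q κ).toReal) := by
    unfold Mv
    rw [ENNReal.ofReal_mul (show (0 : ℝ) ≤ 2 * κ by positivity), ENNReal.ofReal_toReal (AIh.Gv_lt hA hq hκ).ne]
  rw [h1, ENNReal.ofReal_le_ofReal_iff hr]

end Pool.Agent.NH13.WV.AbIh

namespace Pool.Agent.NH13.WV

open Pool.Agent.NH13.UV AIh AbIh

theorem t_AbI (hr : S_rel) (hG : S_GG) : S_AbI := by
  intro hA _ hP
  constructor
  · intro h ε hε
    set e : ℝ := min ε 1 with he
    have he0 : 0 < e := lt_min hε one_pos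
    have he1 : e ≤ 1 := min_le_right _ _
    have hee : e ≤ ε := min_le_left _ _
    obtain ⟨δ1, hδ1, h1⟩ := h (e / 8) (by positivity)
    refine ⟨min δ1 (e / 8), lt_min hδ1 (by positivity), fun δ hδ hδ' => ?_⟩
    have hδa : δ ≤ δ1 := hδ'.trans (min_le_left _ _)
    have hδb : δ ≤ e / 8 := hδ'.trans (min_le_right _ _)
    obtain ⟨q1, h2⟩ := close hA hP hG hδ (show 0 < e / 8 by positivity)
    obtain ⟨q2, h3⟩ := rel hA hG hr hδ (show 0 < e / 8 by positivity)
    obtain ⟨q3, h4⟩ := eventually_atTop.1 (h1 δ hδ hδa)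
    refine ⟨q1 + q2 + q3 + 2, fun q _ hq => ?_⟩
    have e2 := h2 q (by omega)
    have e3 := h3 q (by omega)
    have e4 := (Mv_le_iff hA (by omega) hδ (by positivity)).1 (h4 q (by omega))
    obtain ⟨a1, a2⟩ := abs_le.1 e2
    obtain ⟨b1, b2⟩ := abs_le.1 e3
    by_contra hcon
    push Not at hcon
    set g : ℝ := (Gv q δ).toReal with hg
    set G : ℝ := Gn q δ with hGd
    set J : ℝ := Ir q δ with hJ
    have c1 : J * (1 - e / 8) ≤ 1 + 2 * G + e / 8 := by linarith
    have c2 : δ * (J * (1 - e / 8)) ≤ δ * (1 + 2 * G + e / 8) := mul_le_mul_of_nonneg_left c1 hδ.le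
    have c3 : δ * G ≤ δ * (g + e / 8) := mul_le_mul_of_nonneg_left (by linarith) hδ.le
    have c4 : δ * J * (1 - e / 8) ≤ 1 + e / 8 + δ * (1 + 3 * (e / 8)) := by linarith
    have c5 : δ * (1 + 3 * (e / 8)) ≤ e / 8 * (1 + 3 * (e / 8)) :=
      mul_le_mul_of_nonneg_right hδb (by positivity)
    have c6 : (1 + e) * (1 - e / 8) < δ * J * (1 - e / 8) :=
      mul_lt_mul_of_pos_right (by linarith) (by linarith)
    nlinarith
  · intro h ε hε
    set e : ℝ := min ε 1 with he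
    have he0 : 0 < e := lt_min hε one_pos
    have he1 : e ≤ 1 := min_le_right _ _
    have hee : e ≤ ε := min_le_left _ _
    obtain ⟨δ1, hδ1, h1⟩ := h (e / 8) (by positivity)
    refine ⟨min δ1 1, lt_min hδ1 one_pos, fun δ hδ hδ' => ?_⟩
    have hδa : δ ≤ δ1 := hδ'.trans (min_le_left _ _)
    have hδb : δ ≤ 1 := hδ'.trans (min_le_right _ _)
    obtain ⟨q1, h2⟩ := close hA hP hG hδ (show 0 < e / 16 by positivity)
    obtain ⟨q2, h3⟩ := rel hA hG hr hδ (show 0 < e / 16 by positivity)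
    obtain ⟨q3, h4⟩ := h1 δ hδ hδa
    rw [eventually_atTop]
    refine ⟨q1 + q2 + q3 + 2, fun q hq => ?_⟩
    have : NeZero q := ⟨by omega⟩
    have e2 := h2 q (by omega)
    have e3 := h3 q (by omega)
    have e4 := h4 q (by omega)
    rw [Mv_le_iff hA (by omega) hδ (by positivity)]
    obtain ⟨a1, a2⟩ := abs_le.1 e2
    obtain ⟨b1, b2⟩ := abs_le.1 e3
    set g : ℝ := (Gv q δ).toReal with hg
    set G : ℝ := Gn q δ with hGd
    set J : ℝ := Ir q δ with hJ
    have c1 : 2 * G ≤ J * (1 + e / 16) + e / 16 := by linarith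
    have c2 : δ * (2 * G) ≤ δ * (J * (1 + e / 16) + e / 16) := mul_le_mul_of_nonneg_left c1 hδ.le
    have c3 : δ * g ≤ δ * (G + e / 16) := mul_le_mul_of_nonneg_left (by linarith) hδ.le
    have c4 : δ * J * (1 + e / 16) ≤ (1 + e / 8) * (1 + e / 16) :=
      mul_le_mul_of_nonneg_right e4 (by positivity)
    have c5 : δ * (e / 16) ≤ 1 * (e / 16) := mul_le_mul_of_nonneg_right hδb (by positivity)
    have c6 : 2 * δ * g ≤ (1 + e / 8) * (1 + e / 16) + 3 * (e / 16) := by linarith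
    nlinarith

end Pool.Agent.NH13.WV
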