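import Pool.Agent.NH13.WV.Stm2
import Pool.Agent.NH13.UV.Asm
import Pool.Agent.NH10.SV.RHof

/-!
# Project WV: the assembly, from the statements of the jobs
-/

set_option autoImplicit false

open Complex MeasureTheory Filter Topology Set
open scoped ComplexConjugate

namespace Pool.Agent.NH13.WV.Asm

open Pool.Agent.NH13.UV

/-- the limit of the transforms -/
noncomputable def TT (κ : ℝ) : ℝ := 1 + (1 - Real.exp (-2 * κ)) / (2 * κ ^ 2)

/-- the functions `nq` for all natural numbers -/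
noncomputable def fq (q : ℕ) (A : ℝ) : ℝ := if h : q = 0 then 0 else @nq q ⟨h⟩ A

theorem fq_eq (q : ℕ) [inst : NeZero q] : fq q = nq q := by
  funext A
  unfold fq
  rw [dif_neg (NeZero.ne q)]

theorem rh_of (h : GRHall) : RiemannHypothesis := by
  refine Pool.Agent.NH10.SV.RH_of fun s hs hs1 => ?_
  have h1 := h 1 (1 : DirichletCharacter ℂ 1) s hs hs1
  rwa [DirichletCharacter.LFunction_modOne_eq] at h1

theorem grh1_of (h : GRHall) : GRH1 := by
  intro q _ χ hχ s hs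
  by_cases hs1 : s = 1
  · subst hs1
    exact DirichletCharacter.LFunction_apply_one_ne_zero hχ
  · exact h q χ s hs hs1

/-- the transforms converge if `Ir` does -/
theorem pq_lim (hI : S_IrP) (hG : GRH1) (hT : IrT) {κ : ℝ} (hκ : 0 < κ) :
    Tendsto (fun q : ℕ => ∫ A in Ioi (0 : ℝ), fq q A * kk κ A) atTop (𝓝 (TT κ)) := by
  obtain ⟨C, q0, hC, hI⟩ := hI hG κ hκ
  have hl : Tendsto (fun q : ℕ => Real.sqrt (Real.log q)) atTop atTop :=
    Real.tendsto_sqrt_atTop.comp (Real.tendsto_log_atTop.comp tendsto_natCast_atTop_atTop)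
  rw [Metric.tendsto_atTop]
  intro ε hε
  have hT0 : 0 ≤ |TT κ| := abs_nonneg _
  have h1 : ∀ᶠ q : ℕ in atTop, 2 * C * (|TT κ| + 3) / ε < Real.sqrt (Real.log q) :=
    hl.eventually_gt_atTop _
  obtain ⟨q1, hq1⟩ := hT κ (min 1 (ε / 3)) hκ (by positivity)
  obtain ⟨q2, hq2⟩ := eventually_atTop.1 h1
  refine ⟨max (max q0 q1) (max q2 1), fun q hq => ?_⟩
  have a0 : q0 ≤ q := le_trans (le_trans (le_max_left _ _) (le_max_left _ _)) hq
  have a1 : q1 ≤ q := le_trans (le_trans (le_max_right _ _) (le_max_left _ _)) hq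
  have a2 : q2 ≤ q := le_trans (le_trans (le_max_left _ _) (le_max_right _ _)) hq
  have a3 : 1 ≤ q := le_trans (le_trans (le_max_right _ _) (le_max_right _ _)) hq
  haveI : NeZero q := ⟨by omega⟩
  have b0 := hI q a0
  have b1 := hq1 q a1
  have b2 := hq2 q a2
  rw [fq_eq]
  change dist (Pq q κ) (TT κ) < ε
  change |Ir q κ - TT κ| ≤ _ at b1
  have b3 : |Ir q κ - TT κ| ≤ 1 := b1.trans (min_le_left _ _)
  have b4 : |Ir q κ - TT κ| ≤ ε / 3 := b1.trans (min_le_right _ _)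
  have b5 : Ir q κ + 1 ≤ |TT κ| + 3 := by
    have := abs_le.1 b3
    have := le_abs_self (TT κ)
    linarith
  set S := Real.sqrt (Real.log q) with hS
  have c0 : 0 < S := lt_of_le_of_lt (by positivity) b2
  have b6 : C / S * (Ir q κ + 1) ≤ ε / 2 := by
    have : C / S * (Ir q κ + 1) ≤ C / S * (|TT κ| + 3) :=
      mul_le_mul_of_nonneg_left b5 (by positivity)
    refine this.trans ?_
    rw [div_lt_iff₀ hε] at b2
    rw [div_mul_eq_mul_div, div_le_iff₀ c0]
    nlinarith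
  rw [Real.dist_eq]
  have e : Pq q κ - TT κ = (Ir q κ - TT κ) - (Ir q κ - Pq q κ) := by ring
  rw [e]
  have := abs_sub (Ir q κ - TT κ) (Ir q κ - Pq q κ)
  linarith

/-- `Ir` converges if the transforms do -/
theorem ir_lim (hI : S_IrP) (hG : GRH1)
    (hT : ∀ κ : ℝ, 0 < κ → Tendsto (fun q : ℕ => ∫ A in Ioi (0 : ℝ), fq q A * kk κ A) atTop
      (𝓝 (TT κ))) : IrT := by
  intro κ ε hκ hε
  obtain ⟨C, q0, hC, hI⟩ := hI hG κ hκ
  have hl : Tendsto (fun q : ℕ => Real.sqrt (Real.log q)) atTop atTop :=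
    Real.tendsto_sqrt_atTop.comp (Real.tendsto_log_atTop.comp tendsto_natCast_atTop_atTop)
  have hT0 : 0 ≤ |TT κ| := abs_nonneg _
  have h1 : ∀ᶠ q : ℕ in atTop, 2 * C + 4 * C * (|TT κ| + 2) / ε < Real.sqrt (Real.log q) :=
    hl.eventually_gt_atTop _
  obtain ⟨q1, hq1⟩ := Metric.tendsto_atTop.1 (hT κ hκ) (min 1 (ε / 3)) (by positivity)
  obtain ⟨q2, hq2⟩ := eventually_atTop.1 h1
  refine ⟨max (max q0 q1) (max q2 1), fun q _ hq => ?_⟩
  have a0 : q0 ≤ q := le_trans (le_trans (le_max_left _ _) (le_max_left _ _)) hq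
  have a1 : q1 ≤ q := le_trans (le_trans (le_max_right _ _) (le_max_left _ _)) hq
  have a2 : q2 ≤ q := le_trans (le_trans (le_max_left _ _) (le_max_right _ _)) hq
  have b0 := hI q a0
  have b1 := hq1 q a1
  have b2 := hq2 q a2
  rw [fq_eq] at b1
  change dist (Pq q κ) (TT κ) < _ at b1
  rw [Real.dist_eq] at b1
  have b3 : |Pq q κ - TT κ| < 1 := b1.trans_le (min_le_left _ _)
  have b4 : |Pq q κ - TT κ| < ε / 3 := b1.trans_le (min_le_right _ _)
  change |Ir q κ - TT κ| ≤ ε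
  set S := Real.sqrt (Real.log q) with hS
  have hp : 0 ≤ 4 * C * (|TT κ| + 2) / ε := by positivity
  have c0 : 2 * C < S := by linarith
  have cS : 0 < S := by linarith
  have b5 : Pq q κ ≤ |TT κ| + 1 := by
    have := abs_lt.1 b3
    have := le_abs_self (TT κ)
    linarith
  -- `Ir` is bounded
  have b6 : Ir q κ + 1 ≤ 2 * (|TT κ| + 2) := by
    by_contra hcon
    push Not at hcon
    have d1 : 0 < Ir q κ + 1 := by linarith
    have d2 : C / S * (Ir q κ + 1) ≤ 1 / 2 * (Ir q κ + 1) := by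
      refine mul_le_mul_of_nonneg_right ?_ d1.le
      rw [div_le_iff₀ cS]
      linarith
    have d3 := (abs_le.1 b0).2
    linarith
  have b7 : C / S * (Ir q κ + 1) ≤ ε / 2 := by
    have d0 : C / S * (Ir q κ + 1) ≤ C / S * (2 * (|TT κ| + 2)) :=
      mul_le_mul_of_nonneg_left b6 (by positivity)
    refine d0.trans ?_
    have d1 : 4 * C * (|TT κ| + 2) / ε < S := by linarith
    rw [div_lt_iff₀ hε] at d1
    rw [div_mul_eq_mul_div, div_le_iff₀ cS]
    nlinarith
  have e : Ir q κ - TT κ = (Ir q κ - Pq q κ) + (Pq q κ - TT κ) := by ring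
  rw [e]
  have := abs_add_le (Ir q κ - Pq q κ) (Pq q κ - TT κ)
  linarith

theorem fwd (hA : S_AI) (hI : S_IrP) (hB : S_TB) (hc : S_comp) (hm : S_mono) (hfin : AllFin)
    (hG : GRH1) (hP : PsiB) (hAb : Abe) : PCF := by
  have hT : IrT := (hA hfin hG hP).1 hAb
  have hlim := hB fq ?_ ?_
  · intro A ε hA0 hε
    obtain ⟨q0, hq0⟩ := Metric.tendsto_atTop.1 (hlim A hA0) ε hε
    refine ⟨q0, fun q _ hq => ?_⟩
    have h1 := hq0 q hq
    rw [fq_eq, Real.dist_eq] at h1
    exact h1.le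
  · filter_upwards [eventually_ge_atTop 3] with q hq
    haveI : NeZero q := ⟨by omega⟩
    rw [fq_eq]
    exact hm q hq
  · intro κ hκ
    rw [hc κ hκ]
    exact pq_lim hI hG hT hκ

theorem bwd (hA : S_AI) (hI : S_IrP) (hTA : S_TA) (hc : S_comp) (hm : S_mono) (hu : S_unif)
    (hfin : AllFin) (hG : GRH1) (hP : PsiB) (hC : PCF) : Abe := by
  refine (hA hfin hG hP).2 (ir_lim hI hG fun κ hκ => ?_)
  have h1 := hTA fq ?_ ?_ ?_ κ hκ
  · rwa [hc κ hκ] at h1
  · filter_upwards [eventually_ge_atTop 3] with q hq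
    haveI : NeZero q := ⟨by omega⟩
    rw [fq_eq]
    exact ⟨(hm q hq).1, (hm q hq).2.1⟩
  · obtain ⟨q1, hq1⟩ := hC 1 1 one_pos one_pos
    obtain ⟨C, q0, hC0, hu⟩ := hu (|nl 1| + 1) (by positivity)
    refine ⟨C, ?_⟩
    filter_upwards [eventually_ge_atTop (max q0 q1), eventually_ge_atTop 1] with q hq hq'
    haveI : NeZero q := ⟨by omega⟩
    rw [fq_eq]
    refine hu q (le_trans (le_max_left _ _) hq) ?_
    have h2 := abs_le.1 (hq1 q (le_trans (le_max_right _ _) hq))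
    have := le_abs_self (nl 1)
    linarith
  · intro A hA0
    rw [Metric.tendsto_atTop]
    intro ε hε
    obtain ⟨q0, hq0⟩ := hC A (ε / 2) hA0 (by positivity)
    refine ⟨max q0 1, fun q hq => ?_⟩
    haveI : NeZero q := ⟨by have := le_trans (le_max_right q0 1) hq; omega⟩
    rw [fq_eq, Real.dist_eq]
    exact (hq0 q (le_trans (le_max_left _ _) hq)).trans_lt (by linarith)

/-- **the assembly** -/
theorem main (hA : S_AI) (hI : S_IrP) (hTA : S_TA) (hB : S_TB) (hc : S_comp) (hm : S_mono)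
    (hu : S_unif) (hAF : S_AF) (hfin : S_fin) (hMe : S_Me) (hGG : S_GG) (hRH : S_RH)
    (hpsi : RiemannHypothesis → PsiB) (hAA : Asy ↔ Abe) (hAG : Asy → GRHall) :
    Asy ↔ GRHall ∧ PCF := by
  constructor
  · intro h
    have hF := hfin (UV.Asm.upp_of_asy h)
    exact ⟨hAG h, fwd hA hI hB hc hm hF (UV.Asm.grh1 hMe hGG hF) (hpsi (hRH (hF 1 le_rfl)))
      (hAA.1 h)⟩
  · rintro ⟨hG, hC⟩
    have h1 := grh1_of hG
    have h2 := hpsi (rh_of hG)
    exact hAA.2 (bwd hA hI hTA hc hm hu (hAF h1 h2) h1 h2 hC)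

end Pool.Agent.NH13.WV.Asm
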