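import Pool.Agent.NH13.WV.Stm3
import Pool.Agent.NH13.WV.Asm

/-!
# Project WV: one half of the pair correlation suffices, assembly
-/

set_option autoImplicit false

open Complex MeasureTheory Filter Topology Set
open scoped ComplexConjugate

namespace Pool.Agent.NH13.WV.Asm

open Pool.Agent.NH13.UV

/-- the transforms are close to their limits for large `κ` -/
theorem pq_tail (hI : S_IrP) (ht : S_tail) (hF : AllFin) (hG : GRH1) (hP : PsiB) :
    ∃ C : ℝ, ∀ κ : ℝ, 1 ≤ κ → ∀ᶠ q : ℕ in atTop,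
      |(∫ A in Ioi (0 : ℝ), fq q A * kk κ A) - TT κ| ≤ C * Real.exp (-κ) := by
  obtain ⟨C, hC⟩ := ht hF hG hP
  refine ⟨C + 1, fun κ hκ => ?_⟩
  obtain ⟨q1, hq1⟩ := hC κ hκ
  obtain ⟨D, q0, hD, hI⟩ := hI hG κ (by linarith)
  have hl : Tendsto (fun q : ℕ => Real.sqrt (Real.log q)) atTop atTop :=
    Real.tendsto_sqrt_atTop.comp (Real.tendsto_log_atTop.comp tendsto_natCast_atTop_atTop)
  set e := Real.exp (-κ) with he
  have he0 : 0 < e := Real.exp_pos _
  set M := |TT κ| + |C| * e + 1 with hM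
  have hM0 : 0 < M := by positivity
  filter_upwards [hl.eventually_gt_atTop (D * M / e), eventually_ge_atTop (max q0 q1),
    eventually_ge_atTop 1] with q h1 h2 h3
  haveI : NeZero q := ⟨by omega⟩
  have b0 := hI q (le_trans (le_max_left _ _) h2)
  have b1 := hq1 q (le_trans (le_max_right _ _) h2)
  rw [fq_eq]
  change |Pq q κ - TT κ| ≤ _
  change |Ir q κ - TT κ| ≤ C * e at b1
  have b2 : Ir q κ + 1 ≤ M := by
    have h4 := (abs_le.1 b1).2
    have h5 := le_abs_self (TT κ)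
    have h6 : C * e ≤ |C| * e := mul_le_mul_of_nonneg_right (le_abs_self C) he0.le
    rw [hM]
    linarith
  set S := Real.sqrt (Real.log q) with hS
  have hS0 : 0 < S := lt_of_le_of_lt (by positivity) h1
  have b3 : D / S * (Ir q κ + 1) ≤ e := by
    refine (mul_le_mul_of_nonneg_left b2 (by positivity)).trans ?_
    rw [div_lt_iff₀ he0] at h1
    rw [div_mul_eq_mul_div, div_le_iff₀ hS0]
    linarith
  have e1 : Pq q κ - TT κ = (Ir q κ - TT κ) - (Ir q κ - Pq q κ) := by ring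
  rw [e1]
  have := abs_sub (Ir q κ - TT κ) (Ir q κ - Pq q κ)
  linarith

theorem one_sided (hI : S_IrP) (ht : S_tail) (hc : S_comp) (hm : S_mono) (hu : S_unif)
    (hnb : S_nb) (ho : S_one) (hF : AllFin) (hG : GRH1) (hP : PsiB) (h : PCU ∨ PCL) : PCF := by
  have hlim := ho fq ?_ ?_ ?_ ?_
  · intro A ε hA0 hε
    obtain ⟨q0, hq0⟩ := Metric.tendsto_atTop.1 (hlim A hA0) ε hε
    refine ⟨q0, fun q _ hq => ?_⟩
    have h1 := hq0 q hq
    rw [fq_eq, Real.dist_eq] at h1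
    exact h1.le
  · filter_upwards [eventually_ge_atTop 3] with q hq
    haveI : NeZero q := ⟨by omega⟩
    rw [fq_eq]
    exact ⟨(hm q hq).1, (hm q hq).2.1⟩
  · obtain ⟨M, q1, hM, hq1⟩ := hnb hF hG hP
    obtain ⟨C, q0, hC0, hu⟩ := hu M hM
    refine ⟨C, ?_⟩
    filter_upwards [eventually_ge_atTop (max q0 q1), eventually_ge_atTop 1] with q hq hq'
    haveI : NeZero q := ⟨by omega⟩
    rw [fq_eq]
    exact hu q (le_trans (le_max_left _ _) hq) (hq1 q (le_trans (le_max_right _ _) hq))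
  · obtain ⟨C, hC⟩ := pq_tail hI ht hF hG hP
    refine ⟨C, fun κ hκ => ?_⟩
    rw [hc κ (by linarith)]
    exact hC κ hκ
  · rcases h with h | h
    · left
      intro A ε hA hε
      obtain ⟨q0, hq0⟩ := h A ε hA hε
      filter_upwards [eventually_ge_atTop q0, eventually_ge_atTop 1] with q hq hq'
      haveI : NeZero q := ⟨by omega⟩
      rw [fq_eq]
      exact hq0 q hq
    · right
      intro A ε hA hε
      obtain ⟨q0, hq0⟩ := h A ε hA hε
      filter_upwards [eventually_ge_atTop q0, eventually_ge_atTop 1] with q hq hq'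
      haveI : NeZero q := ⟨by omega⟩
      rw [fq_eq]
      exact hq0 q hq

theorem pcu_of (h : PCF) : PCU := by
  intro A ε hA hε
  obtain ⟨q0, hq0⟩ := h A ε hA hε
  exact ⟨q0, fun q _ hq => by linarith [(abs_le.1 (hq0 q hq)).2]⟩

theorem pcl_of (h : PCF) : PCL := by
  intro A ε hA hε
  obtain ⟨q0, hq0⟩ := h A ε hA hε
  exact ⟨q0, fun q _ hq => by linarith [(abs_le.1 (hq0 q hq)).1]⟩

/-- **the assembly of the one-sided versions** -/
theorem main2 (hI : S_IrP) (ht : S_tail) (hc : S_comp) (hm : S_mono) (hu : S_unif)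
    (hnb : S_nb) (ho : S_one) (hAF : S_AF) (hpsi : RiemannHypothesis → PsiB)
    (hM : Asy ↔ GRHall ∧ PCF) : (Asy ↔ GRHall ∧ PCU) ∧ (Asy ↔ GRHall ∧ PCL) := by
  have key : GRHall → PCU ∨ PCL → PCF := by
    intro hG h
    have h1 := grh1_of hG
    have h2 := hpsi (rh_of hG)
    exact one_sided hI ht hc hm hu hnb ho (hAF h1 h2) h1 h2 h
  refine ⟨⟨fun h => ⟨(hM.1 h).1, pcu_of (hM.1 h).2⟩, fun h => hM.2 ⟨h.1, key h.1 (Or.inl h.2)⟩⟩,
    ⟨fun h => ⟨(hM.1 h).1, pcl_of (hM.1 h).2⟩, fun h => hM.2 ⟨h.1, key h.1 (Or.inr h.2)⟩⟩⟩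

end Pool.Agent.NH13.WV.Asm
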