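import Pool.Agent.NH13.WV.Stm4
import Pool.Agent.NH13.WV.Asm

/-!
# Project WV, part 2: assembly
-/

set_option autoImplicit false

open Complex MeasureTheory Filter Topology Set
open scoped ComplexConjugate

namespace Pool.Agent.NH13.WV.Asm

open Pool.Agent.NH13.UV

/-- **long averages of the variance and simple zeros** -/
theorem main3 (hnA : S_finA) (hMe : S_Me) (hGG : S_GG) (hRH : S_RH)
    (hpsi : RiemannHypothesis → PsiB) (hAI : S_AbI) (ha : S_ZIa) (hb : S_ZIb) (hAF : S_AF)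
    (hnb : S_nb) : AbU ↔ GRHall ∧ ES := by
  constructor
  · intro h
    have hF := hnA h
    have h1 := UV.Asm.grh1 hMe hGG hF
    have h2 := hRH (hF 1 le_rfl)
    exact ⟨UV.Asm.grhall h1 h2, ha h1 ((hAI hF h1 (hpsi h2)).1 h)⟩
  · rintro ⟨hG, hE⟩
    have h1 := grh1_of hG
    have h2 := hpsi (rh_of hG)
    have hF := hAF h1 h2
    exact (hAI hF h1 h2).2 (hb h1 (hnb hF h1 h2) hE)

end Pool.Agent.NH13.WV.Asm
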