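import Pool.Agent.NH13.WV.Stm5

/-!
# WVc-BZ: the primes see the bad zeros
-/

set_option autoImplicit false

open Complex MeasureTheory Filter Topology Set
open scoped ComplexConjugate

namespace Pool.Agent.NH13.WV

open Pool.Agent.NH13.UV

namespace BZA

theorem card_NT (q : ℕ) [NeZero q] : ((NT q).card : ℝ) ≤ q.totient := by
  classical
  have h1 : (NT q).card ≤ Fintype.card (DirichletCharacter ℂ q) := Finset.card_le_univ _
  have h2 : Fintype.card (DirichletCharacter ℂ q) = q.totient := by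
    rw [← Nat.card_eq_fintype_card]
    exact DirichletCharacter.card_eq_totient_of_hasEnoughRootsOfUnity ℂ q
  rw [h2] at h1
  exact_mod_cast h1

/-- the weighted number of zeros is at most the sum with the logarithm -/
lemma sum_le {q : ℕ} [NeZero q] (χ : DirichletCharacter ℂ q)
    (hs : Summable (fun s : Zs χ => (mu χ s : ℝ) * (1 + Real.log (2 + |(s : ℂ).im|)) /
      (1 / 4 + (s : ℂ).im ^ 2))) :
    ∑' s : Zs χ, (mu χ s : ℝ) / (1 / 4 + (s : ℂ).im ^ 2) ≤
      ∑' s : Zs χ, (mu χ s : ℝ) * (1 + Real.log (2 + |(s : ℂ).im|)) /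
        (1 / 4 + (s : ℂ).im ^ 2) := by
  have hle : ∀ s : Zs χ, (mu χ s : ℝ) / (1 / 4 + (s : ℂ).im ^ 2) ≤
      (mu χ s : ℝ) * (1 + Real.log (2 + |(s : ℂ).im|)) / (1 / 4 + (s : ℂ).im ^ 2) := by
    intro s
    have h1 : 0 ≤ Real.log (2 + |(s : ℂ).im|) :=
      Real.log_nonneg (by linarith [abs_nonneg (s : ℂ).im])
    have h2 : (0 : ℝ) < 1 / 4 + (s : ℂ).im ^ 2 := by positivity
    have h3 : (0 : ℝ) ≤ (mu χ s : ℝ) := Nat.cast_nonneg _
    rw [div_le_div_iff_of_pos_right h2]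
    nlinarith
  have h0 : ∀ s : Zs χ, 0 ≤ (mu χ s : ℝ) / (1 / 4 + (s : ℂ).im ^ 2) := by
    intro s; positivity
  exact (Summable.of_nonneg_of_le h0 hle hs).tsum_le_tsum hle hs

end BZA

/-- WVc-BZ -/
theorem t_BZ (hp : S_PN) (hN : S_N1u) (hb : S_bad) (hG : S_GG) (hw : S_ws) : S_BZ := by
  intro δ ε hδ hε
  obtain ⟨C, hC, hws⟩ := hw
  obtain ⟨e, he0, heC⟩ : ∃ e : ℝ, 0 < e ∧ e * (3 + C) ≤ ε ∧ e ≤ 1 / 2 := by
    refine ⟨min (1 / 2) (ε / (3 + C)), lt_min (by norm_num) (by positivity), ?_, min_le_left _ _⟩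
    calc min (1 / 2) (ε / (3 + C)) * (3 + C) ≤ ε / (3 + C) * (3 + C) := by
          gcongr
          exact min_le_right _ _
      _ = ε := by field_simp
  obtain ⟨heC, he1⟩ := heC
  obtain ⟨q1, hq1⟩ := hp δ e hδ he0
  obtain ⟨q2, hq2⟩ := hN (2 * δ) e (by positivity) he0
  refine ⟨max 3 (max q1 q2), ?_⟩
  intro q _ hq
  have hq3 : 3 ≤ q := le_trans (le_max_left _ _) hq
  have hqa : q1 ≤ q := le_trans (le_trans (le_max_left _ _) (le_max_right _ _)) hq
  have hqb : q2 ≤ q := le_trans (le_trans (le_max_right _ _) (le_max_right _ _)) hq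
  by_cases hM : Mv q δ = ⊤
  · rw [hM]; exact le_top
  have hGl : Gv q δ < ⊤ := by
    rw [lt_top_iff_ne_top]
    intro h
    apply hM
    unfold Mv
    rw [h]
    refine ENNReal.mul_top ?_
    have : 0 < ENNReal.ofReal (2 * δ) := ENNReal.ofReal_pos.mpr (by positivity)
    exact this.ne'
  have hFi : Fi q δ := (hG.1 q (by omega) δ hδ hGl).1
  have h1 := hq2 q hqb ⟨δ, hδ, by linarith, hFi⟩
  refine le_trans (ENNReal.ofReal_le_ofReal ?_) (hq1 q hqa)
  have hqr : (3 : ℝ) ≤ q := by exact_mod_cast hq3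
  have hL : 0 < Real.log q := Real.log_pos (by linarith)
  have hφ : 0 < (q.totient : ℝ) := by
    have : 0 < q.totient := Nat.totient_pos.mpr (by omega)
    exact_mod_cast this
  have hLφ : 0 < Real.log q * q.totient := mul_pos hL hφ
  -- summing over the characters
  have h2 : (∑ χ ∈ NT q, ∑' s : Zs χ, (mu χ s : ℝ) / (1 / 4 + (s : ℂ).im ^ 2)) +
      ∑ χ ∈ NT q, BW χ ≤ ∑ χ ∈ NT q, PW χ 0 := by
    rw [← Finset.sum_add_distrib]
    exact Finset.sum_le_sum fun χ hχ => (hb q χ (mem_NT.mp hχ) hq3).2.2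
  have h3 : (Real.log q * q.totient) * nq q 0 = ∑ χ ∈ NT q, PW χ 0 := by
    unfold nq
    rw [zero_div]
    field_simp
  have h4 : (Real.log q * q.totient) * bad q = ∑ χ ∈ NT q, BW χ := by
    unfold bad
    field_simp
  have h5 : 1 - e + bad q ≤ nq q 0 := by
    have : (Real.log q * q.totient) * (1 - e + bad q) ≤ (Real.log q * q.totient) * nq q 0 := by
      rw [h3, mul_add, h4]
      linarith
    exact le_of_mul_le_mul_left this hLφ
  have h6 : 0 ≤ bad q := by
    unfold bad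
    refine mul_nonneg (by positivity) (Finset.sum_nonneg fun χ hχ => ?_)
    exact (hb q χ (mem_NT.mp hχ) hq3).1
  have h7 : bad q ≤ C := by
    have h8 : ∑ χ ∈ NT q, BW χ ≤ ∑ χ ∈ NT q, C * Real.log q := by
      refine Finset.sum_le_sum fun χ hχ => ?_
      have hχ1 := mem_NT.mp hχ
      obtain ⟨hs, hs'⟩ := hws q χ hχ1 hq3
      exact ((hb q χ hχ1 hq3).2.1).trans ((BZA.sum_le χ hs).trans hs')
    rw [Finset.sum_const, nsmul_eq_mul] at h8
    have h9 : ((NT q).card : ℝ) * (C * Real.log q) ≤ q.totient * (C * Real.log q) := by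
      have := BZA.card_NT q
      gcongr
    have : (Real.log q * q.totient) * bad q ≤ (Real.log q * q.totient) * C := by
      rw [h4]
      linarith
    exact le_of_mul_le_mul_left this hLφ
  have h10 : (1 - e) * (1 - e + bad q) ≤ (1 - e) * nq q 0 :=
    mul_le_mul_of_nonneg_left h5 (by linarith)
  have h11 : e * bad q ≤ e * C := mul_le_mul_of_nonneg_left h7 he0.le
  nlinarith [sq_nonneg e]

end Pool.Agent.NH13.WV
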