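import Pool.Agent.NH13.WV.Stm5

/-!
# Project WV, part 3: bad zeros share their ordinate
-/

set_option autoImplicit false

open Complex MeasureTheory Filter Topology Set
open scoped ComplexConjugate

namespace Pool.Agent.NH13.WV

open Pool.Agent.NH13.UV

namespace Bad

variable {q : ℕ} [NeZero q]

theorem two_le (h1 : S_HDx) (hmu : S_mu) (hfin : ∀ t : ℝ, ∀ χ : DirichletCharacter ℂ q, χ ≠ 1 →
      {s : ℂ | s ∈ Zs χ ∧ |s.im - t| ≤ 0}.Finite)
    {χ : DirichletCharacter ℂ q} (hχ : χ ≠ 1) {s : ℂ} (hs : s ∈ Zs χ)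
    (hb : s.re ≠ 1 / 2 ∨ 2 ≤ mu χ s) : 2 ≤ nr χ 0 s.im := by
  have hf := hfin s.im χ hχ
  have hms := hmu q χ hχ s hs
  unfold nr
  rw [finsum_mem_eq_finite_toFinset_sum _ hf]
  have hmem : s ∈ hf.toFinset := by
    rw [Set.Finite.mem_toFinset]
    exact ⟨hs, by simp⟩
  rcases hb with hb | hb
  · have hD := h1 q χ hχ (1 / 2) (by norm_num) le_rfl (fun z hz => by
      refine DirichletCharacter.LFunction_ne_zero_of_one_le_re χ (Or.inl hχ) ?_
      linarith)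
    obtain ⟨e, he⟩ := hD.sym
    obtain ⟨he1, he2⟩ := he ⟨s, hs⟩
    set w : Zs χ := e ⟨s, hs⟩ with hw
    have hre : ((w : ℂ) - 1 / 2).re = (-(conj (s - 1 / 2))).re := congrArg Complex.re he1
    have him : ((w : ℂ) - 1 / 2).im = (-(conj (s - 1 / 2))).im := congrArg Complex.im he1
    have hhalf : ((1 / 2 : ℂ)).re = 1 / 2 := by norm_num
    have hhalf' : ((1 / 2 : ℂ)).im = 0 := by norm_num
    rw [Complex.sub_re, Complex.neg_re, Complex.conj_re, Complex.sub_re, hhalf] at hre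
    rw [Complex.sub_im, Complex.neg_im, Complex.conj_im, Complex.sub_im, hhalf'] at him
    have him' : (w : ℂ).im = s.im := by linarith
    have hne : (w : ℂ) ≠ s := by
      intro h
      rw [h] at hre
      apply hb
      linarith
    have hwmem : (w : ℂ) ∈ hf.toFinset := by
      rw [Set.Finite.mem_toFinset]
      exact ⟨w.2, by rw [him']; simp⟩
    have hmw := hmu q χ hχ w w.2
    have hsub : ({s, (w : ℂ)} : Finset ℂ) ⊆ hf.toFinset := by
      intro z hz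
      rw [Finset.mem_insert, Finset.mem_singleton] at hz
      rcases hz with rfl | rfl
      · exact hmem
      · exact hwmem
    have h5 : ∑ z ∈ ({s, (w : ℂ)} : Finset ℂ), mu χ z ≤ ∑ z ∈ hf.toFinset, mu χ z :=
      Finset.sum_le_sum_of_subset hsub
    rw [Finset.sum_pair (Ne.symm hne)] at h5
    omega
  · exact hb.trans (Finset.single_le_sum (f := fun w => mu χ w) (fun _ _ => Nat.zero_le _) hmem)

end Bad

theorem t_bad (h1 : S_HDx) (hmu : S_mu) (h3 : S_nr) (h4 : S_PWb) : S_bad := by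
  intro q _ χ hχ hq
  obtain ⟨C, hC, h4⟩ := h4
  obtain ⟨C3, hC3, h3⟩ := h3
  have hs := (h4 q χ hχ hq 0 le_rfl).1
  have hpos : ∀ s : ℂ, (0 : ℝ) < 1 / 4 + s.im ^ 2 := fun s => by positivity
  -- the number of zeros with the same ordinate
  have hnr : ∀ s : Zs χ, (mu χ s : ℝ) ≤ (nr χ 0 (s : ℂ).im : ℝ) := by
    intro s
    have hfin := (h3 q χ hχ 0 (s : ℂ).im le_rfl).1
    have h1 : mu χ s ≤ nr χ 0 (s : ℂ).im := by
      unfold nr
      rw [finsum_mem_eq_finite_toFinset_sum _ hfin]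
      refine Finset.single_le_sum (f := fun w => mu χ w) (fun _ _ => Nat.zero_le _) ?_
      rw [Set.Finite.mem_toFinset]
      exact ⟨s.2, by simp⟩
    exact_mod_cast h1
  have hmu1 : ∀ s : Zs χ, (1 : ℝ) ≤ (mu χ s : ℝ) := fun s => by
    exact_mod_cast hmu q χ hχ s s.2
  have hs1 : Summable (fun s : Zs χ => (mu χ s : ℝ) / (1 / 4 + (s : ℂ).im ^ 2)) := by
    refine Summable.of_nonneg_of_le (fun s => by positivity) (fun s => ?_) hs
    refine div_le_div_of_nonneg_right ?_ (hpos s).le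
    nlinarith [hnr s, hmu1 s]
  -- the function with the indicator
  let g : Zs χ → ℝ := fun s => (mu χ s : ℝ) * (nr χ 0 (s : ℂ).im : ℝ) / (1 / 4 + (s : ℂ).im ^ 2) -
    (mu χ s : ℝ) / (1 / 4 + (s : ℂ).im ^ 2)
  have hg : Summable g := hs.sub hs1
  have hg0 : ∀ s, 0 ≤ g s := by
    intro s
    have : (mu χ s : ℝ) / (1 / 4 + (s : ℂ).im ^ 2) ≤
        (mu χ s : ℝ) * (nr χ 0 (s : ℂ).im : ℝ) / (1 / 4 + (s : ℂ).im ^ 2) := by
      refine div_le_div_of_nonneg_right ?_ (hpos s).le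
      nlinarith [hnr s, hmu1 s]
    show 0 ≤ _ - _
    linarith
  have e : PW χ 0 - ∑' s : Zs χ, (mu χ s : ℝ) / (1 / 4 + (s : ℂ).im ^ 2) = ∑' s, g s :=
    (hs.tsum_sub hs1).symm
  let i : {s : ℂ // s ∈ Zs χ ∧ (s.re ≠ 1 / 2 ∨ 2 ≤ mu χ s)} → Zs χ := fun s => ⟨s, s.2.1⟩
  have hi : Function.Injective i := by
    intro a b h
    apply Subtype.ext
    exact congrArg (fun z : Zs χ => (z : ℂ)) h
  have hle : ∀ s : {s : ℂ // s ∈ Zs χ ∧ (s.re ≠ 1 / 2 ∨ 2 ≤ mu χ s)},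
      (mu χ s : ℝ) / (1 / 4 + (s : ℂ).im ^ 2) ≤ g (i s) := by
    intro s
    have h2 : 2 ≤ nr χ 0 (s : ℂ).im :=
      Bad.two_le h1 hmu (fun t χ hχ => (h3 q χ hχ 0 t le_rfl).1) hχ s.2.1 s.2.2
    have h2' : (2 : ℝ) ≤ (nr χ 0 (s : ℂ).im : ℝ) := by exact_mod_cast h2
    have h5 : (1 : ℝ) ≤ (mu χ (s : ℂ) : ℝ) := hmu1 (i s)
    show _ ≤ (mu χ s : ℝ) * (nr χ 0 (s : ℂ).im : ℝ) / (1 / 4 + (s : ℂ).im ^ 2) -
      (mu χ s : ℝ) / (1 / 4 + (s : ℂ).im ^ 2)
    rw [← sub_div]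
    refine div_le_div_of_nonneg_right ?_ (hpos s).le
    nlinarith
  have hsg : Summable (fun s => g (i s)) := hg.comp_injective hi
  have hs2 : Summable (fun s : {s : ℂ // s ∈ Zs χ ∧ (s.re ≠ 1 / 2 ∨ 2 ≤ mu χ s)} =>
      (mu χ s : ℝ) / (1 / 4 + (s : ℂ).im ^ 2)) :=
    Summable.of_nonneg_of_le (fun s => by positivity) hle hsg
  have hB1 : BW χ ≤ ∑' s, g s :=
    calc BW χ ≤ ∑' s, g (i s) := hs2.tsum_le_tsum hle hsg
      _ ≤ ∑' s, g s := tsum_comp_le_tsum_of_inj hg hg0 hi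
  let f : Zs χ → ℝ := fun s => (mu χ s : ℝ) / (1 / 4 + (s : ℂ).im ^ 2)
  have hf0 : ∀ s, 0 ≤ f s := fun s => div_nonneg (Nat.cast_nonneg _) (hpos s).le
  have hfs : Summable f := hs1
  have hB2 : (∑' s, f (i s)) ≤ ∑' s, f s := tsum_comp_le_tsum_of_inj hfs hf0 hi
  have hB3 : BW χ = ∑' s, f (i s) := by
    unfold BW
    rfl
  have hB4 : 0 ≤ BW χ := by
    rw [hB3]
    exact tsum_nonneg fun s => hf0 (i s)
  rw [← e] at hB1
  refine ⟨hB4, ?_, ?_⟩
  · rw [hB3]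
    exact hB2
  · linarith

end Pool.Agent.NH13.WV
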