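import Pool.Agent.NH13.WV.Stm2

/-!
# Project WV: two Poisson kernels
-/

set_option autoImplicit false

open Complex MeasureTheory Filter Topology Set

namespace Pool.Agent.NH13.WV

open Pool.Agent.NH13.UV

namespace Cau

lemma re_kernel (x t b r : ℝ) :
    (1 / (pt x t - (b : ℂ) * I) * ((r : ℝ) : ℂ)).re = x / (x ^ 2 + (t - b) ^ 2) * r := by
  have h1 : (pt x t - (b : ℂ) * I).re = x := by simp [pt]
  have h2 : (pt x t - (b : ℂ) * I).im = t - b := by simp [pt]
  rw [Complex.re_mul_ofReal, one_div, Complex.inv_re, Complex.normSq_apply, h1, h2]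
  congr 2
  ring

theorem base (h : S_HP) (x b : ℝ) (hx : 0 < x) :
    Integrable (fun t : ℝ => x / (x ^ 2 + t ^ 2) * (x / (x ^ 2 + (t - b) ^ 2))) ∧
    ∫ t : ℝ, x / (x ^ 2 + t ^ 2) * (x / (x ^ 2 + (t - b) ^ 2)) =
      2 * Real.pi * x / (4 * x ^ 2 + b ^ 2) := by
  have hne : ∀ z : ℂ, 0 < z.re → z - (b : ℂ) * I ≠ 0 := by
    intro z hz h0
    have h1 := congrArg Complex.re h0
    simp at h1
    linarith
  obtain ⟨h1, h2⟩ := h (fun z => 1 / (z - (b : ℂ) * I)) x 0 x hx hx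
    (by
      intro z hz
      have h3 := hne z hz
      refine DifferentiableAt.differentiableWithinAt ?_
      fun_prop (disch := assumption))
    ⟨1 / x, fun z hz => by
      have h3 : x ≤ ‖z - (b : ℂ) * I‖ := by
        refine le_trans ?_ (Complex.abs_re_le_norm _)
        simp only [Complex.sub_re, Complex.mul_re, Complex.ofReal_re, Complex.I_re, mul_zero,
          Complex.ofReal_im, Complex.I_im, mul_one, sub_self, sub_zero]
        exact hz.trans (le_abs_self _)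
      have h4 : (1 : ℝ) ≤ (1 + ‖z‖) ^ (1 / 2 : ℝ) :=
        Real.one_le_rpow (by linarith [norm_nonneg z]) (by norm_num)
      rw [norm_div, norm_one]
      calc 1 / ‖z - (b : ℂ) * I‖ ≤ 1 / x := one_div_le_one_div_of_le hx h3
        _ ≤ 1 / x * (1 + ‖z‖) ^ (1 / 2 : ℝ) := le_mul_of_one_le_right (by positivity) h4⟩
  have h5 : ∀ t : ℝ, x / (x ^ 2 + t ^ 2) * (x / (x ^ 2 + (t - b) ^ 2)) =
      x * RCLike.re (1 / (pt x t - (b : ℂ) * I) * ((1 / (x ^ 2 + t ^ 2) : ℝ) : ℂ)) := by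
    intro t
    change _ = x * (1 / (pt x t - (b : ℂ) * I) * ((1 / (x ^ 2 + t ^ 2) : ℝ) : ℂ)).re
    rw [re_kernel]
    ring
  constructor
  · refine (h1.re.const_mul x).congr (Filter.Eventually.of_forall fun t => ?_)
    exact (h5 t).symm
  · simp only [h5]
    rw [integral_const_mul, integral_re h1, h2]
    change x * (((Real.pi / x : ℝ) : ℂ) * (1 / (((x + x : ℝ) : ℂ) - (b : ℂ) * I))).re = _
    rw [mul_comm ((Real.pi / x : ℝ) : ℂ), Complex.re_mul_ofReal, one_div, Complex.inv_re,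
      Complex.normSq_apply]
    have h6 : (((x + x : ℝ) : ℂ) - (b : ℂ) * I).re = 2 * x := by simp; ring
    have h7 : (((x + x : ℝ) : ℂ) - (b : ℂ) * I).im = -b := by simp
    rw [h6, h7]
    have h8 : 4 * x ^ 2 + b ^ 2 ≠ 0 := by positivity
    have h9 : 2 * x * (2 * x) + -b * -b ≠ 0 := by
      have : 2 * x * (2 * x) + -b * -b = 4 * x ^ 2 + b ^ 2 := by ring
      rw [this]
      exact h8
    field_simp
    ring

end Cau

open Cau in
theorem t_cau (h : S_HP) : S_cau := by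
  intro x a b hx
  obtain ⟨h1, h2⟩ := base h x (b - a) hx
  have h3 : ∀ t : ℝ, x / (x ^ 2 + (t - a) ^ 2) * (x / (x ^ 2 + (t - b) ^ 2)) =
      (fun t : ℝ => x / (x ^ 2 + t ^ 2) * (x / (x ^ 2 + (t - (b - a)) ^ 2))) (t - a) := by
    intro t
    change _ = x / (x ^ 2 + (t - a) ^ 2) * (x / (x ^ 2 + (t - a - (b - a)) ^ 2))
    rw [sub_sub_sub_cancel_right]
  simp only [h3]
  refine ⟨h1.comp_sub_right a, ?_⟩
  rw [integral_sub_right_eq_self (fun t : ℝ => x / (x ^ 2 + t ^ 2) *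
    (x / (x ^ 2 + (t - (b - a)) ^ 2))) a, h2]
  congr 1
  ring

end Pool.Agent.NH13.WV
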