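import Pool.Agent.NH13.WV.Stm2

/-! Project WV, job WV-cnt: the number of the zeros near `t` (helper89). -/

set_option autoImplicit false

open Complex MeasureTheory Filter Topology Set
open scoped ComplexConjugate

namespace Pool.Agent.NH13.WV

open Pool.Agent.NH13.UV

namespace Cnt

open ArithmeticFunction (vonMangoldt)

/-- `L'/L` is bounded in `Re s ≥ 3/2`, uniformly in the character (as `UV.HDQ.LD_bound`) -/
lemma LD_bound : ∃ D : ℝ, 0 ≤ D ∧ ∀ (r : ℕ) [NeZero r] (χ : DirichletCharacter ℂ r) (s : ℂ),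
    3 / 2 ≤ s.re → ‖LD χ s‖ ≤ D := by
  have hs0 : LSeriesSummable (fun n => (vonMangoldt n : ℂ)) ((3 / 2 : ℝ) : ℂ) :=
    ArithmeticFunction.LSeriesSummable_vonMangoldt (by
      rw [Complex.ofReal_re]; norm_num)
  have hsum : Summable fun n => ‖LSeries.term (fun n => (vonMangoldt n : ℂ)) ((3 / 2 : ℝ) : ℂ) n‖ :=
    hs0.norm
  refine ⟨∑' n, ‖LSeries.term (fun n => (vonMangoldt n : ℂ)) ((3 / 2 : ℝ) : ℂ) n‖,
    tsum_nonneg fun _ => norm_nonneg _, fun r _ χ s hs => ?_⟩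
  have hs1 : 1 < s.re := by linarith
  have h1 : LD χ s = -LSeries (fun n => χ (n : ZMod r) * (vonMangoldt n : ℂ)) s := by
    unfold LD
    rw [logDeriv_apply, DirichletCharacter.deriv_LFunction_eq_deriv_LSeries χ hs1,
      DirichletCharacter.LFunction_eq_LSeries χ hs1]
    have h2 := DirichletCharacter.LSeries_twist_vonMangoldt_eq χ hs1
    have h3 : LSeries (fun n => χ (n : ZMod r) * (vonMangoldt n : ℂ)) s =
        -deriv (LSeries fun n => χ (n : ZMod r)) s / LSeries (fun n => χ (n : ZMod r)) s := h2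
    rw [h3]
    ring
  rw [h1, norm_neg]
  have hle : ∀ n, ‖LSeries.term (fun n => χ (n : ZMod r) * (vonMangoldt n : ℂ)) s n‖ ≤
      ‖LSeries.term (fun n => (vonMangoldt n : ℂ)) ((3 / 2 : ℝ) : ℂ) n‖ := by
    intro n
    refine le_trans ?_ (LSeries.norm_term_le_of_re_le_re _
      (s := ((3 / 2 : ℝ) : ℂ)) (s' := s) (by rw [Complex.ofReal_re]; exact hs) n)
    apply LSeries.norm_term_le
    rw [norm_mul]
    exact mul_le_of_le_one_left (norm_nonneg _) (DirichletCharacter.norm_le_one χ _)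
  have hsum2 : Summable fun n =>
      ‖LSeries.term (fun n => χ (n : ZMod r) * (vonMangoldt n : ℂ)) s n‖ :=
    Summable.of_nonneg_of_le (fun _ => norm_nonneg _) hle hsum
  exact (norm_tsum_le_tsum_norm hsum2).trans (hsum2.tsum_le_tsum hle hsum)

/-- the Poisson kernel from below -/
lemma kernel {s : ℂ} (h0 : 0 < s.re) (h1 : s.re < 1) (t : ℝ) :
    2 / 9 * (1 / (1 + (t - s.im) ^ 2)) ≤ (1 / (pt 1 t - (s - 1 / 2))).re := by
  have e : (1 / (pt 1 t - (s - 1 / 2))).re =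
      (3 / 2 - s.re) / ((3 / 2 - s.re) ^ 2 + (t - s.im) ^ 2) := by
    rw [one_div, Complex.inv_re, Complex.normSq_apply]
    have e1 : (pt 1 t - (s - 1 / 2)).re = 3 / 2 - s.re := by
      unfold pt
      simp
      ring
    have e2 : (pt 1 t - (s - 1 / 2)).im = t - s.im := by
      unfold pt
      simp
    rw [e1, e2]
    ring
  rw [e]
  set b := 3 / 2 - s.re with hb
  set u := t - s.im
  have hb1 : 1 / 2 < b := by linarith
  have hb2 : b < 3 / 2 := by linarith
  have hu : 0 ≤ u ^ 2 := sq_nonneg u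
  rw [mul_one_div, div_le_div_iff₀ (by positivity) (by positivity)]
  nlinarith [mul_nonneg hu (by linarith : 0 ≤ b - 1 / 2), mul_pos (by linarith : 0 < b - 1 / 2)
    (by linarith : 0 < 3 / 2 - b)]

/-- the logarithmic derivative on the line `Re z = 1` -/
lemma B_bound (h10 : S_LD) (h9 : S_YYd) : ∃ C : ℝ, 0 < C ∧ ∀ (q : ℕ) [NeZero q]
    (χ : DirichletCharacter ℂ q), χ ≠ 1 → ∀ t : ℝ,
    ‖Bq χ (pt 1 t)‖ ≤ C * (1 + Real.log q + Real.log (2 + |t|)) := by
  obtain ⟨C, hC, hCb⟩ := h10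
  obtain ⟨D, hD, hDb⟩ := LD_bound
  refine ⟨C + D + 1, by linarith, fun q _ χ hχ t => ?_⟩
  have hprim : χ.primitiveCharacter.IsPrimitive := χ.primitiveCharacter_isPrimitive
  have hne : χ.primitiveCharacter ≠ 1 := by
    intro h1
    apply hχ
    rw [← χ.changeLevel_primitiveCharacter, h1]
    exact (DirichletCharacter.changeLevel_eq_one_iff _).2 rfl
  obtain ⟨-, -, -, hz1, -⟩ := h9 χ.conductor χ.primitiveCharacter hprim hne
  have hre : (pt 1 t).re = 1 := by
    unfold pt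
    simp
  have hnz : YY χ.primitiveCharacter (pt 1 t) ≠ 0 := by
    intro h0
    have h1 := hz1 _ h0
    rw [hre, abs_one] at h1
    linarith
  have h1 := hCb χ.conductor χ.primitiveCharacter hprim hne (pt 1 t) (by rw [hre]; norm_num) hnz
  have h2 := hDb χ.conductor χ.primitiveCharacter (1 / 2 + pt 1 t) (by
    have : (1 / 2 + pt 1 t).re = 1 / 2 + (pt 1 t).re := by simp
    rw [this, hre]
    norm_num)
  have hq1 : (1 : ℝ) ≤ q := by exact_mod_cast Nat.one_le_iff_ne_zero.2 (NeZero.ne q)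
  have hr1 : (1 : ℝ) ≤ χ.conductor := by
    exact_mod_cast Nat.one_le_iff_ne_zero.2 χ.conductor_ne_zero
  have hrq : (χ.conductor : ℝ) ≤ q := by
    exact_mod_cast Nat.le_of_dvd (Nat.pos_of_ne_zero (NeZero.ne q)) χ.conductor_dvd_level
  have hlr0 : 0 ≤ Real.log χ.conductor := Real.log_nonneg hr1
  have hlr : Real.log χ.conductor ≤ Real.log q := Real.log_le_log (by linarith) hrq
  have h3 : ‖((Real.log χ.conductor / 2 : ℝ) : ℂ)‖ ≤ Real.log q / 2 := by
    rw [Complex.norm_real, Real.norm_eq_abs, abs_of_nonneg (by positivity)]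
    linarith
  have h4 : ‖Bq χ (pt 1 t)‖ ≤ ‖logDeriv (YY χ.primitiveCharacter) (pt 1 t) -
      LD χ.primitiveCharacter (1 / 2 + pt 1 t) - ((Real.log χ.conductor / 2 : ℝ) : ℂ)‖ +
      ‖LD χ.primitiveCharacter (1 / 2 + pt 1 t)‖ +
      ‖((Real.log χ.conductor / 2 : ℝ) : ℂ)‖ := by
    have e : Bq χ (pt 1 t) = (logDeriv (YY χ.primitiveCharacter) (pt 1 t) -
        LD χ.primitiveCharacter (1 / 2 + pt 1 t) - ((Real.log χ.conductor / 2 : ℝ) : ℂ)) +
        LD χ.primitiveCharacter (1 / 2 + pt 1 t) +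
        ((Real.log χ.conductor / 2 : ℝ) : ℂ) := by
      unfold Bq
      ring
    conv_lhs => rw [e]
    exact (norm_add_le _ _).trans (add_le_add (norm_add_le _ _) le_rfl)
  have habs : 0 ≤ |t| := abs_nonneg t
  have hz : ‖pt 1 t‖ ≤ 1 + |t| := by
    unfold pt
    refine (norm_add_le _ _).trans (le_of_eq ?_)
    rw [norm_mul, Complex.norm_I, Complex.norm_real, Complex.norm_real, Real.norm_eq_abs,
      Real.norm_eq_abs, abs_one, mul_one]
  have hl2 : Real.log 2 ≤ 1 := by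
    have := Real.log_two_lt_d9
    linarith
  have h5 : Real.log (2 + ‖pt 1 t‖) ≤ 1 + Real.log (2 + |t|) := by
    have h6 : Real.log (2 + ‖pt 1 t‖) ≤ Real.log (2 * (2 + |t|)) :=
      Real.log_le_log (by linarith [norm_nonneg (pt 1 t)]) (by linarith)
    rw [Real.log_mul (by norm_num) (by linarith)] at h6
    linarith
  have h7 : 0 ≤ Real.log (2 + |t|) := Real.log_nonneg (by linarith)
  have h8 : 0 ≤ Real.log q := Real.log_nonneg hq1
  have h9' : C * Real.log (2 + ‖pt 1 t‖) ≤ C * (1 + Real.log (2 + |t|)) :=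
    mul_le_mul_of_nonneg_left h5 hC.le
  have h10 : 0 ≤ C * Real.log q := mul_nonneg hC.le h8
  have h11 : 0 ≤ D * (Real.log q + Real.log (2 + |t|)) := mul_nonneg hD (by linarith)
  nlinarith

end Cnt

/-- WV-2 -/
theorem t_cnt (h1 : S_HDx) (h10 : S_LD) (h9 : S_YYd) : S_cnt := by
  obtain ⟨C, hC, hB⟩ := Cnt.B_bound h10 h9
  refine ⟨9 / 2 * C, by positivity, fun q _ χ hχ t => ?_⟩
  have hHD := h1 q χ hχ (1 / 2) (by norm_num) le_rfl (fun s hs =>
    DirichletCharacter.LFunction_ne_zero_of_one_le_re χ (Or.inl hχ) (by linarith))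
  have hre : (pt 1 t).re = 1 := by
    unfold pt
    simp
  have hs := hHD.re (pt 1 t) (by rw [hre]; norm_num)
  have hle : ∀ s : Zs χ, (mu χ s : ℝ) / (1 + (t - (s : ℂ).im) ^ 2) ≤
      9 / 2 * ((mu χ s : ℝ) * (1 / (pt 1 t - ((s : ℂ) - 1 / 2))).re) := by
    rintro ⟨s, -, hs0, hs1⟩
    have h2 := Cnt.kernel hs0 hs1 t
    have h3 : (0 : ℝ) ≤ mu χ s := Nat.cast_nonneg _
    have h4 := mul_le_mul_of_nonneg_left h2 h3
    have e : (mu χ s : ℝ) / (1 + (t - s.im) ^ 2) =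
        9 / 2 * ((mu χ s : ℝ) * (2 / 9 * (1 / (1 + (t - s.im) ^ 2)))) := by ring
    show (mu χ s : ℝ) / (1 + (t - s.im) ^ 2) ≤
      9 / 2 * ((mu χ s : ℝ) * (1 / (pt 1 t - (s - 1 / 2))).re)
    rw [e]
    exact mul_le_mul_of_nonneg_left h4 (by norm_num)
  have hnn : ∀ s : Zs χ, 0 ≤ (mu χ s : ℝ) / (1 + (t - (s : ℂ).im) ^ 2) := fun s => by positivity
  have hs' := hs.mul_left (9 / 2 : ℝ)
  have hsum : Summable (fun s : Zs χ => (mu χ s : ℝ) / (1 + (t - (s : ℂ).im) ^ 2)) :=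
    Summable.of_nonneg_of_le hnn hle hs'.summable
  refine ⟨hsum, (hsum.tsum_le_tsum hle hs'.summable).trans ?_⟩
  rw [hs'.tsum_eq, mul_assoc]
  refine mul_le_mul_of_nonneg_left ?_ (by norm_num)
  exact ((le_abs_self _).trans (Complex.abs_re_le_norm _)).trans (hB q χ hχ t)

end Pool.Agent.NH13.WV
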