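import Pool.Agent.NH13.WV.Stm2

/-!
# Project WV: the transform of the limit (by helper80)
-/

set_option autoImplicit false

open Complex MeasureTheory Filter Topology Set
open scoped ComplexConjugate

namespace Pool.Agent.NH13.WV

open Pool.Agent.NH13.UV

namespace CompX

theorem split (κ A : ℝ) (hA : 0 < A) :
    (1 - (Real.sin (A / 2) / (A / 2)) ^ 2) * (4 * κ / (4 * κ ^ 2 + A ^ 2)) =
      4 * κ / (4 * κ ^ 2 + A ^ 2) -
        8 * κ * ((1 - Real.cos A) / (A ^ 2 * ((2 * κ) ^ 2 + A ^ 2))) := by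
  have h1 : Real.cos A = 1 - 2 * Real.sin (A / 2) ^ 2 := by
    have h2 : A = 2 * (A / 2) := by ring
    conv_lhs => rw [h2]
    rw [Real.cos_two_mul, Real.sin_sq]
    ring
  have h3 : (2 * κ) ^ 2 + A ^ 2 ≠ 0 := by positivity
  have h4 : 4 * κ ^ 2 + A ^ 2 ≠ 0 := by positivity
  have h5 : (2 * κ) ^ 2 + A ^ 2 = 4 * κ ^ 2 + A ^ 2 := by ring
  rw [h1, h5]
  field_simp
  ring

theorem kernel_eq (κ A : ℝ) (hκ : 0 < κ) :
    4 * κ / (4 * κ ^ 2 + A ^ 2) = κ⁻¹ * (1 + ((2 * κ)⁻¹ * A) ^ 2)⁻¹ := by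
  have h4 : 4 * κ ^ 2 + A ^ 2 ≠ 0 := by positivity
  have h5 : 1 + ((2 * κ)⁻¹ * A) ^ 2 ≠ 0 := by positivity
  field_simp
  ring

theorem kernel_int (κ : ℝ) (hκ : 0 < κ) :
    IntegrableOn (fun A : ℝ => 4 * κ / (4 * κ ^ 2 + A ^ 2)) (Ioi 0) := by
  have h : Integrable (fun A : ℝ => κ⁻¹ * (1 + ((2 * κ)⁻¹ * A) ^ 2)⁻¹) := by
    refine Integrable.const_mul ?_ _
    exact integrable_inv_one_add_sq.comp_mul_left' (by positivity : (2 * κ)⁻¹ ≠ 0)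
  simp only [kernel_eq κ _ hκ]
  exact h.integrableOn

theorem kernel_val (κ : ℝ) (hκ : 0 < κ) :
    ∫ A in Ioi (0 : ℝ), 4 * κ / (4 * κ ^ 2 + A ^ 2) = Real.pi := by
  simp only [kernel_eq κ _ hκ]
  rw [integral_const_mul,
    integral_comp_mul_left_Ioi (fun x : ℝ => (1 + x ^ 2)⁻¹) 0 (by positivity : 0 < (2 * κ)⁻¹),
    mul_zero, integral_Ioi_inv_one_add_sq, Real.arctan_zero, smul_eq_mul]
  field_simp
  ring

end CompX

open CompX in
theorem t_comp (ha : S_cpa) (hb : S_cpb) : S_comp := by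
  intro κ hκ
  rw [(ha κ hκ).2]
  have hb' := hb (2 * κ) (by positivity)
  have h1 : ∫ A in Ioi (0 : ℝ),
      (1 - (Real.sin (A / 2) / (A / 2)) ^ 2) * (4 * κ / (4 * κ ^ 2 + A ^ 2)) =
      ∫ A in Ioi (0 : ℝ), (4 * κ / (4 * κ ^ 2 + A ^ 2) -
        8 * κ * ((1 - Real.cos A) / (A ^ 2 * ((2 * κ) ^ 2 + A ^ 2)))) :=
    setIntegral_congr_fun measurableSet_Ioi fun A hA => split κ A hA
  rw [h1, integral_sub (kernel_int κ hκ) (hb'.1.const_mul _), integral_const_mul, kernel_val κ hκ,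
    hb'.2]
  have hp : Real.pi ≠ 0 := Real.pi_ne_zero
  have e : -2 * κ = -(2 * κ) := by ring
  rw [e]
  field_simp
  ring

end Pool.Agent.NH13.WV
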