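import Pool.Agent.NH13.WV.Stm2

/-!
# Project WV (helper13), part cpa: the transform of the limit, by parts (helper30)
-/

set_option autoImplicit false

open Complex MeasureTheory Filter Topology Set
open scoped ComplexConjugate

namespace Pool.Agent.NH13.WV

namespace Cpa

/-- the derivative of `π * nl` -/
noncomputable def g (v : ℝ) : ℝ := 1 - (Real.sin (v / 2) / (v / 2)) ^ 2

/-- the primitive of the kernel -/
noncomputable def H (κ A : ℝ) : ℝ := 4 * κ / (4 * κ ^ 2 + A ^ 2)

theorem g_nonneg (v : ℝ) : 0 ≤ g v := by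
  unfold g
  have h : (Real.sin (v / 2) / (v / 2)) ^ 2 ≤ 1 := by
    rw [div_pow]
    exact div_le_one_of_le₀ Real.sin_sq_le_sq (sq_nonneg _)
  linarith

theorem g_le_one (v : ℝ) : g v ≤ 1 := by
  unfold g
  linarith [sq_nonneg (Real.sin (v / 2) / (v / 2))]

theorem g_meas : Measurable g := by
  unfold g
  fun_prop

theorem g_cont {v : ℝ} (hv : v ≠ 0) : ContinuousAt g v := by
  have h : v / 2 ≠ 0 := div_ne_zero hv two_ne_zero
  unfold g
  fun_prop (disch := assumption)

theorem H_nonneg {κ : ℝ} (hκ : 0 < κ) (A : ℝ) : 0 ≤ H κ A := by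
  unfold H
  positivity

theorem H_int {κ : ℝ} (hκ : 0 < κ) : Integrable (H κ) := by
  have h := (integrable_inv_one_add_sq.comp_div (by positivity : (2 * κ) ≠ 0)).const_mul (1 / κ)
  refine h.congr (Eventually.of_forall fun A => ?_)
  unfold H
  field_simp
  ring

theorem H_deriv {κ : ℝ} (hκ : 0 < κ) (A : ℝ) : HasDerivAt (H κ) (-(kk κ A)) A := by
  have h1 : HasDerivAt (fun A : ℝ => 4 * κ ^ 2 + A ^ 2) (2 * A) A := by
    simpa using (hasDerivAt_pow 2 A).const_add (4 * κ ^ 2)
  have h2 := (hasDerivAt_const A (4 * κ)).div h1 (by positivity)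
  refine h2.congr_deriv ?_
  unfold kk
  ring

theorem g_ii (a b : ℝ) : IntervalIntegrable g volume a b := by
  refine (intervalIntegrable_const (c := (1 : ℝ))).mono_fun' g_meas.aestronglyMeasurable ?_
  refine Eventually.of_forall fun v => ?_
  change ‖g v‖ ≤ 1
  rw [Real.norm_eq_abs, abs_of_nonneg (g_nonneg v)]
  exact g_le_one v

theorem nl_deriv {A : ℝ} (hA : 0 < A) : HasDerivAt nl (1 / Real.pi * g A) A := by
  have h := intervalIntegral.integral_hasDerivAt_right (g_ii 0 A)
    g_meas.stronglyMeasurable.stronglyMeasurableAtFilter (g_cont hA.ne')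
  exact (h.const_mul (1 / Real.pi)).const_add 1

theorem gH_int {κ : ℝ} (hκ : 0 < κ) : Integrable fun A => g A * H κ A := by
  refine (H_int hκ).mono' (g_meas.aestronglyMeasurable.mul (H_int hκ).1) ?_
  refine Eventually.of_forall fun A => ?_
  rw [norm_mul, Real.norm_eq_abs, Real.norm_eq_abs, abs_of_nonneg (g_nonneg A),
    abs_of_nonneg (H_nonneg hκ A)]
  exact mul_le_of_le_one_left (H_nonneg hκ A) (g_le_one A)

end Cpa

open Cpa in
theorem t_cpa (hn : S_nl) : S_cpa := by
  obtain ⟨hcont, -, h1, h2, hint⟩ := hn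
  intro κ hκ
  have hI : IntegrableOn (fun A => g A * H κ A) (Ioi (0 : ℝ)) := (gH_int hκ).integrableOn
  refine ⟨hI, ?_⟩
  have hlim : Tendsto (fun A => nl A * H κ A) atTop (𝓝 0) := by
    have h8 : Tendsto (fun A : ℝ => 8 * κ / A) atTop (𝓝 0) := tendsto_const_nhds.div_atTop tendsto_id
    refine squeeze_zero' ?_ ?_ h8
    · filter_upwards [eventually_ge_atTop 0] with A hA
      exact mul_nonneg (zero_le_one.trans (h1 A hA)) (H_nonneg hκ A)
    · filter_upwards [eventually_ge_atTop 1] with A hA
      have hA0 : 0 < A := by linarith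
      calc nl A * H κ A ≤ (2 * A) * (4 * κ / A ^ 2) := by
            refine mul_le_mul ((h2 A hA0.le).trans (by linarith)) ?_ (H_nonneg hκ A) (by positivity)
            unfold H
            refine div_le_div_of_nonneg_left (by positivity) (by positivity) ?_
            nlinarith [sq_nonneg κ]
        _ = 8 * κ / A := by
            field_simp
            ring
  have hF : ∀ A ∈ Ioi (0 : ℝ), HasDerivAt (fun A => nl A * H κ A)
      (1 / Real.pi * (g A * H κ A) - nl A * kk κ A) A := by
    intro A hA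
    refine ((nl_deriv hA).mul (H_deriv hκ A)).congr_deriv ?_
    ring
  have hint' : IntegrableOn (fun A => 1 / Real.pi * (g A * H κ A) - nl A * kk κ A) (Ioi (0 : ℝ)) :=
    (hI.const_mul (1 / Real.pi)).sub (hint κ hκ)
  have hc : ContinuousWithinAt (fun A => nl A * H κ A) (Ici 0) 0 :=
    (hcont.continuousAt.mul (H_deriv hκ 0).continuousAt).continuousWithinAt
  have hkey := integral_Ioi_of_hasDerivAt_of_tendsto hc hF hint' hlim
  rw [integral_sub (hI.const_mul (1 / Real.pi)) (hint κ hκ), integral_const_mul] at hkey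
  have h0 : nl 0 * H κ 0 = 1 / κ := by
    unfold nl H
    rw [intervalIntegral.integral_same]
    field_simp
    ring
  rw [h0] at hkey
  change _ = 1 / κ + 1 / Real.pi * ∫ A in Ioi (0 : ℝ), g A * H κ A
  linarith

end Pool.Agent.NH13.WV
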