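import Pool.Agent.NH13.WV.Stm2
import Pool.Agent.H506R3.MagB.M1

/-!
# A Fourier integral
-/

set_option autoImplicit false

open MeasureTheory Filter Topology Set

namespace Pool.Agent.NH13.WV

namespace Cpb

open Pool.Agent.H506R3.MagB

/-- the integral of `(1 - cos s) / (s ^ 2 + ε ^ 2)` -/
theorem reg (ε : ℝ) (hε : 0 < ε) :
    Integrable (fun s : ℝ => (1 - Real.cos s) / (s ^ 2 + ε ^ 2)) ∧
    ∫ s : ℝ, (1 - Real.cos s) / (s ^ 2 + ε ^ 2) = Real.pi / ε * (1 - Real.exp (-ε)) := by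
  have hb := int_base ε hε
  have h0 := ft_base ε hε 0
  have h1 := ft_base ε hε 1
  have i1 : Integrable (fun s : ℝ => ex (s * 1) * (((s : ℂ) ^ 2 + ε ^ 2)⁻¹)) := by
    refine hb.bdd_mul (c := 1) ?_ (Eventually.of_forall fun s => ?_)
    · exact (ex_cont.comp (by fun_prop)).aestronglyMeasurable
    · rw [norm_ex]
  have i0 : Integrable (fun s : ℝ => ex (s * 0) * (((s : ℂ) ^ 2 + ε ^ 2)⁻¹)) := by
    refine hb.congr (Eventually.of_forall fun s => ?_)
    simp [ex_zero]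
  have hpt : ∀ s : ℝ, RCLike.re (ex (s * 0) * (((s : ℂ) ^ 2 + ε ^ 2)⁻¹) -
        ex (s * 1) * (((s : ℂ) ^ 2 + ε ^ 2)⁻¹)) = (1 - Real.cos s) / (s ^ 2 + ε ^ 2) := by
    intro s
    rw [← sub_mul]
    have e : (((s : ℂ) ^ 2 + ε ^ 2)⁻¹) = (((s ^ 2 + ε ^ 2)⁻¹ : ℝ) : ℂ) := by push_cast; rfl
    rw [e]
    simp only [RCLike.re_to_complex, Complex.re_mul_ofReal, Complex.sub_re, ex_re, mul_zero,
      Real.cos_zero, mul_one]
    rw [div_eq_mul_inv]
  constructor
  · have h2 := (i0.sub i1).re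
    refine h2.congr (Eventually.of_forall fun s => ?_)
    exact hpt s
  · have h2 := integral_re (i0.sub i1) (𝕜 := ℂ)
    have h3 : ∫ s : ℝ, (1 - Real.cos s) / (s ^ 2 + ε ^ 2) =
        ∫ s : ℝ, RCLike.re (((fun s : ℝ => ex (s * 0) * (((s : ℂ) ^ 2 + ε ^ 2)⁻¹)) -
          (fun s : ℝ => ex (s * 1) * (((s : ℂ) ^ 2 + ε ^ 2)⁻¹))) s) := by
      refine integral_congr_ae (Eventually.of_forall fun s => ?_)
      exact (hpt s).symm
    rw [h3, h2, integral_sub' i0 i1, h0, h1]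
    rw [← Complex.ofReal_sub, RCLike.re_to_complex, Complex.ofReal_re]
    simp only [abs_zero, mul_zero, neg_zero, Real.exp_zero, mul_one, abs_one]
    ring

/-- the integral of `(1 - cos s) / s ^ 2` -/
theorem int0 : ∫ s : ℝ, (1 - Real.cos s) / s ^ 2 = Real.pi := by
  have hi := int_one_sub_cos 1
  have hle := int_one_sub_cos_le 1 zero_le_one
  simp only [mul_one] at hi hle
  refine le_antisymm hle ?_
  refine le_of_forall_pos_le_add fun δ hδ => ?_
  have hpi := Real.pi_pos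
  obtain ⟨ε, hε, hεδ⟩ : ∃ ε : ℝ, 0 < ε ∧ Real.pi * ε = δ := ⟨δ / Real.pi, by positivity, by field_simp⟩
  obtain ⟨h1, h2⟩ := reg ε hε
  have h3 : ∫ s : ℝ, (1 - Real.cos s) / (s ^ 2 + ε ^ 2) ≤ ∫ s : ℝ, (1 - Real.cos s) / s ^ 2 := by
    refine integral_mono h1 hi fun s => ?_
    have hc := Real.cos_le_one s
    by_cases hs : s = 0
    · subst hs
      simp
    · apply div_le_div_of_nonneg_left (by linarith) (by positivity)
      have : 0 ≤ ε ^ 2 := by positivity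
      linarith
  rw [h2] at h3
  have h4 : Real.exp (-ε) ≤ 1 / (1 + ε) := by
    rw [Real.exp_neg, ← one_div]
    apply one_div_le_one_div_of_le (by linarith)
    have := Real.add_one_le_exp ε
    linarith
  have h5 : Real.pi / (1 + ε) ≤ Real.pi / ε * (1 - Real.exp (-ε)) := by
    have h6 : ε / (1 + ε) ≤ 1 - Real.exp (-ε) := by
      have h7 : ε / (1 + ε) = 1 - 1 / (1 + ε) := by
        field_simp
        ring
      rw [h7]
      linarith
    have h8 : Real.pi / (1 + ε) = Real.pi / ε * (ε / (1 + ε)) := by field_simp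
    rw [h8]
    exact mul_le_mul_of_nonneg_left h6 (by positivity)
  have h9 : Real.pi ≤ (∫ s : ℝ, (1 - Real.cos s) / s ^ 2) * (1 + ε) := by
    rw [← div_le_iff₀ (by linarith)]
    exact h5.trans h3
  have h10 : (∫ s : ℝ, (1 - Real.cos s) / s ^ 2) * ε ≤ Real.pi * ε :=
    mul_le_mul_of_nonneg_right (hle) hε.le
  nlinarith

end Cpb

open Cpb Pool.Agent.H506R3.MagB in
theorem t_cpb : S_cpb := by
  intro c hc
  have hi := int_one_sub_cos 1
  simp only [mul_one] at hi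
  obtain ⟨h1, h2⟩ := reg c hc
  have hf : ∀ A : ℝ, (1 - Real.cos A) / (A ^ 2 * (c ^ 2 + A ^ 2)) =
      1 / c ^ 2 * ((1 - Real.cos A) / A ^ 2 - (1 - Real.cos A) / (A ^ 2 + c ^ 2)) := by
    intro A
    by_cases hA : A = 0
    · subst hA
      simp
    · have h3 : A ^ 2 + c ^ 2 ≠ 0 := by positivity
      have h4 : c ^ 2 + A ^ 2 ≠ 0 := by positivity
      field_simp
      ring
  have hI : Integrable (fun A : ℝ => (1 - Real.cos A) / (A ^ 2 * (c ^ 2 + A ^ 2))) := by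
    have h3 := (hi.sub h1).const_mul (1 / c ^ 2)
    refine h3.congr (Eventually.of_forall fun A => ?_)
    exact (hf A).symm
  refine ⟨hI.integrableOn, ?_⟩
  have h5 : ∫ A : ℝ, (1 - Real.cos A) / (A ^ 2 * (c ^ 2 + A ^ 2)) =
      1 / c ^ 2 * (Real.pi - Real.pi / c * (1 - Real.exp (-c))) := by
    rw [show (fun A : ℝ => (1 - Real.cos A) / (A ^ 2 * (c ^ 2 + A ^ 2))) = fun A : ℝ =>
      1 / c ^ 2 * ((1 - Real.cos A) / A ^ 2 - (1 - Real.cos A) / (A ^ 2 + c ^ 2)) from funext hf]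
    rw [integral_const_mul, integral_sub hi h1, int0, h2]
  have h6 := integral_comp_abs (f := fun A : ℝ => (1 - Real.cos A) / (A ^ 2 * (c ^ 2 + A ^ 2)))
  simp only [Real.cos_abs, sq_abs] at h6
  rw [h5] at h6
  have h7 : ∫ A in Ioi (0 : ℝ), (1 - Real.cos A) / (A ^ 2 * (c ^ 2 + A ^ 2)) =
      1 / c ^ 2 * (Real.pi - Real.pi / c * (1 - Real.exp (-c))) / 2 := by
    linarith
  rw [h7]
  field_simp

end Pool.Agent.NH13.WV
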