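import Pool.Agent.NH13.WV.Stm2
import Pool.Agent.Helper380.B3

/-!
# Project WV: analyticity of the mean square of `L'/L`
-/

set_option autoImplicit false

open Complex MeasureTheory Filter Topology Set
open scoped ComplexConjugate

namespace Pool.Agent.NH13.WV

open Pool.Agent.NH13.UV

namespace Fa

/-- the integrand -/
noncomputable def H (F : ℂ → ℂ) (w : ℂ) (t : ℝ) : ℂ :=
  F (w / 2 + t * I) * conj (F (conj (w / 2 - t * I))) /
    ((1 / 2 + w / 2 + t * I) * (1 / 2 + w / 2 - t * I))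

theorem H_real (F : ℂ → ℂ) (w : ℝ) (t : ℝ) :
    H F w t = ((‖F (pt (w / 2) t)‖ ^ 2 * wt (w / 2) t : ℝ) : ℂ) := by
  have e1 : (w : ℂ) / 2 + t * I = pt (w / 2) t := by
    unfold pt
    push_cast
    ring
  have c2 : conj (2 : ℂ) = 2 := by simpa using Complex.conj_ofReal 2
  have e2 : conj ((w : ℂ) / 2 - t * I) = pt (w / 2) t := by
    unfold pt
    rw [map_sub, map_div₀, map_mul, Complex.conj_ofReal, Complex.conj_ofReal, Complex.conj_I, c2]
    push_cast
    ring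
  unfold H wt
  rw [e1, e2, Complex.mul_conj, Complex.normSq_eq_norm_sq]
  push_cast
  rw [div_eq_mul_one_div]
  congr 2
  have : (I : ℂ) ^ 2 = -1 := Complex.I_sq
  linear_combination (-(t : ℂ) ^ 2) * this

theorem far {w : ℂ} (hw : 0 < w.re) {M : ℝ} (hM : ‖w‖ ≤ M) (t : ℝ) (z : ℂ)
    (hz : z = 1 / 2 + w / 2 + t * I ∨ z = 1 / 2 + w / 2 - t * I) :
    (1 + |t|) / (4 + 2 * M) ≤ ‖z‖ := by
  have hM0 : 0 ≤ M := (norm_nonneg w).trans hM
  have hre : (1 / 2 : ℝ) ≤ z.re := by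
    rcases hz with rfl | rfl
    · simp
      linarith
    · simp
      linarith
  have h1 : (1 / 2 : ℝ) ≤ ‖z‖ := hre.trans (Complex.re_le_norm z)
  have h2 : |t| ≤ ‖z‖ + 1 / 2 + ‖w‖ / 2 := by
    have hn : |t| = ‖(t : ℂ) * I‖ := by
      rw [norm_mul, Complex.norm_I, mul_one, Complex.norm_real, Real.norm_eq_abs]
    have hhalf : ‖(1 / 2 : ℂ)‖ = 1 / 2 := by norm_num
    have hwn : ‖w / 2‖ = ‖w‖ / 2 := by rw [norm_div]; norm_num
    rcases hz with rfl | rfl
    · have e : (t : ℂ) * I = (1 / 2 + w / 2 + t * I) - 1 / 2 - w / 2 := by ring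
      rw [hn]
      calc ‖(t : ℂ) * I‖ = ‖(1 / 2 + w / 2 + t * I) - 1 / 2 - w / 2‖ := by rw [← e]
        _ ≤ ‖(1 / 2 + w / 2 + t * I) - 1 / 2‖ + ‖w / 2‖ := norm_sub_le _ _
        _ ≤ ‖(1 / 2 + w / 2 + t * I)‖ + ‖(1 / 2 : ℂ)‖ + ‖w / 2‖ := by
            gcongr
            exact norm_sub_le _ _
        _ = _ := by rw [hhalf, hwn]
    · have e : (t : ℂ) * I = 1 / 2 + w / 2 - (1 / 2 + w / 2 - t * I) := by ring
      rw [hn]
      calc ‖(t : ℂ) * I‖ = ‖1 / 2 + w / 2 - (1 / 2 + w / 2 - t * I)‖ := by rw [← e]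
        _ ≤ ‖1 / 2 + w / 2‖ + ‖(1 / 2 + w / 2 - t * I)‖ := norm_sub_le _ _
        _ ≤ ‖(1 / 2 : ℂ)‖ + ‖w / 2‖ + ‖(1 / 2 + w / 2 - t * I)‖ := by
            gcongr
            exact norm_add_le _ _
        _ = _ := by rw [hhalf, hwn]; ring
  rw [div_le_iff₀ (by positivity)]
  nlinarith [mul_le_mul_of_nonneg_right h1 hM0]

theorem log_bd {M : ℝ} (hM : 0 ≤ M) (t : ℝ) {z : ℂ} (hz : ‖z‖ ≤ M + |t|) :
    Real.log (2 + ‖z‖) ≤ 4 * ((2 + M) * (1 + |t|)) ^ (1 / 4 : ℝ) := by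
  have ht := abs_nonneg t
  have h1 : 2 + ‖z‖ ≤ (2 + M) * (1 + |t|) := by nlinarith [mul_nonneg hM ht]
  calc Real.log (2 + ‖z‖) ≤ Real.log ((2 + M) * (1 + |t|)) :=
        Real.log_le_log (by positivity) h1
    _ ≤ ((2 + M) * (1 + |t|)) ^ (1 / 4 : ℝ) / (1 / 4) :=
        Real.log_le_rpow_div (by positivity) (by norm_num)
    _ = _ := by ring

/-- the majorant -/
theorem H_bd {F : ℂ → ℂ} {x C M : ℝ} (hC : 0 < C) (hF : ∀ z : ℂ, x ≤ z.re →
    ‖F z‖ ≤ C * Real.log (2 + ‖z‖)) {w : ℂ} (hw : 0 < w.re) (hx : 2 * x ≤ w.re) (hM : ‖w‖ ≤ M)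
    (t : ℝ) : ‖H F w t‖ ≤ 16 * C ^ 2 * (2 + M) ^ (1 / 2 : ℝ) * (4 + 2 * M) ^ 2 *
      (1 + ‖t‖) ^ (-(3 / 2) : ℝ) := by
  have hM0 : 0 ≤ M := (norm_nonneg w).trans hM
  have ht := abs_nonneg t
  have hn : ‖(t : ℂ) * I‖ = |t| := by
    rw [norm_mul, Complex.norm_I, mul_one, Complex.norm_real, Real.norm_eq_abs]
  have hwn : ‖w / 2‖ ≤ M := by
    rw [norm_div, Complex.norm_ofNat]
    have := norm_nonneg w
    linarith
  set u : ℝ := ((2 + M) * (1 + |t|)) ^ (1 / 4 : ℝ) with hu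
  have hu0 : 0 ≤ u := by positivity
  have b1 : ‖F (w / 2 + t * I)‖ ≤ C * (4 * u) := by
    refine (hF _ ?_).trans (mul_le_mul_of_nonneg_left (log_bd hM0 t ?_) hC.le)
    · simp
      linarith
    · exact (norm_add_le _ _).trans (by rw [hn]; gcongr)
  have b2 : ‖conj (F (conj (w / 2 - t * I)))‖ ≤ C * (4 * u) := by
    rw [Complex.norm_conj]
    refine (hF _ ?_).trans (mul_le_mul_of_nonneg_left (log_bd hM0 t ?_) hC.le)
    · rw [Complex.conj_re]
      simp
      linarith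
    · rw [Complex.norm_conj]
      exact (norm_sub_le _ _).trans (by rw [hn]; gcongr)
  have d1 := far hw hM t _ (Or.inl rfl)
  have d2 := far hw hM t _ (Or.inr rfl)
  have hd : 0 < (1 + |t|) / (4 + 2 * M) := by positivity
  have huu : u * u = (2 + M) ^ (1 / 2 : ℝ) * (1 + |t|) ^ (1 / 2 : ℝ) := by
    rw [hu, ← Real.rpow_add (by positivity), ← Real.mul_rpow (by positivity) (by positivity)]
    norm_num
  unfold H
  rw [norm_div, norm_mul, norm_mul (1 / 2 + w / 2 + t * I)]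
  calc ‖F (w / 2 + t * I)‖ * ‖conj (F (conj (w / 2 - t * I)))‖ /
        (‖1 / 2 + w / 2 + t * I‖ * ‖1 / 2 + w / 2 - t * I‖)
      ≤ (C * (4 * u)) * (C * (4 * u)) /
        ((1 + |t|) / (4 + 2 * M) * ((1 + |t|) / (4 + 2 * M))) := by gcongr
    _ = 16 * C ^ 2 * (4 + 2 * M) ^ 2 * (u * u) / (1 + |t|) ^ 2 := by
        field_simp
        ring
    _ = 16 * C ^ 2 * (2 + M) ^ (1 / 2 : ℝ) * (4 + 2 * M) ^ 2 *
        ((1 + |t|) ^ (1 / 2 : ℝ) / (1 + |t|) ^ 2) := by
        rw [huu]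
        ring
    _ = _ := by
        rw [Real.norm_eq_abs]
        congr 1
        rw [← Real.rpow_natCast (1 + |t|) 2, ← Real.rpow_sub (by positivity)]
        norm_num

theorem F_diff {q : ℕ} [NeZero q] {χ : DirichletCharacter ℂ q} (hχ : χ ≠ 1)
    (h0 : ∀ s : ℂ, 1 / 2 < s.re → DirichletCharacter.LFunction χ s ≠ 0) {z : ℂ} (hz : 0 < z.re) :
    DifferentiableAt ℂ (fun z => LD χ (1 / 2 + z)) z := by
  have hL : Differentiable ℂ (DirichletCharacter.LFunction χ) :=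
    DirichletCharacter.differentiable_LFunction hχ
  have h1 : AnalyticAt ℂ (DirichletCharacter.LFunction χ) (1 / 2 + z) := hL.analyticAt _
  have h2 : AnalyticAt ℂ (LD χ) (1 / 2 + z) := by
    have h3 := h1.deriv.div h1 (h0 _ (by simp; linarith))
    exact h3
  have h4 : DifferentiableAt ℂ (LD χ) (1 / 2 + z) := h2.differentiableAt
  exact h4.comp z (by fun_prop)

/-- the integral is holomorphic -/
theorem Phi_diff {F : ℂ → ℂ} (hd : ∀ z : ℂ, 0 < z.re → DifferentiableAt ℂ F z)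
    (hF : ∀ x : ℝ, 0 < x → ∃ C : ℝ, 0 < C ∧ ∀ z : ℂ, x ≤ z.re →
      ‖F z‖ ≤ C * Real.log (2 + ‖z‖)) {w : ℂ} (hw : 0 < w.re) :
    DifferentiableAt ℂ (fun w => ∫ t : ℝ, H F w t) w := by
  obtain ⟨C, hC, hb⟩ := hF (w.re / 4) (by linarith)
  have hball : ∀ v ∈ Metric.ball w (w.re / 2), w.re / 2 < v.re ∧ ‖v‖ ≤ ‖w‖ + w.re := by
    intro v hv
    rw [Metric.mem_ball, dist_eq_norm] at hv
    constructor
    · have h1 := (Complex.abs_re_le_norm (v - w)).trans_lt hv
      rw [Complex.sub_re] at h1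
      have := (abs_lt.1 h1).1
      linarith
    · have h1 : ‖v‖ ≤ ‖w‖ + ‖v - w‖ := by
        calc ‖v‖ = ‖w + (v - w)‖ := by rw [add_sub_cancel]
          _ ≤ _ := norm_add_le _ _
      linarith
  have hden : ∀ v : ℂ, 0 < v.re → ∀ t : ℝ,
      (1 / 2 + v / 2 + t * I) * (1 / 2 + v / 2 - t * I) ≠ 0 := by
    intro v hv t
    refine mul_ne_zero ?_ ?_
    · intro h
      have := congrArg Complex.re h
      simp at this
      linarith
    · intro h
      have := congrArg Complex.re h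
      simp at this
      linarith
  have hG : ∀ z : ℂ, 0 < z.re → DifferentiableAt ℂ (fun z => conj (F (conj z))) z := by
    intro z hz
    have h1 : DifferentiableAt ℂ F (conj z) := hd _ (by simpa using hz)
    have h2 := h1.conj_conj
    rw [Complex.conj_conj] at h2
    exact h2
  have hHd : ∀ v : ℂ, 0 < v.re → ∀ t : ℝ, DifferentiableAt ℂ (fun v => H F v t) v := by
    intro v hv t
    unfold H
    refine DifferentiableAt.div (DifferentiableAt.mul ?_ ?_) (by fun_prop) (hden v hv t)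
    · exact (hd (v / 2 + t * I) (by simp; linarith)).comp v (by fun_prop)
    · exact (hG (v / 2 - t * I) (by simp; linarith)).comp v
        (f := fun v : ℂ => v / 2 - t * I) (by fun_prop)
  have hHc : ∀ v : ℂ, 0 < v.re → Continuous (fun t : ℝ => H F v t) := by
    intro v hv
    unfold H
    refine Continuous.div (Continuous.mul ?_ ?_) (by fun_prop) (hden v hv)
    · rw [continuous_iff_continuousAt]
      intro t
      exact ContinuousAt.comp (f := fun t : ℝ => v / 2 + t * I) (g := F)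
        (hd (v / 2 + t * I) (by simp; linarith)).continuousAt (by fun_prop)
    · rw [continuous_iff_continuousAt]
      intro t
      exact ContinuousAt.comp (f := fun t : ℝ => v / 2 - t * I) (g := fun z => conj (F (conj z)))
        (hG (v / 2 - t * I) (by simp; linarith)).continuousAt (by fun_prop)
  refine Pool.Agent.Helper380.B3.differentiableAt_integral (δ := w.re / 2) (by linarith)
    (bound := fun t => 16 * C ^ 2 * (2 + (‖w‖ + w.re)) ^ (1 / 2 : ℝ) *
      (4 + 2 * (‖w‖ + w.re)) ^ 2 * (1 + ‖t‖) ^ (-(3 / 2) : ℝ)) ?_ ?_ ?_ ?_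
  · refine Eventually.of_forall fun t v hv => ?_
    exact (hHd v (by linarith [(hball v hv).1]) t).differentiableWithinAt
  · intro v hv
    exact (hHc v (by linarith [(hball v hv).1])).aestronglyMeasurable
  · refine Eventually.of_forall fun t v hv => ?_
    obtain ⟨h1, h2⟩ := hball v hv
    exact H_bd hC hb (by linarith) (by linarith) h2 t
  · refine Integrable.const_mul ?_ _
    have := integrable_one_add_norm (E := ℝ) (μ := volume) (r := 3 / 2) (by simp; norm_num)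
    exact this

end Fa

theorem t_Fa (hL : S_Lg) : S_Fa := by
  intro q _ χ hχ h0 w hw
  set F : ℂ → ℂ := fun z => LD χ (1 / 2 + z) with hFdef
  have hd : ∀ z : ℂ, 0 < z.re → DifferentiableAt ℂ F z := fun z hz => Fa.F_diff hχ h0 hz
  have hF := hL q χ hχ h0
  have hopen : IsOpen {z : ℂ | 0 < z.re} := isOpen_lt continuous_const Complex.continuous_re
  have hPhi : AnalyticAt ℂ (fun w => ∫ t : ℝ, Fa.H F w t) (w : ℂ) := by
    refine DifferentiableOn.analyticAt (s := {z : ℂ | 0 < z.re}) (fun z hz => ?_)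
      (hopen.mem_nhds (by simpa using hw))
    exact (Fa.Phi_diff hd hF hz).differentiableWithinAt
  have h1 : AnalyticAt ℝ (fun w : ℝ => (∫ t : ℝ, Fa.H F w t).re) w := hPhi.re_ofReal
  have h2 : AnalyticAt ℝ (fun w : ℝ => 1 / (2 * Real.pi) * (∫ t : ℝ, Fa.H F w t).re) w :=
    analyticAt_const.mul h1
  refine h2.congr (Eventually.of_forall fun v => ?_)
  have e : (∫ t : ℝ, Fa.H F v t) =
      ((∫ t : ℝ, ‖LD χ (1 / 2 + pt (v / 2) t)‖ ^ 2 * wt (v / 2) t : ℝ) : ℂ) := by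
    refine Eq.trans (integral_congr_ae (Eventually.of_forall fun t => Fa.H_real F v t)) ?_
    exact integral_ofReal (𝕜 := ℂ)
  unfold gL
  simp only
  rw [e, Complex.ofReal_re]

end Pool.Agent.NH13.WV
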