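import Pool.Agent.NH13.WV.Stm2
import Pool.Agent.TH988.RB.Lan

/-!
# Project WV, part Fi: finiteness of the mean squares under RH for one character (Landau)
-/

set_option autoImplicit false

open Complex MeasureTheory Filter Topology Set
open scoped ComplexConjugate

namespace Pool.Agent.NH13.WV

open Pool.Agent.NH13.UV

namespace FiP

lemma exp_image : Real.exp '' (Ioi 0) = Ioi 1 := by
  ext u
  constructor
  · rintro ⟨v, hv, rfl⟩
    exact Real.one_lt_exp_iff.2 hv
  · intro hu
    have h0 : (0 : ℝ) < u := lt_trans one_pos hu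
    exact ⟨Real.log u, Real.log_pos hu, Real.exp_log h0⟩

lemma int_exp {E : Type*} [NormedAddCommGroup E] [NormedSpace ℝ E] (G : ℝ → E) :
    ∫ u in Ioi (1 : ℝ), G u = ∫ v in Ioi (0 : ℝ), Real.exp v • G (Real.exp v) := by
  rw [← exp_image, integral_image_eq_integral_abs_deriv_smul measurableSet_Ioi
    (fun x _ => (Real.hasDerivAt_exp x).hasDerivWithinAt) Real.exp_injective.injOn]
  refine integral_congr_ae (Filter.Eventually.of_forall fun v => ?_)
  simp only [Real.abs_exp]

lemma intble_exp {E : Type*} [NormedAddCommGroup E] [NormedSpace ℝ E] (G : ℝ → E) :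
    IntegrableOn G (Ioi (1 : ℝ)) ↔
      IntegrableOn (fun v => Real.exp v • G (Real.exp v)) (Ioi (0 : ℝ)) := by
  rw [← exp_image, integrableOn_image_iff_integrableOn_abs_deriv_smul measurableSet_Ioi
    (fun x _ => (Real.hasDerivAt_exp x).hasDerivWithinAt) Real.exp_injective.injOn]
  simp only [Real.abs_exp]

lemma meas_psi {q : ℕ} (χ : DirichletCharacter ℂ q) : Measurable (psi χ) := by
  have h : psi χ = (fun n : ℕ => ∑ n ∈ Finset.Icc 1 n,
      (ArithmeticFunction.vonMangoldt n : ℂ) * χ (n : ZMod q)) ∘ (fun x : ℝ => ⌊x⌋₊) := rfl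
  rw [h]
  exact (measurable_from_top).comp Nat.measurable_floor

lemma norm_psi_le {q : ℕ} (χ : DirichletCharacter ℂ q) {u : ℝ} (hu : 0 ≤ u) :
    ‖psi χ u‖ ≤ (Real.log 4 + 4) * u := by
  refine le_trans ?_ (Chebyshev.psi_le_const_mul_self hu)
  unfold psi Chebyshev.psi
  refine (norm_sum_le _ _).trans ?_
  have hI : Finset.Icc 1 ⌊u⌋₊ = Finset.Ioc 0 ⌊u⌋₊ := by
    ext n
    simp only [Finset.mem_Icc, Finset.mem_Ioc]
    omega
  rw [hI]
  refine Finset.sum_le_sum fun n _ => ?_
  rw [norm_mul, Complex.norm_real, Real.norm_of_nonneg ArithmeticFunction.vonMangoldt_nonneg]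
  exact mul_le_of_le_one_right ArithmeticFunction.vonMangoldt_nonneg (χ.norm_le_one _)

end FiP

open FiP

open Pool.Agent.W263.BSD in
theorem t_Fi (hP : S_Pl) (ha : S_Fa) : S_Fi := by
  intro q _ χ hχ hRH x0 hx0
  set G : ℝ → ℝ → ℝ := fun w u => ‖psi χ u‖ ^ 2 * u ^ (-2 - w) with hG
  set f : ℝ → ℝ := fun v => ‖psi χ (Real.exp v)‖ ^ 2 * Real.exp (-v) with hf
  have hfm : Measurable f := by
    rw [hf]
    exact (((meas_psi χ).comp Real.measurable_exp).norm.pow_const 2).mul
      (Real.measurable_exp.comp measurable_neg)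
  have hf0 : ∀ v, 0 < v → 0 ≤ f v := fun v _ => mul_nonneg (sq_nonneg _) (Real.exp_pos _).le
  have hGf : ∀ w v : ℝ, Real.exp v • G w (Real.exp v) = f v * Real.exp (-(w * v)) := by
    intro w v
    simp only [hG, hf, smul_eq_mul]
    rw [← Real.exp_mul, mul_left_comm, ← Real.exp_add, mul_assoc, ← Real.exp_add]
    congr 2
    ring
  have hGm : ∀ w, Measurable (G w) := by
    intro w
    exact ((meas_psi χ).norm.pow_const 2).mul (measurable_id.pow_const _)
  have hG0 : ∀ w u, 1 < u → 0 ≤ G w u := by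
    intro w u hu
    exact mul_nonneg (sq_nonneg _) (Real.rpow_nonneg (by linarith) _)
  have hLI : ∀ w, LInt f w ↔ IntegrableOn (G w) (Ioi 1) := by
    intro w
    rw [intble_exp, LInt]
    simp only [hGf]
  have hlap : ∀ w, lap f w = ∫ u in Ioi (1 : ℝ), G w u := by
    intro w
    rw [int_exp, lap]
    simp only [hGf]
  have hfin : ∀ w, IntegrableOn (G w) (Ioi 1) →
      (∫⁻ u in Ioi (1 : ℝ), ENNReal.ofReal (G w u)) < ⊤ := by
    intro w hw
    have h1 := hw.2
    rw [hasFiniteIntegral_iff_ofReal] at h1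
    · exact h1
    · rw [Filter.EventuallyLE, ae_restrict_iff' measurableSet_Ioi]
      exact Filter.Eventually.of_forall fun u hu => hG0 w u hu
  -- convergence for large `w`
  have hlarge : ∀ w : ℝ, 1 < w → IntegrableOn (G w) (Ioi 1) := by
    intro w hw
    have h1 : IntegrableOn (fun u : ℝ => (Real.log 4 + 4) ^ 2 * u ^ (-w)) (Ioi 1) :=
      (integrableOn_Ioi_rpow_of_lt (by linarith) one_pos).const_mul _
    refine Integrable.mono' h1 (hGm w).aestronglyMeasurable ?_
    rw [ae_restrict_iff' measurableSet_Ioi]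
    refine Filter.Eventually.of_forall fun u hu => ?_
    have hu0 : (0 : ℝ) < u := lt_trans one_pos hu
    rw [Real.norm_of_nonneg (hG0 w u hu)]
    have h2 : ‖psi χ u‖ ^ 2 ≤ ((Real.log 4 + 4) * u) ^ 2 :=
      pow_le_pow_left₀ (norm_nonneg _) (norm_psi_le χ hu0.le) 2
    calc G w u ≤ ((Real.log 4 + 4) * u) ^ 2 * u ^ (-2 - w) :=
          mul_le_mul_of_nonneg_right h2 (Real.rpow_nonneg hu0.le _)
      _ = (Real.log 4 + 4) ^ 2 * u ^ (-w) := by
          rw [mul_pow, mul_assoc, ← Real.rpow_natCast u 2, ← Real.rpow_add hu0]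
          congr 2
          push_cast
          ring
  have hlarge2 : ∀ w : ℝ, 1 < w → ∫ u in Ioi (1 : ℝ), G w u = gL χ w := by
    intro w hw
    have h1 := hfin ((w + 1) / 2) (hlarge ((w + 1) / 2) (by linarith))
    have h2 : (∫⁻ u in Ioi (1 : ℝ), ENNReal.ofReal (‖psi χ u‖ ^ 2 * u ^ (-2 - 2 * ((w + 1) / 4))))
        < ⊤ := by
      have e : (2 : ℝ) * ((w + 1) / 4) = (w + 1) / 2 := by ring
      rw [e]
      exact h1
    have h3 := (hP q χ hχ ((w + 1) / 4) (by linarith) h2 (w / 2) (by linarith)).2.2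
    have e : (2 : ℝ) * (w / 2) = w := by ring
    rw [e] at h3
    exact h3
  -- Landau
  have hmain := (Pool.Agent.TH988.RB.landau_lap hfm hf0 (a := 0) (w1 := 1)
    (fun w hw => (hLI w).2 (hlarge w hw)) (g := gL χ) (fun w hw => ha q χ hχ hRH w hw)
    (fun w hw _ => by rw [hlap, hlarge2 w hw])).1
  exact hfin (2 * x0) ((hLI _).1 (hmain (2 * x0) (by linarith)))

end Pool.Agent.NH13.WV
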