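import Pool.Agent.NH13.WV.Stm2
import Pool.Agent.NH13.UV.HDq
import Pool.Agent.NH13.UV.YH

/-! Project WV, job WV-1: the structure `HD` with explicit zeros (helper68, after the files `HDq` of helper86
and `YH`). -/

set_option autoImplicit false

open Complex MeasureTheory Filter Topology Set
open scoped ComplexConjugate

namespace Pool.Agent.NH13.WV

open Pool.Agent.NH13.UV

namespace HDX68

/-- from an entire function to the structure `HD`, with explicit zeros -/
lemma t_Yx (h : S_PFC) (Y : ℂ → ℂ) (h' : ℝ) (hY : Differentiable ℂ Y)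
    (hs : ∀ z, Y (-(conj z)) = conj (Y z)) (hgr : Gr Y) (h0 : 0 ≤ h') (h1 : h' ≤ 1 / 2)
    (hz : ∀ s, Y s = 0 → |s.re| ≤ h')
    (hg : ∃ C : ℝ, ∀ z : ℂ, 1 ≤ z.re → ‖logDeriv Y z‖ ≤ C * Real.log (2 + ‖z‖)) :
    HD (logDeriv Y) h' {a : ℂ // Y a = 0} Subtype.val
      (fun i => analyticOrderNatAt Y (i : ℂ)) := by
  have hne : ∀ z : ℂ, h' < z.re → Y z ≠ 0 := by
    intro z hz1 hz2
    have h3 := hz z hz2
    have h4 := le_abs_self z.re
    linarith
  have hP := h Y hY hs hgr (fun s hs' => (hz s hs').trans h1)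
  have hsym : ∀ a : ℂ, Y a = 0 → Y (-(conj a)) = 0 := fun a ha => by rw [hs, ha, map_zero]
  obtain ⟨e, he⟩ : ∃ e : {a : ℂ // Y a = 0} ≃ {a : ℂ // Y a = 0},
      ∀ i, ((e i : {a : ℂ // Y a = 0}) : ℂ) = -(conj (i : ℂ)) :=
    ⟨⟨fun a => ⟨-(conj (a : ℂ)), hsym _ a.2⟩, fun a => ⟨-(conj (a : ℂ)), hsym _ a.2⟩,
      fun a => Subtype.ext (by simp), fun a => Subtype.ext (by simp)⟩, fun i => rfl⟩
  have hord : ∀ i, analyticOrderNatAt Y ((e i : {a : ℂ // Y a = 0}) : ℂ) =
      analyticOrderNatAt Y (i : ℂ) := by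
    intro i
    rw [he]
    unfold analyticOrderNatAt
    rw [yh.order_rf hY hs]
  refine ⟨h0, h1, fun i => hz _ i.2, ⟨e, fun i => ⟨he i, hord i⟩⟩, ?_, ?_, ?_, hg⟩
  · intro z w hz1 hw1
    exact hP z w (hne z hz1) (hne w hw1)
  · intro z hz1
    have hw : Y (-(conj z)) ≠ 0 := by
      rw [hs]
      exact (map_ne_zero_iff _ (starRingEnd ℂ).injective).2 (hne z hz1)
    have h2 := hP z (-(conj z)) (hne z hz1) hw
    rw [yh.logDeriv_rf hY hs] at h2
    have h3 := Complex.reCLM.hasSum h2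
    obtain ⟨r, hr⟩ : ∃ r : {a : ℂ // Y a = 0} → ℝ, ∀ i, r i = (1 / (z - (i : ℂ))).re :=
      ⟨fun i => (1 / (z - (i : ℂ))).re, fun i => rfl⟩
    have hr0 : ∀ i, 0 ≤ r i := by
      intro i
      rw [hr, one_div, Complex.inv_re]
      refine div_nonneg ?_ (Complex.normSq_nonneg _)
      rw [Complex.sub_re]
      have h4 := hz _ i.2
      have h5 := le_abs_self (i : ℂ).re
      linarith
    have hre : ∀ i : {a : ℂ // Y a = 0}, (1 / (-(conj z) - (i : ℂ))).re = -r (e i) := by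
      intro i
      rw [hr, he]
      have h6 : (1 : ℂ) / (-(conj z) - (i : ℂ)) = -(conj (1 / (z - -(conj (i : ℂ))))) := by
        rw [map_div₀, map_one, map_sub, map_neg, Complex.conj_conj, ← div_neg]
        congr 1
        ring
      rw [h6, Complex.neg_re, Complex.conj_re]
    have h7 : HasSum (fun i : {a : ℂ // Y a = 0} =>
        (analyticOrderNatAt Y (i : ℂ) : ℝ) * r i + (analyticOrderNatAt Y (i : ℂ) : ℝ) * r (e i))
        (2 * (logDeriv Y z).re) := by
      have h8 : (Complex.reCLM (logDeriv Y z - -(conj (logDeriv Y z)))) = 2 * (logDeriv Y z).re := by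
        rw [Complex.reCLM_apply, Complex.sub_re, Complex.neg_re, Complex.conj_re]
        ring
      rw [h8] at h3
      refine h3.congr_fun ?_
      intro i
      rw [Complex.reCLM_apply]
      have h9 : ((analyticOrderNatAt Y (i : ℂ) : ℕ) : ℂ) =
          (((analyticOrderNatAt Y (i : ℂ) : ℕ) : ℝ) : ℂ) := by push_cast; rfl
      rw [h9, Complex.re_ofReal_mul, Complex.sub_re, hre, ← hr]
      ring
    have hs1 : Summable (fun i : {a : ℂ // Y a = 0} => (analyticOrderNatAt Y (i : ℂ) : ℝ) * r i) :=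
      Summable.of_nonneg_of_le (fun i => mul_nonneg (Nat.cast_nonneg _) (hr0 i))
        (fun i => le_add_of_nonneg_right (mul_nonneg (Nat.cast_nonneg _) (hr0 (e i)))) h7.summable
    have hs2 := hs1.hasSum
    have hs3 := (Equiv.hasSum_iff e).2 hs2
    have hs4 : HasSum (fun i : {a : ℂ // Y a = 0} =>
        (analyticOrderNatAt Y (i : ℂ) : ℝ) * r (e i))
        (∑' i : {a : ℂ // Y a = 0}, (analyticOrderNatAt Y (i : ℂ) : ℝ) * r i) := by
      refine hs3.congr_fun ?_
      intro i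
      simp only [Function.comp_apply]
      rw [hord]
    have h10 := (hs2.add hs4).unique h7
    have h11 : (∑' i : {a : ℂ // Y a = 0}, (analyticOrderNatAt Y (i : ℂ) : ℝ) * r i) =
        (logDeriv Y z).re := by linarith
    rw [h11] at hs2
    refine hs2.congr_fun ?_
    intro i
    rw [hr]
  · intro z hz1
    have h3 : DifferentiableAt ℂ (logDeriv Y) z := by
      have h4 : DifferentiableAt ℂ (deriv Y) z := (hY.analyticAt z).deriv.differentiableAt
      exact h4.div (hY z) (hne z hz1)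
    exact h3.differentiableWithinAt

/-- transport of the structure `HD` -/
lemma transport {B : ℂ → ℂ} {h : ℝ} {ι κ : Type} {a : ι → ℂ} {m : ι → ℕ} (H : HD B h ι a m)
    (e : κ ≃ ι) {a' : κ → ℂ} {m' : κ → ℕ} (ha : ∀ k, a (e k) = a' k) (hm : ∀ k, m (e k) = m' k) :
    HD B h κ a' m' := by
  obtain rfl : (fun k => a (e k)) = a' := funext ha
  obtain rfl : (fun k => m (e k)) = m' := funext hm
  refine ⟨H.h0, H.h1, fun k => H.strip (e k), ?_, ?_, ?_, H.diff, H.gr⟩
  · obtain ⟨f, hf⟩ := H.sym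
    refine ⟨(e.trans f).trans e.symm, fun k => ?_⟩
    simp only [Equiv.trans_apply, Equiv.apply_symm_apply]
    exact hf (e k)
  · intro z w hz hw
    exact (Equiv.hasSum_iff e).2 (H.sum z w hz hw)
  · intro z hz
    exact (Equiv.hasSum_iff e).2 (H.re z hz)

/-- the inverse of the factor of the functional equation -/
lemma gam {r : ℕ} [NeZero r] (χ : DirichletCharacter ℂ r) :
    Differentiable ℂ (fun s => (χ.gammaFactor s)⁻¹) ∧
      ∀ s : ℂ, 0 < s.re → (χ.gammaFactor s)⁻¹ ≠ 0 := by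
  rcases χ.even_or_odd with h | h
  · refine ⟨?_, fun s hs => ?_⟩
    · have e : (fun s => (χ.gammaFactor s)⁻¹) = fun s => (Gammaℝ s)⁻¹ := by
        funext s
        rw [h.gammaFactor_def]
      rw [e]
      exact differentiable_Gammaℝ_inv
    · rw [h.gammaFactor_def]
      exact inv_ne_zero (Gammaℝ_ne_zero_of_re_pos hs)
  · refine ⟨?_, fun s hs => ?_⟩
    · have e : (fun s => (χ.gammaFactor s)⁻¹) = fun s => (Gammaℝ (s + 1))⁻¹ := by
        funext s
        rw [h.gammaFactor_def]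
      rw [e]
      exact differentiable_Gammaℝ_inv.comp (differentiable_id.add_const 1)
    · rw [h.gammaFactor_def]
      refine inv_ne_zero (Gammaℝ_ne_zero_of_re_pos ?_)
      rw [Complex.add_re, Complex.one_re]
      linarith

/-- the Euler factors -/
lemma eul {r : ℕ} (χ : DirichletCharacter ℂ r) (q : ℕ) :
    Differentiable ℂ (fun s : ℂ => ∏ p ∈ q.primeFactors, (1 - χ (p : ZMod r) * (p : ℂ) ^ (-s))) ∧
      ∀ s : ℂ, 0 < s.re → ∏ p ∈ q.primeFactors, (1 - χ (p : ZMod r) * (p : ℂ) ^ (-s)) ≠ 0 := by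
  refine ⟨?_, fun s hs => ?_⟩
  · refine Differentiable.fun_finsetProd fun p hp => ?_
    have hp0 : (p : ℂ) ≠ 0 := Nat.cast_ne_zero.2 (Nat.prime_of_mem_primeFactors hp).ne_zero
    have h1 : Differentiable ℂ (fun s : ℂ => (p : ℂ) ^ (-s)) :=
      differentiable_id.neg.const_cpow (Or.inl hp0)
    exact (h1.const_mul _).const_sub 1
  · refine Finset.prod_ne_zero_iff.2 fun p hp h0 => ?_
    have hpp := Nat.prime_of_mem_primeFactors hp
    have h1 : ‖χ (p : ZMod r) * (p : ℂ) ^ (-s)‖ < 1 := by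
      rw [norm_mul, Complex.norm_natCast_cpow_of_pos hpp.pos, Complex.neg_re]
      have h2 : (p : ℝ) ^ (-s.re) < 1 :=
        Real.rpow_lt_one_of_one_lt_of_neg (by exact_mod_cast hpp.one_lt) (by linarith)
      have h3 : (0 : ℝ) ≤ (p : ℝ) ^ (-s.re) := by positivity
      calc ‖χ (p : ZMod r)‖ * (p : ℝ) ^ (-s.re) ≤ 1 * (p : ℝ) ^ (-s.re) :=
            mul_le_mul_of_nonneg_right (DirichletCharacter.norm_le_one χ _) h3
        _ < 1 := by rwa [one_mul]
    have h2 : χ (p : ZMod r) * (p : ℂ) ^ (-s) = 1 := (sub_eq_zero.1 h0).symm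
    rw [h2, norm_one] at h1
    exact lt_irrefl _ h1

/-- `L(s, χ)` and the completed function of the primitive character -/
lemma key {q : ℕ} [NeZero q] (χ : DirichletCharacter ℂ q) (hψ : χ.primitiveCharacter ≠ 1) (c : ℂ)
    (hc : c ≠ 0) : ∃ F : ℂ → ℂ, Differentiable ℂ F ∧ (∀ s : ℂ, 0 < s.re → F s ≠ 0) ∧
      ∀ s : ℂ, 0 < s.re → DirichletCharacter.LFunction χ s =
        F s * (c * YY χ.primitiveCharacter (s - 1 / 2)) := by
  set ψ := χ.primitiveCharacter with hψd
  obtain ⟨g1, g2⟩ := gam ψ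
  obtain ⟨e1, e2⟩ := eul ψ q
  have hr0 : ((χ.conductor : ℕ) : ℂ) ≠ 0 := Nat.cast_ne_zero.2 χ.conductor_ne_zero
  refine ⟨fun s => c⁻¹ * (χ.conductor : ℂ) ^ (-((s - 1 / 2) / 2)) * (ψ.gammaFactor s)⁻¹ *
    ∏ p ∈ q.primeFactors, (1 - ψ (p : ZMod χ.conductor) * (p : ℂ) ^ (-s)), ?_, ?_, ?_⟩
  · refine Differentiable.mul (Differentiable.mul (Differentiable.const_mul ?_ _) g1) e1
    refine Differentiable.const_cpow ?_ (Or.inl hr0)
    exact ((differentiable_id.sub_const (1 / 2)).div_const 2).neg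
  · intro s hs
    refine mul_ne_zero (mul_ne_zero (mul_ne_zero (inv_ne_zero hc) ?_) (g2 s hs)) (e2 s hs)
    rw [Ne, Complex.cpow_eq_zero_iff]
    exact fun h => hr0 h.1
  · intro s hs
    have h1 : DirichletCharacter.LFunction χ s = DirichletCharacter.LFunction ψ s *
        ∏ p ∈ q.primeFactors, (1 - ψ (p : ZMod χ.conductor) * (p : ℂ) ^ (-s)) := by
      have h2 := DirichletCharacter.LFunction_changeLevel χ.conductor_dvd_level ψ (s := s)
        (Or.inl hψ)
      rwa [hψd, χ.changeLevel_primitiveCharacter, ← hψd] at h2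
    have hs0 : s ≠ 0 := by
      rintro rfl
      rw [Complex.zero_re] at hs
      exact lt_irrefl _ hs
    have h3 := DirichletCharacter.LFunction_eq_completed_div_gammaFactor ψ s (Or.inl hs0)
    have h4 : (1 / 2 + (s - 1 / 2) : ℂ) = s := by ring
    have h5 : (χ.conductor : ℂ) ^ (-((s - 1 / 2) / 2)) * (χ.conductor : ℂ) ^ ((s - 1 / 2) / 2) = 1 := by
      rw [← Complex.cpow_add _ _ hr0, neg_add_cancel, Complex.cpow_zero]
    rw [h1, h3, div_eq_mul_inv]
    unfold YY
    rw [h4]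
    calc DirichletCharacter.completedLFunction ψ s * (ψ.gammaFactor s)⁻¹ *
          ∏ p ∈ q.primeFactors, (1 - ψ (p : ZMod χ.conductor) * (p : ℂ) ^ (-s)) =
        (c⁻¹ * c) * ((χ.conductor : ℂ) ^ (-((s - 1 / 2) / 2)) *
          (χ.conductor : ℂ) ^ ((s - 1 / 2) / 2)) *
          (DirichletCharacter.completedLFunction ψ s * (ψ.gammaFactor s)⁻¹ *
          ∏ p ∈ q.primeFactors, (1 - ψ (p : ZMod χ.conductor) * (p : ℂ) ^ (-s))) := by
          rw [h5, inv_mul_cancel₀ hc, one_mul, one_mul]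
      _ = _ := by ring

end HDX68

open HDX68 in
theorem t_HDx (h7 : S_PFC) (h9 : S_YYd) (h10 : S_LD) : S_HDx := by
  intro q _ χ hχ h hh0 hh1 hL
  set r := χ.conductor with hr
  set ψ := χ.primitiveCharacter with hψ
  have hprim : ψ.IsPrimitive := χ.primitiveCharacter_isPrimitive
  have hne : ψ ≠ 1 := by
    intro h1
    apply hχ
    rw [← χ.changeLevel_primitiveCharacter, ← hψ, h1]
    exact (DirichletCharacter.changeLevel_eq_one_iff _).2 rfl
  obtain ⟨hd, hg, ⟨c, hc0, hc⟩, hz1, hz2⟩ := h9 χ.conductor ψ hprim hne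
  -- zeros
  have hLp : ∀ s : ℂ, 1 / 2 + h < s.re → DirichletCharacter.LFunction ψ s ≠ 0 := by
    intro s hs h0
    apply hL s hs
    have h1 := DirichletCharacter.LFunction_changeLevel χ.conductor_dvd_level ψ (s := s)
      (Or.inl hne)
    rw [hψ, χ.changeLevel_primitiveCharacter, ← hψ, h0, zero_mul] at h1
    exact h1
  have hnz : ∀ z : ℂ, h < z.re → YY ψ z ≠ 0 := by
    intro z hz h0
    have h1 := (hz2 z (by linarith)).1 h0
    refine hLp (1 / 2 + z) ?_ h1
    have : (1 / 2 + z).re = 1 / 2 + z.re := by simp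
    rw [this]
    linarith
  have hsymz : ∀ z : ℂ, YY ψ z = 0 → YY ψ (-(conj z)) = 0 := by
    intro z hz
    have h1 := hc z
    rw [hz, mul_zero, map_zero] at h1
    exact (mul_eq_zero.1 h1).resolve_left hc0
  have hstrip : ∀ z : ℂ, YY ψ z = 0 → |z.re| ≤ h := by
    intro z hz
    rw [abs_le]
    constructor
    · by_contra hcon
      push Not at hcon
      refine hnz _ ?_ (hsymz z hz)
      simp only [Complex.neg_re, Complex.conj_re]
      linarith
    · by_contra hcon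
      push Not at hcon
      exact hnz z hcon hz
  -- growth
  obtain ⟨C, hC, hCb⟩ := h10
  obtain ⟨D, hD, hDb⟩ := HDQ.LD_bound ψ
  have hlog2 : 0 < Real.log 2 := Real.log_pos (by norm_num)
  have hgrow : ∃ C' : ℝ, ∀ z : ℂ, 1 ≤ z.re → ‖logDeriv (YY ψ) z‖ ≤ C' * Real.log (2 + ‖z‖) := by
    refine ⟨C + (D + |Real.log χ.conductor / 2|) / Real.log 2, fun z hz => ?_⟩
    have h1 := hCb χ.conductor ψ hprim hne z (by linarith) (hnz z (by linarith))
    have h2 := hDb (1 / 2 + z) (by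
      have : (1 / 2 + z).re = 1 / 2 + z.re := by simp
      rw [this]
      linarith)
    have h3 : ‖((Real.log χ.conductor / 2 : ℝ) : ℂ)‖ = |Real.log χ.conductor / 2| := by
      rw [Complex.norm_real, Real.norm_eq_abs]
    have h4 : ‖logDeriv (YY ψ) z‖ ≤ ‖logDeriv (YY ψ) z - LD ψ (1 / 2 + z) -
        ((Real.log χ.conductor / 2 : ℝ) : ℂ)‖ + ‖LD ψ (1 / 2 + z)‖ +
        ‖((Real.log χ.conductor / 2 : ℝ) : ℂ)‖ := by
      have e : logDeriv (YY ψ) z = (logDeriv (YY ψ) z - LD ψ (1 / 2 + z) -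
        ((Real.log χ.conductor / 2 : ℝ) : ℂ)) + LD ψ (1 / 2 + z) +
        ((Real.log χ.conductor / 2 : ℝ) : ℂ) := by ring
      conv_lhs => rw [e]
      exact (norm_add_le _ _).trans (add_le_add (norm_add_le _ _) le_rfl)
    have h5 : Real.log 2 ≤ Real.log (2 + ‖z‖) :=
      Real.log_le_log (by norm_num) (by linarith [norm_nonneg z])
    have h6 : D + |Real.log χ.conductor / 2| ≤
        (D + |Real.log χ.conductor / 2|) / Real.log 2 * Real.log (2 + ‖z‖) := by
      rw [div_mul_eq_mul_div, le_div_iff₀ hlog2]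
      exact mul_le_mul_of_nonneg_left h5 (by positivity)
    rw [add_mul]
    linarith
  have hlogD : logDeriv (fun z => c * YY ψ z) = logDeriv (YY ψ) := by
    funext z
    exact logDeriv_const_mul z c hc0
  have hfin := t_Yx h7 (fun z => c * YY ψ z) h (hd.const_mul c) hc (HDQ.Gr.const_mul hg c) hh0 hh1
    (fun s hs => hstrip s ((mul_eq_zero.1 hs).resolve_left hc0)) (by rw [hlogD]; exact hgrow)
  rw [hlogD] at hfin
  -- the zeros of `L(s, χ)`
  obtain ⟨F, hF1, hF2, hF3⟩ := key χ hne c hc0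
  rw [← hψ] at hF3
  have hre : ∀ a : ℂ, YY ψ a = 0 → a.re < 1 / 2 := by
    intro a ha
    by_contra hcon
    push Not at hcon
    have h1 := (hz2 a (by linarith)).1 ha
    refine DirichletCharacter.LFunction_ne_zero_of_one_le_re ψ (Or.inl hne) ?_ h1
    have : (1 / 2 + a).re = 1 / 2 + a.re := by simp
    rw [this]
    linarith
  have hre2 : ∀ a : ℂ, YY ψ a = 0 → -(1 / 2) < a.re := by
    intro a ha
    have h1 := hre _ (hsymz a ha)
    simp only [Complex.neg_re, Complex.conj_re] at h1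
    linarith
  have hto : ∀ s : Zs χ, (fun z => c * YY ψ z) ((s : ℂ) - 1 / 2) = 0 := by
    intro s
    have h1 := hF3 s s.2.2.1
    rw [s.2.1] at h1
    exact (mul_eq_zero.1 h1.symm).resolve_left (hF2 _ s.2.2.1)
  have hhalf : ∀ a : ℂ, (a + 1 / 2).re = a.re + 1 / 2 := fun a => by simp
  have hinv : ∀ a : {a : ℂ // (fun z => c * YY ψ z) a = 0}, (a : ℂ) + 1 / 2 ∈ Zs χ := by
    intro a
    have h1 : YY ψ (a : ℂ) = 0 := (mul_eq_zero.1 a.2).resolve_left hc0
    have h2 := hre _ h1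
    have h3 := hre2 _ h1
    have h4 : 0 < ((a : ℂ) + 1 / 2).re := by rw [hhalf]; linarith
    refine ⟨?_, h4, by rw [hhalf]; linarith⟩
    rw [hF3 _ h4, add_sub_cancel_right, h1, mul_zero, mul_zero]
  let e : Zs χ ≃ {a : ℂ // (fun z => c * YY ψ z) a = 0} :=
    ⟨fun s => ⟨(s : ℂ) - 1 / 2, hto s⟩, fun a => ⟨(a : ℂ) + 1 / 2, hinv a⟩,
      fun s => Subtype.ext (sub_add_cancel _ _), fun a => Subtype.ext (add_sub_cancel_right _ _)⟩
  refine transport hfin e (fun s => rfl) fun s => ?_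
  show analyticOrderNatAt (fun z => c * YY ψ z) ((s : ℂ) - 1 / 2) =
    analyticOrderNatAt (DirichletCharacter.LFunction χ) (s : ℂ)
  have hs0 : 0 < (s : ℂ).re := s.2.2.1
  have hopen : {s : ℂ | 0 < s.re} ∈ 𝓝 (s : ℂ) :=
    (isOpen_lt continuous_const Complex.continuous_re).mem_nhds hs0
  have hev : DirichletCharacter.LFunction χ =ᶠ[𝓝 (s : ℂ)]
      F * ((fun z => c * YY ψ z) ∘ fun s : ℂ => s - 1 / 2) := by
    filter_upwards [hopen] with w hw
    exact hF3 w hw
  have hcomp : analyticOrderAt ((fun z => c * YY ψ z) ∘ fun s : ℂ => s - 1 / 2) (s : ℂ) =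
      analyticOrderAt (fun z => c * YY ψ z) ((s : ℂ) - 1 / 2) := by
    refine analyticOrderAt_comp_of_deriv_ne_zero ?_ ?_
    · exact (differentiable_id.sub_const (1 / 2 : ℂ)).analyticAt _
    · rw [deriv_sub_const, deriv_id'']
      exact one_ne_zero
  have hFan : AnalyticAt ℂ F (s : ℂ) := hF1.analyticAt _
  have hYan : AnalyticAt ℂ ((fun z => c * YY ψ z) ∘ fun s : ℂ => s - 1 / 2) (s : ℂ) :=
    ((hd.const_mul c).comp (differentiable_id.sub_const (1 / 2 : ℂ))).analyticAt _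
  unfold analyticOrderNatAt
  rw [analyticOrderAt_congr hev, analyticOrderAt_mul hFan hYan, hcomp,
    hFan.analyticOrderAt_eq_zero.2 (hF2 _ hs0), zero_add]

end Pool.Agent.NH13.WV
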