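import Pool.Agent.NH13.WV.Stm2

/-!
# WV-8: the mean square of `Re B` and the smoothed pair sum of the family
-/

set_option autoImplicit false

open Complex MeasureTheory Filter Topology Set
open scoped ComplexConjugate

namespace Pool.Agent.NH13.WV

open Pool.Agent.NH13.UV

namespace IrPA

theorem card_NT (q : ℕ) [NeZero q] : ((NT q).card : ℝ) ≤ q.totient := by
  classical
  have h1 : (NT q).card ≤ Fintype.card (DirichletCharacter ℂ q) := Finset.card_le_univ _
  have h2 : Fintype.card (DirichletCharacter ℂ q) = q.totient := by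
    rw [← Nat.card_eq_fintype_card]
    exact DirichletCharacter.card_eq_totient_of_hasEnoughRootsOfUnity ℂ q
  rw [h2] at h1
  exact_mod_cast h1

/-- the kernel at `L d` -/
lemma kk_scale (κ L d : ℝ) (hL : 0 < L) (hκ : 0 < κ) :
    kk κ (L * d) = 8 * (κ / L) * d / (L ^ 2 * (4 * (κ / L) ^ 2 + d ^ 2) ^ 2) := by
  unfold kk
  have hL0 : L ≠ 0 := hL.ne'
  have h1 : 4 * κ ^ 2 + (L * d) ^ 2 = L ^ 2 * (4 * (κ / L) ^ 2 + d ^ 2) := by
    field_simp
  have h2 : 0 < 4 * (κ / L) ^ 2 + d ^ 2 := by positivity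
  rw [h1]
  field_simp

/-- the substitution `A = L d` -/
lemma Pq_eq (hp : S_par) (q : ℕ) [NeZero q] (hq : 3 ≤ q) (κ : ℝ) (hκ : 0 < κ) :
    Pq q κ = 2 / (Real.pi * (Real.log q ^ 2 * q.totient)) *
      ∑ χ ∈ NT q, LS χ (κ / Real.log q) := by
  have hq1 : (1 : ℝ) < q := by
    have : (3 : ℝ) ≤ q := by exact_mod_cast hq
    linarith
  have hL : 0 < Real.log q := Real.log_pos hq1
  have hφ : 0 < (q.totient : ℝ) := by
    have : 0 < q.totient := Nat.totient_pos.mpr (by omega)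
    exact_mod_cast this
  set L := Real.log q with hLdef
  set x := κ / L with hx
  have hx0 : 0 < x := div_pos hκ hL
  have hsub : ∫ d in Ioi (0 : ℝ), nq q (L * d) * kk κ (L * d) =
      L⁻¹ * ∫ A in Ioi (0 : ℝ), nq q A * kk κ A := by
    have := integral_comp_mul_left_Ioi (fun A => nq q A * kk κ A) 0 hL
    simpa using this
  have h1 : Pq q κ = L * ∫ d in Ioi (0 : ℝ), nq q (L * d) * kk κ (L * d) := by
    unfold Pq
    rw [hsub]
    field_simp
  have h2 : ∀ d ∈ Ioi (0 : ℝ), nq q (L * d) * kk κ (L * d) =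
      2 / (Real.pi * (L ^ 3 * q.totient)) *
        ∑ χ ∈ NT q, PW χ d * (4 * Real.pi * x * d / (4 * x ^ 2 + d ^ 2) ^ 2) := by
    intro d hd
    have hd0 : 0 < d := hd
    rw [kk_scale κ L d hL hκ, ← hx]
    unfold nq
    rw [← hLdef, mul_div_cancel_left₀ d hL.ne', ← Finset.sum_mul]
    have h3 : 0 < 4 * x ^ 2 + d ^ 2 := by positivity
    have hpi := Real.pi_pos
    field_simp
    ring
  rw [h1, setIntegral_congr_fun measurableSet_Ioi h2, integral_const_mul,
    integral_finset_sum]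
  · have h4 : ∀ χ ∈ NT q, ∫ d in Ioi (0 : ℝ), PW χ d *
        (4 * Real.pi * x * d / (4 * x ^ 2 + d ^ 2) ^ 2) = LS χ x := by
      intro χ hχ
      exact ((hp q χ (mem_NT.mp hχ) hq x hx0).2).symm
    rw [Finset.sum_congr rfl h4]
    have hpi := Real.pi_pos
    field_simp
  · intro χ hχ
    exact (hp q χ (mem_NT.mp hχ) hq x hx0).1

end IrPA

/-- WV-8 -/
theorem t_IrP (h : S_S2) (hp : S_par) : S_IrP := by
  intro hG κ hκ
  obtain ⟨C, hC, hS⟩ := h
  refine ⟨C * Real.sqrt κ, max 3 ⌈Real.exp (8 * κ)⌉₊, mul_pos hC (Real.sqrt_pos.mpr hκ), ?_⟩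
  intro q _ hq
  have hq3 : 3 ≤ q := le_trans (le_max_left _ _) hq
  have hqe : ⌈Real.exp (8 * κ)⌉₊ ≤ q := le_trans (le_max_right _ _) hq
  have hqr : (3 : ℝ) ≤ q := by exact_mod_cast hq3
  have hL : 0 < Real.log q := Real.log_pos (by linarith)
  have hL8 : 8 * κ ≤ Real.log q := by
    rw [Real.le_log_iff_exp_le (by linarith)]
    exact le_trans (Nat.le_ceil _) (by exact_mod_cast hqe)
  have hφ : 0 < (q.totient : ℝ) := by
    have : 0 < q.totient := Nat.totient_pos.mpr (by omega)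
    exact_mod_cast this
  rw [IrPA.Pq_eq hp q hq3 κ hκ]
  have hcard := IrPA.card_NT q
  set L := Real.log q with hLdef
  set x := κ / L with hx
  have hx0 : 0 < x := div_pos hκ hL
  have hx8 : x ≤ 1 / 8 := by
    rw [hx, div_le_iff₀ hL]
    linarith
  have hpi : 0 < Real.pi := Real.pi_pos
  set K := 2 / (Real.pi * (L ^ 2 * q.totient)) with hK
  have hK0 : 0 < K := by positivity
  have hIr : Ir q κ = K * ∑ χ ∈ NT q, ∫ t : ℝ, (Bq χ (pt x t)).re ^ 2 * wt x t := rfl
  have hsq : 0 ≤ C * Real.sqrt x := by positivity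
  have hb : |Ir q κ - K * ∑ χ ∈ NT q, LS χ x| ≤
      K * ∑ χ ∈ NT q, C * Real.sqrt x *
        ((∫ t : ℝ, (Bq χ (pt x t)).re ^ 2 * wt x t) + L ^ 2) := by
    rw [hIr, ← mul_sub, ← Finset.sum_sub_distrib, abs_mul, abs_of_pos hK0]
    refine mul_le_mul_of_nonneg_left ?_ hK0.le
    refine le_trans (Finset.abs_sum_le_sum_abs _ _) (Finset.sum_le_sum ?_)
    intro χ hχ
    have hχ1 := mem_NT.mp hχ
    exact hS q χ hχ1 hq3 (fun s hs => hG q χ hχ1 s hs) x hx0 hx8
  refine le_trans hb ?_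
  rw [← Finset.mul_sum, Finset.sum_add_distrib, Finset.sum_const, nsmul_eq_mul]
  have h1 : K * (C * Real.sqrt x * ((∑ χ ∈ NT q, ∫ t : ℝ, (Bq χ (pt x t)).re ^ 2 * wt x t) +
      ((NT q).card : ℝ) * L ^ 2)) =
      C * Real.sqrt x * (Ir q κ + K * (((NT q).card : ℝ) * L ^ 2)) := by
    rw [hIr]; ring
  rw [h1]
  have h2 : K * (((NT q).card : ℝ) * L ^ 2) ≤ 1 := by
    have h3 : K * (((NT q).card : ℝ) * L ^ 2) ≤ K * ((q.totient : ℝ) * L ^ 2) := by gcongr
    have h4 : K * ((q.totient : ℝ) * L ^ 2) = 2 / Real.pi := by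
      rw [hK]; field_simp
    have h5 : 2 / Real.pi ≤ 1 := by
      rw [div_le_one hpi]
      linarith [Real.pi_gt_three]
    linarith
  have h6 : C * Real.sqrt x = C * Real.sqrt κ / Real.sqrt L := by
    rw [hx, Real.sqrt_div' _ hL.le]; ring
  rw [← h6]
  exact mul_le_mul_of_nonneg_left (by linarith) hsq

end Pool.Agent.NH13.WV
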