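import Pool.Agent.NH13.WV.Stm2

/-!
# Project WV: growth of `L'/L`
-/

set_option autoImplicit false

open Complex MeasureTheory Filter Topology Set
open scoped ComplexConjugate

namespace Pool.Agent.NH13.WV

open Pool.Agent.NH13.UV

/-- WV-Lg: growth of `L'/L` -/
theorem t_Lg (h1 : S_HDx) (hg : S_gr) (hp : S_pt) (h9 : S_HDq) : S_Lg := by
  intro q _ χ hχ hGRH x hx
  have hN : ∀ s : ℂ, 1 / 2 + (0 : ℝ) < s.re → DirichletCharacter.LFunction χ s ≠ 0 := by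
    intro s hs
    exact hGRH s (by linarith)
  have hHD := h1 q χ hχ 0 le_rfl (by norm_num) hN
  obtain ⟨C1, hC1, hB⟩ := hg _ 0 _ _ _ hHD x hx
  obtain ⟨C2, hC2, hP⟩ := hp 1 one_pos
  have hY := (h9 q χ hχ 0 le_rfl (by norm_num) hN).2
  have hq0 : 0 ≤ Real.log q := Real.log_natCast_nonneg q
  have hc0 : 0 ≤ Real.log χ.conductor := Real.log_natCast_nonneg _
  refine ⟨C1 + C2 + 4 * Real.log q, by linarith, ?_⟩
  intro z hz
  have hz0 : 0 < z.re := hx.trans_le hz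
  have h2 : 1 ≤ 2 * Real.log (2 + ‖z‖) := by
    have h3 : Real.log 2 ≤ Real.log (2 + ‖z‖) :=
      Real.log_le_log (by norm_num) (by linarith [norm_nonneg z])
    have h4 := Real.log_two_gt_d9
    linarith
  have e1 := hP q χ hχ z hz0.le (hY z hz0)
  have e2 := hB z hz
  have e3 : ‖((Real.log q / 2 : ℝ) : ℂ)‖ = Real.log q / 2 := by
    rw [Complex.norm_real, Real.norm_of_nonneg (by linarith)]
  have e4 : ‖LD χ (1 / 2 + z)‖ ≤
      ‖LD χ (1 / 2 + z) - (Bq χ z - ((Real.log q / 2 : ℝ) : ℂ))‖ +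
        (‖Bq χ z‖ + ‖((Real.log q / 2 : ℝ) : ℂ)‖) := by
    calc ‖LD χ (1 / 2 + z)‖ =
        ‖(LD χ (1 / 2 + z) - (Bq χ z - ((Real.log q / 2 : ℝ) : ℂ))) +
          (Bq χ z - ((Real.log q / 2 : ℝ) : ℂ))‖ := by rw [sub_add_cancel]
      _ ≤ _ := (norm_add_le _ _).trans (add_le_add le_rfl (norm_sub_le _ _))
  rw [e3] at e4
  have e5 : Real.log q * 1 ≤ Real.log q * (2 * Real.log (2 + ‖z‖)) :=
    mul_le_mul_of_nonneg_left h2 hq0
  nlinarith

end Pool.Agent.NH13.WV
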