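import Pool.Agent.NH13.WV.Stm2

/-!
# Project WV: the multiplicities of the zeros are positive
-/

set_option autoImplicit false

open Complex Filter Topology Set

namespace Pool.Agent.NH13.WV

open Pool.Agent.NH13.UV

theorem t_mu : S_mu := by
  intro q _ χ hχ s hs
  have hd : Differentiable ℂ (DirichletCharacter.LFunction χ) :=
    DirichletCharacter.differentiable_LFunction hχ
  have ha : AnalyticAt ℂ (DirichletCharacter.LFunction χ) s := hd.analyticAt s
  have h0 : analyticOrderAt (DirichletCharacter.LFunction χ) s ≠ 0 :=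
    ha.analyticOrderAt_ne_zero.mpr hs.1
  have h1 : analyticOrderAt (DirichletCharacter.LFunction χ) s ≠ ⊤ := by
    intro h
    rw [analyticOrderAt_eq_top] at h
    have hu : AnalyticOnNhd ℂ (DirichletCharacter.LFunction χ) univ := fun z _ => hd.analyticAt z
    have h2 := hu.eqOn_zero_of_preconnected_of_eventuallyEq_zero isPreconnected_univ (mem_univ s) h
    have h3 : DirichletCharacter.LFunction χ 2 = 0 := h2 (mem_univ (2 : ℂ))
    exact DirichletCharacter.LFunction_ne_zero_of_one_le_re χ (Or.inl hχ) (s := 2)
      (by norm_num) h3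
  unfold mu analyticOrderNatAt
  rw [Nat.one_le_iff_ne_zero]
  intro h2
  rcases ENat.toNat_eq_zero.mp h2 with h3 | h3
  · exact h0 h3
  · exact h1 h3

end Pool.Agent.NH13.WV
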