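import Pool.Agent.NH13.WV.Stm3

/-!
# Project WV: under GRH the normalised pair counts are bounded
-/

set_option autoImplicit false

open Complex MeasureTheory Filter Topology Set
open scoped ComplexConjugate

namespace Pool.Agent.NH13.WV

open Pool.Agent.NH13.UV

namespace Nbd

theorem kk_one {A : ℝ} (h1 : 1 ≤ A) (h2 : A ≤ 2) : 1 / 8 ≤ kk 1 A := by
  unfold kk
  rw [div_le_div_iff₀ (by norm_num) (by positivity)]
  have h3 : 4 * (1:ℝ) ^ 2 + A ^ 2 ≤ 8 := by nlinarith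
  have h4 : 0 ≤ 4 * (1:ℝ) ^ 2 + A ^ 2 := by positivity
  nlinarith

theorem kk_nonneg {A : ℝ} (h : 0 ≤ A) : 0 ≤ kk 1 A := by
  unfold kk; positivity

theorem low (hm : S_mono) (q : ℕ) [NeZero q] (hq : 3 ≤ q) : nq q 1 * (1 / 8) ≤ Pq q 1 := by
  obtain ⟨m1, m2, m3⟩ := hm q hq
  have hsub : Ioc (1:ℝ) 2 ⊆ Ioi 0 := fun A hA => lt_trans one_pos hA.1
  have e1 : nq q 1 * (1 / 8) = ∫ _A in Ioc (1:ℝ) 2, nq q 1 * (1 / 8) := by
    rw [setIntegral_const]
    simp
    norm_num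
  rw [e1]
  refine le_trans (setIntegral_mono_on (integrableOn_const (by simp))
    ((m3 1 one_pos).mono_set hsub) measurableSet_Ioc (fun A hA => ?_))
    (setIntegral_mono_set (m3 1 one_pos) ?_ hsub.eventuallyLE)
  · have hA0 : (0:ℝ) ≤ A := by linarith [hA.1]
    exact mul_le_mul (m1 (mem_Ici.2 (by norm_num)) (mem_Ici.2 hA0) hA.1.le)
      (kk_one hA.1.le hA.2) (by norm_num) (m2 A hA0)
  · refine (ae_restrict_iff' measurableSet_Ioi).2 (Eventually.of_forall fun A hA => ?_)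
    exact mul_nonneg (m2 A (le_of_lt hA)) (kk_nonneg (le_of_lt hA))

end Nbd

open Nbd in
theorem t_nb (ht : S_tail) (hI : S_IrP) (hm : S_mono) : S_nb := by
  intro hA hG hP
  obtain ⟨C1, h1⟩ := ht hA hG hP
  obtain ⟨q1, h1⟩ := h1 1 le_rfl
  obtain ⟨C, q2, hC, h2⟩ := hI hG 1 one_pos
  obtain ⟨M1, hM1⟩ : ∃ M1 : ℝ, M1 = 2 + |C1| := ⟨_, rfl⟩
  have hM0 : 0 < M1 := by rw [hM1]; positivity
  refine ⟨8 * (M1 + C * (M1 + 1)), max 3 (max q1 q2), by positivity, fun q _ hq => ?_⟩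
  have hq3 : 3 ≤ q := le_trans (le_max_left _ _) hq
  have hq1 : q1 ≤ q := le_trans (le_trans (le_max_left _ _) (le_max_right _ _)) hq
  have hq2 : q2 ≤ q := le_trans (le_trans (le_max_right _ _) (le_max_right _ _)) hq
  have e1 : Ir q 1 ≤ M1 := by
    have a1 := (abs_le.1 (h1 q hq1)).2
    have a2 : 0 < Real.exp (-2 * 1) := Real.exp_pos _
    have a3 : C1 * Real.exp (-1) ≤ |C1| := by
      have b1 : Real.exp (-1) ≤ 1 := Real.exp_le_one_iff.2 (by norm_num)
      have b2 : 0 < Real.exp (-1) := Real.exp_pos _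
      calc C1 * Real.exp (-1) ≤ |C1| * Real.exp (-1) :=
            mul_le_mul_of_nonneg_right (le_abs_self _) b2.le
        _ ≤ |C1| * 1 := mul_le_mul_of_nonneg_left b1 (abs_nonneg _)
        _ = |C1| := mul_one _
    rw [hM1]
    norm_num at a1 a2
    linarith
  have e2 : Pq q 1 ≤ M1 + C * (M1 + 1) := by
    have a1 := (abs_le.1 (h2 q hq2)).1
    have hL : 1 ≤ Real.log q := by
      rw [Real.le_log_iff_exp_le (by positivity)]
      have : (3:ℝ) ≤ q := by exact_mod_cast hq3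
      linarith [Real.exp_one_lt_d9]
    have hs : 1 ≤ Real.sqrt (Real.log q) := Real.one_le_sqrt.2 hL
    have a2 : C / Real.sqrt (Real.log q) ≤ C := div_le_self hC.le hs
    have a3 : 0 ≤ C / Real.sqrt (Real.log q) := by positivity
    have a4 : C / Real.sqrt (Real.log q) * (Ir q 1 + 1) ≤ C * (M1 + 1) :=
      (mul_le_mul_of_nonneg_left (by linarith) a3).trans
        (mul_le_mul_of_nonneg_right a2 (by linarith))
    linarith
  have e3 := low hm q hq3
  linarith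

end Pool.Agent.NH13.WV
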