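import Pool.Agent.NH13.WV.Stm2

/-!
# Project WV: the limit function (helper63)
-/

set_option autoImplicit false

namespace Pool.Agent.NH13.WV

open MeasureTheory Set

namespace Nl

/-- the integrand -/
noncomputable def g (v : ℝ) : ℝ := 1 - (Real.sin (v / 2) / (v / 2)) ^ 2

theorem sq_le (y : ℝ) : (Real.sin y / y) ^ 2 ≤ 1 := by
  rw [sq_le_one_iff_abs_le_one, abs_div]
  rcases eq_or_ne y 0 with h | h
  · rw [h]
    simp
  · rw [div_le_one (abs_pos.2 h)]
    exact Real.abs_sin_le_abs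

theorem g0 (v : ℝ) : 0 ≤ g v := sub_nonneg.2 (sq_le _)

theorem g1 (v : ℝ) : g v ≤ 1 := sub_le_self _ (sq_nonneg _)

theorem gm : Measurable g := by
  unfold g
  fun_prop

theorem gi (a b : ℝ) : IntervalIntegrable g volume a b := by
  refine (intervalIntegrable_const (c := (1 : ℝ))).mono_fun gm.aestronglyMeasurable ?_
  refine Filter.Eventually.of_forall fun v => ?_
  show ‖g v‖ ≤ ‖(1 : ℝ)‖
  rw [Real.norm_of_nonneg (g0 v), norm_one]
  exact g1 v

theorem nl_eq (A : ℝ) : nl A = 1 + 1 / Real.pi * ∫ v in (0 : ℝ)..A, g v := rfl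

theorem cont : Continuous nl := by
  have h : Continuous fun A => ∫ v in (0 : ℝ)..A, g v := intervalIntegral.continuous_primitive gi 0
  have h2 : nl = fun A => 1 + 1 / Real.pi * ∫ v in (0 : ℝ)..A, g v := rfl
  rw [h2]
  exact continuous_const.add (continuous_const.mul h)

theorem int_nonneg {a b : ℝ} (h : a ≤ b) : 0 ≤ ∫ v in a..b, g v :=
  intervalIntegral.integral_nonneg h fun v _ => g0 v

theorem int_le {A : ℝ} (h : 0 ≤ A) : ∫ v in (0 : ℝ)..A, g v ≤ A := by
  have h1 : ∫ v in (0 : ℝ)..A, g v ≤ ∫ _v in (0 : ℝ)..A, (1 : ℝ) :=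
    intervalIntegral.integral_mono h (gi 0 A) intervalIntegrable_const g1
  have h2 : ∫ _v in (0 : ℝ)..A, (1 : ℝ) = A := by simp
  rw [h2] at h1
  exact h1

theorem lower {A : ℝ} (h : 0 ≤ A) : 1 ≤ nl A := by
  rw [nl_eq]
  have := mul_nonneg (one_div_nonneg.2 Real.pi_pos.le) (int_nonneg h)
  linarith

theorem upper {A : ℝ} (h : 0 ≤ A) : nl A ≤ 1 + A := by
  rw [nl_eq]
  have h1 : 1 / Real.pi ≤ 1 := by
    rw [div_le_one Real.pi_pos]
    linarith [Real.pi_gt_three]
  have h2 := mul_le_mul h1 (int_le h) (int_nonneg h) zero_le_one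
  linarith

end Nl

open Nl

theorem t_nl : S_nl := by
  refine ⟨cont, ?_, fun A h => lower h, fun A h => upper h, ?_⟩
  · intro a ha b hb hab
    rw [nl_eq, nl_eq]
    have h1 : (∫ v in (0 : ℝ)..b, g v) - ∫ v in (0 : ℝ)..a, g v = ∫ v in a..b, g v :=
      intervalIntegral.integral_interval_sub_left (gi 0 b) (gi 0 a)
    have h2 := int_nonneg hab
    have h3 : ∫ v in (0 : ℝ)..a, g v ≤ ∫ v in (0 : ℝ)..b, g v := by linarith
    have h4 := mul_le_mul_of_nonneg_left h3 (one_div_nonneg.2 Real.pi_pos.le)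
    linarith
  · intro κ hκ
    set m : ℝ := min (4 * κ ^ 2) 1 with hm
    have hm0 : 0 < m := lt_min (by positivity) one_pos
    have hden : ∀ A : ℝ, (4 * κ ^ 2 + A ^ 2) ^ 2 ≠ 0 := fun A => by positivity
    have hcont : Continuous fun A => nl A * kk κ A := by
      unfold kk
      exact cont.mul ((by fun_prop : Continuous fun A : ℝ => 8 * κ * A).div (by fun_prop) hden)
    refine Integrable.mono' (g := fun A : ℝ => 16 * κ / m ^ 2 * (1 + A ^ 2)⁻¹)
      ((integrable_inv_one_add_sq.const_mul _).integrableOn) hcont.aestronglyMeasurable ?_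
    refine (ae_restrict_iff' measurableSet_Ioi).2 (Filter.Eventually.of_forall fun A hA => ?_)
    have hA0 : 0 < A := hA
    have hk : 0 ≤ kk κ A := by
      unfold kk
      positivity
    have hn : 0 ≤ nl A := zero_le_one.trans (lower hA0.le)
    rw [Real.norm_of_nonneg (mul_nonneg hn hk)]
    have h1 : nl A * kk κ A ≤ (1 + A) * kk κ A := mul_le_mul_of_nonneg_right (upper hA0.le) hk
    refine h1.trans ?_
    have h2 : m * (1 + A ^ 2) ≤ 4 * κ ^ 2 + A ^ 2 := by
      have e1 : m ≤ 4 * κ ^ 2 := min_le_left _ _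
      have e2 : m ≤ 1 := min_le_right _ _
      nlinarith [sq_nonneg A, mul_le_mul_of_nonneg_right e2 (sq_nonneg A)]
    have h3 : (m * (1 + A ^ 2)) ^ 2 ≤ (4 * κ ^ 2 + A ^ 2) ^ 2 :=
      pow_le_pow_left₀ (by positivity) h2 2
    have h4 : (1 + A) * (8 * κ * A) ≤ 16 * κ * (1 + A ^ 2) := by
      have : (1 + A) * A ≤ 2 * (1 + A ^ 2) := by nlinarith [sq_nonneg (A - 1)]
      nlinarith
    calc (1 + A) * kk κ A = (1 + A) * (8 * κ * A) / (4 * κ ^ 2 + A ^ 2) ^ 2 := by
          unfold kk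
          ring
      _ ≤ 16 * κ * (1 + A ^ 2) / (m * (1 + A ^ 2)) ^ 2 := by
          gcongr
      _ = 16 * κ / m ^ 2 * (1 + A ^ 2)⁻¹ := by
          field_simp

end Pool.Agent.NH13.WV
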