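import Pool.Agent.NH13.WV.Stm2

/-!
# WV-3: zeros in longer intervals
-/

set_option autoImplicit false

open Complex MeasureTheory Filter Topology Set

namespace Pool.Agent.NH13.WV

open Pool.Agent.NH13.UV

namespace NrAux

theorem fin_aux {q : ℕ} [NeZero q] (χ : DirichletCharacter ℂ q) (hmu : ∀ s ∈ Zs χ, 1 ≤ mu χ s)
    (d t : ℝ) (hs : Summable (fun s : Zs χ => (mu χ s : ℝ) / (1 + (t - (s : ℂ).im) ^ 2))) :
    {s : ℂ | s ∈ Zs χ ∧ |s.im - t| ≤ d}.Finite := by
  have hc : (0 : ℝ) < 1 / (1 + d ^ 2) := by positivity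
  have h1 := hs.tendsto_cofinite_zero.eventually (gt_mem_nhds hc)
  rw [eventually_cofinite] at h1
  refine (h1.image (Subtype.val)).subset ?_
  rintro s ⟨h2, h3⟩
  refine ⟨⟨s, h2⟩, ?_, rfl⟩
  simp only [mem_setOf_eq, not_lt]
  have h4 : (1 : ℝ) ≤ mu χ s := by exact_mod_cast hmu s h2
  have h5 : (t - s.im) ^ 2 ≤ d ^ 2 := by
    rw [← sq_abs (t - s.im), abs_sub_comm]
    exact pow_le_pow_left₀ (abs_nonneg _) h3 2
  exact div_le_div₀ (by linarith) h4 (by positivity) (by linarith)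

theorem cnt_aux {q : ℕ} [NeZero q] (χ : DirichletCharacter ℂ q) {C : ℝ}
    (h : ∀ t : ℝ, Summable (fun s : Zs χ => (mu χ s : ℝ) / (1 + (t - (s : ℂ).im) ^ 2)) ∧
      ∑' s : Zs χ, (mu χ s : ℝ) / (1 + (t - (s : ℂ).im) ^ 2) ≤
        C * (1 + Real.log q + Real.log (2 + |t|)))
    (hC : 0 < C) {d t : ℝ} (hd : 0 ≤ d) (hfin : {s : ℂ | s ∈ Zs χ ∧ |s.im - t| ≤ d}.Finite) :
    (nr χ d t : ℝ) ≤ 4 * C * (1 + d) * (1 + Real.log q + Real.log (2 + |t|) +
      Real.log (2 + d)) := by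
  classical
  set T : ℕ → ℝ := fun j => t - d + j with hT
  set n : ℕ := ⌊2 * d⌋₊ + 1 with hn
  have hsum : (nr χ d t : ℝ) = ∑ s ∈ hfin.toFinset, (mu χ s : ℝ) := by
    unfold nr
    rw [finsum_mem_eq_finite_toFinset_sum _ hfin]
    push_cast
    rfl
  have h1 : ∀ s ∈ hfin.toFinset, (mu χ s : ℝ) ≤
      ∑ j ∈ Finset.range n, 2 * ((mu χ s : ℝ) / (1 + (T j - s.im) ^ 2)) := by
    intro s hs
    rw [Set.Finite.mem_toFinset] at hs
    have h2 := abs_le.1 hs.2
    set x : ℝ := s.im - (t - d) with hx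
    have hx0 : 0 ≤ x := by linarith [h2.1]
    have hx1 : x ≤ 2 * d := by linarith [h2.2]
    have hj : ⌊x⌋₊ ∈ Finset.range n := by
      rw [Finset.mem_range, hn]
      exact Nat.lt_succ_of_le (Nat.floor_le_floor hx1)
    refine le_trans ?_ (Finset.single_le_sum (f := fun j => 2 * ((mu χ s : ℝ) /
      (1 + (T j - s.im) ^ 2))) (fun j _ => by positivity) hj)
    have e1 := Nat.floor_le hx0
    have e2 := Nat.lt_floor_add_one x
    have e3 : (T ⌊x⌋₊ - s.im) ^ 2 ≤ 1 := by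
      have e4 : T ⌊x⌋₊ - s.im = ⌊x⌋₊ - x := by
        simp only [hT, hx]
        ring
      rw [e4, sq_le_one_iff_abs_le_one, abs_le]
      constructor <;> linarith
    have e5 : (0 : ℝ) < 1 + (T ⌊x⌋₊ - s.im) ^ 2 := by positivity
    show (mu χ s : ℝ) ≤ 2 * ((mu χ s : ℝ) / (1 + (T ⌊x⌋₊ - s.im) ^ 2))
    rw [← mul_div_assoc, le_div_iff₀ e5]
    have e6 : (0 : ℝ) ≤ mu χ s := Nat.cast_nonneg _
    nlinarith
  have h2 : ∀ j, ∑ s ∈ hfin.toFinset, ((mu χ s : ℝ) / (1 + (T j - s.im) ^ 2)) ≤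
      C * (1 + Real.log q + Real.log (2 + |T j|)) := by
    intro j
    refine le_trans ?_ (h (T j)).2
    have e1 : ∀ s ∈ hfin.toFinset, s ∈ Zs χ := fun s hs => by
      rw [Set.Finite.mem_toFinset] at hs
      exact hs.1
    rw [← Finset.sum_subtype_of_mem (fun s : ℂ => (mu χ s : ℝ) / (1 + (T j - s.im) ^ 2)) e1]
    exact (h (T j)).1.sum_le_tsum _ fun s _ => by positivity
  have hq : 0 ≤ Real.log q := Real.log_natCast_nonneg q
  have h3 : ∀ j ∈ Finset.range n, C * (1 + Real.log q + Real.log (2 + |T j|)) ≤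
      C * (1 + Real.log q + Real.log (2 + |t|) + Real.log (2 + d)) := by
    intro j hj
    have hj1 : (j : ℝ) ≤ 2 * d := by
      rw [Finset.mem_range, hn] at hj
      exact (Nat.cast_le.2 (Nat.le_of_lt_succ hj)).trans (Nat.floor_le (by linarith))
    have e1 : |T j| ≤ |t| + d := by
      have e2 : T j = t + (j - d) := by
        simp only [hT]
        ring
      rw [e2]
      refine (abs_add_le _ _).trans (add_le_add le_rfl ?_)
      rw [abs_le]
      have : (0 : ℝ) ≤ j := Nat.cast_nonneg j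
      constructor <;> linarith
    have e3 : Real.log (2 + |T j|) ≤ Real.log (2 + |t|) + Real.log (2 + d) := by
      have ht := abs_nonneg t
      rw [← Real.log_mul (by linarith) (by linarith)]
      refine Real.log_le_log (by linarith [abs_nonneg (T j)]) ?_
      nlinarith
    exact mul_le_mul_of_nonneg_left (by linarith) hC.le
  set R : ℝ := 1 + Real.log q + Real.log (2 + |t|) + Real.log (2 + d) with hR
  have hR0 : 0 ≤ R := by
    have e1 : 0 ≤ Real.log (2 + |t|) := Real.log_nonneg (by linarith [abs_nonneg t])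
    have e2 : 0 ≤ Real.log (2 + d) := Real.log_nonneg (by linarith)
    linarith
  rw [hsum]
  calc ∑ s ∈ hfin.toFinset, (mu χ s : ℝ) ≤ ∑ s ∈ hfin.toFinset, ∑ j ∈ Finset.range n,
        2 * ((mu χ s : ℝ) / (1 + (T j - s.im) ^ 2)) := Finset.sum_le_sum h1
    _ = ∑ j ∈ Finset.range n, 2 * ∑ s ∈ hfin.toFinset,
        ((mu χ s : ℝ) / (1 + (T j - s.im) ^ 2)) := by
      rw [Finset.sum_comm]
      exact Finset.sum_congr rfl fun j _ => (Finset.mul_sum _ _ _).symm
    _ ≤ ∑ j ∈ Finset.range n, 2 * (C * R) := Finset.sum_le_sum fun j hj =>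
        mul_le_mul_of_nonneg_left ((h2 j).trans (h3 j hj)) (by norm_num)
    _ = n * (2 * (C * R)) := by rw [Finset.sum_const, Finset.card_range, nsmul_eq_mul]
    _ ≤ (2 * (1 + d)) * (2 * (C * R)) := by
      refine mul_le_mul_of_nonneg_right ?_ (by positivity)
      have e1 := Nat.floor_le (show 0 ≤ 2 * d by linarith)
      rw [hn]
      push_cast
      linarith
    _ = 4 * C * (1 + d) * R := by ring

end NrAux

/-- **WV-3** -/
theorem t_nr (h2 : S_cnt) (hmu : S_mu) : S_nr := by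
  obtain ⟨C, hC, h⟩ := h2
  refine ⟨4 * C, by linarith, fun q _ χ hχ d t hd => ?_⟩
  have hfin := NrAux.fin_aux χ (hmu q χ hχ) d t (h q χ hχ t).1
  exact ⟨hfin, NrAux.cnt_aux χ (h q χ hχ) hC hd hfin⟩

end Pool.Agent.NH13.WV
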