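import Pool.Agent.NH13.WV.Stm3

/-!
# Project WV: one half of the pair correlation suffices (a Tauberian theorem)
-/

set_option autoImplicit false

open Complex MeasureTheory Filter Topology Set
open scoped ComplexConjugate

namespace Pool.Agent.NH13.WV

open Pool.Agent.NH13.UV

namespace One

lemma kk_nonneg {κ A : ℝ} (hκ : 0 ≤ κ) (hA : 0 ≤ A) : 0 ≤ kk κ A := by
  unfold kk
  positivity

lemma kk_meas (κ : ℝ) : Measurable (kk κ) := by
  unfold kk
  fun_prop

lemma kk_lower {κ a b A : ℝ} (hκ : 1 ≤ κ) (ha : 0 < a) (hA : A ∈ Icc a b) :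
    8 * κ * a / (4 * κ ^ 2 + b ^ 2) ^ 2 ≤ kk κ A := by
  unfold kk
  have h1 : a ≤ A := hA.1
  have h2 : A ≤ b := hA.2
  have h3 : A ^ 2 ≤ b ^ 2 := pow_le_pow_left₀ (ha.le.trans h1) h2 2
  have h4 : (0 : ℝ) < 4 * κ ^ 2 + A ^ 2 := by positivity
  apply div_le_div₀
  · have : 0 ≤ A := ha.le.trans h1
    positivity
  · have : 0 ≤ 8 * κ := by linarith
    exact mul_le_mul_of_nonneg_left h1 this
  · positivity
  · exact pow_le_pow_left₀ h4.le (by linarith) 2

lemma kk_upper {κ A : ℝ} (hκ : 1 ≤ κ) (hA : 0 < A) :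
    kk κ A ≤ 32 * κ * (1 + A) ^ (-3 : ℝ) := by
  unfold kk
  have h1 : (0 : ℝ) < 1 + A := by linarith
  have h2 : (1 + A) ^ 2 ≤ 2 * (4 * κ ^ 2 + A ^ 2) := by nlinarith [sq_nonneg (A - 1)]
  have h3 : (1 + A) ^ 4 ≤ 4 * (4 * κ ^ 2 + A ^ 2) ^ 2 := by
    have := pow_le_pow_left₀ (by positivity : (0 : ℝ) ≤ (1 + A) ^ 2) h2 2
    nlinarith [this]
  have h4 : (1 + A) ^ (-3 : ℝ) = 1 / (1 + A) ^ 3 := by
    rw [Real.rpow_neg h1.le, one_div]
    congr 1
    exact_mod_cast Real.rpow_natCast (1 + A) 3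
  rw [h4, mul_one_div, div_le_div_iff₀ (by positivity) (by positivity)]
  have h5 : 8 * κ * A * (1 + A) ^ 3 ≤ 8 * κ * (1 + A) ^ 4 := by
    have : A * (1 + A) ^ 3 ≤ (1 + A) ^ 4 := by
      have h6 : (0 : ℝ) < (1 + A) ^ 3 := by positivity
      nlinarith
    nlinarith
  calc 8 * κ * A * (1 + A) ^ 3 ≤ 8 * κ * (1 + A) ^ 4 := h5
    _ ≤ 8 * κ * (4 * (4 * κ ^ 2 + A ^ 2) ^ 2) := mul_le_mul_of_nonneg_left h3 (by linarith)
    _ = 32 * κ * (4 * κ ^ 2 + A ^ 2) ^ 2 := by ring

lemma bound_int {κ : ℝ} (hκ : 1 ≤ κ) (C : ℝ) :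
    IntegrableOn (fun A => C * (1 + A) ^ (3 / 2 : ℝ) * kk κ A) (Ioi 0) := by
  have h0 : Integrable (fun x : ℝ => (1 + ‖x‖) ^ (-(3 / 2) : ℝ)) :=
    integrable_one_add_norm (by rw [Module.finrank_self]; norm_num)
  have h1 : IntegrableOn (fun A : ℝ => |C| * (32 * κ) * (1 + ‖A‖) ^ (-(3 / 2) : ℝ)) (Ioi 0) :=
    (h0.const_mul _).integrableOn
  refine Integrable.mono' h1 ?_ ?_
  · refine Measurable.aestronglyMeasurable ?_
    exact (measurable_const.mul ((measurable_const.add measurable_id).pow_const _)).mul (kk_meas κ)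
  · filter_upwards [ae_restrict_mem measurableSet_Ioi] with A hA
    have hA' : (0 : ℝ) < A := hA
    have h2 : (0 : ℝ) < 1 + A := by linarith
    have h3 := kk_upper hκ hA'
    have h4 := kk_nonneg (zero_le_one.trans hκ) hA'.le
    rw [norm_mul, norm_mul, Real.norm_eq_abs, Real.norm_eq_abs, Real.norm_eq_abs, Real.norm_eq_abs,
      abs_of_nonneg h4, abs_of_pos (Real.rpow_pos_of_pos h2 _), abs_of_pos hA']
    have h5 : (1 + A) ^ (3 / 2 : ℝ) * (1 + A) ^ (-3 : ℝ) = (1 + A) ^ (-(3 / 2) : ℝ) := by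
      rw [← Real.rpow_add h2]
      norm_num
    calc |C| * (1 + A) ^ (3 / 2 : ℝ) * kk κ A
        ≤ |C| * (1 + A) ^ (3 / 2 : ℝ) * (32 * κ * (1 + A) ^ (-3 : ℝ)) :=
          mul_le_mul_of_nonneg_left h3
            (mul_nonneg (abs_nonneg _) (Real.rpow_pos_of_pos h2 _).le)
      _ = |C| * (32 * κ) * ((1 + A) ^ (3 / 2 : ℝ) * (1 + A) ^ (-3 : ℝ)) := by ring
      _ = |C| * (32 * κ) * (1 + A) ^ (-(3 / 2) : ℝ) := by rw [h5]

lemma f_int {κ : ℝ} (hκ : 1 ≤ κ) {C : ℝ} {f : ℝ → ℝ} (hm : MonotoneOn f (Ici 0))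
    (h0 : ∀ A, 0 ≤ A → 0 ≤ f A) (hb : ∀ A : ℝ, 0 ≤ A → f A ≤ C * (1 + A) ^ (3 / 2 : ℝ)) :
    IntegrableOn (fun A => f A * kk κ A) (Ioi 0) := by
  refine Integrable.mono' (bound_int hκ C) ?_ ?_
  · have h1 : AEMeasurable f (volume.restrict (Ioi 0)) :=
      aemeasurable_restrict_of_monotoneOn measurableSet_Ioi (hm.mono Ioi_subset_Ici_self)
    exact (h1.mul (kk_meas κ).aemeasurable).aestronglyMeasurable
  · filter_upwards [ae_restrict_mem measurableSet_Ioi] with A hA
    have hA' : (0 : ℝ) < A := hA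
    have h4 := kk_nonneg (zero_le_one.trans hκ) hA'.le
    rw [Real.norm_eq_abs, abs_of_nonneg (mul_nonneg (h0 A hA'.le) h4)]
    exact mul_le_mul_of_nonneg_right (hb A hA'.le) h4

/-- one value of `κ` -/
lemma step {u : ℕ → ℝ → ℝ} {B : ℝ → ℝ} {η a b C κ : ℝ} (hκ : 1 ≤ κ) (ha : 0 < a) (hab : a < b)
    (hη : 0 < η)
    (hi : ∀ᶠ q in atTop, IntegrableOn (fun A => u q A * kk κ A) (Ioi 0))
    (hB : IntegrableOn (fun A => B A * kk κ A) (Ioi 0))
    (hBu : ∀ᶠ q in atTop, ∀ A, 0 < A → -u q A ≤ B A) (hB0 : ∀ A, 0 < A → 0 ≤ B A)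
    (hlo : ∀ A ε : ℝ, 0 < A → 0 < ε → ∀ᶠ q in atTop, -ε ≤ u q A)
    (hC : ∀ᶠ q in atTop, ∫ A in Ioi (0 : ℝ), u q A * kk κ A ≤ C)
    (hf : ∃ᶠ q in atTop, ∀ A ∈ Icc a b, η ≤ u q A) :
    (b - a) * (η * (8 * κ * a / (4 * κ ^ 2 + b ^ 2) ^ 2)) ≤ C := by
  set c := 8 * κ * a / (4 * κ ^ 2 + b ^ 2) ^ 2 with hc
  have hκ0 : (0 : ℝ) ≤ κ := zero_le_one.trans hκ
  set M : ℕ → ℝ → ℝ := fun q A => max (-(u q A * kk κ A)) 0 with hM
  have hlim : Tendsto (fun q => ∫ A in Ioi (0 : ℝ), M q A) atTop (𝓝 0) := by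
    have h1 : Tendsto (fun q => ∫ A in Ioi (0 : ℝ), M q A) atTop
        (𝓝 (∫ A in Ioi (0 : ℝ), (0 : ℝ))) := by
      refine tendsto_integral_filter_of_dominated_convergence (fun A => B A * kk κ A) ?_ ?_ hB ?_
      · filter_upwards [hi] with q hq
        exact hq.aestronglyMeasurable.neg.sup aestronglyMeasurable_const
      · filter_upwards [hBu] with q hq
        filter_upwards [ae_restrict_mem measurableSet_Ioi] with A hA
        have hA' : (0 : ℝ) < A := hA
        have h4 := kk_nonneg hκ0 hA'.le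
        rw [Real.norm_eq_abs, abs_of_nonneg (le_max_right _ _)]
        refine max_le ?_ (mul_nonneg (hB0 A hA') h4)
        rw [← neg_mul]
        exact mul_le_mul_of_nonneg_right (hq A hA') h4
      · filter_upwards [ae_restrict_mem measurableSet_Ioi] with A hA
        have hA' : (0 : ℝ) < A := hA
        have h4 := kk_nonneg hκ0 hA'.le
        refine tendsto_order.2 ⟨fun x hx => Eventually.of_forall fun q =>
          lt_of_lt_of_le hx (le_max_right _ _), fun x hx => ?_⟩
        have h5 : 0 < x / (2 * (kk κ A + 1)) := by positivity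
        filter_upwards [hlo A _ hA' h5] with q hq
        refine max_lt ?_ hx
        have h6 : -(u q A * kk κ A) ≤ x / (2 * (kk κ A + 1)) * kk κ A := by
          rw [← neg_mul]
          exact mul_le_mul_of_nonneg_right (by linarith) h4
        have h7 : x / (2 * (kk κ A + 1)) * kk κ A < x := by
          rw [div_mul_eq_mul_div, div_lt_iff₀ (by positivity)]
          nlinarith
        exact lt_of_le_of_lt h6 h7
    rwa [integral_zero] at h1
  refine le_of_forall_pos_le_add fun δ hδ => ?_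
  obtain ⟨q, hq1, hq2, hq3, hq4⟩ := (hf.and_eventually
    (hi.and (hC.and (hlim.eventually_lt_const hδ)))).exists
  have hMi : IntegrableOn (M q) (Ioi 0) := hq2.neg.pos_part
  have hle : ∫ A in Ioi (0 : ℝ), (Icc a b).indicator (fun _ => η * c) A ≤
      ∫ A in Ioi (0 : ℝ), (u q A * kk κ A + M q A) := by
    refine setIntegral_mono_on ?_ (hq2.add hMi) measurableSet_Ioi fun A hA => ?_
    · have : IntegrableOn (fun _ : ℝ => η * c) (Icc a b) := integrableOn_const (by simp)
      exact (this.integrable_indicator measurableSet_Icc).integrableOn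
    · have hA' : (0 : ℝ) < A := hA
      have h4 := kk_nonneg hκ0 hA'.le
      have h0 : 0 ≤ M q A := le_max_right _ _
      have h00 : -(u q A * kk κ A) ≤ M q A := le_max_left _ _
      by_cases hAI : A ∈ Icc a b
      · rw [indicator_of_mem hAI]
        have h5 := kk_lower hκ ha hAI
        have h6 : η * c ≤ u q A * kk κ A :=
          (mul_le_mul_of_nonneg_left h5 hη.le).trans (mul_le_mul_of_nonneg_right (hq1 A hAI) h4)
        linarith
      · rw [indicator_of_notMem hAI]
        linarith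
  rw [setIntegral_indicator measurableSet_Icc, integral_add hq2 hMi] at hle
  have hset : Ioi (0 : ℝ) ∩ Icc a b = Icc a b :=
    inter_eq_right.2 fun x hx => lt_of_lt_of_le ha hx.1
  rw [hset, setIntegral_const, Real.volume_real_Icc_of_le hab.le, smul_eq_mul] at hle
  linarith

lemma core {u : ℕ → ℝ → ℝ} {B : ℝ → ℝ} {η a b C : ℝ} (ha : 0 < a) (hab : a < b) (hη : 0 < η)
    (hi : ∀ κ : ℝ, 1 ≤ κ → ∀ᶠ q in atTop, IntegrableOn (fun A => u q A * kk κ A) (Ioi 0))
    (hB : ∀ κ : ℝ, 1 ≤ κ → IntegrableOn (fun A => B A * kk κ A) (Ioi 0))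
    (hBu : ∀ᶠ q in atTop, ∀ A, 0 < A → -u q A ≤ B A) (hB0 : ∀ A, 0 < A → 0 ≤ B A)
    (hlo : ∀ A ε : ℝ, 0 < A → 0 < ε → ∀ᶠ q in atTop, -ε ≤ u q A)
    (hC : ∀ κ : ℝ, 1 ≤ κ → ∀ᶠ q in atTop,
      ∫ A in Ioi (0 : ℝ), u q A * kk κ A ≤ C * Real.exp (-κ))
    (hf : ∃ᶠ q in atTop, ∀ A ∈ Icc a b, η ≤ u q A) : False := by
  have h1 : ∀ᶠ κ : ℝ in atTop, (b - a) * (η * (8 * a / 25)) ≤ C * (κ ^ 3 * Real.exp (-κ)) := by
    filter_upwards [eventually_ge_atTop (1 : ℝ), eventually_ge_atTop b] with κ hκ hκb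
    have h2 := step hκ ha hab hη (hi κ hκ) (hB κ hκ) hBu hB0 hlo (hC κ hκ) hf
    have hκ0 : (0 : ℝ) < κ := lt_of_lt_of_le one_pos hκ
    have h3 : 8 * a / 25 / κ ^ 3 ≤ 8 * κ * a / (4 * κ ^ 2 + b ^ 2) ^ 2 := by
      have h4 : b ^ 2 ≤ κ ^ 2 := pow_le_pow_left₀ (ha.trans hab).le hκb 2
      have h5 : (4 * κ ^ 2 + b ^ 2) ^ 2 ≤ 25 * κ ^ 4 := by
        have := pow_le_pow_left₀ (by positivity : (0 : ℝ) ≤ 4 * κ ^ 2 + b ^ 2)
          (by linarith : 4 * κ ^ 2 + b ^ 2 ≤ 5 * κ ^ 2) 2
        nlinarith [this]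
      rw [div_div, div_le_div_iff₀ (by positivity) (by positivity)]
      calc 8 * a * (4 * κ ^ 2 + b ^ 2) ^ 2 ≤ 8 * a * (25 * κ ^ 4) :=
            mul_le_mul_of_nonneg_left h5 (by linarith)
        _ = 8 * κ * a * (25 * κ ^ 3) := by ring
    have h6 : (b - a) * (η * (8 * a / 25 / κ ^ 3)) ≤ C * Real.exp (-κ) :=
      (mul_le_mul_of_nonneg_left (mul_le_mul_of_nonneg_left h3 hη.le) (by linarith)).trans h2
    have h7 : (b - a) * (η * (8 * a / 25 / κ ^ 3)) * κ ^ 3 = (b - a) * (η * (8 * a / 25)) := by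
      field_simp
    have h8 := mul_le_mul_of_nonneg_right h6 (by positivity : (0 : ℝ) ≤ κ ^ 3)
    rw [h7] at h8
    linarith [h8, mul_comm (κ ^ 3) (Real.exp (-κ)),
      (by ring : C * Real.exp (-κ) * κ ^ 3 = C * (κ ^ 3 * Real.exp (-κ)))]
  have h2 : Tendsto (fun κ : ℝ => C * (κ ^ 3 * Real.exp (-κ))) atTop (𝓝 0) := by
    simpa using (Real.tendsto_pow_mul_exp_neg_atTop_nhds_zero 3).const_mul C
  have h3 := ge_of_tendsto h2 h1
  have h4 : 0 < (b - a) * (η * (8 * a / 25)) := by
    have : 0 < b - a := by linarith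
    positivity
  linarith

end One

open One in
/-- **WV-one** -/
theorem t_one (hn : S_nl) : S_one := by
  intro f hmono hC hI hside A0 hA0
  obtain ⟨nc, nm, n1, n2, ni⟩ := hn
  obtain ⟨C, hC⟩ := hC
  obtain ⟨C', hI⟩ := hI
  have hfi : ∀ κ : ℝ, 1 ≤ κ → ∀ᶠ q in atTop, IntegrableOn (fun A => f q A * kk κ A) (Ioi 0) := by
    intro κ hκ
    filter_upwards [hmono, hC] with q hq hq2
    exact f_int hκ hq.1 hq.2 hq2
  have hn0 : ∀ A : ℝ, 0 < A → 0 ≤ nl A := fun A hA => zero_le_one.trans (n1 A hA.le)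
  rcases hside with hup | hlo
  · -- the upper bound is known
    refine tendsto_order.2 ⟨fun x hx => ?_, fun x hx => ?_⟩
    · by_contra hne
      have hfr : ∃ᶠ q in atTop, f q A0 ≤ x := by
        simpa only [not_eventually, not_lt] using hne
      set ε := nl A0 - x with hε
      have hε0 : 0 < ε := by linarith
      obtain ⟨h, hh, hh2⟩ := Metric.continuousAt_iff.1 nc.continuousAt (ε / 2) (by linarith)
      set b := A0 with hb
      set a := A0 - min (h / 2) (A0 / 2) with ha
      have hmin : 0 < min (h / 2) (A0 / 2) := lt_min (by linarith) (by linarith)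
      have ha0 : 0 < a := by
        have := min_le_right (h / 2) (A0 / 2)
        linarith
      refine core (u := fun q A => nl A - f q A) (B := fun A => max C 0 * (1 + A) ^ (3 / 2 : ℝ))
        (η := ε / 2) (a := a) (b := b) (C := C') ha0 (by linarith) (by linarith) ?_ ?_ ?_ ?_ ?_ ?_ ?_
      · intro κ hκ
        filter_upwards [hfi κ hκ] with q hq
        have h1 := (ni κ (by linarith)).sub hq
        refine h1.congr (Eventually.of_forall fun A => ?_)
        simp only [Pi.sub_apply]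
        ring
      · intro κ hκ
        exact bound_int hκ _
      · filter_upwards [hC] with q hq A hA
        have h1 := hq A hA.le
        have h2 := hn0 A hA
        have h3 : C * (1 + A) ^ (3 / 2 : ℝ) ≤ max C 0 * (1 + A) ^ (3 / 2 : ℝ) :=
          mul_le_mul_of_nonneg_right (le_max_left _ _)
            (Real.rpow_pos_of_pos (by linarith) _).le
        linarith
      · intro A hA
        exact mul_nonneg (le_max_right _ _) (Real.rpow_pos_of_pos (by linarith) _).le
      · intro A e hA he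
        filter_upwards [hup A e hA he] with q hq
        linarith
      · intro κ hκ
        filter_upwards [hI κ hκ, hfi κ hκ] with q hq hq2
        have h1 : ∫ A in Ioi (0 : ℝ), (nl A - f q A) * kk κ A =
            (∫ A in Ioi (0 : ℝ), nl A * kk κ A) - ∫ A in Ioi (0 : ℝ), f q A * kk κ A := by
          rw [← integral_sub (ni κ (by linarith)) hq2]
          refine integral_congr_ae (Eventually.of_forall fun A => ?_)
          simp only
          ring
        rw [h1]
        have := (abs_le.1 hq).1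
        linarith
      · refine (hfr.and_eventually hmono).mono fun q hq A hA => ?_
        have h1 : f q A ≤ f q A0 := hq.2.1 (mem_Ici.2 (ha0.le.trans hA.1)) (mem_Ici.2 hA0.le) hA.2
        have h2 : dist A A0 < h := by
          rw [Real.dist_eq, abs_sub_comm, abs_of_nonneg (by linarith [hA.2])]
          have := hA.1
          have h3 := min_le_left (h / 2) (A0 / 2)
          linarith
        have h4 := hh2 h2
        rw [Real.dist_eq] at h4
        have h5 := (abs_lt.1 h4).1
        have h6 := hq.1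
        linarith
    · have h1 : 0 < (x - nl A0) / 2 := by linarith
      filter_upwards [hup A0 _ hA0 h1] with q hq
      linarith
  · -- the lower bound is known
    refine tendsto_order.2 ⟨fun x hx => ?_, fun x hx => ?_⟩
    · have h1 : 0 < (nl A0 - x) / 2 := by linarith
      filter_upwards [hlo A0 _ hA0 h1] with q hq
      linarith
    · by_contra hne
      have hfr : ∃ᶠ q in atTop, x ≤ f q A0 := by
        simpa only [not_eventually, not_lt] using hne
      set ε := x - nl A0 with hε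
      have hε0 : 0 < ε := by linarith
      obtain ⟨h, hh, hh2⟩ := Metric.continuousAt_iff.1 nc.continuousAt (ε / 2) (by linarith)
      refine core (u := fun q A => f q A - nl A) (B := nl)
        (η := ε / 2) (a := A0) (b := A0 + h / 2) (C := C') hA0 (by linarith) (by linarith)
        ?_ ?_ ?_ hn0 ?_ ?_ ?_
      · intro κ hκ
        filter_upwards [hfi κ hκ] with q hq
        have h1 := hq.sub (ni κ (by linarith))
        refine h1.congr (Eventually.of_forall fun A => ?_)
        simp only [Pi.sub_apply]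
        ring
      · intro κ hκ
        exact ni κ (by linarith)
      · filter_upwards [hmono] with q hq A hA
        have h1 := hq.2 A hA.le
        linarith
      · intro A e hA he
        filter_upwards [hlo A e hA he] with q hq
        linarith
      · intro κ hκ
        filter_upwards [hI κ hκ, hfi κ hκ] with q hq hq2
        have h1 : ∫ A in Ioi (0 : ℝ), (f q A - nl A) * kk κ A =
            (∫ A in Ioi (0 : ℝ), f q A * kk κ A) - ∫ A in Ioi (0 : ℝ), nl A * kk κ A := by
          rw [← integral_sub hq2 (ni κ (by linarith))]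
          refine integral_congr_ae (Eventually.of_forall fun A => ?_)
          simp only
          ring
        rw [h1]
        exact (abs_le.1 hq).2
      · refine (hfr.and_eventually hmono).mono fun q hq A hA => ?_
        have h1 : f q A0 ≤ f q A :=
          hq.2.1 (mem_Ici.2 hA0.le) (mem_Ici.2 (hA0.le.trans hA.1)) hA.1
        have h2 : dist A A0 < h := by
          rw [Real.dist_eq, abs_of_nonneg (by linarith [hA.1])]
          have := hA.2
          linarith
        have h4 := hh2 h2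
        rw [Real.dist_eq] at h4
        have h5 := (abs_lt.1 h4).2
        have h6 := hq.1
        linarith

end Pool.Agent.NH13.WV
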