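import Pool.Agent.NH13.WV.Stm2

/-!
# WV-4: crude bound for the pairs
-/

set_option autoImplicit false

open Complex MeasureTheory Filter Topology Set

namespace Pool.Agent.NH13.WV

open Pool.Agent.NH13.UV

namespace Pwb

theorem one_le_logq {q : ℕ} (hq : 3 ≤ q) : 1 ≤ Real.log q := by
  have hq3 : (3 : ℝ) ≤ q := by exact_mod_cast hq
  rw [Real.le_log_iff_exp_le (by linarith)]
  have h1 : Real.exp 1 < 3 := lt_trans Real.exp_one_lt_d9 (by norm_num)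
  linarith

theorem log_le {d : ℝ} (hd : 0 ≤ d) : 1 + Real.log (2 + d) ≤ 4 * (1 + d) ^ (1 / 2 : ℝ) := by
  have h1 : Real.log (2 + d) ≤ (2 + d) ^ (1 / 2 : ℝ) / (1 / 2) :=
    Real.log_le_rpow_div (by linarith) (by norm_num)
  have h2 : (1 : ℝ) ≤ (1 + d) ^ (1 / 2 : ℝ) := Real.one_le_rpow (by linarith) (by norm_num)
  have h3 : (2 + d) ^ (1 / 2 : ℝ) ≤ (3 / 2) * (1 + d) ^ (1 / 2 : ℝ) := by
    rw [← Real.sqrt_eq_rpow, ← Real.sqrt_eq_rpow]
    have h4 : (3 / 2 : ℝ) = Real.sqrt (9 / 4) := by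
      rw [show (9 / 4 : ℝ) = (3 / 2) ^ 2 by norm_num]
      exact (Real.sqrt_sq (by norm_num)).symm
    rw [h4, ← Real.sqrt_mul (by norm_num)]
    refine Real.sqrt_le_sqrt ?_
    linarith
  linarith

end Pwb

open Pwb in
theorem t_PWb (h3 : S_nr) (hw : S_ws) : S_PWb := by
  obtain ⟨C₁, hC₁, h3⟩ := h3
  obtain ⟨C₂, hC₂, hw⟩ := hw
  refine ⟨8 * C₁ * C₂, by positivity, ?_⟩
  intro q _ χ hχ hq d hd
  obtain ⟨hs, ht⟩ := hw q χ hχ hq
  have hlq := one_le_logq hq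
  have h1d : (0 : ℝ) < 1 + d := by linarith
  obtain ⟨K, hK⟩ : ∃ K, K = 8 * C₁ * Real.log q * (1 + d) ^ (3 / 2 : ℝ) := ⟨_, rfl⟩
  have hK0 : 0 < K := by
    rw [hK]
    positivity
  have hle : ∀ s : Zs χ, (mu χ s : ℝ) * (nr χ d (s : ℂ).im : ℝ) / (1 / 4 + (s : ℂ).im ^ 2) ≤
      K * ((mu χ s : ℝ) * (1 + Real.log (2 + |(s : ℂ).im|)) / (1 / 4 + (s : ℂ).im ^ 2)) := by
    intro s
    have h4 := (h3 q χ hχ d (s : ℂ).im hd).2
    have ha : 0 ≤ Real.log (2 + |(s : ℂ).im|) := Real.log_nonneg (by linarith [abs_nonneg (s : ℂ).im])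
    have hb : 0 ≤ Real.log (2 + d) := Real.log_nonneg (by linarith)
    have hb4 := log_le hd
    set a := Real.log (2 + |(s : ℂ).im|)
    set b := Real.log (2 + d)
    have h5 : 1 + Real.log q + a + b ≤ 2 * Real.log q * ((1 + a) * (1 + b)) := by
      have h6 : 1 + a + b ≤ (1 + a) * (1 + b) := by nlinarith [mul_nonneg ha hb]
      have h7 : 1 + Real.log q + a + b ≤ 2 * Real.log q * (1 + a + b) := by nlinarith
      exact h7.trans (mul_le_mul_of_nonneg_left h6 (by linarith))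
    have h8 : (nr χ d (s : ℂ).im : ℝ) ≤ K * (1 + a) := by
      have hpow : (1 + d) * (1 + d) ^ (1 / 2 : ℝ) = (1 + d) ^ (3 / 2 : ℝ) := by
        nth_rewrite 1 [← Real.rpow_one (1 + d)]
        rw [← Real.rpow_add h1d]
        norm_num
      calc (nr χ d (s : ℂ).im : ℝ) ≤ C₁ * (1 + d) * (1 + Real.log q + a + b) := h4
        _ ≤ C₁ * (1 + d) * (2 * Real.log q * ((1 + a) * (4 * (1 + d) ^ (1 / 2 : ℝ)))) := by
            refine mul_le_mul_of_nonneg_left (h5.trans ?_) (by positivity)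
            refine mul_le_mul_of_nonneg_left ?_ (by linarith)
            exact mul_le_mul_of_nonneg_left hb4 (by linarith)
        _ = 8 * C₁ * Real.log q * ((1 + d) * (1 + d) ^ (1 / 2 : ℝ)) * (1 + a) := by ring
        _ = K * (1 + a) := by rw [hpow, hK]
    have h9 : (0 : ℝ) < 1 / 4 + (s : ℂ).im ^ 2 := by positivity
    rw [← mul_div_assoc]
    refine div_le_div_of_nonneg_right ?_ h9.le
    calc (mu χ s : ℝ) * (nr χ d (s : ℂ).im : ℝ) ≤ (mu χ s : ℝ) * (K * (1 + a)) :=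
          mul_le_mul_of_nonneg_left h8 (Nat.cast_nonneg _)
      _ = K * ((mu χ s : ℝ) * (1 + a)) := by ring
  have hnn : ∀ s : Zs χ, 0 ≤ (mu χ s : ℝ) * (nr χ d (s : ℂ).im : ℝ) / (1 / 4 + (s : ℂ).im ^ 2) :=
    fun s => by positivity
  have hsum : Summable (fun s : Zs χ =>
      (mu χ s : ℝ) * (nr χ d (s : ℂ).im : ℝ) / (1 / 4 + (s : ℂ).im ^ 2)) :=
    Summable.of_nonneg_of_le hnn hle (hs.mul_left K)
  refine ⟨hsum, ?_⟩
  unfold PW
  calc ∑' s : Zs χ, (mu χ s : ℝ) * (nr χ d (s : ℂ).im : ℝ) / (1 / 4 + (s : ℂ).im ^ 2)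
      ≤ ∑' s : Zs χ, K * ((mu χ s : ℝ) * (1 + Real.log (2 + |(s : ℂ).im|)) /
        (1 / 4 + (s : ℂ).im ^ 2)) := hsum.tsum_le_tsum hle (hs.mul_left K)
    _ = K * ∑' s : Zs χ, (mu χ s : ℝ) * (1 + Real.log (2 + |(s : ℂ).im|)) /
        (1 / 4 + (s : ℂ).im ^ 2) := tsum_mul_left
    _ ≤ K * (C₂ * Real.log q) := mul_le_mul_of_nonneg_left ht hK0.le
    _ = 8 * C₁ * C₂ * Real.log q ^ 2 * (1 + d) ^ (3 / 2 : ℝ) := by
        rw [hK]
        ring

end Pool.Agent.NH13.WV
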