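import Pool.Agent.NH13.WV.Stm2

/-! WV-par: the smoothed pair sum as an integral of the pair counts (Tonelli). -/

set_option autoImplicit false

open Complex MeasureTheory Filter Topology Set
open scoped ComplexConjugate

namespace Pool.Agent.NH13.WV

open Pool.Agent.NH13.UV

namespace ParAux

/-- the kernel -/
noncomputable def k (x d : ℝ) : ℝ := 4 * Real.pi * x * d / (4 * x ^ 2 + d ^ 2) ^ 2

theorem k_nonneg {x d : ℝ} (hx : 0 < x) (hd : 0 ≤ d) : 0 ≤ k x d := by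
  have := Real.pi_pos
  unfold k
  positivity

theorem hasDeriv (x : ℝ) (hx : 0 < x) (d : ℝ) :
    HasDerivAt (fun d => -(2 * Real.pi * x / (4 * x ^ 2 + d ^ 2))) (k x d) d := by
  have h1 : HasDerivAt (fun d : ℝ => 4 * x ^ 2 + d ^ 2) (2 * d) d := by
    simpa using (hasDerivAt_pow 2 d).const_add (4 * x ^ 2)
  have h2 : 4 * x ^ 2 + d ^ 2 ≠ 0 := by positivity
  have h3 := ((hasDerivAt_const d (2 * Real.pi * x)).div h1 h2).neg
  have h4 : k x d = -((0 * (4 * x ^ 2 + d ^ 2) - 2 * Real.pi * x * (2 * d)) /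
      (4 * x ^ 2 + d ^ 2) ^ 2) := by
    unfold k
    ring
  rw [h4]
  exact h3

theorem tend (x : ℝ) :
    Tendsto (fun d : ℝ => -(2 * Real.pi * x / (4 * x ^ 2 + d ^ 2))) atTop (𝓝 0) := by
  have h1 : Tendsto (fun d : ℝ => 4 * x ^ 2 + d ^ 2) atTop atTop :=
    tendsto_atTop_add_const_left _ _ (tendsto_pow_atTop two_ne_zero)
  have h2 := (h1.const_div_atTop (2 * Real.pi * x)).neg
  rwa [neg_zero] at h2

theorem lint (x c : ℝ) (hx : 0 < x) (hc : 0 ≤ c) :
    ∫⁻ d in Ioi c, ENNReal.ofReal (k x d) =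
      ENNReal.ofReal (2 * Real.pi * x / (4 * x ^ 2 + c ^ 2)) := by
  have hi : IntegrableOn (k x) (Ioi c) :=
    integrableOn_Ioi_deriv_of_nonneg' (fun d _ => hasDeriv x hx d)
      (fun d hd => k_nonneg hx (hc.trans (le_of_lt hd))) (tend x)
  have h2 : ∫ d in Ioi c, k x d = 0 - (-(2 * Real.pi * x / (4 * x ^ 2 + c ^ 2))) :=
    integral_Ioi_of_hasDerivAt_of_tendsto' (fun d _ => hasDeriv x hx d) hi (tend x)
  rw [← ofReal_integral_eq_lintegral_ofReal hi, h2, zero_sub, neg_neg]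
  filter_upwards [self_mem_ae_restrict (measurableSet_Ioi (a := c))] with d hd
  exact k_nonneg hx (hc.trans (le_of_lt hd))

theorem lintF (x c A : ℝ) (hx : 0 < x) (hc : 0 ≤ c) (hA : 0 ≤ A) :
    ∫⁻ d in Ioi (0 : ℝ), ENNReal.ofReal (if c ≤ d then A * k x d else 0) =
      ENNReal.ofReal (A * (2 * Real.pi * x / (4 * x ^ 2 + c ^ 2))) := by
  have h1 : ∀ d : ℝ, ENNReal.ofReal (if c ≤ d then A * k x d else 0) =
      (Ici c).indicator (fun d => ENNReal.ofReal A * ENNReal.ofReal (k x d)) d := by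
    intro d
    by_cases h : c ≤ d
    · rw [if_pos h, indicator_of_mem (mem_Ici.2 h), ENNReal.ofReal_mul hA]
    · rw [if_neg h, indicator_of_notMem (fun h' => h (mem_Ici.1 h')), ENNReal.ofReal_zero]
  simp_rw [h1]
  rw [lintegral_indicator measurableSet_Ici, Measure.restrict_restrict measurableSet_Ici]
  have h2 : (Ici c ∩ Ioi (0 : ℝ) : Set ℝ) =ᵐ[volume] (Ioi c : Set ℝ) := by
    have h3 : (Ioi c : Set ℝ) =ᵐ[volume] (Ici c : Set ℝ) := Ioi_ae_eq_Ici
    filter_upwards [h3] with d hd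
    have hd' : (d ∈ Ioi c) = (d ∈ Ici c) := hd
    apply propext
    change d ∈ Ici c ∩ Ioi (0 : ℝ) ↔ d ∈ Ioi c
    constructor
    · intro h
      rw [hd']
      exact h.1
    · intro h
      refine ⟨?_, mem_Ioi.2 (lt_of_le_of_lt hc (mem_Ioi.1 h))⟩
      rw [← hd']
      exact h
  rw [setLIntegral_congr h2, lintegral_const_mul' _ _ ENNReal.ofReal_ne_top, lint x c hx hc,
    ← ENNReal.ofReal_mul hA]

section

variable {q : ℕ} [NeZero q] (χ : DirichletCharacter ℂ q)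

theorem countable_Z (h : ∀ d : ℝ, 0 ≤ d → {s : ℂ | s ∈ Zs χ ∧ |s.im - 0| ≤ d}.Finite) :
    Countable (Zs χ) := by
  have h1 : Zs χ ⊆ ⋃ n : ℕ, {s : ℂ | s ∈ Zs χ ∧ |s.im - 0| ≤ (n : ℝ)} := by
    intro s hs
    obtain ⟨n, hn⟩ := exists_nat_ge |s.im - 0|
    exact mem_iUnion.2 ⟨n, hs, hn⟩
  exact ((countable_iUnion fun n : ℕ => (h n (Nat.cast_nonneg n)).countable).mono h1).to_subtype

theorem nr_hasSum (d t : ℝ) (h : {s : ℂ | s ∈ Zs χ ∧ |s.im - t| ≤ d}.Finite) :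
    HasSum (fun w : Zs χ => if |(w : ℂ).im - t| ≤ d then (mu χ w : ℝ) else 0) (nr χ d t : ℝ) := by
  classical
  have h1 : (nr χ d t : ℝ) = ∑ w ∈ h.toFinset, (mu χ w : ℝ) := by
    unfold nr
    rw [finsum_mem_eq_finite_toFinset_sum _ h]
    push_cast
    rfl
  have h2 : HasSum (fun w : ℂ => {s : ℂ | s ∈ Zs χ ∧ |s.im - t| ≤ d}.indicator
      (fun w => (mu χ w : ℝ)) w) (nr χ d t : ℝ) := by
    rw [h1]
    have h3 : ∑ w ∈ h.toFinset, (mu χ w : ℝ) = ∑ w ∈ h.toFinset,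
        {s : ℂ | s ∈ Zs χ ∧ |s.im - t| ≤ d}.indicator (fun w => (mu χ w : ℝ)) w := by
      refine Finset.sum_congr rfl fun w hw => ?_
      rw [indicator_of_mem ((Finite.mem_toFinset h).1 hw)]
    rw [h3]
    refine hasSum_sum_of_ne_finset_zero fun w hw => ?_
    exact indicator_of_notMem (fun h' => hw ((Finite.mem_toFinset h).2 h')) _
  have h4 : (fun w : ℂ => {s : ℂ | s ∈ Zs χ ∧ |s.im - t| ≤ d}.indicator
      (fun w => (mu χ w : ℝ)) w) = (Zs χ).indicator
        (fun w => if |w.im - t| ≤ d then (mu χ w : ℝ) else 0) := by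
    funext w
    by_cases h5 : w ∈ Zs χ
    · by_cases h6 : |w.im - t| ≤ d
      · rw [indicator_of_mem (show w ∈ {s : ℂ | s ∈ Zs χ ∧ |s.im - t| ≤ d} from ⟨h5, h6⟩),
          indicator_of_mem h5, if_pos h6]
      · rw [indicator_of_notMem (fun h' => h6 h'.2), indicator_of_mem h5, if_neg h6]
    · rw [indicator_of_notMem (fun h' => h5 h'.1), indicator_of_notMem h5]
  rw [h4] at h2
  exact (hasSum_subtype_iff_indicator (f := fun w : ℂ => if |w.im - t| ≤ d then (mu χ w : ℝ) else 0)).2 h2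

/-- the weight of a zero -/
noncomputable def a (s : Zs χ) : ℝ := (mu χ s : ℝ) / (1 / 4 + (s : ℂ).im ^ 2)

theorem a_nonneg (s : Zs χ) : 0 ≤ a χ s := by
  unfold a
  positivity

/-- the terms -/
noncomputable def F (x d : ℝ) (i : Zs χ × Zs χ) : ℝ :=
  if |(i.2 : ℂ).im - (i.1 : ℂ).im| ≤ d then a χ i.1 * (mu χ i.2 : ℝ) * k x d else 0

/-- the integrals of the terms -/
noncomputable def II (x : ℝ) (i : Zs χ × Zs χ) : ℝ :=
  a χ i.1 * (mu χ i.2 : ℝ) *
    (2 * Real.pi * x / (4 * x ^ 2 + |(i.2 : ℂ).im - (i.1 : ℂ).im| ^ 2))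

theorem F_nonneg {x : ℝ} (hx : 0 < x) (d : ℝ) (i : Zs χ × Zs χ) : 0 ≤ F χ x d i := by
  unfold F
  split_ifs with h
  · exact mul_nonneg (mul_nonneg (a_nonneg χ _) (Nat.cast_nonneg _))
      (k_nonneg hx ((abs_nonneg _).trans h))
  · exact le_rfl

theorem II_nonneg {x : ℝ} (hx : 0 < x) (i : Zs χ × Zs χ) : 0 ≤ II χ x i := by
  unfold II
  have h1 := a_nonneg χ i.1
  have h2 := Real.pi_pos
  positivity

theorem F_hasSum {x d : ℝ} (hx : 0 < x)
    (h : ∀ t : ℝ, {s : ℂ | s ∈ Zs χ ∧ |s.im - t| ≤ d}.Finite)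
    (hs : Summable (fun s : Zs χ => (mu χ s : ℝ) * (nr χ d (s : ℂ).im : ℝ) /
      (1 / 4 + (s : ℂ).im ^ 2))) :
    HasSum (F χ x d) (PW χ d * k x d) := by
  have h1 : ∀ s : Zs χ, HasSum (fun w : Zs χ => F χ x d (s, w))
      (a χ s * k x d * (nr χ d (s : ℂ).im : ℝ)) := by
    intro s
    have := (nr_hasSum χ d (s : ℂ).im (h _)).mul_left (a χ s * k x d)
    refine this.congr_fun ?_ |> fun h => h
    intro w
    unfold F
    simp only
    split_ifs
    · ring
    · ring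
  have h2 : (fun s : Zs χ => ∑' w : Zs χ, F χ x d (s, w)) =
      fun s : Zs χ => (mu χ s : ℝ) * (nr χ d (s : ℂ).im : ℝ) / (1 / 4 + (s : ℂ).im ^ 2) *
        k x d := by
    funext s
    rw [(h1 s).tsum_eq]
    unfold a
    ring
  have h3 : Summable (F χ x d) := by
    rw [summable_prod_of_nonneg (fun i => F_nonneg χ hx d i)]
    refine ⟨fun s => (h1 s).summable, ?_⟩
    rw [h2]
    exact hs.mul_right _
  have h4 : ∑' i, F χ x d i = PW χ d * k x d := by
    rw [h3.tsum_prod, h2, tsum_mul_right]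
    rfl
  rw [← h4]
  exact h3.hasSum

theorem comp_kernel {x : ℝ} (hx : 0 < x) (δ : ℝ) :
    2 * Real.pi * x / (4 * x ^ 2 + δ ^ 2) ≤
      2 * Real.pi * x * (1 + 1 / (4 * x ^ 2)) * (1 / (1 + δ ^ 2)) := by
  have h0 : 0 < 4 * x ^ 2 + δ ^ 2 := by positivity
  have h1 : 0 < 1 + δ ^ 2 := by positivity
  have h2 : 1 + δ ^ 2 ≤ (1 + 1 / (4 * x ^ 2)) * (4 * x ^ 2 + δ ^ 2) := by
    have : (1 + 1 / (4 * x ^ 2)) * (4 * x ^ 2 + δ ^ 2) =
        4 * x ^ 2 + δ ^ 2 + 1 + δ ^ 2 / (4 * x ^ 2) := by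
      field_simp
      ring
    rw [this]
    have h3 : 0 ≤ δ ^ 2 / (4 * x ^ 2) := by positivity
    have h4 : 0 ≤ 4 * x ^ 2 := by positivity
    linarith
  have h5 : 1 / (4 * x ^ 2 + δ ^ 2) ≤ (1 + 1 / (4 * x ^ 2)) * (1 / (1 + δ ^ 2)) := by
    rw [mul_one_div, div_le_div_iff₀ h0 h1, one_mul]
    exact h2
  calc 2 * Real.pi * x / (4 * x ^ 2 + δ ^ 2) = 2 * Real.pi * x * (1 / (4 * x ^ 2 + δ ^ 2)) := by
        ring
    _ ≤ 2 * Real.pi * x * ((1 + 1 / (4 * x ^ 2)) * (1 / (1 + δ ^ 2))) := by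
        have := Real.pi_pos
        gcongr
    _ = _ := by ring

end

end ParAux

open ParAux in
theorem t_par (h2 : S_cnt) (h3 : S_nr) (hw : S_ws) (h4 : S_PWb) : S_par := by
  intro q _ χ hχ hq x hx
  have hpi := Real.pi_pos
  obtain ⟨C2, hC2, h2⟩ := h2
  obtain ⟨C3, -, h3⟩ := h3
  obtain ⟨Cw, -, hw⟩ := hw
  obtain ⟨C4, -, h4⟩ := h4
  have hfin : ∀ d t : ℝ, 0 ≤ d → {s : ℂ | s ∈ Zs χ ∧ |s.im - t| ≤ d}.Finite :=
    fun d t hd => (h3 q χ hχ d t hd).1
  have : Countable (Zs χ) := countable_Z χ (fun d hd => hfin d 0 hd)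
  have hF : ∀ d : ℝ, 0 ≤ d → HasSum (F χ x d) (PW χ d * k x d) := fun d hd =>
    F_hasSum χ hx (fun t => hfin d t hd) (h4 q χ hχ hq d hd).1
  -- the integrals of the terms are summable
  set M : ℝ := 2 * Real.pi * x * (1 + 1 / (4 * x ^ 2)) with hM
  have hM0 : 0 ≤ M := by positivity
  have hlq : 0 ≤ Real.log q := Real.log_natCast_nonneg q
  have hin : ∀ s : Zs χ, Summable (fun w : Zs χ => II χ x (s, w)) ∧
      ∑' w : Zs χ, II χ x (s, w) ≤
        a χ s * (M * (C2 * (1 + Real.log q + Real.log (2 + |(s : ℂ).im|)))) := by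
    intro s
    obtain ⟨e1, e2⟩ := h2 q χ hχ (s : ℂ).im
    have e3 : ∀ w : Zs χ, II χ x (s, w) ≤
        a χ s * (M * ((mu χ w : ℝ) / (1 + ((s : ℂ).im - (w : ℂ).im) ^ 2))) := by
      intro w
      have e4 := comp_kernel hx ((w : ℂ).im - (s : ℂ).im)
      unfold II
      simp only
      rw [sq_abs, mul_assoc]
      refine mul_le_mul_of_nonneg_left ?_ (a_nonneg χ s)
      calc (mu χ w : ℝ) * (2 * Real.pi * x / (4 * x ^ 2 + ((w : ℂ).im - (s : ℂ).im) ^ 2))
          ≤ (mu χ w : ℝ) * (M * (1 / (1 + ((w : ℂ).im - (s : ℂ).im) ^ 2))) := by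
            gcongr
        _ = M * ((mu χ w : ℝ) / (1 + ((s : ℂ).im - (w : ℂ).im) ^ 2)) := by
            rw [show ((s : ℂ).im - (w : ℂ).im) ^ 2 = ((w : ℂ).im - (s : ℂ).im) ^ 2 by ring]
            ring
    have e5 : Summable (fun w : Zs χ =>
        a χ s * (M * ((mu χ w : ℝ) / (1 + ((s : ℂ).im - (w : ℂ).im) ^ 2)))) :=
      (e1.mul_left M).mul_left (a χ s)
    have e6 : Summable (fun w : Zs χ => II χ x (s, w)) :=
      Summable.of_nonneg_of_le (fun w => II_nonneg χ hx (s, w)) e3 e5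
    refine ⟨e6, (e6.tsum_le_tsum e3 e5).trans ?_⟩
    rw [tsum_mul_left, tsum_mul_left]
    have := a_nonneg χ s
    gcongr
  have hout : Summable (fun s : Zs χ => ∑' w : Zs χ, II χ x (s, w)) := by
    refine Summable.of_nonneg_of_le (fun s => tsum_nonneg fun w => II_nonneg χ hx (s, w))
      (fun s => ?_) ((hw q χ hχ hq).1.mul_left (M * C2 * (1 + Real.log q)))
    refine (hin s).2.trans ?_
    have e1 : 0 ≤ Real.log (2 + |(s : ℂ).im|) :=
      Real.log_nonneg (by linarith [abs_nonneg (s : ℂ).im])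
    have e2 : 1 + Real.log q + Real.log (2 + |(s : ℂ).im|) ≤
        (1 + Real.log q) * (1 + Real.log (2 + |(s : ℂ).im|)) := by
      nlinarith [mul_nonneg hlq e1]
    have e3 := a_nonneg χ s
    calc a χ s * (M * (C2 * (1 + Real.log q + Real.log (2 + |(s : ℂ).im|))))
        ≤ a χ s * (M * (C2 * ((1 + Real.log q) * (1 + Real.log (2 + |(s : ℂ).im|))))) := by
          gcongr
      _ = _ := by
          unfold a
          ring
  have hI : Summable (II χ x) := by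
    rw [summable_prod_of_nonneg (fun i => II_nonneg χ hx i)]
    exact ⟨fun s => (hin s).1, hout⟩
  have hLS : ∑' i, II χ x i = LS χ x := by
    rw [hI.tsum_prod]
    unfold LS
    refine tsum_congr fun s => ?_
    rw [← tsum_mul_left]
    refine tsum_congr fun w => ?_
    unfold II a
    simp only
    rw [sq_abs, show ((w : ℂ).im - (s : ℂ).im) ^ 2 = ((s : ℂ).im - (w : ℂ).im) ^ 2 by ring]
    ring
  -- Tonelli
  have hmeas : ∀ i : Zs χ × Zs χ, Measurable (fun d : ℝ => ENNReal.ofReal (F χ x d i)) := by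
    intro i
    refine ENNReal.measurable_ofReal.comp ?_
    unfold F
    refine Measurable.ite (measurableSet_le measurable_const measurable_id) ?_ measurable_const
    unfold k
    fun_prop
  have hpt : ∀ d : ℝ, 0 ≤ d → ENNReal.ofReal (PW χ d * k x d) =
      ∑' i, ENNReal.ofReal (F χ x d i) := by
    intro d hd
    rw [← (hF d hd).tsum_eq]
    exact ENNReal.ofReal_tsum_of_nonneg (fun i => F_nonneg χ hx d i) (hF d hd).summable
  have hnn : ∀ d : ℝ, 0 ≤ d → 0 ≤ PW χ d * k x d := by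
    intro d hd
    rw [← (hF d hd).tsum_eq]
    exact tsum_nonneg fun i => F_nonneg χ hx d i
  have hlin : ∫⁻ d in Ioi (0 : ℝ), ENNReal.ofReal (PW χ d * k x d) =
      ENNReal.ofReal (LS χ x) := by
    calc ∫⁻ d in Ioi (0 : ℝ), ENNReal.ofReal (PW χ d * k x d)
        = ∫⁻ d in Ioi (0 : ℝ), ∑' i, ENNReal.ofReal (F χ x d i) := by
          refine setLIntegral_congr_fun measurableSet_Ioi fun d hd => ?_
          exact hpt d (le_of_lt hd)
      _ = ∑' i, ∫⁻ d in Ioi (0 : ℝ), ENNReal.ofReal (F χ x d i) :=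
          lintegral_tsum fun i => (hmeas i).aemeasurable
      _ = ∑' i, ENNReal.ofReal (II χ x i) := by
          refine tsum_congr fun i => ?_
          exact lintF x _ _ hx (abs_nonneg _)
            (mul_nonneg (a_nonneg χ _) (Nat.cast_nonneg _))
      _ = ENNReal.ofReal (∑' i, II χ x i) :=
          (ENNReal.ofReal_tsum_of_nonneg (fun i => II_nonneg χ hx i) hI).symm
      _ = ENNReal.ofReal (LS χ x) := by rw [hLS]
  have hae : AEStronglyMeasurable (fun d : ℝ => PW χ d * k x d)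
      (volume.restrict (Ioi (0 : ℝ))) := by
    have e1 : Measurable (fun d : ℝ => (∑' i, ENNReal.ofReal (F χ x d i)).toReal) :=
      (Measurable.tsum hmeas).ennreal_toReal
    refine e1.aestronglyMeasurable.congr ?_
    filter_upwards [self_mem_ae_restrict (measurableSet_Ioi (a := (0 : ℝ)))] with d hd
    have hd' : 0 ≤ d := le_of_lt hd
    rw [← hpt d hd', ENNReal.toReal_ofReal (hnn d hd')]
  have hnae : 0 ≤ᵐ[volume.restrict (Ioi (0 : ℝ))] fun d : ℝ => PW χ d * k x d := by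
    filter_upwards [self_mem_ae_restrict (measurableSet_Ioi (a := (0 : ℝ)))] with d hd
    exact hnn d (le_of_lt hd)
  have hint : IntegrableOn (fun d : ℝ => PW χ d * k x d) (Ioi 0) := by
    refine ⟨hae, ?_⟩
    rw [hasFiniteIntegral_iff_ofReal hnae, hlin]
    exact ENNReal.ofReal_lt_top
  have hLS0 : 0 ≤ LS χ x := by
    rw [← hLS]
    exact tsum_nonneg fun i => II_nonneg χ hx i
  refine ⟨hint, ?_⟩
  have hfinal : ∫ d in Ioi (0 : ℝ), PW χ d * k x d = LS χ x := by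
    rw [integral_eq_lintegral_of_nonneg_ae hnae hae, hlin, ENNReal.toReal_ofReal hLS0]
  exact hfinal.symm

end Pool.Agent.NH13.WV
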