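import Pool.Agent.NH13.WV.Stm2

/-!
# Project WV, WV-6: the mean square of `Re B` and the pairs of zeros
-/

set_option autoImplicit false

open Complex MeasureTheory Filter Topology Set
open scoped ComplexConjugate

namespace Pool.Agent.NH13.WV

open Pool.Agent.NH13.UV

namespace S2

/-- the majorant -/
noncomputable def gj (t : ℝ) : ℝ := 512 * (1 + ‖t‖ ^ 2) ^ (-(7 / 4 : ℝ) / 2)

theorem gj_int : Integrable gj := by
  unfold gj
  refine (integrable_rpow_neg_one_add_norm_sq ?_).const_mul _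
  rw [Module.finrank_self]
  norm_num

theorem gj_nonneg (t : ℝ) : 0 ≤ gj t := by
  unfold gj
  positivity

theorem one_le (t : ℝ) : 1 ≤ 1 + ‖t‖ ^ 2 := by
  have := sq_nonneg ‖t‖
  linarith

theorem wt_le {x : ℝ} (hx : 0 ≤ x) (t : ℝ) : wt x t ≤ 4 * (1 + ‖t‖ ^ 2) ^ (-1 : ℝ) := by
  have h1 : 0 < 1 + ‖t‖ ^ 2 := by linarith [one_le t]
  rw [Real.rpow_neg_one, wt, ← div_eq_mul_inv, div_le_div_iff₀ (by positivity) h1,
    Real.norm_eq_abs, sq_abs]
  nlinarith [sq_nonneg t]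

theorem wt_nonneg (x t : ℝ) : 0 ≤ wt x t := by
  unfold wt
  positivity

theorem wt_le_gj {x : ℝ} (hx : 0 ≤ x) (t : ℝ) : wt x t ≤ gj t := by
  refine (wt_le hx t).trans ?_
  unfold gj
  have h1 : (1 + ‖t‖ ^ 2) ^ (-1 : ℝ) ≤ (1 + ‖t‖ ^ 2) ^ (-(7 / 4 : ℝ) / 2) :=
    Real.rpow_le_rpow_of_exponent_le (one_le t) (by norm_num)
  have h2 : 0 ≤ (1 + ‖t‖ ^ 2) ^ (-1 : ℝ) := by positivity
  linarith

theorem log_le {x : ℝ} (hx : 0 ≤ x) (t : ℝ) :
    Real.log (2 + |t|) ^ 2 * wt x t ≤ gj t := by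
  set P : ℝ := 1 + ‖t‖ ^ 2 with hP
  have hP1 : 1 ≤ P := one_le t
  have hP0 : 0 < P := by linarith
  set u : ℝ := 2 + |t| with hu
  have hu0 : 0 ≤ |t| := abs_nonneg _
  have hu2 : 2 ≤ u := by linarith
  have h1 : u ≤ 3 + |t| := by linarith
  have h2 : u ^ 2 ≤ 18 * P := by
    have h3 : u ^ 2 ≤ (3 + |t|) ^ 2 := pow_le_pow_left₀ (by linarith) h1 2
    rw [hP, Real.norm_eq_abs, sq_abs]
    nlinarith [sq_nonneg (3 - |t|), sq_abs t]
  have h3 : Real.log u ^ 2 ≤ 64 * (u ^ 2) ^ (1 / 8 : ℝ) := by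
    have h4 : Real.log u ≤ u ^ (1 / 8 : ℝ) / (1 / 8) :=
      Real.log_le_rpow_div (by linarith) (by norm_num)
    have h5 : 0 ≤ Real.log u := Real.log_nonneg (by linarith)
    have h6 : (u ^ (1 / 8 : ℝ)) ^ 2 = (u ^ 2) ^ (1 / 8 : ℝ) := by
      rw [← Real.rpow_natCast, ← Real.rpow_natCast, ← Real.rpow_mul (by linarith),
        ← Real.rpow_mul (by linarith), mul_comm]
    calc Real.log u ^ 2 ≤ (u ^ (1 / 8 : ℝ) / (1 / 8)) ^ 2 := pow_le_pow_left₀ h5 h4 2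
      _ = 64 * (u ^ (1 / 8 : ℝ)) ^ 2 := by ring
      _ = 64 * (u ^ 2) ^ (1 / 8 : ℝ) := by rw [h6]
  have h4 : (u ^ 2) ^ (1 / 8 : ℝ) ≤ 2 * P ^ (1 / 8 : ℝ) := by
    have h5 : (256 : ℝ) ^ (1 / 8 : ℝ) = 2 := by
      rw [show (256 : ℝ) = 2 ^ (8 : ℝ) by norm_num, ← Real.rpow_mul (by norm_num)]
      norm_num
    calc (u ^ 2) ^ (1 / 8 : ℝ) ≤ (256 * P) ^ (1 / 8 : ℝ) :=
          Real.rpow_le_rpow (by positivity) (by linarith) (by norm_num)
      _ = 2 * P ^ (1 / 8 : ℝ) := by rw [Real.mul_rpow (by norm_num) hP0.le, h5]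
  have h5 : P ^ (1 / 8 : ℝ) * P ^ (-1 : ℝ) = P ^ (-(7 / 4 : ℝ) / 2) := by
    rw [← Real.rpow_add hP0]
    norm_num
  have h6 : Real.log u ^ 2 ≤ 128 * P ^ (1 / 8 : ℝ) := by linarith
  calc Real.log u ^ 2 * wt x t ≤ (128 * P ^ (1 / 8 : ℝ)) * (4 * P ^ (-1 : ℝ)) :=
        mul_le_mul h6 (wt_le hx t) (wt_nonneg x t) (by positivity)
    _ = 512 * (P ^ (1 / 8 : ℝ) * P ^ (-1 : ℝ)) := by ring
    _ = gj t := by rw [h5]; rfl

theorem one_le_log {q : ℕ} (hq : 3 ≤ q) : 1 ≤ Real.log q := by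
  have h1 : (3 : ℝ) ≤ q := by exact_mod_cast hq
  rw [Real.le_log_iff_exp_le (by linarith)]
  linarith [Real.exp_one_lt_d9]

/-- the square of the logarithms with the weight -/
theorem sq_le {q : ℕ} (hq : 3 ≤ q) {x : ℝ} (hx : 0 ≤ x) (t : ℝ) :
    wt x t * (Real.log q + Real.log (2 + |t|)) ^ 2 ≤ 4 * Real.log q ^ 2 * gj t := by
  have h1 := one_le_log hq
  have h2 := log_le hx t
  have h3 := wt_le_gj hx t
  have h4 := gj_nonneg t
  have h5 := wt_nonneg x t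
  have h6 : (Real.log q + Real.log (2 + |t|)) ^ 2 ≤
      2 * Real.log q ^ 2 + 2 * Real.log (2 + |t|) ^ 2 := by
    nlinarith [sq_nonneg (Real.log q - Real.log (2 + |t|))]
  have h7 : 1 ≤ Real.log q ^ 2 := one_le_pow₀ h1
  calc wt x t * (Real.log q + Real.log (2 + |t|)) ^ 2
      ≤ wt x t * (2 * Real.log q ^ 2 + 2 * Real.log (2 + |t|) ^ 2) :=
        mul_le_mul_of_nonneg_left h6 h5
    _ = 2 * Real.log q ^ 2 * wt x t + 2 * (Real.log (2 + |t|) ^ 2 * wt x t) := by ring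
    _ ≤ 2 * Real.log q ^ 2 * gj t + 2 * gj t := by
        have := mul_le_mul_of_nonneg_left h3 (by positivity : (0 : ℝ) ≤ 2 * Real.log q ^ 2)
        linarith
    _ ≤ 4 * Real.log q ^ 2 * gj t := by nlinarith [mul_le_mul_of_nonneg_right h7 h4]

/-- the pointwise bound of the difference of the integrands -/
theorem pw {R w Q b c : ℝ} (hR : 0 ≤ R) (hw : 0 ≤ w) (hc : 0 ≤ c)
    (h : |R * w - Q| ≤ c * (w * (R + b))) :
    |R ^ 2 * w - R * Q| ≤ c * (2 * (R ^ 2 * w) + w * b ^ 2) := by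
  have h1 : R ^ 2 * w - R * Q = R * (R * w - Q) := by ring
  rw [h1, abs_mul, abs_of_nonneg hR]
  have h2 : R * (R + b) ≤ 2 * R ^ 2 + b ^ 2 := by
    nlinarith [sq_nonneg (R - b), sq_nonneg R, sq_nonneg b]
  calc R * |R * w - Q| ≤ R * (c * (w * (R + b))) := mul_le_mul_of_nonneg_left h hR
    _ = c * w * (R * (R + b)) := by ring
    _ ≤ c * w * (2 * R ^ 2 + b ^ 2) := mul_le_mul_of_nonneg_left h2 (by positivity)
    _ = c * (2 * (R ^ 2 * w) + w * b ^ 2) := by ring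

end S2

open S2

theorem t_S2 (ha : S_S2a) (hb : S_S2b) (hK : S_K1) (h1 : S_HDx) : S_S2 := by
  obtain ⟨C, hC, hb⟩ := hb
  have hJ : 0 ≤ ∫ t, gj t := integral_nonneg gj_nonneg
  refine ⟨C * (2 + 4 * ∫ t, gj t), by positivity, ?_⟩
  intro q _ χ hχ hq hG x hx hx8
  have hHD := h1 q χ hχ 0 le_rfl (by norm_num) (fun s hs => hG s (by simpa using hs))
  have hI := (hK _ 0 _ _ _ hHD x hx 0).2.1
  obtain ⟨hL, hLS⟩ := ha q χ hχ hq hG x hx
  have hbb := fun t => hb q χ hχ hq hG x t hx hx8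
  have hs : 0 ≤ C * Real.sqrt x := by positivity
  rw [hLS, ← integral_sub hI hL]
  have hint : Integrable (fun t : ℝ => C * Real.sqrt x *
      (2 * ((Bq χ (pt x t)).re ^ 2 * wt x t) + 4 * Real.log q ^ 2 * gj t)) :=
    ((hI.const_mul 2).add (gj_int.const_mul _)).const_mul _
  calc |∫ t : ℝ, ((Bq χ (pt x t)).re ^ 2 * wt x t - (Bq χ (pt x t)).re * QW χ x t)|
      ≤ ∫ t : ℝ, |(Bq χ (pt x t)).re ^ 2 * wt x t - (Bq χ (pt x t)).re * QW χ x t| :=
        abs_integral_le_integral_abs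
    _ ≤ ∫ t : ℝ, C * Real.sqrt x *
          (2 * ((Bq χ (pt x t)).re ^ 2 * wt x t) + 4 * Real.log q ^ 2 * gj t) := by
        refine integral_mono (hI.sub hL).abs hint fun t => ?_
        obtain ⟨h2, h3⟩ := hbb t
        have h4 : |(Bq χ (pt x t)).re * wt x t - QW χ x t| ≤ C * Real.sqrt x *
            (wt x t * ((Bq χ (pt x t)).re + (Real.log q + Real.log (2 + |t|)))) := by
          rw [← add_assoc]
          exact h3
        refine (pw h2 (wt_nonneg x t) hs h4).trans ?_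
        refine mul_le_mul_of_nonneg_left ?_ hs
        have := sq_le hq hx.le t
        linarith
    _ = C * Real.sqrt x * (2 * (∫ t : ℝ, (Bq χ (pt x t)).re ^ 2 * wt x t) +
          4 * Real.log q ^ 2 * ∫ t, gj t) := by
        rw [integral_const_mul, integral_add (hI.const_mul 2) (gj_int.const_mul _),
          integral_const_mul, integral_const_mul]
    _ ≤ C * (2 + 4 * ∫ t, gj t) * Real.sqrt x *
          ((∫ t : ℝ, (Bq χ (pt x t)).re ^ 2 * wt x t) + Real.log q ^ 2) := by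
        have hI0 : 0 ≤ ∫ t : ℝ, (Bq χ (pt x t)).re ^ 2 * wt x t :=
          integral_nonneg fun t => mul_nonneg (sq_nonneg _) (wt_nonneg x t)
        have h5 : 2 * (∫ t : ℝ, (Bq χ (pt x t)).re ^ 2 * wt x t) +
            4 * Real.log q ^ 2 * (∫ t, gj t) ≤
            (2 + 4 * ∫ t, gj t) *
            ((∫ t : ℝ, (Bq χ (pt x t)).re ^ 2 * wt x t) + Real.log q ^ 2) := by
          nlinarith [mul_nonneg hJ hI0, sq_nonneg (Real.log q)]
        calc _ ≤ C * Real.sqrt x * ((2 + 4 * ∫ t, gj t) *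
            ((∫ t : ℝ, (Bq χ (pt x t)).re ^ 2 * wt x t) + Real.log q ^ 2)) :=
              mul_le_mul_of_nonneg_left h5 hs
          _ = _ := by ring

end Pool.Agent.NH13.WV
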