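import Pool.Agent.NH13.WV.Stm2

/-!
# Project WV: the smoothed pair sum as an integral (S2a)
-/

set_option autoImplicit false

open Complex MeasureTheory Filter Topology Set
open scoped ComplexConjugate

namespace Pool.Agent.NH13.WV

open Pool.Agent.NH13.UV

namespace S2aH

/-- the Poisson kernel -/
noncomputable def K (x a t : ℝ) : ℝ := x / (x ^ 2 + (t - a) ^ 2)

lemma K_nonneg {x : ℝ} (hx : 0 < x) (a t : ℝ) : 0 ≤ K x a t := by
  unfold K
  positivity

lemma K_le {x : ℝ} (hx : 0 < x) (a t : ℝ) : K x a t ≤ 1 / x := by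
  unfold K
  rw [div_le_div_iff₀ (by positivity) hx]
  nlinarith [sq_nonneg (t - a)]

lemma inv_re (x t : ℝ) (s : ℂ) (hs : s.re = 1 / 2) :
    (1 / (pt x t - (s - 1 / 2))).re = K x s.im t := by
  have h1 : pt x t - (s - 1 / 2) = (x : ℂ) + ((t - s.im : ℝ) : ℂ) * I := by
    apply Complex.ext <;> simp [pt, hs]
  rw [h1, one_div, Complex.inv_re, Complex.normSq_add_mul_I]
  simp [K]

/-- integrability and integral of a sum of nonnegative functions -/
lemma tsum_int {ι : Type} [Countable ι] (F : ι → ℝ → ℝ) (h0 : ∀ i t, 0 ≤ F i t)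
    (hm : ∀ i, Measurable (F i)) (hi : ∀ i, Integrable (F i)) (hs : ∀ t, Summable fun i => F i t)
    (hI : Summable fun i => ∫ t, F i t) :
    Integrable (fun t => ∑' i, F i t) ∧ ∫ t, ∑' i, F i t = ∑' i, ∫ t, F i t := by
  constructor
  · have h1 : ∀ t, ENNReal.ofReal (∑' i, F i t) = ∑' i, ENNReal.ofReal (F i t) :=
      fun t => ENNReal.ofReal_tsum_of_nonneg (fun i => h0 i t) (hs t)
    have h2 : Measurable fun t => ∑' i, ENNReal.ofReal (F i t) :=
      Measurable.tsum fun i => (hm i).ennreal_ofReal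
    have h3 : (fun t => ∑' i, F i t) = fun t => (∑' i, ENNReal.ofReal (F i t)).toReal := by
      funext t
      rw [← h1, ENNReal.toReal_ofReal (tsum_nonneg fun i => h0 i t)]
    refine ⟨?_, ?_⟩
    · rw [h3]
      exact h2.ennreal_toReal.aestronglyMeasurable
    · rw [hasFiniteIntegral_iff_ofReal (Eventually.of_forall fun t => tsum_nonneg fun i => h0 i t)]
      simp only [h1]
      rw [lintegral_tsum fun i => (hm i).ennreal_ofReal.aemeasurable]
      have h4 : ∀ i, ∫⁻ t, ENNReal.ofReal (F i t) = ENNReal.ofReal (∫ t, F i t) := fun i =>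
        (ofReal_integral_eq_lintegral_ofReal (hi i) (Eventually.of_forall fun t => h0 i t)).symm
      simp only [h4]
      rw [← ENNReal.ofReal_tsum_of_nonneg (fun i => integral_nonneg fun t => h0 i t) hI]
      exact ENNReal.ofReal_lt_top
  · refine (integral_tsum_of_summable_integral_norm hi ?_).symm
    have h5 : ∀ i, ∫ t, ‖F i t‖ = ∫ t, F i t := fun i =>
      integral_congr_ae (Eventually.of_forall fun t => Real.norm_of_nonneg (h0 i t))
    simp only [h5]
    exact hI

lemma K_meas (x a : ℝ) : Measurable (K x a) := by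
  unfold K
  fun_prop

/-- the abstract statement -/
lemma pair {ι : Type} [Countable ι] (hcau : S_cau) {x : ℝ} (hx : 0 < x) (γ m c : ι → ℝ)
    (hm : ∀ i, 0 ≤ m i) (hc : ∀ i, 0 ≤ c i) (hcs : Summable c) (B : ℝ → ℝ)
    (hB : ∀ t, HasSum (fun i => m i * K x (γ i) t) (B t))
    (hs : Summable fun p : ι × ι =>
      c p.1 * (m p.2 * (2 * Real.pi * x / (4 * x ^ 2 + (γ p.1 - γ p.2) ^ 2)))) :
    Integrable (fun t : ℝ => B t * ∑' i, c i * K x (γ i) t) ∧
    (∑' i, c i * ∑' j, m j * (2 * Real.pi * x / (4 * x ^ 2 + (γ i - γ j) ^ 2))) =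
      ∫ t : ℝ, B t * ∑' i, c i * K x (γ i) t := by
  have hck : ∀ t, Summable fun i => c i * K x (γ i) t := by
    intro t
    refine (hcs.mul_right (1 / x)).of_nonneg_of_le (fun i => mul_nonneg (hc i) (K_nonneg hx _ _))
      fun i => mul_le_mul_of_nonneg_left (K_le hx _ _) (hc i)
  set F : ι × ι → ℝ → ℝ := fun p t => c p.1 * K x (γ p.1) t * (m p.2 * K x (γ p.2) t) with hF
  have h0 : ∀ p t, 0 ≤ F p t := fun p t => mul_nonneg (mul_nonneg (hc _) (K_nonneg hx _ _))
    (mul_nonneg (hm _) (K_nonneg hx _ _))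
  have hsm : ∀ t, Summable fun p => F p t := fun t =>
    (hck t).mul_of_nonneg (hB t).summable (fun i => mul_nonneg (hc i) (K_nonneg hx _ _))
      (fun i => mul_nonneg (hm i) (K_nonneg hx _ _))
  have hts : ∀ t, ∑' p, F p t = B t * ∑' i, c i * K x (γ i) t := by
    intro t
    rw [mul_comm, ((hck t).hasSum.mul (hB t) (hsm t)).tsum_eq.symm]
  have hmeas : ∀ p, Measurable (F p) := fun p =>
    ((K_meas x _).const_mul _).mul ((K_meas x _).const_mul _)
  have heq : ∀ p, F p = fun t => (c p.1 * m p.2) *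
      (x / (x ^ 2 + (t - γ p.1) ^ 2) * (x / (x ^ 2 + (t - γ p.2) ^ 2))) := by
    intro p
    funext t
    simp only [hF, K]
    ring
  have hint : ∀ p, Integrable (F p) := by
    intro p
    rw [heq p]
    exact (hcau x (γ p.1) (γ p.2) hx).1.const_mul _
  have hval : ∀ p, ∫ t, F p t =
      c p.1 * (m p.2 * (2 * Real.pi * x / (4 * x ^ 2 + (γ p.1 - γ p.2) ^ 2))) := by
    intro p
    rw [heq p, integral_const_mul, (hcau x (γ p.1) (γ p.2) hx).2]
    ring
  obtain ⟨g1, g2⟩ := tsum_int F h0 hmeas hint hsm (by simpa only [hval] using hs)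
  simp only [hts] at g1 g2
  refine ⟨g1, ?_⟩
  rw [g2]
  simp only [hval]
  rw [hs.tsum_prod]
  exact tsum_congr fun i => (tsum_mul_left).symm

/-- multiplicities are not zero -/
lemma mu_ne {q : ℕ} [NeZero q] {χ : DirichletCharacter ℂ q} (hχ : χ ≠ 1) (s : Zs χ) :
    mu χ s ≠ 0 := by
  intro h
  have hd : Differentiable ℂ (DirichletCharacter.LFunction χ) :=
    DirichletCharacter.differentiable_LFunction hχ
  have ha : AnalyticOnNhd ℂ (DirichletCharacter.LFunction χ) univ := fun z _ => hd.analyticAt z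
  have hz : DirichletCharacter.LFunction χ s = 0 := s.2.1
  unfold mu analyticOrderNatAt at h
  rcases (ENat.toNat_eq_zero).1 h with h1 | h1
  · exact ((ha s (mem_univ _)).analyticOrderAt_eq_zero.1 h1) hz
  · rw [analyticOrderAt_eq_top] at h1
    have h2 := ha.eqOn_zero_of_preconnected_of_eventuallyEq_zero isPreconnected_univ
      (mem_univ (s : ℂ)) h1
    exact DirichletCharacter.LFunction_ne_zero_of_one_le_re χ (s := 2) (Or.inl hχ) (by norm_num)
      (h2 (mem_univ _))

end S2aH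

open S2aH in
theorem t_S2a (h1 : S_HDx) (h2 : S_cnt) (hw : S_ws) (hc : S_cau) : S_S2a := by
  intro q _ χ hχ hq hRH x hx
  have hD := h1 q χ hχ 0 le_rfl (by norm_num) (by rw [add_zero]; exact hRH)
  obtain ⟨C, hC, h2⟩ := h2
  obtain ⟨C', hC', hw⟩ := hw
  have h2 := h2 q χ hχ
  obtain ⟨hw1, -⟩ := hw q χ hχ hq
  have hre : ∀ s : Zs χ, (s : ℂ).re = 1 / 2 := by
    intro s
    have h3 := hD.strip s
    have h4 : ((s : ℂ) - 1 / 2).re = 0 := abs_eq_zero.1 (le_antisymm h3 (abs_nonneg _))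
    have h5 : ((s : ℂ) - 1 / 2).re = (s : ℂ).re - 1 / 2 := by simp
    linarith
  -- the zeros are countable
  have hcount : Countable (Zs χ) := by
    have h3 := (h2 0).1.countable_support
    have h4 : Function.support (fun s : Zs χ => (mu χ s : ℝ) / (1 + (0 - (s : ℂ).im) ^ 2)) =
        univ := by
      ext s
      simp only [Function.mem_support, mem_univ, iff_true]
      have : (mu χ s : ℝ) ≠ 0 := Nat.cast_ne_zero.2 (mu_ne hχ s)
      positivity
    rw [h4] at h3
    exact countable_univ_iff.1 h3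
  set γ : Zs χ → ℝ := fun s => (s : ℂ).im with hγ
  set m : Zs χ → ℝ := fun s => (mu χ s : ℝ) with hm
  set c : Zs χ → ℝ := fun s => (mu χ s : ℝ) / (1 / 4 + (s : ℂ).im ^ 2) with hcdef
  have hm0 : ∀ s, 0 ≤ m s := fun s => Nat.cast_nonneg _
  have hc0 : ∀ s, 0 ≤ c s := fun s => by simp only [hcdef]; positivity
  have hl : ∀ s : Zs χ, 0 ≤ Real.log (2 + |γ s|) := fun s =>
    Real.log_nonneg (by linarith [abs_nonneg (γ s)])
  have hcs : Summable c := by
    refine hw1.of_nonneg_of_le hc0 fun s => ?_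
    simp only [hcdef]
    apply div_le_div_of_nonneg_right _ (by positivity)
    have := mul_le_mul_of_nonneg_left (le_add_of_nonneg_right (hl s) : (1 : ℝ) ≤ _) (hm0 s)
    simpa using this
  have hB : ∀ t, HasSum (fun s => m s * K x (γ s) t) (Bq χ (pt x t)).re := by
    intro t
    have h3 := hD.re (pt x t) (by simp [pt, hx])
    have h4 : (fun s : Zs χ => m s * K x (γ s) t) =
        fun s : Zs χ => (mu χ s : ℝ) * (1 / (pt x t - ((s : ℂ) - 1 / 2))).re := by
      funext s
      rw [inv_re x t s (hre s)]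
    rw [h4]
    exact h3
  -- the bound for the kernel
  set κ : ℝ := min 1 (4 * x ^ 2) with hκ
  have hκ0 : 0 < κ := lt_min one_pos (by positivity)
  have hJ : ∀ d : ℝ, 2 * Real.pi * x / (4 * x ^ 2 + d ^ 2) ≤
      (2 * Real.pi * x / κ) / (1 + d ^ 2) := by
    intro d
    rw [div_div]
    have hp := Real.pi_pos
    apply div_le_div_of_nonneg_left (by positivity) (by positivity)
    have e1 : κ ≤ 1 := min_le_left _ _
    have e2 : κ ≤ 4 * x ^ 2 := min_le_right _ _
    nlinarith [sq_nonneg d]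
  set A : ℝ := 2 * Real.pi * x / κ with hA
  have hp := Real.pi_pos
  have hA0 : 0 < A := by positivity
  have hJ0 : ∀ d : ℝ, 0 ≤ 2 * Real.pi * x / (4 * x ^ 2 + d ^ 2) := fun d => by positivity
  have hin : ∀ s : Zs χ, Summable fun w : Zs χ =>
      m w * (2 * Real.pi * x / (4 * x ^ 2 + (γ s - γ w) ^ 2)) := by
    intro s
    refine ((h2 (γ s)).1.mul_left A).of_nonneg_of_le
      (fun w => mul_nonneg (hm0 w) (hJ0 _)) fun w => ?_
    calc m w * (2 * Real.pi * x / (4 * x ^ 2 + (γ s - γ w) ^ 2))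
        ≤ m w * (A / (1 + (γ s - γ w) ^ 2)) := mul_le_mul_of_nonneg_left (hJ _) (hm0 w)
      _ = A * ((mu χ w : ℝ) / (1 + (γ s - (w : ℂ).im) ^ 2)) := by simp only [hm, hγ]; ring
  have hin2 : ∀ s : Zs χ, ∑' w : Zs χ, m w * (2 * Real.pi * x / (4 * x ^ 2 + (γ s - γ w) ^ 2)) ≤
      A * (C * (1 + Real.log q + Real.log (2 + |γ s|))) := by
    intro s
    refine ((hin s).tsum_le_tsum (fun w => ?_) ((h2 (γ s)).1.mul_left A)).trans ?_
    · calc m w * (2 * Real.pi * x / (4 * x ^ 2 + (γ s - γ w) ^ 2))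
          ≤ m w * (A / (1 + (γ s - γ w) ^ 2)) := mul_le_mul_of_nonneg_left (hJ _) (hm0 w)
        _ = A * ((mu χ w : ℝ) / (1 + (γ s - (w : ℂ).im) ^ 2)) := by simp only [hm, hγ]; ring
    · rw [tsum_mul_left]
      exact mul_le_mul_of_nonneg_left (h2 (γ s)).2 hA0.le
  have hlq : 0 ≤ Real.log q := Real.log_natCast_nonneg q
  have hsum : Summable fun p : Zs χ × Zs χ =>
      c p.1 * (m p.2 * (2 * Real.pi * x / (4 * x ^ 2 + (γ p.1 - γ p.2) ^ 2))) := by
    rw [summable_prod_of_nonneg fun p => mul_nonneg (hc0 _) (mul_nonneg (hm0 _) (hJ0 _))]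
    refine ⟨fun s => (hin s).mul_left (c s), ?_⟩
    refine (hw1.mul_left (A * C * (1 + Real.log q))).of_nonneg_of_le
      (fun s => tsum_nonneg fun w => mul_nonneg (hc0 _) (mul_nonneg (hm0 _) (hJ0 _))) fun s => ?_
    show ∑' w : Zs χ, c s * (m w * (2 * Real.pi * x / (4 * x ^ 2 + (γ s - γ w) ^ 2))) ≤ _
    rw [tsum_mul_left]
    calc c s * ∑' w : Zs χ, m w * (2 * Real.pi * x / (4 * x ^ 2 + (γ s - γ w) ^ 2))
        ≤ c s * (A * (C * (1 + Real.log q + Real.log (2 + |γ s|)))) :=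
          mul_le_mul_of_nonneg_left (hin2 s) (hc0 s)
      _ ≤ c s * (A * (C * ((1 + Real.log q) * (1 + Real.log (2 + |γ s|))))) := by
          apply mul_le_mul_of_nonneg_left _ (hc0 s)
          apply mul_le_mul_of_nonneg_left _ hA0.le
          apply mul_le_mul_of_nonneg_left _ hC.le
          nlinarith [mul_nonneg hlq (hl s)]
      _ = A * C * (1 + Real.log q) * ((mu χ s : ℝ) * (1 + Real.log (2 + |(s : ℂ).im|)) /
            (1 / 4 + (s : ℂ).im ^ 2)) := by
          simp only [hcdef, hγ]; ring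
  exact pair hc hx γ m c hm0 hc0 hcs (fun t => (Bq χ (pt x t)).re) hB hsum

end Pool.Agent.NH13.WV
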