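import Pool.Agent.NH13.WV.Stm2

/-!
# Project WV, part WV-S2b: the pointwise comparison of the weights
-/

set_option autoImplicit false

open Complex MeasureTheory Filter Topology Set
open scoped ComplexConjugate

namespace Pool.Agent.NH13.WV

open Pool.Agent.NH13.UV

namespace S2bH

/-- pointwise bound, near points -/
theorem near (x t g : ℝ) (hx : 0 < x) (hu : |t - g| ≤ 1) :
    |(1 / (1 / 4 + t ^ 2) - 1 / (1 / 4 + g ^ 2)) * (x / (x ^ 2 + (t - g) ^ 2))| ≤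
      10 * Real.sqrt x * (1 / (1 / 4 + t ^ 2)) *
        (x / (x ^ 2 + (t - g) ^ 2) + 1 / (1 + (t - g) ^ 2) + 1 / (1 / 4 + g ^ 2)) := by
  have hD : 0 < x ^ 2 + (t - g) ^ 2 := by positivity
  have hP : 0 < x / (x ^ 2 + (t - g) ^ 2) := by positivity
  have hT : (0 : ℝ) < 1 / 4 + t ^ 2 := by positivity
  have hG : (0 : ℝ) < 1 / 4 + g ^ 2 := by positivity
  have hsx : 0 < Real.sqrt x := Real.sqrt_pos.mpr hx
  have hsq : Real.sqrt x * Real.sqrt x = x := Real.mul_self_sqrt hx.le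
  have hWT : (0 : ℝ) < 1 / (1 / 4 + t ^ 2) := by positivity
  have hWG : (0 : ℝ) < 1 / (1 / 4 + g ^ 2) := by positivity
  -- the difference of the weights
  have h1 : |1 / (1 / 4 + t ^ 2) - 1 / (1 / 4 + g ^ 2)| ≤ 5 * |t - g| * (1 / (1 / 4 + t ^ 2)) := by
    have e : 1 / (1 / 4 + t ^ 2) - 1 / (1 / 4 + g ^ 2) =
        (-(t - g)) * ((t + g) * (1 / (1 / 4 + g ^ 2))) * (1 / (1 / 4 + t ^ 2)) := by
      field_simp
      ring
    rw [e, abs_mul, abs_mul, abs_neg, abs_of_pos hWT]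
    have h2 : |(t + g) * (1 / (1 / 4 + g ^ 2))| ≤ 5 := by
      rw [abs_mul, abs_of_pos hWG, mul_one_div, div_le_iff₀ hG]
      have h3 : |t + g| ≤ 2 * |g| + 1 := by
        have : t + g = (t - g) + 2 * g := by ring
        rw [this]
        have h4 := abs_add_le (t - g) (2 * g)
        have h5 : |2 * g| = 2 * |g| := by rw [abs_mul]; norm_num
        linarith
      have h6 : g ^ 2 = |g| ^ 2 := (sq_abs g).symm
      rw [h6]
      nlinarith [sq_nonneg (5 * |g| - 1)]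
    have h7 : |t - g| * |(t + g) * (1 / (1 / 4 + g ^ 2))| ≤ |t - g| * 5 :=
      mul_le_mul_of_nonneg_left h2 (abs_nonneg _)
    nlinarith
  -- the kernel
  have h8 : |t - g| * (x / (x ^ 2 + (t - g) ^ 2)) ≤
      Real.sqrt x * (x / (x ^ 2 + (t - g) ^ 2) + 1) := by
    rcases le_or_gt |t - g| (Real.sqrt x) with h | h
    · have h9 := mul_le_mul_of_nonneg_right h hP.le
      nlinarith
    · have h9 : |t - g| * (x / (x ^ 2 + (t - g) ^ 2)) ≤ Real.sqrt x := by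
        rw [← mul_div_assoc, div_le_iff₀ hD]
        have h10 : (t - g) ^ 2 = |t - g| ^ 2 := (sq_abs _).symm
        rw [h10]
        nlinarith [mul_nonneg hsx.le (sq_nonneg x), mul_nonneg (mul_nonneg hsx.le
          (abs_nonneg (t - g))) (sub_nonneg.mpr h.le), mul_nonneg (sub_nonneg.mpr h.le) hsx.le]
      nlinarith [mul_pos hsx hP]
  have h11 : (1 : ℝ) ≤ 2 * (1 / (1 + (t - g) ^ 2)) := by
    rw [mul_one_div, le_div_iff₀ (by positivity)]
    have : (t - g) ^ 2 ≤ 1 := by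
      rw [← sq_abs]
      nlinarith [abs_nonneg (t - g)]
    linarith
  rw [abs_mul, abs_of_pos hP]
  calc |1 / (1 / 4 + t ^ 2) - 1 / (1 / 4 + g ^ 2)| * (x / (x ^ 2 + (t - g) ^ 2))
      ≤ 5 * |t - g| * (1 / (1 / 4 + t ^ 2)) * (x / (x ^ 2 + (t - g) ^ 2)) :=
        mul_le_mul_of_nonneg_right h1 hP.le
    _ = 5 * (1 / (1 / 4 + t ^ 2)) * (|t - g| * (x / (x ^ 2 + (t - g) ^ 2))) := by ring
    _ ≤ 5 * (1 / (1 / 4 + t ^ 2)) * (Real.sqrt x * (x / (x ^ 2 + (t - g) ^ 2) + 1)) :=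
        mul_le_mul_of_nonneg_left h8 (by positivity)
    _ ≤ 5 * (1 / (1 / 4 + t ^ 2)) * (Real.sqrt x * (2 * (x / (x ^ 2 + (t - g) ^ 2) +
          1 / (1 + (t - g) ^ 2) + 1 / (1 / 4 + g ^ 2)))) := by
        apply mul_le_mul_of_nonneg_left _ (by positivity)
        apply mul_le_mul_of_nonneg_left _ hsx.le
        linarith
    _ = _ := by ring

/-- pointwise bound, far points -/
theorem far (x t g : ℝ) (hx : 0 < x) (hx1 : x ≤ 1) (hu : 1 < |t - g|) :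
    |(1 / (1 / 4 + t ^ 2) - 1 / (1 / 4 + g ^ 2)) * (x / (x ^ 2 + (t - g) ^ 2))| ≤
      10 * Real.sqrt x * (1 / (1 / 4 + t ^ 2)) *
        (x / (x ^ 2 + (t - g) ^ 2) + 1 / (1 + (t - g) ^ 2) + 1 / (1 / 4 + g ^ 2)) := by
  have hD : 0 < x ^ 2 + (t - g) ^ 2 := by positivity
  have hP : 0 < x / (x ^ 2 + (t - g) ^ 2) := by positivity
  have hT : (0 : ℝ) < 1 / 4 + t ^ 2 := by positivity
  have hG : (0 : ℝ) < 1 / 4 + g ^ 2 := by positivity
  have hU : (0 : ℝ) < 1 + (t - g) ^ 2 := by positivity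
  have hsx : 0 < Real.sqrt x := Real.sqrt_pos.mpr hx
  have hsq : Real.sqrt x * Real.sqrt x = x := Real.mul_self_sqrt hx.le
  have hs1 : Real.sqrt x ≤ 1 := Real.sqrt_le_one.mpr hx1
  have hxs : x ≤ Real.sqrt x := by nlinarith
  have hWT : (0 : ℝ) < 1 / (1 / 4 + t ^ 2) := by positivity
  have hWG : (0 : ℝ) < 1 / (1 / 4 + g ^ 2) := by positivity
  have hK : (0 : ℝ) < 1 / (1 + (t - g) ^ 2) := by positivity
  have h1 : x / (x ^ 2 + (t - g) ^ 2) ≤ 2 * Real.sqrt x * (1 / (1 + (t - g) ^ 2)) := by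
    rw [mul_one_div, div_le_div_iff₀ hD hU]
    have h2 : 1 < (t - g) ^ 2 := by
      rw [← sq_abs]
      nlinarith
    have h3 : x * (1 + (t - g) ^ 2) ≤ x * (2 * (t - g) ^ 2) :=
      mul_le_mul_of_nonneg_left (by linarith) hx.le
    have h4 : x * (2 * (t - g) ^ 2) ≤ Real.sqrt x * (2 * (t - g) ^ 2) :=
      mul_le_mul_of_nonneg_right hxs (by positivity)
    nlinarith [mul_nonneg hsx.le (sq_nonneg x)]
  have h5 : |1 / (1 / 4 + t ^ 2) - 1 / (1 / 4 + g ^ 2)| ≤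
      1 / (1 / 4 + t ^ 2) + 1 / (1 / 4 + g ^ 2) := by
    rw [abs_le]
    constructor <;> linarith
  have h6 : 1 / (1 / 4 + g ^ 2) * (1 / (1 + (t - g) ^ 2)) ≤
      2 * (1 / (1 / 4 + t ^ 2)) * (1 / (1 + (t - g) ^ 2) + 1 / (1 / 4 + g ^ 2)) := by
    have e1 : 1 / (1 / 4 + g ^ 2) * (1 / (1 + (t - g) ^ 2)) =
        1 / ((1 / 4 + g ^ 2) * (1 + (t - g) ^ 2)) := by field_simp
    have e2 : 2 * (1 / (1 / 4 + t ^ 2)) * (1 / (1 + (t - g) ^ 2) + 1 / (1 / 4 + g ^ 2)) =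
        (2 * (5 / 4 + g ^ 2 + (t - g) ^ 2) / (1 / 4 + t ^ 2)) *
          (1 / ((1 / 4 + g ^ 2) * (1 + (t - g) ^ 2))) := by
      field_simp
      ring
    rw [e1, e2]
    have h7 : 1 ≤ 2 * (5 / 4 + g ^ 2 + (t - g) ^ 2) / (1 / 4 + t ^ 2) := by
      rw [le_div_iff₀ hT]
      nlinarith [sq_nonneg (2 * g - t)]
    have h8 : 0 < 1 / ((1 / 4 + g ^ 2) * (1 + (t - g) ^ 2)) := by positivity
    nlinarith
  rw [abs_mul, abs_of_pos hP]
  calc |1 / (1 / 4 + t ^ 2) - 1 / (1 / 4 + g ^ 2)| * (x / (x ^ 2 + (t - g) ^ 2))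
      ≤ (1 / (1 / 4 + t ^ 2) + 1 / (1 / 4 + g ^ 2)) *
          (2 * Real.sqrt x * (1 / (1 + (t - g) ^ 2))) :=
        mul_le_mul h5 h1 hP.le (by positivity)
    _ = 2 * Real.sqrt x * (1 / (1 / 4 + t ^ 2) * (1 / (1 + (t - g) ^ 2)) +
          1 / (1 / 4 + g ^ 2) * (1 / (1 + (t - g) ^ 2))) := by ring
    _ ≤ 2 * Real.sqrt x * (1 / (1 / 4 + t ^ 2) * (1 / (1 + (t - g) ^ 2)) +
          2 * (1 / (1 / 4 + t ^ 2)) * (1 / (1 + (t - g) ^ 2) + 1 / (1 / 4 + g ^ 2))) := by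
        apply mul_le_mul_of_nonneg_left _ (by positivity)
        linarith
    _ ≤ 10 * Real.sqrt x * (1 / (1 / 4 + t ^ 2)) *
        (x / (x ^ 2 + (t - g) ^ 2) + 1 / (1 + (t - g) ^ 2) + 1 / (1 / 4 + g ^ 2)) := by
        have hp : 0 < Real.sqrt x * (1 / (1 / 4 + t ^ 2)) := by positivity
        nlinarith [mul_pos hp hP, mul_pos hp hK, mul_pos hp hWG]

theorem pw (x t g : ℝ) (hx : 0 < x) (hx1 : x ≤ 1) :
    |(1 / (1 / 4 + t ^ 2) - 1 / (1 / 4 + g ^ 2)) * (x / (x ^ 2 + (t - g) ^ 2))| ≤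
      10 * Real.sqrt x * (1 / (1 / 4 + t ^ 2)) *
        (x / (x ^ 2 + (t - g) ^ 2) + 1 / (1 + (t - g) ^ 2) + 1 / (1 / 4 + g ^ 2)) := by
  rcases le_or_gt |t - g| 1 with h | h
  · exact near x t g hx h
  · exact far x t g hx hx1 h

/-- the real part of the term -/
theorem re_term (x t : ℝ) (s : ℂ) (hs : s.re = 1 / 2) :
    (1 / (pt x t - (s - 1 / 2))).re = x / (x ^ 2 + (t - s.im) ^ 2) := by
  rw [one_div, Complex.inv_re, Complex.normSq_apply]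
  have h1 : (pt x t - (s - 1 / 2)).re = x := by
    simp [pt, hs]
  have h2 : (pt x t - (s - 1 / 2)).im = t - s.im := by
    simp [pt]
  rw [h1, h2]
  ring

end S2bH

theorem t_S2b (h1 : S_HDx) (h2 : S_cnt) (hw : S_ws) : S_S2b := by
  obtain ⟨C1, hC1, hcnt⟩ := h2
  obtain ⟨C2, hC2, hws⟩ := hw
  refine ⟨25 + 40 * C1 + 20 * C2, by positivity, ?_⟩
  intro q _ χ hχ hq hG x t hx hx8
  have hHD := h1 q χ hχ 0 le_rfl (by norm_num) (by simpa using hG)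
  have hre : ∀ s : Zs χ, (s : ℂ).re = 1 / 2 := by
    intro s
    have h := hHD.strip s
    have h' : ((s : ℂ) - 1 / 2).re = 0 := abs_nonpos_iff.mp h
    have h'' : ((s : ℂ) - 1 / 2).re = (s : ℂ).re - 1 / 2 := by simp
    linarith
  have hpt : 0 < (pt x t).re := by simpa [pt] using hx
  -- the sum of the kernels
  have hR : HasSum (fun s : Zs χ => (mu χ s : ℝ) * (x / (x ^ 2 + (t - (s : ℂ).im) ^ 2)))
      (Bq χ (pt x t)).re := by
    have h := hHD.re (pt x t) hpt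
    have e : (fun s : Zs χ => (mu χ s : ℝ) * (1 / (pt x t - ((s : ℂ) - 1 / 2))).re) =
        (fun s : Zs χ => (mu χ s : ℝ) * (x / (x ^ 2 + (t - (s : ℂ).im) ^ 2))) := by
      funext s
      rw [S2bH.re_term x t s (hre s)]
    rw [← e]
    exact h
  have hR0 : 0 ≤ (Bq χ (pt x t)).re := hR.nonneg (fun s => by positivity)
  refine ⟨hR0, ?_⟩
  obtain ⟨hcs, hcb⟩ := hcnt q χ hχ t
  obtain ⟨hwsum, hwb⟩ := hws q χ hχ hq
  set R : ℝ := (Bq χ (pt x t)).re with hRdef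
  set Wt : ℝ := 1 / (1 / 4 + t ^ 2) with hWt
  have hWt0 : 0 < Wt := by positivity
  -- the weights
  have hwt0 : 0 < wt x t := by unfold wt; positivity
  have hsx : 0 < Real.sqrt x := Real.sqrt_pos.mpr hx
  have hsq : Real.sqrt x * Real.sqrt x = x := Real.mul_self_sqrt hx.le
  have hs1 : Real.sqrt x ≤ 1 := Real.sqrt_le_one.mpr (by linarith)
  have hxs : x ≤ Real.sqrt x := by nlinarith
  have hWw : Wt ≤ 2 * wt x t := by
    rw [hWt]
    unfold wt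
    rw [mul_one_div, div_le_div_iff₀ (by positivity) (by positivity)]
    nlinarith [sq_nonneg t]
  have hdw : |wt x t - Wt| ≤ 5 * Real.sqrt x * wt x t := by
    have e : wt x t - Wt = -((x + x ^ 2) * Wt) * wt x t := by
      rw [hWt]
      unfold wt
      have ha : (1 / 4 + t ^ 2 : ℝ) ≠ 0 := by positivity
      have hb : ((1 / 2 + x) ^ 2 + t ^ 2 : ℝ) ≠ 0 := by positivity
      field_simp
      ring
    rw [e, abs_mul, abs_neg, abs_of_pos hwt0, abs_of_pos (by positivity)]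
    apply mul_le_mul_of_nonneg_right _ hwt0.le
    have hW4 : Wt ≤ 4 := by
      rw [hWt, div_le_iff₀ (by positivity)]
      nlinarith [sq_nonneg t]
    have h9 : (x + x ^ 2) ≤ 9 / 8 * x := by nlinarith
    calc (x + x ^ 2) * Wt ≤ (9 / 8 * x) * 4 := mul_le_mul h9 hW4 hWt0.le (by positivity)
      _ ≤ 5 * Real.sqrt x := by linarith
  -- summability of the sum of the weights
  have hlog : ∀ s : Zs χ, 0 ≤ Real.log (2 + |(s : ℂ).im|) := fun s =>
    Real.log_nonneg (by linarith [abs_nonneg (s : ℂ).im])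
  have hW1 : ∀ s : Zs χ, (mu χ s : ℝ) * (1 / (1 / 4 + (s : ℂ).im ^ 2)) ≤
      (mu χ s : ℝ) * (1 + Real.log (2 + |(s : ℂ).im|)) / (1 / 4 + (s : ℂ).im ^ 2) := by
    intro s
    rw [mul_one_div]
    apply div_le_div_of_nonneg_right _ (by positivity)
    have := mul_nonneg (Nat.cast_nonneg (α := ℝ) (mu χ s)) (hlog s)
    nlinarith
  have hW0 : ∀ s : Zs χ, 0 ≤ (mu χ s : ℝ) * (1 / (1 / 4 + (s : ℂ).im ^ 2)) := fun s => by
    positivity
  have hWs : Summable (fun s : Zs χ => (mu χ s : ℝ) * (1 / (1 / 4 + (s : ℂ).im ^ 2))) :=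
    Summable.of_nonneg_of_le hW0 hW1 hwsum
  have hWb : ∑' s : Zs χ, (mu χ s : ℝ) * (1 / (1 / 4 + (s : ℂ).im ^ 2)) ≤ C2 * Real.log q :=
    (hWs.tsum_le_tsum hW1 hwsum).trans hwb
  have hKe : (fun s : Zs χ => (mu χ s : ℝ) / (1 + (t - (s : ℂ).im) ^ 2)) =
      (fun s : Zs χ => (mu χ s : ℝ) * (1 / (1 + (t - (s : ℂ).im) ^ 2))) := by
    funext s
    rw [mul_one_div]
  rw [hKe] at hcs hcb
  -- the sum QW
  have hQs : Summable (fun s : Zs χ => (mu χ s : ℝ) / (1 / 4 + (s : ℂ).im ^ 2) *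
      (x / (x ^ 2 + (t - (s : ℂ).im) ^ 2))) := by
    refine Summable.of_nonneg_of_le (fun s => by positivity) (fun s => ?_) (hR.summable.mul_left 4)
    have hP : 0 < x / (x ^ 2 + (t - (s : ℂ).im) ^ 2) := by positivity
    have h10 : (mu χ s : ℝ) / (1 / 4 + (s : ℂ).im ^ 2) ≤ 4 * (mu χ s : ℝ) := by
      rw [div_le_iff₀ (by positivity)]
      have := mul_nonneg (Nat.cast_nonneg (α := ℝ) (mu χ s)) (sq_nonneg (s : ℂ).im)
      nlinarith
    calc (mu χ s : ℝ) / (1 / 4 + (s : ℂ).im ^ 2) * (x / (x ^ 2 + (t - (s : ℂ).im) ^ 2))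
        ≤ 4 * (mu χ s : ℝ) * (x / (x ^ 2 + (t - (s : ℂ).im) ^ 2)) :=
          mul_le_mul_of_nonneg_right h10 hP.le
      _ = _ := by ring
  have hQ : HasSum (fun s : Zs χ => (mu χ s : ℝ) / (1 / 4 + (s : ℂ).im ^ 2) *
      (x / (x ^ 2 + (t - (s : ℂ).im) ^ 2))) (QW χ x t) := hQs.hasSum
  have hdiff : HasSum (fun s : Zs χ => Wt * ((mu χ s : ℝ) * (x / (x ^ 2 + (t - (s : ℂ).im) ^ 2))) -
      (mu χ s : ℝ) / (1 / 4 + (s : ℂ).im ^ 2) * (x / (x ^ 2 + (t - (s : ℂ).im) ^ 2)))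
      (Wt * R - QW χ x t) := (hR.mul_left Wt).sub hQ
  have hbd : HasSum (fun s : Zs χ => 10 * Real.sqrt x * Wt *
      ((mu χ s : ℝ) * (x / (x ^ 2 + (t - (s : ℂ).im) ^ 2)) +
        (mu χ s : ℝ) * (1 / (1 + (t - (s : ℂ).im) ^ 2)) +
        (mu χ s : ℝ) * (1 / (1 / 4 + (s : ℂ).im ^ 2))))
      (10 * Real.sqrt x * Wt * (R + (∑' s : Zs χ, (mu χ s : ℝ) * (1 / (1 + (t - (s : ℂ).im) ^ 2))) +
        ∑' s : Zs χ, (mu χ s : ℝ) * (1 / (1 / 4 + (s : ℂ).im ^ 2)))) :=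
    ((hR.add hcs.hasSum).add hWs.hasSum).mul_left _
  have hmain : |Wt * R - QW χ x t| ≤ 10 * Real.sqrt x * Wt *
      (R + (∑' s : Zs χ, (mu χ s : ℝ) * (1 / (1 + (t - (s : ℂ).im) ^ 2))) +
        ∑' s : Zs χ, (mu χ s : ℝ) * (1 / (1 / 4 + (s : ℂ).im ^ 2))) := by
    rw [← hdiff.tsum_eq, ← Real.norm_eq_abs]
    refine tsum_of_norm_bounded hbd (fun s => ?_)
    rw [Real.norm_eq_abs]
    have e : Wt * ((mu χ s : ℝ) * (x / (x ^ 2 + (t - (s : ℂ).im) ^ 2))) -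
      (mu χ s : ℝ) / (1 / 4 + (s : ℂ).im ^ 2) * (x / (x ^ 2 + (t - (s : ℂ).im) ^ 2)) =
      (mu χ s : ℝ) * ((1 / (1 / 4 + t ^ 2) - 1 / (1 / 4 + (s : ℂ).im ^ 2)) *
        (x / (x ^ 2 + (t - (s : ℂ).im) ^ 2))) := by
      rw [hWt]
      ring
    rw [e, abs_mul, abs_of_nonneg (Nat.cast_nonneg (α := ℝ) (mu χ s))]
    calc (mu χ s : ℝ) * |(1 / (1 / 4 + t ^ 2) - 1 / (1 / 4 + (s : ℂ).im ^ 2)) *
        (x / (x ^ 2 + (t - (s : ℂ).im) ^ 2))|
        ≤ (mu χ s : ℝ) * (10 * Real.sqrt x * (1 / (1 / 4 + t ^ 2)) *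
          (x / (x ^ 2 + (t - (s : ℂ).im) ^ 2) + 1 / (1 + (t - (s : ℂ).im) ^ 2) +
            1 / (1 / 4 + (s : ℂ).im ^ 2))) :=
          mul_le_mul_of_nonneg_left (S2bH.pw x t (s : ℂ).im hx (by linarith))
            (Nat.cast_nonneg _)
      _ = _ := by rw [hWt]; ring
  -- conclusion
  have hlq : 1 ≤ Real.log q := by
    rw [Real.le_log_iff_exp_le (by exact_mod_cast (by omega : 0 < q))]
    have h3 : (3 : ℝ) ≤ q := by exact_mod_cast hq
    linarith [Real.exp_one_lt_d9]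
  have hlt : 0 ≤ Real.log (2 + |t|) := Real.log_nonneg (by linarith [abs_nonneg t])
  set S1 : ℝ := ∑' s : Zs χ, (mu χ s : ℝ) * (1 / (1 + (t - (s : ℂ).im) ^ 2)) with hS1
  set S2 : ℝ := ∑' s : Zs χ, (mu χ s : ℝ) * (1 / (1 / 4 + (s : ℂ).im ^ 2)) with hS2
  set lq : ℝ := Real.log q with hlqd
  set lt : ℝ := Real.log (2 + |t|) with hltd
  have hS10 : 0 ≤ S1 := tsum_nonneg (fun s => by positivity)
  have hS20 : 0 ≤ S2 := tsum_nonneg hW0
  have hS1b : S1 ≤ 2 * C1 * (lq + lt) := by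
    have : C1 * (1 + lq + lt) ≤ C1 * (2 * (lq + lt)) :=
      mul_le_mul_of_nonneg_left (by linarith) hC1.le
    linarith
  have hS2b : S2 ≤ C2 * (lq + lt) := by
    have : C2 * lq ≤ C2 * (lq + lt) := mul_le_mul_of_nonneg_left (by linarith) hC2.le
    linarith
  have hk : 0 < Real.sqrt x * wt x t := by positivity
  have hfin : |Wt * R - QW χ x t| ≤ 20 * (Real.sqrt x * wt x t) * (R + S1 + S2) := by
    refine hmain.trans ?_
    have h12 : 10 * Real.sqrt x * Wt ≤ 20 * (Real.sqrt x * wt x t) := by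
      nlinarith [mul_le_mul_of_nonneg_left hWw hsx.le]
    exact mul_le_mul_of_nonneg_right h12 (by positivity)
  have hfin2 : |R * (wt x t - Wt)| ≤ 5 * (Real.sqrt x * wt x t) * R := by
    rw [abs_mul, abs_of_nonneg hR0]
    nlinarith [mul_le_mul_of_nonneg_left hdw hR0]
  have e : R * wt x t - QW χ x t = R * (wt x t - Wt) + (Wt * R - QW χ x t) := by ring
  rw [e]
  have hb1 : R + S1 + S2 ≤ R + (2 * C1 + C2) * (lq + lt) := by nlinarith
  calc |R * (wt x t - Wt) + (Wt * R - QW χ x t)|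
      ≤ |R * (wt x t - Wt)| + |Wt * R - QW χ x t| := abs_add_le _ _
    _ ≤ 5 * (Real.sqrt x * wt x t) * R + 20 * (Real.sqrt x * wt x t) *
          (R + (2 * C1 + C2) * (lq + lt)) := by
        refine add_le_add hfin2 (hfin.trans ?_)
        exact mul_le_mul_of_nonneg_left hb1 (by positivity)
    _ = (Real.sqrt x * wt x t) * (25 * R + (40 * C1 + 20 * C2) * (lq + lt)) := by ring
    _ ≤ (Real.sqrt x * wt x t) * ((25 + 40 * C1 + 20 * C2) * (R + lq + lt)) := by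
        apply mul_le_mul_of_nonneg_left _ hk.le
        have hl0 : 0 ≤ lq + lt := by linarith
        nlinarith [mul_nonneg hC1.le hR0, mul_nonneg hC2.le hR0]
    _ = _ := by ring

end Pool.Agent.NH13.WV
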