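import Pool.Agent.NH13.WV.Stm2

/-!
# WV-5 (helper79): pairs of zeros at distance `d` and at distance `δ`
-/

set_option autoImplicit false
set_option linter.unusedVariables false

open Complex MeasureTheory Filter Topology Set
open scoped ComplexConjugate ENNReal

namespace Pool.Agent.NH13.WV

open Pool.Agent.NH13.UV

namespace SubP

/-- the weight -/
noncomputable def w (t : ℝ) : ℝ≥0∞ := ENNReal.ofReal (1 / (1 / 4 + t ^ 2))

theorem w_le {a b : ℝ} (h : |a - b| ≤ 2) : w a ≤ 33 * w b := by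
  unfold w
  rw [show (33 : ℝ≥0∞) = ENNReal.ofReal 33 by norm_num, ← ENNReal.ofReal_mul (by norm_num)]
  apply ENNReal.ofReal_le_ofReal
  have h1 := abs_le.1 h
  rw [mul_one_div, div_le_div_iff₀ (by positivity) (by positivity)]
  nlinarith [sq_nonneg (a + b), sq_nonneg (a - b), sq_nonneg a,
    mul_nonneg (sub_nonneg.2 h1.1) (sub_nonneg.2 h1.2)]

/-- sum over the fibres -/
theorem fib {ι : Type} (k : ι → ℤ) (m : ι → ℝ≥0∞) (F : ℤ → ℝ≥0∞) :
    ∑' s, m s * F (k s) = ∑' i : ℤ, (∑' r, if k r = i then m r else 0) * F i := by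
  have h1 : ∀ i : ℤ, (∑' r, if k r = i then m r else 0) * F i =
      ∑' r, (if k r = i then m r else 0) * F i := fun i => by
    rw [ENNReal.tsum_mul_right]
  rw [tsum_congr h1, ENNReal.tsum_comm]
  refine tsum_congr fun s => ?_
  rw [tsum_eq_single (k s)]
  · rw [if_pos rfl]
  · intro i hi
    rw [if_neg (fun h => hi h.symm), zero_mul]

theorem amgm (a b : ℝ≥0∞) : a * b ≤ a * a + b * b := by
  rcases le_total a b with h | h
  · exact (mul_le_mul_left h b).trans (le_add_left le_rfl)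
  · exact (mul_le_mul_right h a).trans (le_add_right le_rfl)

theorem core {ι : Type} (γ : ι → ℝ) (m : ι → ℝ≥0∞) (δ d : ℝ) (hδ : 0 < δ) (hd : δ ≤ d)
    (h1 : d ≤ 1) :
    ∑' s, m s * (∑' r, if |γ r - γ s| ≤ d then m r else 0) * w (γ s) ≤
      (2 * (⌈d / δ⌉₊ : ℝ≥0∞) + 1) * ((33 * (34 * 33)) *
        ∑' s, m s * (∑' r, if |γ r - γ s| ≤ δ then m r else 0) * w (γ s)) := by
  classical
  have hd0 : 0 < d := hδ.trans_le hd
  set J : ℕ := ⌈d / δ⌉₊ with hJ
  have hJ1 : d / δ ≤ J := Nat.le_ceil _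
  have hJ2 : (J : ℝ) < d / δ + 1 := Nat.ceil_lt_add_one (by positivity)
  have hJ3 : δ * J ≤ 2 := by
    have h2 : δ * J ≤ δ * (d / δ + 1) := mul_le_mul_of_nonneg_left hJ2.le hδ.le
    have h3 : δ * (d / δ + 1) = d + δ := by field_simp
    linarith
  set k : ι → ℤ := fun s => ⌊γ s / δ⌋ with hk
  set n : ℤ → ℝ≥0∞ := fun i => ∑' r, if k r = i then m r else 0 with hn
  -- the point of the cell
  have hcell : ∀ s, |γ s - δ * k s| ≤ 2 := by
    intro s
    have h2 : (k s : ℝ) ≤ γ s / δ := Int.floor_le _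
    have h3 : γ s / δ < k s + 1 := Int.lt_floor_add_one _
    have h4 : γ s = δ * (γ s / δ) := by field_simp
    have h5 : δ * k s ≤ δ * (γ s / δ) := mul_le_mul_of_nonneg_left h2 hδ.le
    have h6 : δ * (γ s / δ) ≤ δ * (k s + 1) := mul_le_mul_of_nonneg_left h3.le hδ.le
    rw [abs_le]
    constructor
    · linarith
    · linarith
  have hcell' : ∀ s, |δ * k s - γ s| ≤ 2 := fun s => by rw [abs_sub_comm]; exact hcell s
  -- step 1
  have hst1 : ∀ s, (∑' r, if |γ r - γ s| ≤ d then m r else 0) ≤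
      ∑ j ∈ Finset.Icc (-(J : ℤ)) J, n (k s + j) := by
    intro s
    have h2 : ∑ j ∈ Finset.Icc (-(J : ℤ)) J, n (k s + j) =
        ∑' r, ∑ j ∈ Finset.Icc (-(J : ℤ)) J, if k r = k s + j then m r else 0 :=
      (Summable.tsum_finsetSum fun _ _ => ENNReal.summable).symm
    rw [h2]
    refine ENNReal.tsum_le_tsum fun r => ?_
    split_ifs with h3
    · have h4 := abs_le.1 h3
      have h5 : k r - k s ∈ Finset.Icc (-(J : ℤ)) J := by
        have a1 : (k s : ℝ) ≤ γ s / δ := Int.floor_le _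
        have a2 : γ s / δ < k s + 1 := Int.lt_floor_add_one _
        have a3 : (k r : ℝ) ≤ γ r / δ := Int.floor_le _
        have a4 : γ r / δ < k r + 1 := Int.lt_floor_add_one _
        have a5 : γ r / δ - γ s / δ ≤ d / δ := by
          rw [← sub_div]
          exact div_le_div_of_nonneg_right h4.2 hδ.le
        have a6 : γ s / δ - γ r / δ ≤ d / δ := by
          rw [← sub_div]
          exact div_le_div_of_nonneg_right (by linarith) hδ.le
        rw [Finset.mem_Icc]
        constructor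
        · have : (k s : ℝ) - k r < J + 1 := by linarith
          have h6 : k s - k r < J + 1 := by exact_mod_cast this
          omega
        · have : (k r : ℝ) - k s < J + 1 := by linarith
          have h6 : k r - k s < J + 1 := by exact_mod_cast this
          omega
      have h6 := Finset.single_le_sum
        (f := fun j => if k r = k s + j then m r else 0) (fun _ _ => zero_le) h5
      simpa using h6
    · exact zero_le
  -- the sum of squares
  set S : ℝ≥0∞ := ∑' i : ℤ, n i * (n i * w (δ * i)) with hS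
  have hS1 : S ≤ 33 * ∑' s, m s * (∑' r, if |γ r - γ s| ≤ δ then m r else 0) * w (γ s) := by
    rw [hS, ← fib k m (fun i => n i * w (δ * i)), ← ENNReal.tsum_mul_left]
    refine ENNReal.tsum_le_tsum fun s => ?_
    have h2 : n (k s) ≤ ∑' r, if |γ r - γ s| ≤ δ then m r else 0 := by
      refine ENNReal.tsum_le_tsum fun r => ?_
      split_ifs with h3 h4
      · exact le_rfl
      · exfalso
        apply h4
        have a1 : (k s : ℝ) ≤ γ s / δ := Int.floor_le _
        have a2 : γ s / δ < k s + 1 := Int.lt_floor_add_one _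
        have a3 : (k r : ℝ) ≤ γ r / δ := Int.floor_le _
        have a4 : γ r / δ < k r + 1 := Int.lt_floor_add_one _
        have h5 : (k r : ℝ) = k s := by exact_mod_cast h3
        have e1 : γ s = δ * (γ s / δ) := by field_simp
        have e2 : γ r = δ * (γ r / δ) := by field_simp
        have b1 : δ * (γ r / δ - γ s / δ) ≤ δ * 1 := mul_le_mul_of_nonneg_left (by linarith) hδ.le
        have b2 : δ * (γ s / δ - γ r / δ) ≤ δ * 1 := mul_le_mul_of_nonneg_left (by linarith) hδ.le
        rw [abs_le]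
        constructor
        · rw [mul_sub, ← e1, ← e2] at b2
          linarith
        · rw [mul_sub, ← e1, ← e2] at b1
          linarith
      · exact zero_le
      · exact le_rfl
    calc m s * (n (k s) * w (δ * k s))
        ≤ m s * ((∑' r, if |γ r - γ s| ≤ δ then m r else 0) * (33 * w (γ s))) := by
          gcongr
          exact w_le (hcell' s)
      _ = 33 * (m s * (∑' r, if |γ r - γ s| ≤ δ then m r else 0) * w (γ s)) := by ring
  -- one shift
  have hst2 : ∀ j ∈ Finset.Icc (-(J : ℤ)) J,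
      ∑' s, m s * n (k s + j) * w (γ s) ≤ 33 * (34 * S) := by
    intro j hj
    rw [Finset.mem_Icc] at hj
    have h2 : ∑' s, m s * n (k s + j) * w (γ s) ≤
        33 * ∑' s, m s * (n (k s + j) * w (δ * k s)) := by
      rw [← ENNReal.tsum_mul_left]
      refine ENNReal.tsum_le_tsum fun s => ?_
      calc m s * n (k s + j) * w (γ s) ≤ m s * n (k s + j) * (33 * w (δ * k s)) := by
            gcongr
            exact w_le (hcell s)
        _ = _ := by ring
    refine h2.trans ?_
    gcongr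
    rw [fib k m (fun i => n (i + j) * w (δ * i))]
    have h3 : ∀ i : ℤ, n i * (n (i + j) * w (δ * i)) ≤
        n i * (n i * w (δ * i)) + 33 * (n (i + j) * (n (i + j) * w (δ * (i + j : ℤ)))) := by
      intro i
      have h4 : w (δ * i) ≤ 33 * w (δ * (i + j : ℤ)) := by
        apply w_le
        push_cast
        have h5 : δ * (i : ℝ) - δ * (i + j) = -(δ * j) := by ring
        rw [h5, abs_neg, abs_mul, abs_of_pos hδ]
        have h6 : |(j : ℝ)| ≤ J := by
          rw [abs_le]
          constructor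
          · exact_mod_cast hj.1
          · exact_mod_cast hj.2
        exact (mul_le_mul_of_nonneg_left h6 hδ.le).trans hJ3
      calc n i * (n (i + j) * w (δ * i)) = (n i * n (i + j)) * w (δ * i) := by ring
        _ ≤ (n i * n i + n (i + j) * n (i + j)) * w (δ * i) := by
            gcongr
            exact amgm _ _
        _ = n i * (n i * w (δ * i)) + n (i + j) * n (i + j) * w (δ * i) := by ring
        _ ≤ n i * (n i * w (δ * i)) + n (i + j) * n (i + j) * (33 * w (δ * (i + j : ℤ))) := by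
            gcongr
        _ = _ := by ring
    calc ∑' i : ℤ, n i * (n (i + j) * w (δ * i))
        ≤ ∑' i : ℤ, (n i * (n i * w (δ * i)) +
            33 * (n (i + j) * (n (i + j) * w (δ * (i + j : ℤ))))) := ENNReal.tsum_le_tsum h3
      _ = S + 33 * ∑' i : ℤ, n (i + j) * (n (i + j) * w (δ * (i + j : ℤ))) := by
          rw [ENNReal.tsum_add, ENNReal.tsum_mul_left]
      _ = S + 33 * S := by
          congr 2
          exact Equiv.tsum_eq (Equiv.addRight j) (fun i : ℤ => n i * (n i * w (δ * i)))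
      _ = 34 * S := by ring
  calc ∑' s, m s * (∑' r, if |γ r - γ s| ≤ d then m r else 0) * w (γ s)
      ≤ ∑' s, m s * (∑ j ∈ Finset.Icc (-(J : ℤ)) J, n (k s + j)) * w (γ s) := by
        refine ENNReal.tsum_le_tsum fun s => ?_
        gcongr
        exact hst1 s
    _ = ∑' s, ∑ j ∈ Finset.Icc (-(J : ℤ)) J, m s * n (k s + j) * w (γ s) := by
        refine tsum_congr fun s => ?_
        rw [Finset.mul_sum, Finset.sum_mul]
    _ = ∑ j ∈ Finset.Icc (-(J : ℤ)) J, ∑' s, m s * n (k s + j) * w (γ s) :=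
        Summable.tsum_finsetSum fun _ _ => ENNReal.summable
    _ ≤ ∑ j ∈ Finset.Icc (-(J : ℤ)) J, 33 * (34 * S) := Finset.sum_le_sum hst2
    _ = (2 * (J : ℝ≥0∞) + 1) * (33 * (34 * S)) := by
        rw [Finset.sum_const, Int.card_Icc, nsmul_eq_mul]
        congr 1
        have h2 : ((J : ℤ) + 1 - -(J : ℤ)).toNat = 2 * J + 1 := by omega
        rw [h2]
        push_cast
        rfl
    _ ≤ (2 * (J : ℝ≥0∞) + 1) * (33 * (34 * (33 *
          ∑' s, m s * (∑' r, if |γ r - γ s| ≤ δ then m r else 0) * w (γ s)))) := by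
        gcongr
    _ = _ := by ring

/-- the number of zeros as a sum in the extended reals -/
theorem nr_enn {q : ℕ} [NeZero q] (χ : DirichletCharacter ℂ q) (d t : ℝ)
    (hf : {s : ℂ | s ∈ Zs χ ∧ |s.im - t| ≤ d}.Finite) :
    (nr χ d t : ℝ≥0∞) = ∑' s : Zs χ, if |(s : ℂ).im - t| ≤ d then (mu χ s : ℝ≥0∞) else 0 := by
  classical
  unfold nr
  rw [finsum_mem_eq_finite_toFinset_sum _ hf, Nat.cast_sum]
  rw [tsum_subtype (Zs χ) (fun s : ℂ => if |s.im - t| ≤ d then (mu χ s : ℝ≥0∞) else 0)]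
  rw [tsum_eq_sum (s := hf.toFinset)]
  · refine Finset.sum_congr rfl fun s hs => ?_
    have h2 : s ∈ Zs χ ∧ |s.im - t| ≤ d := by simpa using hs
    rw [Set.indicator_of_mem h2.1, if_pos h2.2]
  · intro s hs
    have h2 : ¬ (s ∈ Zs χ ∧ |s.im - t| ≤ d) := by simpa using hs
    by_cases h3 : s ∈ Zs χ
    · rw [Set.indicator_of_mem h3, if_neg (fun h4 => h2 ⟨h3, h4⟩)]
    · rw [Set.indicator_of_notMem h3]

/-- the weighted number of pairs as a sum in the extended reals -/
theorem PW_enn (h3 : S_nr) (h4 : S_PWb) {q : ℕ} [NeZero q] (χ : DirichletCharacter ℂ q)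
    (hχ : χ ≠ 1) (hq : 3 ≤ q) (d : ℝ) (hd : 0 ≤ d) :
    ENNReal.ofReal (PW χ d) = ∑' s : Zs χ, (mu χ s : ℝ≥0∞) *
      (∑' r : Zs χ, if |(r : ℂ).im - (s : ℂ).im| ≤ d then (mu χ r : ℝ≥0∞) else 0) *
        w (s : ℂ).im := by
  obtain ⟨C3, -, h3⟩ := h3
  obtain ⟨C4, -, h4⟩ := h4
  have hs := (h4 q χ hχ hq d hd).1
  unfold PW
  rw [ENNReal.ofReal_tsum_of_nonneg (fun s => by positivity) hs]
  refine tsum_congr fun s => ?_
  rw [← nr_enn χ d (s : ℂ).im (h3 q χ hχ d (s : ℂ).im hd).1]
  unfold w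
  rw [← ENNReal.ofReal_natCast (mu χ s), ← ENNReal.ofReal_natCast (nr χ d (s : ℂ).im),
    ← ENNReal.ofReal_mul (by positivity), ← ENNReal.ofReal_mul (by positivity), mul_one_div]

end SubP

/-- WV-5 -/
theorem t_sub (h3 : S_nr) (h4 : S_PWb) (hmu : S_mu) : S_sub := by
  refine ⟨5 * (33 * (34 * 33)), by norm_num, ?_⟩
  intro q _ χ hχ hq δ d hδ hδd hd1
  have hd0 : 0 ≤ d := hδ.le.trans hδd
  have h1 := SubP.core (ι := Zs χ) (fun s => (s : ℂ).im) (fun s => (mu χ s : ℝ≥0∞)) δ d hδ hδd hd1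
  rw [← SubP.PW_enn h3 h4 χ hχ hq d hd0, ← SubP.PW_enn h3 h4 χ hχ hq δ hδ.le] at h1
  have hPW : 0 ≤ PW χ δ := by
    unfold PW
    exact tsum_nonneg fun s => by positivity
  have e1 : (2 * (⌈d / δ⌉₊ : ℝ≥0∞) + 1) * ((33 * (34 * 33)) * ENNReal.ofReal (PW χ δ)) =
      ENNReal.ofReal ((2 * (⌈d / δ⌉₊ : ℝ) + 1) * ((33 * (34 * 33)) * PW χ δ)) := by
    rw [ENNReal.ofReal_mul (by positivity), ENNReal.ofReal_mul (by norm_num),
      ENNReal.ofReal_add (by positivity) (by norm_num), ENNReal.ofReal_mul (by norm_num),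
      ENNReal.ofReal_natCast, ENNReal.ofReal_mul (by norm_num), ENNReal.ofReal_mul (by norm_num)]
    norm_num
  rw [e1, ENNReal.ofReal_le_ofReal_iff (by positivity)] at h1
  refine h1.trans ?_
  have hr : 1 ≤ d / δ := by rwa [le_div_iff₀ hδ, one_mul]
  have hJ2 : (⌈d / δ⌉₊ : ℝ) < d / δ + 1 := Nat.ceil_lt_add_one (by positivity)
  have h5 : 2 * (⌈d / δ⌉₊ : ℝ) + 1 ≤ 5 * (d / δ) := by linarith
  calc (2 * (⌈d / δ⌉₊ : ℝ) + 1) * ((33 * (34 * 33)) * PW χ δ)
      ≤ (5 * (d / δ)) * ((33 * (34 * 33)) * PW χ δ) := by gcongr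
    _ = _ := by ring

end Pool.Agent.NH13.WV
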