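import Pool.Agent.NH13.WV.Stm2

/-!
# Project WV, part WV-9: from the counts to the transforms (dominated convergence)
-/

set_option autoImplicit false

open Complex MeasureTheory Filter Topology Set

namespace Pool.Agent.NH13.WV.TAp

open Pool.Agent.NH13.UV Pool.Agent.NH13.WV

lemma kk_nonneg (κ A : ℝ) (hκ : 0 < κ) (hA : 0 ≤ A) : 0 ≤ kk κ A := by
  unfold kk; positivity

/-- the kernel is at most `K (1 + A)^(-3)` -/
lemma kk_le (κ A : ℝ) (hκ : 0 < κ) (hA : 0 ≤ A) :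
    kk κ A * (1 + A) ^ 3 ≤ 32 * κ * (1 + 1 / (4 * κ ^ 2)) ^ 2 := by
  unfold kk
  have hk2 : 0 < 4 * κ ^ 2 := by positivity
  have hD : 0 < 4 * κ ^ 2 + A ^ 2 := by positivity
  set c : ℝ := 1 + 1 / (4 * κ ^ 2) with hc
  have hc0 : 0 < c := by positivity
  have h1 : 1 + A ^ 2 ≤ c * (4 * κ ^ 2 + A ^ 2) := by
    have e : c * (4 * κ ^ 2 + A ^ 2) = 1 + A ^ 2 + (4 * κ ^ 2 + A ^ 2 / (4 * κ ^ 2)) := by
      rw [hc]; field_simp; ring
    rw [e]
    have : 0 ≤ 4 * κ ^ 2 + A ^ 2 / (4 * κ ^ 2) := by positivity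
    linarith
  have h2 : (1 + A) ^ 2 ≤ 2 * (1 + A ^ 2) := by nlinarith [sq_nonneg (1 - A)]
  have h3 : (1 + A) ^ 4 ≤ 4 * c ^ 2 * (4 * κ ^ 2 + A ^ 2) ^ 2 := by
    have h4 : (1 + A) ^ 2 ≤ 2 * (c * (4 * κ ^ 2 + A ^ 2)) := le_trans h2 (by linarith)
    have h5 := pow_le_pow_left₀ (by positivity : (0 : ℝ) ≤ (1 + A) ^ 2) h4 2
    calc (1 + A) ^ 4 = ((1 + A) ^ 2) ^ 2 := by ring
      _ ≤ _ := h5
      _ = _ := by ring
  have h6 : A * (1 + A) ^ 3 ≤ (1 + A) ^ 4 := by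
    have : 0 ≤ (1 + A) ^ 3 := by positivity
    nlinarith
  rw [div_mul_eq_mul_div, div_le_iff₀ (by positivity)]
  calc 8 * κ * A * (1 + A) ^ 3 = 8 * κ * (A * (1 + A) ^ 3) := by ring
    _ ≤ 8 * κ * (4 * c ^ 2 * (4 * κ ^ 2 + A ^ 2) ^ 2) :=
        mul_le_mul_of_nonneg_left (le_trans h6 h3) (by positivity)
    _ = _ := by ring

/-- the dominating function -/
lemma dom_le (κ A : ℝ) (hκ : 0 < κ) (hA : 0 ≤ A) :
    (1 + A) ^ (3 / 2 : ℝ) * kk κ A ≤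
      32 * κ * (1 + 1 / (4 * κ ^ 2)) ^ 2 * (A + 1) ^ (-(3 / 2) : ℝ) := by
  have h1A : 0 < 1 + A := by positivity
  have e : (A + 1) ^ (-(3 / 2) : ℝ) * (1 + A) ^ 3 = (1 + A) ^ (3 / 2 : ℝ) := by
    rw [add_comm A 1, ← Real.rpow_natCast (1 + A) 3, ← Real.rpow_add h1A]
    norm_num
  have hp : 0 < (A + 1) ^ (-(3 / 2) : ℝ) := Real.rpow_pos_of_pos (by linarith) _
  rw [← e]
  calc (A + 1) ^ (-(3 / 2) : ℝ) * (1 + A) ^ 3 * kk κ A
      = (A + 1) ^ (-(3 / 2) : ℝ) * (kk κ A * (1 + A) ^ 3) := by ring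
    _ ≤ (A + 1) ^ (-(3 / 2) : ℝ) * (32 * κ * (1 + 1 / (4 * κ ^ 2)) ^ 2) :=
        mul_le_mul_of_nonneg_left (kk_le κ A hκ hA) hp.le
    _ = _ := by ring

lemma meas_of_mono (g : ℝ → ℝ) (hg : MonotoneOn g (Ici 0)) (κ : ℝ) :
    AEStronglyMeasurable (fun A => g A * kk κ A) (volume.restrict (Ioi (0 : ℝ))) := by
  have hm : Monotone (fun A : ℝ => g (max A 0)) := by
    intro a b hab
    exact hg (by simp) (by simp) (max_le_max hab le_rfl)
  have hk : Measurable (fun A : ℝ => kk κ A) := by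
    unfold kk; fun_prop
  have h1 : Measurable (fun A : ℝ => g (max A 0) * kk κ A) := hm.measurable.mul hk
  refine h1.aestronglyMeasurable.congr ?_
  refine (ae_restrict_mem measurableSet_Ioi).mono ?_
  intro A hA
  have hA0 : (0 : ℝ) < A := hA
  simp only
  rw [max_eq_left hA0.le]

end Pool.Agent.NH13.WV.TAp

namespace Pool.Agent.NH13.WV

open Pool.Agent.NH13.UV Pool.Agent.NH13.WV.TAp

/-- WV-9: from the counts to the transforms -/
theorem t_TA (_h : S_nl) : S_TA := by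
  intro f hf hb hlim κ hκ
  obtain ⟨C, hC⟩ := hb
  set K : ℝ := 32 * κ * (1 + 1 / (4 * κ ^ 2)) ^ 2 with hK
  refine tendsto_integral_filter_of_dominated_convergence
    (fun A => |C| * (K * (A + 1) ^ (-(3 / 2) : ℝ))) ?_ ?_ ?_ ?_
  · filter_upwards [hf] with q hq
    exact meas_of_mono (f q) hq.1 κ
  · filter_upwards [hf, hC] with q hq hCq
    refine (ae_restrict_mem measurableSet_Ioi).mono ?_
    intro A hA
    have hA0 : (0 : ℝ) < A := hA
    have h0 : 0 ≤ f q A := hq.2 A hA0.le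
    have hk := kk_nonneg κ A hκ hA0.le
    have hr : 0 ≤ (1 + A) ^ (3 / 2 : ℝ) := Real.rpow_nonneg (by linarith) _
    rw [Real.norm_eq_abs, abs_of_nonneg (mul_nonneg h0 hk)]
    calc f q A * kk κ A ≤ (C * (1 + A) ^ (3 / 2 : ℝ)) * kk κ A :=
          mul_le_mul_of_nonneg_right (hCq A hA0.le) hk
      _ = C * ((1 + A) ^ (3 / 2 : ℝ) * kk κ A) := by ring
      _ ≤ |C| * ((1 + A) ^ (3 / 2 : ℝ) * kk κ A) :=
          mul_le_mul_of_nonneg_right (le_abs_self C) (mul_nonneg hr hk)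
      _ ≤ |C| * (K * (A + 1) ^ (-(3 / 2) : ℝ)) :=
          mul_le_mul_of_nonneg_left (dom_le κ A hκ hA0.le) (abs_nonneg C)
  · have hi : IntegrableOn (fun x : ℝ => (x + 1) ^ (-(3 / 2) : ℝ)) (Ioi (0 : ℝ)) :=
      integrableOn_add_rpow_Ioi_of_lt (by norm_num) (by norm_num)
    exact (hi.const_mul K).const_mul |C|
  · refine (ae_restrict_mem measurableSet_Ioi).mono ?_
    intro A hA
    exact (hlim A hA).mul_const _

end Pool.Agent.NH13.WV
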