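import Pool.Agent.NH13.WV.Stm2

/-!
# WV-TB: from the test functions to the counts
-/

set_option autoImplicit false

open Complex MeasureTheory Filter Topology Set

namespace Pool.Agent.NH13.WV

open Pool.Agent.NH13.UV

namespace Cnt

/-- the test function -/
noncomputable def hat (a b A : ℝ) : ℝ := max 0 ((A - a) * (b - A))

lemma hat_nonneg (a b A : ℝ) : 0 ≤ hat a b A := le_max_left _ _

lemma hat_cont (a b : ℝ) : Continuous (hat a b) := by
  unfold hat
  fun_prop

lemma hat_zero {a b A : ℝ} (hab : a < b) (hA : A ∉ Icc a b) : hat a b A = 0 := by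
  unfold hat
  apply max_eq_left
  by_cases h : a ≤ A
  · have h2 : b < A := by
      by_contra h3
      exact hA ⟨h, not_lt.mp h3⟩
    exact mul_nonpos_of_nonneg_of_nonpos (by linarith) (by linarith)
  · have h3 : A < a := not_le.mp h
    exact mul_nonpos_of_nonpos_of_nonneg (by linarith) (by linarith)

lemma hat_pos {a b A : ℝ} (hA : A ∈ Ioo a b) : 0 < hat a b A := by
  unfold hat
  exact lt_max_of_lt_right (mul_pos (by linarith [hA.1]) (by linarith [hA.2]))

lemma hat_int {a b : ℝ} (hab : a < b) : 0 < ∫ A in Icc a b, hat a b A := by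
  rw [integral_Icc_eq_integral_Ioc, ← intervalIntegral.integral_of_le hab.le]
  exact intervalIntegral.intervalIntegral_pos_of_pos_on
    ((hat_cont a b).intervalIntegrable a b) (fun x hx => hat_pos hx) hab

lemma hat_integrable (a b : ℝ) : IntegrableOn (hat a b) (Icc a b) :=
  (hat_cont a b).continuousOn.integrableOn_compact isCompact_Icc

lemma mul_integrable {g : ℝ → ℝ} {a b : ℝ} (ha : 0 < a) (hg : MonotoneOn g (Ici 0)) :
    IntegrableOn (fun A => g A * hat a b A) (Icc a b) := by
  have h1 : IntegrableOn g (Icc a b) := by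
    apply MonotoneOn.integrableOn_isCompact isCompact_Icc
    exact hg.mono (fun x hx => le_trans ha.le hx.1)
  exact h1.mul_continuousOn (hat_cont a b).continuousOn isCompact_Icc

lemma lower {g : ℝ → ℝ} {a b : ℝ} (ha : 0 < a) (hg : MonotoneOn g (Ici 0)) :
    g a * (∫ A in Icc a b, hat a b A) ≤ ∫ A in Icc a b, g A * hat a b A := by
  rw [← integral_const_mul]
  apply setIntegral_mono_on ((hat_integrable a b).const_mul _) (mul_integrable ha hg)
    measurableSet_Icc
  intro x hx
  have h1 : a ∈ Ici (0 : ℝ) := ha.le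
  have h2 : x ∈ Ici (0 : ℝ) := le_trans ha.le hx.1
  exact mul_le_mul_of_nonneg_right (hg h1 h2 hx.1) (hat_nonneg a b x)

lemma upper {g : ℝ → ℝ} {a b : ℝ} (ha : 0 < a) (hab : a < b) (hg : MonotoneOn g (Ici 0)) :
    ∫ A in Icc a b, g A * hat a b A ≤ g b * (∫ A in Icc a b, hat a b A) := by
  rw [← integral_const_mul]
  apply setIntegral_mono_on (mul_integrable ha hg) ((hat_integrable a b).const_mul _)
    measurableSet_Icc
  intro x hx
  have h1 : b ∈ Ici (0 : ℝ) := (ha.trans hab).le
  have h2 : x ∈ Ici (0 : ℝ) := le_trans ha.le hx.1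
  exact mul_le_mul_of_nonneg_right (hg h2 h1 hx.2) (hat_nonneg a b x)

end Cnt

open Cnt in
/-- WV-TB -/
theorem t_TB (h : S_TBw) (hn : S_nl) : S_TB := by
  intro f hf hT A0 hA0
  obtain ⟨hnc, hnm, -, -, -⟩ := hn
  rw [tendsto_order]
  constructor
  · intro c hc
    have h1 : ∀ᶠ x in 𝓝 A0, c < nl x := hnc.continuousAt.eventually (lt_mem_nhds hc)
    obtain ⟨δ, hδ, h2⟩ := Metric.eventually_nhds_iff.mp h1
    set r : ℝ := min (δ / 2) (A0 / 2) with hr
    have hr0 : 0 < r := lt_min (by linarith) (by linarith)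
    have hr1 : r ≤ δ / 2 := min_le_left _ _
    have hr2 : r ≤ A0 / 2 := min_le_right _ _
    have ha : 0 < A0 - r := by linarith
    have hab : A0 - r < A0 := by linarith
    have hca : c < nl (A0 - r) := by
      apply h2
      rw [Real.dist_eq, abs_lt]
      constructor <;> linarith
    have hJ := hat_int hab
    have h3 := h f hf hT (hat (A0 - r) A0) (A0 - r) A0 ha hab (hat_cont _ _)
      (fun A hA => hat_zero hab hA)
    have h4 : c * (∫ A in Icc (A0 - r) A0, hat (A0 - r) A0 A) <
        ∫ A in Icc (A0 - r) A0, nl A * hat (A0 - r) A0 A :=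
      lt_of_lt_of_le (mul_lt_mul_of_pos_right hca hJ) (lower ha hnm)
    filter_upwards [h3.eventually (lt_mem_nhds h4), hf] with q hq hfq
    have h5 := lt_of_lt_of_le hq (upper ha hab hfq.1)
    exact lt_of_mul_lt_mul_right h5 hJ.le
  · intro c hc
    have h1 : ∀ᶠ x in 𝓝 A0, nl x < c := hnc.continuousAt.eventually (gt_mem_nhds hc)
    obtain ⟨δ, hδ, h2⟩ := Metric.eventually_nhds_iff.mp h1
    set r : ℝ := δ / 2 with hr
    have hr0 : 0 < r := by linarith
    have hab : A0 < A0 + r := by linarith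
    have hca : nl (A0 + r) < c := by
      apply h2
      rw [Real.dist_eq, abs_lt]
      constructor <;> linarith
    have hJ := hat_int hab
    have h3 := h f hf hT (hat A0 (A0 + r)) A0 (A0 + r) hA0 hab (hat_cont _ _)
      (fun A hA => hat_zero hab hA)
    have h4 : (∫ A in Icc A0 (A0 + r), nl A * hat A0 (A0 + r) A) <
        c * (∫ A in Icc A0 (A0 + r), hat A0 (A0 + r) A) :=
      lt_of_le_of_lt (upper hA0 hab hnm) (mul_lt_mul_of_pos_right hca hJ)
    filter_upwards [h3.eventually (gt_mem_nhds h4), hf] with q hq hfq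
    have h5 := lt_of_le_of_lt (lower hA0 hfq.1) hq
    exact lt_of_mul_lt_mul_right h5 hJ.le

end Pool.Agent.NH13.WV
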