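import Pool.Agent.NH13.WV.Stm2

/-!
# Project WV: from the transforms to continuous test functions
-/

set_option autoImplicit false

open Complex MeasureTheory Filter Topology Set
open scoped ComplexConjugate

namespace Pool.Agent.NH13.WV

namespace TBw

/-- a continuous function vanishing outside `[a, b]` vanishes at the end points -/
theorem w_left {w : ℝ → ℝ} {a b : ℝ} (hw : Continuous w)
    (h0 : ∀ A, A ∉ Icc a b → w A = 0) : w a = 0 := by
  have h1 : Tendsto w (𝓝[<] a) (𝓝 (w a)) := hw.continuousAt.mono_left nhdsWithin_le_nhds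
  have h2 : Tendsto w (𝓝[<] a) (𝓝 0) := by
    refine tendsto_const_nhds.congr' ?_
    filter_upwards [self_mem_nhdsWithin] with x hx
    exact (h0 x fun h => absurd h.1 (not_le.2 hx)).symm
  exact tendsto_nhds_unique h1 h2

theorem w_right {w : ℝ → ℝ} {a b : ℝ} (hw : Continuous w)
    (h0 : ∀ A, A ∉ Icc a b → w A = 0) : w b = 0 := by
  have h1 : Tendsto w (𝓝[>] b) (𝓝 (w b)) := hw.continuousAt.mono_left nhdsWithin_le_nhds
  have h2 : Tendsto w (𝓝[>] b) (𝓝 0) := by
    refine tendsto_const_nhds.congr' ?_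
    filter_upwards [self_mem_nhdsWithin] with x hx
    exact (h0 x fun h => absurd h.2 (not_le.2 hx)).symm
  exact tendsto_nhds_unique h1 h2

/-- the point `A` of `[a, b]` nearest to `√(1 / y - 1)` in terms of `y` -/
noncomputable def pA (a b y : ℝ) : ℝ :=
  Real.sqrt (1 / max (1 / (1 + b ^ 2)) (min (1 / (1 + a ^ 2)) y) - 1)

/-- the function to approximate -/
noncomputable def gg (w : ℝ → ℝ) (a b y : ℝ) : ℝ :=
  w (pA a b y) * (1 + pA a b y ^ 2) ^ 2 / pA a b y

theorem pA_cont (a b : ℝ) : Continuous (pA a b) := by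
  unfold pA
  refine Real.continuous_sqrt.comp (Continuous.sub (Continuous.div continuous_const ?_ ?_)
    continuous_const)
  · exact continuous_const.max (continuous_const.min continuous_id)
  · intro y
    have h1 : 0 < 1 / (1 + b ^ 2) := by positivity
    exact (lt_of_lt_of_le h1 (le_max_left _ _)).ne'

theorem pA_of {a b : ℝ} (ha : 0 < a) (hab : a < b) {A : ℝ} (hA : 0 < A) :
    pA a b (1 / (1 + A ^ 2)) = max a (min b A) := by
  have key : ∀ x : ℝ, 0 < x → Real.sqrt (1 / (1 / (1 + x ^ 2)) - 1) = x := by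
    intro x hx
    rw [one_div_one_div]
    have : 1 + x ^ 2 - 1 = x ^ 2 := by ring
    rw [this, Real.sqrt_sq hx.le]
  have mono : ∀ x y : ℝ, 0 < x → x ≤ y → 1 / (1 + y ^ 2) ≤ 1 / (1 + x ^ 2) := by
    intro x y hx hxy
    refine one_div_le_one_div_of_le (by positivity) ?_
    have := pow_le_pow_left₀ hx.le hxy 2
    linarith
  unfold pA
  rcases le_total A a with h | h
  · have h1 := mono A a hA h
    have h2 := mono a b ha hab.le
    rw [min_eq_left h1, max_eq_right h2, key a ha, min_eq_right (h.trans hab.le), max_eq_left h]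
  · rcases le_total A b with h' | h'
    · have h1 := mono a A ha h
      have h2 := mono A b hA h'
      rw [min_eq_right h1, max_eq_right h2, key A hA, min_eq_right h', max_eq_right h]
    · have h1 := mono a A ha h
      have h2 := mono b A (ha.trans hab) h'
      rw [min_eq_right h1, max_eq_left h2, key b (ha.trans hab), min_eq_left h',
        max_eq_right hab.le]

theorem pA_pos {a b : ℝ} (ha : 0 < a) (hab : a < b) (y : ℝ) : 0 < pA a b y := by
  unfold pA
  refine Real.sqrt_pos.2 ?_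
  have hb : 0 < b := ha.trans hab
  have h1 : 0 < 1 / (1 + b ^ 2) := by positivity
  have h2 : max (1 / (1 + b ^ 2)) (min (1 / (1 + a ^ 2)) y) ≤ 1 / (1 + a ^ 2) := by
    refine max_le ?_ (min_le_left _ _)
    refine one_div_le_one_div_of_le (by positivity) ?_
    have := pow_le_pow_left₀ ha.le hab.le 2
    linarith
  have h3 : 0 < max (1 / (1 + b ^ 2)) (min (1 / (1 + a ^ 2)) y) :=
    lt_of_lt_of_le h1 (le_max_left _ _)
  have h4 : 1 + a ^ 2 ≤ 1 / max (1 / (1 + b ^ 2)) (min (1 / (1 + a ^ 2)) y) := by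
    rw [le_div_iff₀ h3]
    calc (1 + a ^ 2) * max (1 / (1 + b ^ 2)) (min (1 / (1 + a ^ 2)) y) ≤
        (1 + a ^ 2) * (1 / (1 + a ^ 2)) := mul_le_mul_of_nonneg_left h2 (by positivity)
      _ = 1 := by field_simp
  have h5 : 0 < a ^ 2 := by positivity
  linarith

theorem gg_cont {w : ℝ → ℝ} {a b : ℝ} (hw : Continuous w) (ha : 0 < a) (hab : a < b) :
    Continuous (gg w a b) := by
  unfold gg
  refine Continuous.div ((hw.comp (pA_cont a b)).mul ?_) (pA_cont a b) fun y => (pA_pos ha hab y).ne'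
  exact (continuous_const.add ((pA_cont a b).pow 2)).pow 2

theorem gg_eq {w : ℝ → ℝ} {a b : ℝ} (hw : Continuous w) (ha : 0 < a) (hab : a < b)
    (h0 : ∀ A, A ∉ Icc a b → w A = 0) {A : ℝ} (hA : 0 < A) :
    w A = gg w a b (1 / (1 + A ^ 2)) * (A * (1 / (1 + A ^ 2)) ^ 2) := by
  unfold gg
  rw [pA_of ha hab hA]
  by_cases h : A ∈ Icc a b
  · rw [min_eq_right h.2, max_eq_right h.1]
    field_simp
  · rw [h0 A h]
    have : w (max a (min b A)) = 0 := by
      rcases le_total A a with h1 | h1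
      · rw [min_eq_right (h1.trans hab.le), max_eq_left h1, w_left hw h0]
      · have h2 : b ≤ A := by
          by_contra hc
          exact h ⟨h1, (not_le.1 hc).le⟩
        rw [min_eq_left h2, max_eq_right hab.le, w_right hw h0]
    rw [this]
    ring

/-- the values `κ` -/
noncomputable def kap (b : ℝ) : ℝ := Real.sqrt (1 + b) / 2

theorem kap_pos {b : ℝ} (hb : 0 ≤ b) : 0 < kap b := by
  unfold kap
  have : 0 < Real.sqrt (1 + b) := Real.sqrt_pos.2 (by linarith)
  positivity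

theorem kap_sq {b : ℝ} (hb : 0 ≤ b) : 4 * kap b ^ 2 = 1 + b := by
  unfold kap
  rw [div_pow, Real.sq_sqrt (by linarith)]
  ring

theorem kk_kap {b A : ℝ} (hb : 0 ≤ b) (hA : 0 < A) (c : ℝ) :
    c / (8 * kap b) * kk (kap b) A =
      c / (1 + b * (1 / (1 + A ^ 2))) ^ 2 * (A * (1 / (1 + A ^ 2)) ^ 2) := by
  unfold kk
  rw [kap_sq hb]
  have h1 := (kap_pos hb).ne'
  have h2 : (1 + A ^ 2 : ℝ) ≠ 0 := by positivity
  have h3 : (1 + b + A ^ 2 : ℝ) ≠ 0 := by positivity
  have h4 : (1 + b * (1 / (1 + A ^ 2)) : ℝ) = (1 + b + A ^ 2) / (1 + A ^ 2) := by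
    field_simp
    ring
  rw [h4]
  field_simp

theorem kk_half {A : ℝ} : A * (1 / (1 + A ^ 2)) ^ 2 = 1 / 4 * kk (1 / 2) A := by
  unfold kk
  have h2 : (1 + A ^ 2 : ℝ) ≠ 0 := by positivity
  have h3 : (4 * (1 / 2) ^ 2 + A ^ 2 : ℝ) = 1 + A ^ 2 := by ring
  rw [h3]
  field_simp
  ring

/-- the comparison for one function -/
theorem key {f w : ℝ → ℝ} {a b : ℝ} (ha : 0 < a) (hab : a < b) (hw : Continuous w)
    (h0 : ∀ A, A ∉ Icc a b → w A = 0) (hm : MonotoneOn f (Ici 0)) (hp : ∀ A, 0 ≤ A → 0 ≤ f A)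
    (hi : ∀ κ : ℝ, 0 < κ → IntegrableOn (fun A => f A * kk κ A) (Ioi 0))
    {ε : ℝ} {n : ℕ} {c d : Fin n → ℝ} (hd : ∀ i, 0 ≤ d i)
    (happ : ∀ y ∈ Icc (0 : ℝ) 1, |gg w a b y - ∑ i, c i / (1 + d i * y) ^ 2| ≤ ε) :
    |(∫ A in Icc a b, f A * w A) -
        ∑ i, c i / (8 * kap (d i)) * ∫ A in Ioi (0 : ℝ), f A * kk (kap (d i)) A| ≤
      ε / 4 * ∫ A in Ioi (0 : ℝ), f A * kk (1 / 2) A := by
  have hsub : Icc a b ⊆ Ioi (0 : ℝ) := fun x hx => lt_of_lt_of_le ha hx.1
  have hz : ∀ x ∈ Ioi (0 : ℝ) \ Icc a b, f x * w x = 0 := fun x hx => by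
    rw [h0 x hx.2, mul_zero]
  have hfi : IntegrableOn (fun A => f A * w A) (Icc a b) := by
    have h1 : IntegrableOn f (Icc a b) :=
      MonotoneOn.integrableOn_isCompact isCompact_Icc (hm.mono fun x hx => ha.le.trans hx.1)
    exact h1.mul_continuousOn hw.continuousOn isCompact_Icc
  have hfi2 : IntegrableOn (fun A => f A * w A) (Ioi 0) :=
    hfi.of_forall_sdiff_eq_zero measurableSet_Ioi hz
  have e1 : ∫ A in Icc a b, f A * w A = ∫ A in Ioi (0 : ℝ), f A * w A :=
    (setIntegral_eq_of_subset_of_forall_sdiff_eq_zero measurableSet_Ioi hsub hz).symm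
  have e2 : ∑ i, c i / (8 * kap (d i)) * ∫ A in Ioi (0 : ℝ), f A * kk (kap (d i)) A =
      ∫ A in Ioi (0 : ℝ), ∑ i, c i / (8 * kap (d i)) * (f A * kk (kap (d i)) A) := by
    rw [integral_finsetSum]
    · exact Finset.sum_congr rfl fun i _ => (integral_const_mul _ _).symm
    · exact fun i _ => (hi _ (kap_pos (hd i))).const_mul _
  have hsi : IntegrableOn (fun A => ∑ i, c i / (8 * kap (d i)) * (f A * kk (kap (d i)) A)) (Ioi 0) :=
    integrable_finsetSum _ fun i _ => (hi _ (kap_pos (hd i))).const_mul _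
  rw [e1, e2, ← integral_sub hfi2 hsi, ← integral_const_mul, ← Real.norm_eq_abs]
  refine norm_integral_le_of_norm_le ((hi (1 / 2) (by norm_num)).const_mul (ε / 4)) ?_
  refine (ae_restrict_iff' measurableSet_Ioi).2 (ae_of_all _ fun A hA => ?_)
  have hA : 0 < A := hA
  have hy : 1 / (1 + A ^ 2) ∈ Icc (0 : ℝ) 1 := by
    refine ⟨by positivity, ?_⟩
    rw [div_le_one (by positivity)]
    have : 0 ≤ A ^ 2 := by positivity
    linarith
  have h1 := happ _ hy
  have h2 : f A * w A - ∑ i, c i / (8 * kap (d i)) * (f A * kk (kap (d i)) A) =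
      f A * ((gg w a b (1 / (1 + A ^ 2)) - ∑ i, c i / (1 + d i * (1 / (1 + A ^ 2))) ^ 2) *
        (A * (1 / (1 + A ^ 2)) ^ 2)) := by
    rw [gg_eq hw ha hab h0 hA, sub_mul, mul_sub, Finset.sum_mul, Finset.mul_sum (a := f A)]
    congr 1
    refine Finset.sum_congr rfl fun i _ => ?_
    rw [← kk_kap (hd i) hA]
    ring
  rw [h2, Real.norm_eq_abs, abs_mul, abs_mul, abs_of_nonneg (hp A hA.le),
    abs_of_nonneg (by positivity : 0 ≤ A * (1 / (1 + A ^ 2)) ^ 2)]
  have h3 : ε / 4 * (f A * kk (1 / 2) A) = f A * (ε * (A * (1 / (1 + A ^ 2)) ^ 2)) := by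
    rw [kk_half]
    ring
  rw [h3]
  exact mul_le_mul_of_nonneg_left (mul_le_mul_of_nonneg_right h1 (by positivity)) (hp A hA.le)

end TBw

open TBw in
theorem t_TBw (h : S_Wei) (hn : S_nl) : S_TBw := by
  intro f hf hlim w a b ha hab hw h0
  obtain ⟨-, n1, n2, -, n3⟩ := hn
  have n2' : ∀ A : ℝ, 0 ≤ A → 0 ≤ nl A := fun A hA => zero_le_one.trans (n2 A hA)
  set J := ∫ A in Ioi (0 : ℝ), nl A * kk (1 / 2) A with hJ
  have hJ0 : 0 ≤ J := by
    refine setIntegral_nonneg measurableSet_Ioi fun A hA => ?_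
    have hA : 0 < A := hA
    refine mul_nonneg (n2' A hA.le) ?_
    unfold kk
    positivity
  rw [Metric.tendsto_atTop']
  intro δ hδ
  obtain ⟨n, c, d, hd, happ⟩ := h (gg w a b) (gg_cont hw ha hab).continuousOn (δ / (J + 1))
    (by positivity)
  have t1 : Tendsto (fun q => ∑ i, c i / (8 * kap (d i)) *
      ∫ A in Ioi (0 : ℝ), f q A * kk (kap (d i)) A) atTop
      (𝓝 (∑ i, c i / (8 * kap (d i)) * ∫ A in Ioi (0 : ℝ), nl A * kk (kap (d i)) A)) :=
    tendsto_finsetSum _ fun i _ => (hlim _ (kap_pos (hd i))).const_mul _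
  have t2 := hlim (1 / 2) (by norm_num)
  have e1 := (Metric.tendsto_nhds.1 t1) (δ / 3) (by positivity)
  have e2 := (Metric.tendsto_nhds.1 t2) 1 (by norm_num)
  obtain ⟨N, hN⟩ := eventually_atTop.1 (e1.and (e2.and hf))
  refine ⟨N, fun q hq => ?_⟩
  obtain ⟨g1, g2, g3, g4, g5⟩ := hN q hq.le
  have k1 := key ha hab hw h0 g3 g4 g5 hd happ
  have k2 := key ha hab hw h0 n1 n2' n3 hd happ
  rw [Real.dist_eq] at g1 g2 ⊢
  rw [← hJ] at k2 g2
  have g2' := (abs_lt.1 g2).2
  have k1' : δ / (J + 1) / 4 * ∫ A in Ioi (0 : ℝ), f q A * kk (1 / 2) A ≤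
      δ / (J + 1) / 4 * (J + 1) := mul_le_mul_of_nonneg_left (by linarith) (by positivity)
  have k2' : δ / (J + 1) / 4 * J ≤ δ / (J + 1) / 4 * (J + 1) :=
    mul_le_mul_of_nonneg_left (by linarith) (by positivity)
  have e3 : δ / (J + 1) / 4 * (J + 1) = δ / 4 := by
    field_simp
  rw [e3] at k1' k2'
  have m1 := abs_le.1 (k1.trans k1')
  have m2 := abs_le.1 (k2.trans k2')
  have m3 := abs_lt.1 g1
  rw [abs_lt]
  constructor <;> linarith [m1.1, m1.2, m2.1, m2.2, m3.1, m3.2]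

end Pool.Agent.NH13.WV
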