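import Pool.Agent.NH13.WV.Stm3
import Pool.Agent.NH13.UV.Asm

/-!
# WV-tail: the mean squares of `Re B` for large `κ`
-/

set_option autoImplicit false

open Complex MeasureTheory Filter Topology Set
open scoped ComplexConjugate

namespace Pool.Agent.NH13.WV

open Pool.Agent.NH13.UV

namespace Tail

theorem int1 {κ : ℝ} (hκ : 0 < κ) : ∫ u in (0 : ℝ)..1, u * Real.exp (-2 * κ * u) =
    (1 - Real.exp (-2 * κ)) / (4 * κ ^ 2) - Real.exp (-2 * κ) / (2 * κ) := by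
  have h : ∀ u ∈ uIcc (0 : ℝ) 1, HasDerivAt
      (fun u : ℝ => -(u / (2 * κ) + 1 / (4 * κ ^ 2)) * Real.exp (-2 * κ * u))
      (u * Real.exp (-2 * κ * u)) u := by
    intro u _
    have h1 : HasDerivAt (fun u : ℝ => -2 * κ * u) (-2 * κ) u := by
      simpa using (hasDerivAt_id u).const_mul (-2 * κ)
    have h2 := h1.exp
    have h3 : HasDerivAt (fun u : ℝ => -(u / (2 * κ) + 1 / (4 * κ ^ 2))) (-(1 / (2 * κ))) u :=
      (((hasDerivAt_id u).div_const _).add_const _).neg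
    have h4 := h3.mul h2
    have e : -(1 / (2 * κ)) * Real.exp (-2 * κ * u) +
        -(u / (2 * κ) + 1 / (4 * κ ^ 2)) * (Real.exp (-2 * κ * u) * (-2 * κ)) =
        u * Real.exp (-2 * κ * u) := by
      field_simp
      ring
    rw [e] at h4
    exact h4
  rw [intervalIntegral.integral_eq_sub_of_hasDerivAt h
    (Continuous.intervalIntegrable (by fun_prop) _ _)]
  have e0 : Real.exp (-2 * κ * 0) = 1 := by simp
  have e1 : Real.exp (-2 * κ * 1) = Real.exp (-2 * κ) := by rw [mul_one]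
  rw [e0, e1]
  field_simp
  ring

theorem core {f : ℝ → ℝ} (nn : ∀ u, 0 ≤ f u) (meas : Measurable f) {κ ε C0 : ℝ} (hκ : 1 ≤ κ)
    (hs : ∀ u ∈ Icc (0 : ℝ) 1, |f u - u| ≤ ε) (hfin : LT f κ ≠ ⊤) (hC0 : 0 ≤ C0)
    (hfin1 : LT f 1 ≤ ENNReal.ofReal C0) :
    |(LT f κ).toReal - (1 - Real.exp (-2 * κ)) / (4 * κ ^ 2)| ≤
      ε + (C0 * Real.exp 2 + 1) * Real.exp (-2 * κ) := by
  have hm : ∀ κ : ℝ, Measurable (fun u => Real.exp (-2 * κ * u) * f u) := fun κ =>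
    (by fun_prop : Measurable fun u : ℝ => Real.exp (-2 * κ * u)).mul meas
  have hI : ∀ κ : ℝ, LT f κ ≠ ⊤ →
      IntegrableOn (fun u => Real.exp (-2 * κ * u) * f u) (Ioi 0) ∧
      (LT f κ).toReal = ∫ u in Ioi (0 : ℝ), Real.exp (-2 * κ * u) * f u := by
    intro κ h
    have hnn : 0 ≤ᵐ[volume.restrict (Ioi (0 : ℝ))] (fun u => Real.exp (-2 * κ * u) * f u) :=
      Eventually.of_forall fun u => mul_nonneg (Real.exp_pos _).le (nn u)
    refine ⟨(lintegral_ofReal_ne_top_iff_integrable (hm κ).aestronglyMeasurable hnn).1 h, ?_⟩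
    rw [integral_eq_lintegral_of_nonneg_ae hnn (hm κ).aestronglyMeasurable]
    rfl
  obtain ⟨i1, e1⟩ := hI κ hfin
  obtain ⟨i2, e2⟩ := hI 1 (ne_top_of_le_ne_top ENNReal.ofReal_ne_top hfin1)
  have hC : ∫ u in Ioi (0 : ℝ), Real.exp (-2 * 1 * u) * f u ≤ C0 := by
    rw [← e2]
    exact ENNReal.toReal_le_of_le_ofReal hC0 hfin1
  have hU : Ioi (0 : ℝ) = Ioc 0 1 ∪ Ioi 1 := (Ioc_union_Ioi_eq_Ioi zero_le_one).symm
  have hsub1 : Ioc (0 : ℝ) 1 ⊆ Ioi 0 := fun u hu => hu.1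
  have hsub2 : Ioi (1 : ℝ) ⊆ Ioi 0 := Ioi_subset_Ioi zero_le_one
  have hsplit : ∫ u in Ioi (0 : ℝ), Real.exp (-2 * κ * u) * f u =
      (∫ u in Ioc (0 : ℝ) 1, Real.exp (-2 * κ * u) * f u) +
        ∫ u in Ioi (1 : ℝ), Real.exp (-2 * κ * u) * f u := by
    conv_lhs => rw [hU]
    exact setIntegral_union (Ioc_disjoint_Ioi le_rfl) measurableSet_Ioi (i1.mono_set hsub1)
      (i1.mono_set hsub2)
  -- the second part
  have h2a : 0 ≤ ∫ u in Ioi (1 : ℝ), Real.exp (-2 * κ * u) * f u :=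
    setIntegral_nonneg measurableSet_Ioi fun u _ => mul_nonneg (Real.exp_pos _).le (nn u)
  have h2b : ∫ u in Ioi (1 : ℝ), Real.exp (-2 * κ * u) * f u ≤ C0 * Real.exp 2 * Real.exp (-2 * κ) := by
    have h3 : ∫ u in Ioi (1 : ℝ), Real.exp (-2 * κ * u) * f u ≤
        ∫ u in Ioi (1 : ℝ), (Real.exp 2 * Real.exp (-2 * κ)) * (Real.exp (-2 * 1 * u) * f u) := by
      refine setIntegral_mono_on (i1.mono_set hsub2) ((i2.mono_set hsub2).const_mul _)
        measurableSet_Ioi fun u hu => ?_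
      have hu1 : 1 ≤ u := le_of_lt hu
      rw [← mul_assoc]
      refine mul_le_mul_of_nonneg_right ?_ (nn u)
      rw [← Real.exp_add, ← Real.exp_add]
      apply Real.exp_le_exp.2
      nlinarith
    have h4 : ∫ u in Ioi (1 : ℝ), Real.exp (-2 * 1 * u) * f u ≤
        ∫ u in Ioi (0 : ℝ), Real.exp (-2 * 1 * u) * f u :=
      setIntegral_mono_set i2 (Eventually.of_forall fun u => mul_nonneg (Real.exp_pos _).le (nn u))
        (HasSubset.Subset.eventuallyLE hsub2)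
    rw [integral_const_mul] at h3
    have h5 : 0 ≤ Real.exp 2 * Real.exp (-2 * κ) := by positivity
    calc _ ≤ (Real.exp 2 * Real.exp (-2 * κ)) * ∫ u in Ioi (1 : ℝ), Real.exp (-2 * 1 * u) * f u := h3
      _ ≤ (Real.exp 2 * Real.exp (-2 * κ)) * C0 := mul_le_mul_of_nonneg_left (h4.trans hC) h5
      _ = C0 * Real.exp 2 * Real.exp (-2 * κ) := by ring
  -- the first part
  have hG : ∫ u in Ioc (0 : ℝ) 1, u * Real.exp (-2 * κ * u) =
      (1 - Real.exp (-2 * κ)) / (4 * κ ^ 2) - Real.exp (-2 * κ) / (2 * κ) := by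
    rw [← int1 (by linarith), intervalIntegral.integral_of_le zero_le_one]
  have i3 : IntegrableOn (fun u : ℝ => u * Real.exp (-2 * κ * u)) (Ioc 0 1) :=
    (Continuous.integrableOn_Icc (by fun_prop)).mono_set Ioc_subset_Icc_self
  have h1 : |(∫ u in Ioc (0 : ℝ) 1, Real.exp (-2 * κ * u) * f u) -
      ∫ u in Ioc (0 : ℝ) 1, u * Real.exp (-2 * κ * u)| ≤ ε := by
    rw [← integral_sub (i1.mono_set hsub1) i3]
    have h3 := norm_setIntegral_le_of_norm_le_const (μ := volume) (s := Ioc (0 : ℝ) 1) (C := ε)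
      (f := fun u : ℝ => Real.exp (-2 * κ * u) * f u - u * Real.exp (-2 * κ * u))
      (by simp) (fun u hu => by
        have h4 := hs u ⟨hu.1.le, hu.2⟩
        have h5 : Real.exp (-2 * κ * u) * f u - u * Real.exp (-2 * κ * u) =
          Real.exp (-2 * κ * u) * (f u - u) := by ring
        rw [h5, norm_mul, Real.norm_eq_abs, Real.norm_eq_abs, abs_of_pos (Real.exp_pos _)]
        have h6 : Real.exp (-2 * κ * u) ≤ 1 := by
          rw [Real.exp_le_one_iff]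
          have := hu.1
          nlinarith
        calc Real.exp (-2 * κ * u) * |f u - u| ≤ 1 * |f u - u| :=
              mul_le_mul_of_nonneg_right h6 (abs_nonneg _)
          _ ≤ ε := by rw [one_mul]; exact h4)
    rw [Real.norm_eq_abs] at h3
    refine h3.trans (le_of_eq ?_)
    simp
  have h7 : 0 ≤ Real.exp (-2 * κ) / (2 * κ) := by positivity
  have h8 : Real.exp (-2 * κ) / (2 * κ) ≤ Real.exp (-2 * κ) :=
    div_le_self (Real.exp_pos _).le (by linarith)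
  rw [e1, hsplit, abs_le]
  rw [hG] at h1
  rw [abs_le] at h1
  have h9 : 0 < Real.exp (-2 * κ) := Real.exp_pos _
  have h10 : 0 ≤ C0 * Real.exp 2 * Real.exp (-2 * κ) := by positivity
  constructor
  · nlinarith [h1.1, h1.2]
  · nlinarith [h1.1, h1.2]

theorem Gn_nonneg (q : ℕ) [NeZero q] (κ : ℝ) : 0 ≤ Gn q κ := by
  unfold Gn
  refine mul_nonneg (by positivity) (Finset.sum_nonneg fun χ _ => ?_)
  exact setIntegral_nonneg measurableSet_Ioi fun u hu =>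
    mul_nonneg (sq_nonneg _) (Real.rpow_nonneg (zero_le_one.trans (le_of_lt hu)) _)

/-- the last step -/
theorem fin {G I g e E C1 : ℝ} (hE : 0 < E) (hE1 : E ≤ 1) (he : e = E ^ 2) (hg0 : 0 ≤ g)
    (hg1 : g ≤ 1) (hC1 : 0 ≤ C1) (hG : |G - g| ≤ C1 * e)
    (hI : |1 + 2 * G - I| ≤ E / 2 * (1 + I)) :
    |I - (1 + 2 * g)| ≤ (2 * (2 + 2 * (1 + C1)) + 2 + 2 * C1) * E := by
  have he1 : e ≤ E := by rw [he]; nlinarith
  have he0 : 0 ≤ e := by rw [he]; positivity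
  have hCe : C1 * e ≤ C1 * E := mul_le_mul_of_nonneg_left he1 hC1
  rw [abs_le] at hG hI ⊢
  have hG1 : G ≤ 1 + C1 := by nlinarith [hG.2]
  have hI1 : I ≤ 2 * (2 + 2 * (1 + C1)) := by
    by_contra hno
    push Not at hno
    have h1 : E / 2 * (1 + I) ≤ 1 / 2 * (1 + I) := by
      refine mul_le_mul_of_nonneg_right (by linarith) (by nlinarith)
    nlinarith [hI.1]
  have h2 : E / 2 * (1 + I) ≤ E * (1 + 2 * (2 + 2 * (1 + C1))) := by nlinarith
  constructor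
  · nlinarith [hG.1, hG.2, hI.1, hI.2]
  · nlinarith [hG.1, hG.2, hI.1, hI.2]

end Tail

/-- the known range: the mean squares of `Re B` for large `κ` -/
theorem t_tail (hr : S_rel) (hG : S_GG) (hcv : S_cv) (hf : S_fam) (hb : S_bd) : S_tail := by
  intro hA hR hP
  obtain ⟨C, hC⟩ := hb hA hR hP
  have hC1 := hC 1 one_pos le_rfl
  obtain ⟨q1, hq1⟩ := eventually_atTop.1 hC1
  obtain ⟨C0, hC0, hCC⟩ : ∃ C0 : ℝ, 0 ≤ C0 ∧ C / 1 ^ 2 ≤ C0 := ⟨max (C / 1 ^ 2) 0, le_max_right _ _,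
    le_max_left _ _⟩
  obtain ⟨C2, hC2⟩ : ∃ C2 : ℝ, C2 = C0 * Real.exp 2 + 3 := ⟨_, rfl⟩
  have hC2' : 0 ≤ C2 := by rw [hC2]; positivity
  refine ⟨2 * (2 + 2 * (1 + C2)) + 2 + 2 * C2, fun κ hκ => ?_⟩
  have hκ0 : 0 < κ := by linarith
  have hE2 : Real.exp (-2 * κ) = Real.exp (-κ) ^ 2 := by
    rw [← Real.exp_nat_mul]
    congr 1
    push_cast
    ring
  obtain ⟨q2, hq2⟩ := eventually_atTop.1 (hf.small (Real.exp (-2 * κ)) (Real.exp_pos _))
  obtain ⟨q3, hq3⟩ := hG.2 hP κ (Real.exp (-2 * κ)) hκ0 (Real.exp_pos _)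
  obtain ⟨q4, hq4⟩ := hr κ (Real.exp (-κ) / 2) hκ0 (by positivity)
  refine ⟨q1 + q2 + q3 + q4 + 2, fun q _ hq => ?_⟩
  have hq2' : 2 ≤ q := by omega
  have hv : Gv q κ < ⊤ := Asm.Gv_lt hA hq2' hκ0
  have hv2 : Gv q (1 / 2) < ⊤ := Asm.Gv_lt hA hq2' (by norm_num)
  have hFi := (hG.1 q hq2' (1 / 2) (by norm_num) hv2).1
  have hI := hq4 q (by omega) ⟨1 / 2, by norm_num, by linarith, hFi⟩
  have h1 := (hG.1 q hq2' κ hκ0 hv).2
  have h2 := hq3 q (by omega) hv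
  have h1' : Gn q κ ≤ (Gv q κ).toReal := (ENNReal.ofReal_le_iff_le_toReal hv.ne).1 h1
  have h2' : (Gv q κ).toReal ≤ Gn q κ + Real.exp (-2 * κ) :=
    ENNReal.toReal_le_of_le_ofReal (add_nonneg (Tail.Gn_nonneg q κ) (Real.exp_pos _).le) h2
  have hcore := Tail.core (f := ff q) (hf.nn q) (hf.meas q) (κ := κ) (ε := Real.exp (-2 * κ))
    (C0 := C0) hκ (hq2 q (by omega)) (by rw [hcv.2 q hq2' κ]; exact hv.ne) hC0
    (by
      rw [hcv.2 q hq2' 1]
      exact (hq1 q (by omega)).trans (ENNReal.ofReal_le_ofReal hCC))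
  rw [hcv.2 q hq2' κ] at hcore
  have hGg : |Gn q κ - (1 - Real.exp (-2 * κ)) / (4 * κ ^ 2)| ≤ C2 * Real.exp (-2 * κ) := by
    rw [abs_le] at hcore ⊢
    rw [hC2]
    constructor
    · nlinarith [hcore.1, hcore.2, Real.exp_pos (-2 * κ)]
    · nlinarith [hcore.1, hcore.2, Real.exp_pos (-2 * κ)]
  have hexp1 : Real.exp (-2 * κ) ≤ 1 := by
    rw [Real.exp_le_one_iff]
    linarith
  have hk4 : 1 ≤ 4 * κ ^ 2 := by nlinarith
  have hg0 : 0 ≤ (1 - Real.exp (-2 * κ)) / (4 * κ ^ 2) := div_nonneg (by linarith) (by positivity)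
  have hg1 : (1 - Real.exp (-2 * κ)) / (4 * κ ^ 2) ≤ 1 := by
    rw [div_le_one (by positivity)]
    linarith [Real.exp_pos (-2 * κ)]
  have hfin := Tail.fin (E := Real.exp (-κ)) (e := Real.exp (-2 * κ)) (Real.exp_pos _)
    (by rw [Real.exp_le_one_iff]; linarith) hE2 hg0 hg1 hC2' hGg hI
  have e3 : 1 + (1 - Real.exp (-2 * κ)) / (2 * κ ^ 2) =
      1 + 2 * ((1 - Real.exp (-2 * κ)) / (4 * κ ^ 2)) := by
    field_simp
    ring
  rw [e3]
  exact hfin

end Pool.Agent.NH13.WV
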