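import Pool.Agent.NH13.WV.Stm2

set_option autoImplicit false

/-! # Approximation of continuous functions on `[0, 1]` by combinations of `1 / (1 + b y) ^ 2` -/

open Set Filter Topology MeasureTheory

namespace Pool.Agent.NH13.WV

namespace Wei

/-- the kernel -/
noncomputable def ker (b : ℝ) : ℝ → ℝ := fun y => 1 / (1 + b * y) ^ 2

/-- the kernels with nonnegative parameter -/
def kers : Set (ℝ → ℝ) := {f | ∃ b : ℝ, 0 ≤ b ∧ f = ker b}

/-- uniform limits on `[0, 1]` of combinations of the kernels -/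
def V (f : ℝ → ℝ) : Prop := ∀ ε : ℝ, 0 < ε → ∃ h ∈ Submodule.span ℝ kers,
  ∀ y ∈ Icc (0 : ℝ) 1, |f y - h y| ≤ ε

theorem V_of_mem {f : ℝ → ℝ} (h : f ∈ Submodule.span ℝ kers) : V f := fun ε hε =>
  ⟨f, h, fun y _ => by rw [sub_self, abs_zero]; exact hε.le⟩

theorem V_ker {b : ℝ} (hb : 0 ≤ b) : V (ker b) :=
  V_of_mem (Submodule.subset_span ⟨b, hb, rfl⟩)

theorem V_add {f g : ℝ → ℝ} (hf : V f) (hg : V g) : V (fun y => f y + g y) := by
  intro ε hε
  obtain ⟨u, hu, h1⟩ := hf (ε / 2) (by positivity)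
  obtain ⟨v, hv, h2⟩ := hg (ε / 2) (by positivity)
  refine ⟨u + v, add_mem hu hv, fun y hy => ?_⟩
  have e : f y + g y - (u + v) y = (f y - u y) + (g y - v y) := by
    rw [Pi.add_apply]
    ring
  rw [e]
  refine (abs_add_le _ _).trans ?_
  linarith [h1 y hy, h2 y hy]

theorem V_smul {f : ℝ → ℝ} (c : ℝ) (hf : V f) : V (fun y => c * f y) := by
  intro ε hε
  obtain ⟨u, hu, h1⟩ := hf (ε / (|c| + 1)) (by positivity)
  refine ⟨c • u, Submodule.smul_mem _ c hu, fun y hy => ?_⟩
  have e : c * f y - (c • u) y = c * (f y - u y) := by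
    rw [Pi.smul_apply, smul_eq_mul]
    ring
  rw [e, abs_mul]
  calc |c| * |f y - u y| ≤ (|c| + 1) * (ε / (|c| + 1)) :=
        mul_le_mul (by linarith) (h1 y hy) (abs_nonneg _) (by positivity)
    _ = ε := by field_simp

theorem V_zero : V (fun _ => 0) := V_of_mem (zero_mem _)

theorem V_sum {ι : Type} (s : Finset ι) (f : ι → ℝ → ℝ) (h : ∀ i ∈ s, V (f i)) :
    V (fun y => ∑ i ∈ s, f i y) := by
  classical
  induction s using Finset.induction_on with
  | empty => simpa using V_zero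
  | insert a s ha ih =>
    have h1 := V_add (h a (Finset.mem_insert_self a s))
      (ih (fun i hi => h i (Finset.mem_insert_of_mem hi)))
    simpa only [Finset.sum_insert ha] using h1

theorem V_lim {f : ℝ → ℝ} (h : ∀ ε : ℝ, 0 < ε → ∃ g, V g ∧ ∀ y ∈ Icc (0 : ℝ) 1, |f y - g y| ≤ ε) :
    V f := by
  intro ε hε
  obtain ⟨g, hg, h1⟩ := h (ε / 2) (by positivity)
  obtain ⟨u, hu, h2⟩ := hg (ε / 2) (by positivity)
  refine ⟨u, hu, fun y hy => ?_⟩
  have e : f y - u y = (f y - g y) + (g y - u y) := by ring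
  rw [e]
  refine (abs_add_le _ _).trans ?_
  linarith [h1 y hy, h2 y hy]

theorem ident (n : ℕ) (t : ℝ) :
    (1 + t) ^ 2 * ∑ k ∈ Finset.range (n + 1), (-1 : ℝ) ^ k * (k + 1) * t ^ k =
      1 + (-1) ^ n * ((n + 2) * t ^ (n + 1) + (n + 1) * t ^ (n + 2)) := by
  induction n with
  | zero => simp; ring
  | succ n ih =>
    rw [Finset.sum_range_succ, mul_add, ih]
    push_cast
    ring

theorem est (n : ℕ) {t : ℝ} (h0 : 0 ≤ t) (h1 : t ≤ 1) :
    |1 / (1 + t) ^ 2 - ∑ k ∈ Finset.range (n + 1), (-1 : ℝ) ^ k * (k + 1) * t ^ k| ≤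
      (2 * n + 3) * t ^ (n + 1) := by
  have hp : 0 < (1 + t) ^ 2 := by positivity
  have e : 1 / (1 + t) ^ 2 - ∑ k ∈ Finset.range (n + 1), (-1 : ℝ) ^ k * (k + 1) * t ^ k =
      -((-1) ^ n * ((n + 2) * t ^ (n + 1) + (n + 1) * t ^ (n + 2)) / (1 + t) ^ 2) := by
    rw [eq_neg_iff_add_eq_zero]
    have := ident n t
    field_simp
    linarith
  rw [e, abs_neg, abs_div, abs_mul, abs_pow, abs_neg, abs_one, one_pow, one_mul,
    abs_of_pos hp, abs_of_nonneg (by positivity)]
  have h2 : (1 : ℝ) ≤ (1 + t) ^ 2 := by nlinarith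
  refine (div_le_self (by positivity) h2).trans ?_
  have h3 : t ^ (n + 2) ≤ t ^ (n + 1) := pow_le_pow_of_le_one h0 h1 (by omega)
  have h4 : ((n : ℝ) + 1) * t ^ (n + 2) ≤ (n + 1) * t ^ (n + 1) :=
    mul_le_mul_of_nonneg_left h3 (by positivity)
  nlinarith

theorem V_pow (n : ℕ) : V (fun y => y ^ n) := by
  induction n using Nat.strong_induction_on with
  | _ n ih =>
    refine V_lim fun ε hε => ?_
    obtain ⟨b, hb⟩ : ∃ b : ℝ, b = min 1 (ε / 3) := ⟨_, rfl⟩
    have hb0 : 0 < b := by rw [hb]; exact lt_min one_pos (by positivity)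
    have hb1 : b ≤ 1 := by rw [hb]; exact min_le_left _ _
    have hb2 : b ≤ ε / 3 := by rw [hb]; exact min_le_right _ _
    obtain ⟨c, hc⟩ : ∃ c : ℝ, c = (-1) ^ n / ((n + 1) * b ^ n) := ⟨_, rfl⟩
    refine ⟨fun y => c * (ker b y +
      ∑ k ∈ Finset.range n, (-((-1 : ℝ) ^ k * (k + 1) * b ^ k)) * y ^ k), ?_, fun y hy => ?_⟩
    · refine V_smul c (V_add (V_ker hb0.le) (V_sum _ _ fun k hk => V_smul _ (ih k ?_)))
      exact Finset.mem_range.1 hk
    · have h1 := est n (t := b * y) (mul_nonneg hb0.le hy.1)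
        (by nlinarith [hy.1, hy.2])
      rw [Finset.sum_range_succ] at h1
      obtain ⟨S, hS⟩ : ∃ S, S = ∑ k ∈ Finset.range n, (-1 : ℝ) ^ k * (k + 1) * (b * y) ^ k :=
        ⟨_, rfl⟩
      rw [← hS] at h1
      have h2 : ∑ k ∈ Finset.range n, (-((-1 : ℝ) ^ k * (k + 1) * b ^ k)) * y ^ k = -S := by
        rw [hS, ← Finset.sum_neg_distrib]
        refine Finset.sum_congr rfl fun k _ => ?_
        rw [mul_pow]
        ring
      beta_reduce
      rw [h2]
      have hbn : 0 < b ^ n := by positivity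
      have hcc : c * ((-1) ^ n * (n + 1) * b ^ n) = 1 := by
        rw [hc]
        have h5 : ((-1 : ℝ) ^ n) * (-1) ^ n = 1 := by
          rw [← mul_pow]
          norm_num
        field_simp
        linarith
      have e : y ^ n - c * (ker b y + -S) =
          -(c * (1 / (1 + b * y) ^ 2 - (S + (-1) ^ n * (n + 1) * (b * y) ^ n))) := by
        have h6 : c * ((-1) ^ n * (n + 1) * (b * y) ^ n) = y ^ n := by
          rw [mul_pow]
          calc c * ((-1) ^ n * (n + 1) * (b ^ n * y ^ n)) =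
              (c * ((-1) ^ n * (n + 1) * b ^ n)) * y ^ n := by ring
            _ = y ^ n := by rw [hcc, one_mul]
        rw [← h6]
        simp only [Wei.ker]
        ring
      rw [e, abs_neg, abs_mul]
      have hca : |c| = 1 / ((n + 1) * b ^ n) := by
        rw [hc, abs_div, abs_pow, abs_neg, abs_one, one_pow, abs_of_pos (by positivity)]
      have h7 : (b * y) ^ (n + 1) ≤ b ^ (n + 1) := by
        refine pow_le_pow_left₀ (mul_nonneg hb0.le hy.1) ?_ _
        nlinarith [hy.1, hy.2]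
      calc |c| * |1 / (1 + b * y) ^ 2 - (S + (-1) ^ n * (n + 1) * (b * y) ^ n)| ≤
            1 / ((n + 1) * b ^ n) * ((2 * n + 3) * b ^ (n + 1)) := by
            rw [hca]
            refine mul_le_mul_of_nonneg_left (h1.trans ?_) (by positivity)
            exact mul_le_mul_of_nonneg_left h7 (by positivity)
        _ = (2 * n + 3) / (n + 1) * b := by
            rw [pow_succ]
            field_simp
        _ ≤ 3 * b := by
            refine mul_le_mul_of_nonneg_right ?_ hb0.le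
            rw [div_le_iff₀ (by positivity)]
            have : (0 : ℝ) ≤ n := Nat.cast_nonneg n
            linarith
        _ ≤ ε := by linarith

theorem V_poly (p : Polynomial ℝ) : V (fun y => p.eval y) := by
  have h : (fun y => p.eval y) = fun y => ∑ k ∈ Finset.range (p.natDegree + 1), p.coeff k * y ^ k := by
    funext y
    rw [Polynomial.eval_eq_sum_range]
  rw [h]
  exact V_sum _ _ fun k _ => V_smul _ (V_pow k)

end Wei

open Wei in
/-- WV-Wei -/
theorem t_Wei : S_Wei := by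
  intro g hg ε hε
  obtain ⟨p, hp⟩ := exists_polynomial_near_of_continuousOn 0 1 g hg (ε / 2) (by positivity)
  obtain ⟨h, hh, h1⟩ := V_poly p (ε / 2) (by positivity)
  rw [Submodule.mem_span_set'] at hh
  obtain ⟨n, c, f, hf⟩ := hh
  choose b hb0 hb using fun i => (f i).2
  refine ⟨n, c, b, hb0, fun y hy => ?_⟩
  have e : ∑ i, c i / (1 + b i * y) ^ 2 = h y := by
    rw [← hf, Finset.sum_apply]
    refine Finset.sum_congr rfl fun i _ => ?_
    rw [Pi.smul_apply, smul_eq_mul, hb i]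
    simp only [Wei.ker]
    ring
  rw [e]
  have e2 : g y - h y = -(p.eval y - g y) + (p.eval y - h y) := by ring
  rw [e2]
  refine (abs_add_le _ _).trans ?_
  rw [abs_neg]
  linarith [h1 y hy, (hp y hy).le]

end Pool.Agent.NH13.WV
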