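import Pool.Agent.NH13.WV.Stm2

/-!
# WV-ws: weighted sums over the zeros
-/

set_option autoImplicit false

open Complex MeasureTheory Filter Topology Set
open scoped ComplexConjugate

namespace Pool.Agent.NH13.WV

open Pool.Agent.NH13.UV

namespace Ws

lemma summable_w : Summable (fun k : ℤ => (1 + |(k : ℝ)|) ^ (-(5 / 4) : ℝ)) := by
  have h1 : Summable (fun k : ℤ => |(k : ℝ)| ^ (-(5 / 4) : ℝ)) :=
    Real.summable_abs_int_rpow (by norm_num)
  have h2 : Summable (fun k : ℤ => if k = 0 then (1 : ℝ) else 0) :=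
    (hasSum_ite_eq (0 : ℤ) (1 : ℝ)).summable
  refine Summable.of_nonneg_of_le (fun k => by positivity) (fun k => ?_) (h1.add h2)
  by_cases hk : k = 0
  · subst hk
    simp
  · simp only [hk, if_false, add_zero]
    have h3 : 0 < |(k : ℝ)| := abs_pos.2 (by exact_mod_cast hk)
    exact Real.rpow_le_rpow_of_nonpos h3 (by linarith) (by norm_num)

lemma rpow_eq {x : ℝ} (hx : 0 < x) : x ^ (-(3 / 2) : ℝ) = (x * √x)⁻¹ := by
  rw [Real.rpow_neg hx.le, show (3 / 2 : ℝ) = 1 + 1 / 2 by norm_num, Real.rpow_add hx,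
    Real.rpow_one, ← Real.sqrt_eq_rpow]

lemma pt_bound (g : ℝ) : (1 + Real.log (2 + |g|)) / (1 / 4 + g ^ 2) ≤
    192 * (1 + |((⌊g⌋ : ℤ) : ℝ)|) ^ (-(3 / 2) : ℝ) * (1 / (1 + (((⌊g⌋ : ℤ) : ℝ) - g) ^ 2)) := by
  set k : ℝ := ((⌊g⌋ : ℤ) : ℝ) with hk
  have hk1 : k ≤ g := Int.floor_le g
  have hk2 : g < k + 1 := Int.lt_floor_add_one g
  have hd : (k - g) ^ 2 ≤ 1 := by nlinarith
  have hg0 : 0 ≤ |g| := abs_nonneg g
  set y : ℝ := 1 + |g| with hy
  have hy1 : 1 ≤ y := by linarith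
  set r : ℝ := √y with hr
  have hr2 : r ^ 2 = y := Real.sq_sqrt (by linarith)
  have hr1 : 1 ≤ r := by
    rw [hr]
    exact Real.one_le_sqrt.2 hy1
  have hr0 : 0 < r := by linarith
  have hs : √(2 * y) ≤ 3 / 2 * r :=
    Real.sqrt_le_iff.2 ⟨by positivity, by nlinarith⟩
  have hK : 1 + |k| ≤ 2 * y := by
    have : |k| ≤ |g| + 1 := by
      rw [abs_le]
      constructor
      · have := neg_abs_le g
        linarith
      · have := le_abs_self g
        linarith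
    rw [hy]
    linarith
  have hK0 : 0 < 1 + |k| := by positivity
  have hsK : √(1 + |k|) ≤ 3 / 2 * r := le_trans (Real.sqrt_le_sqrt hK) hs
  have hsK0 : 0 < √(1 + |k|) := Real.sqrt_pos.2 hK0
  -- logarithm
  have hlog : 1 + Real.log (2 + |g|) ≤ 3 * r := by
    have h1 : (0 : ℝ) < 2 + |g| := by positivity
    have h2 : Real.log (2 + |g|) = 2 * Real.log (√(2 + |g|)) := by
      rw [Real.log_sqrt h1.le]
      ring
    have h3 := Real.log_le_sub_one_of_pos (Real.sqrt_pos.2 h1)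
    have h4 : √(2 + |g|) ≤ √(2 * y) := Real.sqrt_le_sqrt (by rw [hy]; linarith)
    linarith
  have hden : r ^ 4 / 8 ≤ 1 / 4 + g ^ 2 := by
    have h1 : r ^ 4 = y ^ 2 := by rw [← hr2]; ring
    have h2 : g ^ 2 = |g| ^ 2 := (sq_abs g).symm
    rw [h1, h2, hy]
    nlinarith [sq_nonneg (|g| - 1)]
  have hL : (1 + Real.log (2 + |g|)) / (1 / 4 + g ^ 2) ≤ 24 / r ^ 3 := by
    rw [div_le_div_iff₀ (by positivity) (by positivity)]
    have h1 : (1 + Real.log (2 + |g|)) * r ^ 3 ≤ 3 * r * r ^ 3 :=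
      mul_le_mul_of_nonneg_right hlog (by positivity)
    have h2 : 3 * r * r ^ 3 = 24 * (r ^ 4 / 8) := by ring
    linarith
  refine hL.trans ?_
  rw [rpow_eq hK0]
  have hb : (1 + |k|) * √(1 + |k|) ≤ 3 * r ^ 3 := by
    calc (1 + |k|) * √(1 + |k|) ≤ (2 * r ^ 2) * (3 / 2 * r) := by
          rw [hr2]
          exact mul_le_mul hK hsK hsK0.le (by linarith)
      _ = 3 * r ^ 3 := by ring
  have hb0 : 0 < (1 + |k|) * √(1 + |k|) := by positivity
  have h3 : 24 / r ^ 3 ≤ 192 * (3 * r ^ 3)⁻¹ * (1 / 2) := by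
    have : 192 * (3 * r ^ 3)⁻¹ * (1 / 2) = 32 / r ^ 3 := by
      field_simp
      norm_num
    rw [this]
    gcongr
    norm_num
  refine h3.trans ?_
  gcongr
  linarith

lemma log_bound (k L : ℝ) (hL : 1 ≤ L) : (1 + |k|) ^ (-(3 / 2) : ℝ) * (1 + L + Real.log (2 + |k|)) ≤
    10 * L * (1 + |k|) ^ (-(5 / 4) : ℝ) := by
  set Y : ℝ := 1 + |k| with hY
  have hY1 : 1 ≤ Y := by
    have := abs_nonneg k
    linarith
  have hY0 : 0 < Y := by linarith
  have h1 : Real.log (2 + |k|) ≤ 8 * Y ^ (1 / 4 : ℝ) := by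
    have h2 : Real.log (2 + |k|) ≤ Real.log (2 * Y) :=
      Real.log_le_log (by positivity) (by rw [hY]; have := abs_nonneg k; linarith)
    have h3 := Real.log_le_rpow_div (x := 2 * Y) (ε := 1 / 4) (by positivity) (by norm_num)
    have h4 : (2 * Y) ^ (1 / 4 : ℝ) ≤ 2 * Y ^ (1 / 4 : ℝ) := by
      rw [Real.mul_rpow (by norm_num) hY0.le]
      gcongr
      calc (2 : ℝ) ^ (1 / 4 : ℝ) ≤ 2 ^ (1 : ℝ) :=
            Real.rpow_le_rpow_of_exponent_le (by norm_num) (by norm_num)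
        _ = 2 := Real.rpow_one 2
    have h5 : (2 * Y) ^ (1 / 4 : ℝ) / (1 / 4) = 4 * (2 * Y) ^ (1 / 4 : ℝ) := by ring
    rw [h5] at h3
    linarith
  have h6 : (1 : ℝ) ≤ Y ^ (1 / 4 : ℝ) := Real.one_le_rpow hY1 (by norm_num)
  have h7 : 1 + L + Real.log (2 + |k|) ≤ 10 * L * Y ^ (1 / 4 : ℝ) := by
    nlinarith [mul_nonneg (sub_nonneg.2 hL) (sub_nonneg.2 h6)]
  calc Y ^ (-(3 / 2) : ℝ) * (1 + L + Real.log (2 + |k|)) ≤
        Y ^ (-(3 / 2) : ℝ) * (10 * L * Y ^ (1 / 4 : ℝ)) :=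
        mul_le_mul_of_nonneg_left h7 (by positivity)
    _ = 10 * L * (Y ^ (-(3 / 2) : ℝ) * Y ^ (1 / 4 : ℝ)) := by ring
    _ = 10 * L * Y ^ (-(5 / 4) : ℝ) := by
        rw [← Real.rpow_add hY0]
        norm_num

end Ws

open Ws in
theorem t_ws (h2 : S_cnt) : S_ws := by
  classical
  obtain ⟨C, hC, hcnt⟩ := h2
  set S : ℝ := ∑' k : ℤ, (1 + |(k : ℝ)|) ^ (-(5 / 4) : ℝ) with hS
  have hS0 : 0 ≤ S := tsum_nonneg fun k => by positivity
  refine ⟨1920 * C * S + 1, by positivity, ?_⟩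
  intro q _ χ hχ hq
  have hlq : 1 ≤ Real.log q := by
    rw [Real.le_log_iff_exp_le (by positivity)]
    have h3 : (3 : ℝ) ≤ q := by exact_mod_cast hq
    have := Real.exp_one_lt_d9
    linarith
  have hnn : ∀ s : Zs χ, 0 ≤ (mu χ s : ℝ) * (1 + Real.log (2 + |(s : ℂ).im|)) /
      (1 / 4 + (s : ℂ).im ^ 2) := by
    intro s
    have : 0 ≤ Real.log (2 + |(s : ℂ).im|) := Real.log_nonneg (by
      have := abs_nonneg (s : ℂ).im
      linarith)
    positivity
  have hfin : ∀ F : Finset (Zs χ), ∑ s ∈ F, (mu χ s : ℝ) * (1 + Real.log (2 + |(s : ℂ).im|)) /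
      (1 / 4 + (s : ℂ).im ^ 2) ≤ 1920 * C * S * Real.log q := by
    intro F
    set K : Finset ℤ := Finset.image (fun s : Zs χ => ⌊(s : ℂ).im⌋) F with hK
    calc ∑ s ∈ F, (mu χ s : ℝ) * (1 + Real.log (2 + |(s : ℂ).im|)) / (1 / 4 + (s : ℂ).im ^ 2)
        ≤ ∑ s ∈ F, ∑ k ∈ K, 192 * (1 + |(k : ℝ)|) ^ (-(3 / 2) : ℝ) *
            ((mu χ s : ℝ) / (1 + ((k : ℝ) - (s : ℂ).im) ^ 2)) := by
          refine Finset.sum_le_sum fun s hs => ?_
          have h4 : ⌊(s : ℂ).im⌋ ∈ K := Finset.mem_image_of_mem _ hs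
          have h5 := Finset.single_le_sum (f := fun k : ℤ =>
            192 * (1 + |(k : ℝ)|) ^ (-(3 / 2) : ℝ) *
            ((mu χ s : ℝ) / (1 + ((k : ℝ) - (s : ℂ).im) ^ 2))) (fun k _ => by positivity) h4
          refine le_trans ?_ h5
          have h6 := mul_le_mul_of_nonneg_left (pt_bound (s : ℂ).im)
            (Nat.cast_nonneg (α := ℝ) (mu χ s))
          calc (mu χ s : ℝ) * (1 + Real.log (2 + |(s : ℂ).im|)) / (1 / 4 + (s : ℂ).im ^ 2)
              = (mu χ s : ℝ) * ((1 + Real.log (2 + |(s : ℂ).im|)) / (1 / 4 + (s : ℂ).im ^ 2)) := by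
                ring
            _ ≤ _ := h6
            _ = _ := by ring
      _ = ∑ k ∈ K, 192 * (1 + |(k : ℝ)|) ^ (-(3 / 2) : ℝ) *
            ∑ s ∈ F, (mu χ s : ℝ) / (1 + ((k : ℝ) - (s : ℂ).im) ^ 2) := by
          rw [Finset.sum_comm]
          exact Finset.sum_congr rfl fun k _ => (Finset.mul_sum _ _ _).symm
      _ ≤ ∑ k ∈ K, 192 * (1 + |(k : ℝ)|) ^ (-(3 / 2) : ℝ) *
            (C * (1 + Real.log q + Real.log (2 + |(k : ℝ)|))) := by
          refine Finset.sum_le_sum fun k _ => ?_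
          obtain ⟨h7, h8⟩ := hcnt q χ hχ (k : ℝ)
          have h9 := h7.sum_le_tsum F (fun s _ => by positivity)
          exact mul_le_mul_of_nonneg_left (h9.trans h8) (by positivity)
      _ ≤ ∑ k ∈ K, 1920 * C * Real.log q * (1 + |(k : ℝ)|) ^ (-(5 / 4) : ℝ) := by
          refine Finset.sum_le_sum fun k _ => ?_
          have h10 := mul_le_mul_of_nonneg_left (log_bound (k : ℝ) (Real.log q) hlq)
            (show (0 : ℝ) ≤ 192 * C by positivity)
          linarith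
      _ = 1920 * C * Real.log q * ∑ k ∈ K, (1 + |(k : ℝ)|) ^ (-(5 / 4) : ℝ) :=
          (Finset.mul_sum _ _ _).symm
      _ ≤ 1920 * C * Real.log q * S := by
          refine mul_le_mul_of_nonneg_left ?_ (by positivity)
          exact summable_w.sum_le_tsum K (fun k _ => by positivity)
      _ = 1920 * C * S * Real.log q := by ring
  have hsum : Summable (fun s : Zs χ => (mu χ s : ℝ) * (1 + Real.log (2 + |(s : ℂ).im|)) /
      (1 / 4 + (s : ℂ).im ^ 2)) := summable_of_sum_le hnn hfin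
  refine ⟨hsum, ?_⟩
  have h11 := hsum.tsum_le_of_sum_le hfin
  nlinarith

end Pool.Agent.NH13.WV
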