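import Pool.Agent.NH13.UV.Fin2
import Pool.Agent.NH13.WV.AF
import Pool.Agent.NH13.WV.AI
import Pool.Agent.NH13.WV.Asm
import Pool.Agent.NH13.WV.Asm2
import Pool.Agent.NH13.WV.Cau
import Pool.Agent.NH13.WV.Cnt
import Pool.Agent.NH13.WV.Comp
import Pool.Agent.NH13.WV.Cpa
import Pool.Agent.NH13.WV.Cpb
import Pool.Agent.NH13.WV.Fa
import Pool.Agent.NH13.WV.Fi
import Pool.Agent.NH13.WV.HDx
import Pool.Agent.NH13.WV.IrP
import Pool.Agent.NH13.WV.Lg
import Pool.Agent.NH13.WV.Mono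
import Pool.Agent.NH13.WV.Mu
import Pool.Agent.NH13.WV.Nb
import Pool.Agent.NH13.WV.Nl
import Pool.Agent.NH13.WV.Nr
import Pool.Agent.NH13.WV.One
import Pool.Agent.NH13.WV.PWb
import Pool.Agent.NH13.WV.Par
import Pool.Agent.NH13.WV.S2
import Pool.Agent.NH13.WV.S2a
import Pool.Agent.NH13.WV.S2b
import Pool.Agent.NH13.WV.Sub
import Pool.Agent.NH13.WV.TA
import Pool.Agent.NH13.WV.TB
import Pool.Agent.NH13.WV.TBw
import Pool.Agent.NH13.WV.Tail
import Pool.Agent.NH13.WV.Unif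
import Pool.Agent.NH13.WV.Wei
import Pool.Agent.NH13.WV.Ws

/-!
# Project WV: the main theorem
-/

set_option autoImplicit false

open Complex MeasureTheory Filter Topology Set

namespace Pool.Agent.NH13.WV.Fin

open Pool.Agent.NH13.UV Pool.Agent.NH13.WV

theorem hdx : S_HDx := t_HDx t_PFC t_YYd t_LD
theorem cnt : S_cnt := t_cnt hdx t_LD t_YYd
theorem nr : S_nr := t_nr cnt t_mu
theorem ws : S_ws := t_ws cnt
theorem pwb : S_PWb := t_PWb nr ws
theorem sub : S_sub := t_sub nr pwb t_mu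
theorem cau : S_cau := t_cau t_HP
theorem s2a : S_S2a := t_S2a hdx cnt ws cau
theorem s2b : S_S2b := t_S2b hdx cnt ws
theorem s2 : S_S2 := t_S2 s2a s2b UV.Fin1.k1 hdx
theorem par : S_par := t_par cnt nr ws pwb
theorem irp : S_IrP := t_IrP s2 par
theorem mono : S_mono := t_mono nr pwb par
theorem unif : S_unif := t_unif sub pwb mono
theorem ta : S_TA := t_TA t_nl
theorem tb : S_TB := t_TB (t_TBw t_Wei t_nl) t_nl
theorem comp : S_comp := t_comp (t_cpa t_nl) t_cpb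
theorem lg : S_Lg := t_Lg hdx UV.Fin1.gr UV.Fin1.ptt UV.Fin1.hdq
theorem fi : S_Fi := t_Fi UV.Fin1.pl (t_Fa lg)
theorem af : S_AF := t_AF fi t_V
theorem ai : S_AI := t_AI UV.Fin1.rel UV.Fin2.gg

/-- **the equivalence** -/
theorem main : Asy ↔ GRHall ∧ PCF :=
  Asm.main ai irp ta tb comp mono unif af UV.Fin2.fin t_Me UV.Fin2.gg t_RH
    (fun h => LV.t_psi h) UV.Fin2.main.2.2.1 UV.Fin2.main.2.2.2

theorem tail : S_tail := t_tail UV.Fin1.rel UV.Fin2.gg t_cv UV.Fin2.fam UV.Fin2.bd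
theorem nb : S_nb := t_nb tail irp mono
theorem one : S_one := t_one t_nl

/-- **the one-sided versions** -/
theorem main2 : (Asy ↔ GRHall ∧ PCU) ∧ (Asy ↔ GRHall ∧ PCL) :=
  Asm.main2 irp tail comp mono unif nb one af (fun h => LV.t_psi h) main

/-- **everything** -/
theorem all : (Asy ↔ GRHall ∧ PCF) ∧ (Asy ↔ GRHall ∧ PCU) ∧ (Asy ↔ GRHall ∧ PCL) :=
  ⟨main, main2⟩

end Pool.Agent.NH13.WV.Fin
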