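import Pool.Agent.NH13.WV.Stm4
import Pool.Agent.NH13.UV.Fn

/-!
# Project WV, part 2: finiteness of the integrals from the bound of the Abel means
-/

set_option autoImplicit false

open Complex MeasureTheory Filter Topology Set

namespace Pool.Agent.NH13.WV

open Pool.Agent.NH13.UV

theorem t_finA (h : S_ref) : S_finA := by
  classical
  intro hU q hq η hη
  obtain ⟨d, hd0, hd⟩ := hU 1 one_pos
  obtain ⟨Q0, hQ0⟩ := eventually_atTop.1 (hd d hd0 le_rfl)
  -- the modulus
  obtain ⟨j, hjQ, hj2, hjη⟩ : ∃ j : ℕ, Q0 ≤ q * 2 ^ j ∧ 2 ≤ q * 2 ^ j ∧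
      2 * d / Real.log (((q * 2 ^ j : ℕ)) : ℝ) ≤ η := by
    have h1 : Tendsto (fun j : ℕ => Real.log (((q * 2 ^ j : ℕ)) : ℝ)) atTop atTop := by
      refine Real.tendsto_log_atTop.comp (tendsto_natCast_atTop_atTop.comp ?_)
      refine tendsto_atTop_mono (fun j => ?_) tendsto_id
      calc id j ≤ 2 ^ j := Nat.lt_two_pow_self.le
        _ ≤ q * 2 ^ j := Nat.le_mul_of_pos_left _ (by omega)
    have h2 := h1.eventually_ge_atTop (2 * d / η)
    have h3 := h1.eventually_gt_atTop 0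
    obtain ⟨j, hj⟩ := (h2.and (h3.and (eventually_ge_atTop (Q0 + 1)))).exists
    obtain ⟨e1, e2, e3⟩ := hj
    have e4 : j < 2 ^ j := Nat.lt_two_pow_self
    have e5 : 2 ^ j ≤ q * 2 ^ j := Nat.le_mul_of_pos_left _ (by omega)
    refine ⟨j, by omega, by omega, ?_⟩
    rw [div_le_iff₀ e2]
    rw [div_le_iff₀ hη] at e1
    linarith
  obtain ⟨Q, hQ⟩ : ∃ Q : ℕ, Q = q * 2 ^ j := ⟨_, rfl⟩
  rw [← hQ] at hjQ hj2 hjη
  have hQ1 : (1 : ℝ) < Q := by exact_mod_cast (by omega : 1 < Q)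
  have hlog : 0 < Real.log (Q : ℝ) := Real.log_pos hQ1
  -- finiteness for `Q`
  have hfin : IV Q (2 * d / Real.log Q) < ⊤ := by
    have h1 : Mv Q d < ⊤ := lt_of_le_of_lt (hQ0 Q hjQ) ENNReal.ofReal_lt_top
    by_contra h2
    rw [not_lt, top_le_iff] at h2
    unfold Mv Gv at h1
    rw [h2, ENNReal.top_div_of_ne_top ENNReal.ofReal_ne_top, ENNReal.mul_top] at h1
    · exact absurd h1 (lt_irrefl _)
    · rw [Ne, ENNReal.ofReal_eq_zero, not_le]
      positivity
  have hmono : IV Q η ≤ IV Q (2 * d / Real.log Q) := by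
    unfold IV
    refine lintegral_mono_ae ?_
    refine (ae_restrict_iff' measurableSet_Ioi).2 (Eventually.of_forall (fun x hx => ?_))
    apply ENNReal.ofReal_le_ofReal
    have hx1 : (1 : ℝ) < x := hx
    refine mul_le_mul_of_nonneg_left ?_ (Fn.VV_nn x Q)
    exact Real.rpow_le_rpow_of_exponent_le hx1.le (by linarith)
  have hQη : IV Q η < ⊤ := lt_of_le_of_lt hmono hfin
  have hphi : (0 : ℝ) ≤ 2 * ((Q.totient : ℝ) / q.totient) := by positivity
  -- the last step
  have hm : Measurable (fun x : ℝ => ENNReal.ofReal (VV x Q * x ^ (-2 - η))) :=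
    ((Fn.VV_meas Q).mul (measurable_id.pow_const _)).ennreal_ofReal
  have hle : IV q η ≤ ENNReal.ofReal (2 * ((Q.totient : ℝ) / q.totient)) * IV Q η +
      ∫⁻ x in Ioi (1 : ℝ), ENNReal.ofReal (2 * q.totient * (Real.log x + 1) ^ 2 * x ^ (-2 - η)) := by
    unfold IV
    rw [← lintegral_const_mul _ hm, ← lintegral_add_left (hm.const_mul _)]
    refine lintegral_mono_ae ?_
    refine (ae_restrict_iff' measurableSet_Ioi).2 (Eventually.of_forall (fun x hx => ?_))
    have hx1 : (1 : ℝ) < x := hx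
    have hx0 : 0 < x := by linarith
    have hpow : 0 ≤ x ^ (-2 - η) := Real.rpow_nonneg hx0.le _
    have hVV := Fn.VV_nn x Q
    have h1 := h q hq j x hx1.le
    rw [← hQ] at h1
    rw [← ENNReal.ofReal_mul hphi, ← ENNReal.ofReal_add (by positivity) (by positivity)]
    apply ENNReal.ofReal_le_ofReal
    calc VV x q * x ^ (-2 - η)
        ≤ (2 * ((Q.totient : ℝ) / q.totient) * VV x Q +
            2 * q.totient * (Real.log x + 1) ^ 2) * x ^ (-2 - η) := by gcongr
      _ = _ := by ring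
  refine lt_of_le_of_lt hle (ENNReal.add_lt_top.2 ⟨?_, Fn.tail _ (by positivity) η hη⟩)
  exact ENNReal.mul_lt_top ENNReal.ofReal_lt_top hQη

end Pool.Agent.NH13.WV
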