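import Pool.Agent.NH13.WV.Stm4

/-!
# Project WV, part 2: almost all zeros are simple
-/

set_option autoImplicit false

open Complex MeasureTheory Filter Topology Set
open scoped ComplexConjugate

namespace Pool.Agent.NH13.WV

open Pool.Agent.NH13.UV

/-- the number of zeros, with the weights -/
def S_N1 : Prop := GRH1 → ∀ ε : ℝ, 0 < ε → ∃ q0 : ℕ, ∀ (q : ℕ) [NeZero q], q0 ≤ q →
  (1 - ε) * (Real.log q * q.totient) ≤
    ∑ χ ∈ NT q, ∑' s : Zs χ, (mu χ s : ℝ) / (1 / 4 + (s : ℂ).im ^ 2)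

/-- almost all zeros are simple -/
def AS : Prop := ∀ ε : ℝ, 0 < ε → ∃ q0 : ℕ, ∀ (q : ℕ) [NeZero q], q0 ≤ q →
  ∑ χ ∈ NT q, ∑' s : {s : ℂ // s ∈ Zs χ ∧ 2 ≤ mu χ s}, (mu χ s : ℝ) / (1 / 4 + (s : ℂ).im ^ 2) ≤
    ε * ∑ χ ∈ NT q, ∑' s : Zs χ, (mu χ s : ℝ) / (1 / 4 + (s : ℂ).im ^ 2)

namespace Simple

variable {q : ℕ} [NeZero q]

theorem summ (h4 : S_PWb) (hmu : S_mu) (h3 : S_nr) (hq : 3 ≤ q) {χ : DirichletCharacter ℂ q}
    (hχ : χ ≠ 1) :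
    Summable (fun s : Zs χ => (mu χ s : ℝ) / (1 / 4 + (s : ℂ).im ^ 2)) ∧
    (∑' s : {s : ℂ // s ∈ Zs χ ∧ 2 ≤ mu χ s}, (mu χ s : ℝ) / (1 / 4 + (s : ℂ).im ^ 2)) ≤
      PW χ 0 - ∑' s : Zs χ, (mu χ s : ℝ) / (1 / 4 + (s : ℂ).im ^ 2) := by
  obtain ⟨C, hC, h4⟩ := h4
  obtain ⟨C3, hC3, h3⟩ := h3
  have hs := (h4 q χ hχ hq 0 le_rfl).1
  have hpos : ∀ s : ℂ, (0 : ℝ) < 1 / 4 + s.im ^ 2 := fun s => by positivity
  -- the number of zeros with the same ordinate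
  have hnr : ∀ s : Zs χ, (mu χ s : ℝ) ≤ (nr χ 0 (s : ℂ).im : ℝ) := by
    intro s
    have hfin := (h3 q χ hχ 0 (s : ℂ).im le_rfl).1
    have h1 : mu χ s ≤ nr χ 0 (s : ℂ).im := by
      unfold nr
      rw [finsum_mem_eq_finite_toFinset_sum _ hfin]
      refine Finset.single_le_sum (f := fun w => mu χ w) (fun _ _ => Nat.zero_le _) ?_
      rw [Set.Finite.mem_toFinset]
      exact ⟨s.2, by simp⟩
    exact_mod_cast h1
  have hmu1 : ∀ s : Zs χ, (1 : ℝ) ≤ (mu χ s : ℝ) := fun s => by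
    exact_mod_cast hmu q χ hχ s s.2
  have hs1 : Summable (fun s : Zs χ => (mu χ s : ℝ) / (1 / 4 + (s : ℂ).im ^ 2)) := by
    refine Summable.of_nonneg_of_le (fun s => by positivity) (fun s => ?_) hs
    refine div_le_div_of_nonneg_right ?_ (hpos s).le
    nlinarith [hnr s, hmu1 s]
  refine ⟨hs1, ?_⟩
  -- the function with the indicator
  let g : Zs χ → ℝ := fun s => (mu χ s : ℝ) * (nr χ 0 (s : ℂ).im : ℝ) / (1 / 4 + (s : ℂ).im ^ 2) -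
    (mu χ s : ℝ) / (1 / 4 + (s : ℂ).im ^ 2)
  have hg : Summable g := hs.sub hs1
  have hg0 : ∀ s, 0 ≤ g s := by
    intro s
    have : (mu χ s : ℝ) / (1 / 4 + (s : ℂ).im ^ 2) ≤
        (mu χ s : ℝ) * (nr χ 0 (s : ℂ).im : ℝ) / (1 / 4 + (s : ℂ).im ^ 2) := by
      refine div_le_div_of_nonneg_right ?_ (hpos s).le
      nlinarith [hnr s, hmu1 s]
    show 0 ≤ _ - _
    linarith
  have e : PW χ 0 - ∑' s : Zs χ, (mu χ s : ℝ) / (1 / 4 + (s : ℂ).im ^ 2) = ∑' s, g s :=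
    (hs.tsum_sub hs1).symm
  rw [e]
  let i : {s : ℂ // s ∈ Zs χ ∧ 2 ≤ mu χ s} → Zs χ := fun s => ⟨s, s.2.1⟩
  have hi : Function.Injective i := by
    intro a b h
    apply Subtype.ext
    exact congrArg (fun z : Zs χ => (z : ℂ)) h
  have hle : ∀ s : {s : ℂ // s ∈ Zs χ ∧ 2 ≤ mu χ s},
      (mu χ s : ℝ) / (1 / 4 + (s : ℂ).im ^ 2) ≤ g (i s) := by
    intro s
    have h2 : (2 : ℝ) ≤ (mu χ s : ℝ) := by exact_mod_cast s.2.2
    have h5 := hnr (i s)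
    show _ ≤ (mu χ s : ℝ) * (nr χ 0 (s : ℂ).im : ℝ) / (1 / 4 + (s : ℂ).im ^ 2) -
      (mu χ s : ℝ) / (1 / 4 + (s : ℂ).im ^ 2)
    rw [← sub_div]
    refine div_le_div_of_nonneg_right ?_ (hpos s).le
    have h6 : (mu χ s : ℝ) ≤ (nr χ 0 (s : ℂ).im : ℝ) := h5
    nlinarith
  have hsg : Summable (fun s => g (i s)) := hg.comp_injective hi
  have hs2 : Summable (fun s : {s : ℂ // s ∈ Zs χ ∧ 2 ≤ mu χ s} =>
      (mu χ s : ℝ) / (1 / 4 + (s : ℂ).im ^ 2)) :=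
    Summable.of_nonneg_of_le (fun s => by positivity) hle hsg
  calc _ ≤ ∑' s, g (i s) := hs2.tsum_le_tsum hle hsg
    _ ≤ ∑' s, g s := tsum_comp_le_tsum_of_inj hg hg0 hi

end Simple

theorem t_simple (h4 : S_PWb) (hmu : S_mu) (h3 : S_nr) (hm : S_mono) (hN : S_N1) :
    GRH1 → ES → AS := by
  intro hG hE ε hε
  set e := min (1 / 4) (ε / 4) with he
  have he0 : 0 < e := by positivity
  have he1 : e ≤ 1 / 4 := min_le_left _ _
  have he2 : e ≤ ε / 4 := min_le_right _ _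
  obtain ⟨A, hA, q1, hq1⟩ := hE e he0
  obtain ⟨q2, hq2⟩ := hN hG e he0
  refine ⟨max (max q1 q2) 3, fun q _ hq => ?_⟩
  have a1 : q1 ≤ q := le_trans (le_trans (le_max_left _ _) (le_max_left _ _)) hq
  have a2 : q2 ≤ q := le_trans (le_trans (le_max_right _ _) (le_max_left _ _)) hq
  have a3 : 3 ≤ q := le_trans (le_max_right _ _) hq
  have b1 := hq1 q a1
  have b2 := hq2 q a2
  have b3 : nq q 0 ≤ nq q A := (hm q a3).1 (by simp) (by simpa using hA.le) hA.le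
  have hL : 0 < Real.log q := Real.log_pos (by exact_mod_cast (by omega : 1 < q))
  have hφ : 0 < (q.totient : ℝ) := by exact_mod_cast Nat.totient_pos.2 (by omega)
  set W := ∑ χ ∈ NT q, ∑' s : Zs χ, (mu χ s : ℝ) / (1 / 4 + (s : ℂ).im ^ 2) with hW
  have b4 : ∑ χ ∈ NT q, ∑' s : {s : ℂ // s ∈ Zs χ ∧ 2 ≤ mu χ s},
      (mu χ s : ℝ) / (1 / 4 + (s : ℂ).im ^ 2) ≤ ∑ χ ∈ NT q, PW χ 0 - W := by
    rw [hW, ← Finset.sum_sub_distrib]
    exact Finset.sum_le_sum fun χ hχ => (Simple.summ h4 hmu h3 a3 (mem_NT.1 hχ)).2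
  have b5 : ∑ χ ∈ NT q, PW χ 0 = nq q 0 * (Real.log q * q.totient) := by
    unfold nq
    rw [zero_div]
    field_simp
  have b6 : nq q 0 * (Real.log q * q.totient) ≤ (1 + e) * (Real.log q * q.totient) :=
    mul_le_mul_of_nonneg_right (by linarith) (by positivity)
  have hLφ : 0 < Real.log q * q.totient := by positivity
  have hW0 : (3 / 4) * (Real.log q * q.totient) ≤ W := by nlinarith
  refine b4.trans ?_
  rw [b5]
  nlinarith

end Pool.Agent.NH13.WV
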