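import Pool.Agent.NH13.WV.Stm4

/-!
# Project WV, part 2, WVb-ZIa: from the mean squares to the close pairs
-/

set_option autoImplicit false

open Complex MeasureTheory Filter Topology Set
open scoped ComplexConjugate

namespace Pool.Agent.NH13.WV

open Pool.Agent.NH13.UV

namespace ZIaH

/-- the primitive of `kk` -/
theorem hasDeriv (d : ℝ) (hd : 0 < d) (A : ℝ) :
    HasDerivAt (fun A : ℝ => -(4 * d) / (4 * d ^ 2 + A ^ 2)) (kk d A) A := by
  have hne : (4 * d ^ 2 + A ^ 2 : ℝ) ≠ 0 := by positivity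
  have h1 : HasDerivAt (fun A : ℝ => 4 * d ^ 2 + A ^ 2) (2 * A) A := by
    have := (hasDerivAt_pow 2 A).const_add (4 * d ^ 2)
    simpa using this
  have h2 := (hasDerivAt_const A (-(4 * d))).div h1 hne
  refine h2.congr_deriv ?_
  unfold kk
  field_simp
  ring

theorem tends (d : ℝ) : Tendsto (fun A : ℝ => -(4 * d) / (4 * d ^ 2 + A ^ 2)) atTop (𝓝 0) := by
  apply Tendsto.div_atTop tendsto_const_nhds
  apply tendsto_atTop_add_const_left
  exact tendsto_pow_atTop (by norm_num)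

theorem kk_nonneg (d : ℝ) (hd : 0 < d) (A : ℝ) (hA : 0 ≤ A) : 0 ≤ kk d A := by
  unfold kk
  positivity

theorem kk_int (d : ℝ) (hd : 0 < d) (a : ℝ) (ha : 0 ≤ a) : IntegrableOn (kk d) (Ioi a) :=
  integrableOn_Ioi_deriv_of_nonneg' (fun x _ => hasDeriv d hd x)
    (fun x hx => kk_nonneg d hd x (ha.trans (le_of_lt hx))) (tends d)

theorem kk_val (d : ℝ) (hd : 0 < d) (a : ℝ) (ha : 0 ≤ a) :
    ∫ A in Ioi a, kk d A = 4 * d / (4 * d ^ 2 + a ^ 2) := by
  rw [integral_Ioi_of_hasDerivAt_of_nonneg' (fun x _ => hasDeriv d hd x)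
    (fun x hx => kk_nonneg d hd x (ha.trans (le_of_lt hx))) (tends d)]
  ring

/-- the lower bound for the transform -/
theorem lower (f : ℝ → ℝ) (d c : ℝ) (hd : 0 < d) (hm : MonotoneOn f (Ici 0)) (hc : c ≤ f 0)
    (hi : IntegrableOn (fun A => f A * kk d A) (Ioi 0)) :
    c / 5 + 4 / 5 * f d ≤ d * ∫ A in Ioi (0 : ℝ), f A * kk d A := by
  have hu : Ioc (0 : ℝ) d ∪ Ioi d = Ioi 0 := Ioc_union_Ioi_eq_Ioi hd.le
  have hdis : Disjoint (Ioc (0 : ℝ) d) (Ioi d) := by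
    rw [Set.disjoint_left]
    intro x h1 h2
    exact absurd h1.2 (not_le.mpr h2)
  have hi1 : IntegrableOn (fun A => f A * kk d A) (Ioc 0 d) :=
    hi.mono_set (fun x hx => hx.1)
  have hi2 : IntegrableOn (fun A => f A * kk d A) (Ioi d) :=
    hi.mono_set (fun x hx => hd.trans hx)
  have hk0 := kk_int d hd 0 le_rfl
  have hk1 : IntegrableOn (kk d) (Ioc 0 d) := hk0.mono_set (fun x hx => hx.1)
  have hk2 := kk_int d hd d hd.le
  have hsplit : ∫ A in Ioi (0 : ℝ), f A * kk d A =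
      (∫ A in Ioc (0 : ℝ) d, f A * kk d A) + ∫ A in Ioi d, f A * kk d A := by
    rw [← hu]
    exact setIntegral_union hdis measurableSet_Ioi hi1 hi2
  have hksplit : ∫ A in Ioi (0 : ℝ), kk d A =
      (∫ A in Ioc (0 : ℝ) d, kk d A) + ∫ A in Ioi d, kk d A := by
    rw [← hu]
    exact setIntegral_union hdis measurableSet_Ioi hk1 hk2
  have hv0 := kk_val d hd 0 le_rfl
  have hv1 := kk_val d hd d hd.le
  have e0 : 4 * d / (4 * d ^ 2 + 0 ^ 2) = 1 / d := by field_simp; ring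
  have e1 : 4 * d / (4 * d ^ 2 + d ^ 2) = 4 / (5 * d) := by field_simp; ring
  rw [e0] at hv0
  rw [e1] at hv1
  have hv2 : ∫ A in Ioc (0 : ℝ) d, kk d A = 1 / (5 * d) := by
    have : ∫ A in Ioc (0 : ℝ) d, kk d A = 1 / d - 4 / (5 * d) := by linarith
    rw [this]
    field_simp
    norm_num
  have hb1 : c * (1 / (5 * d)) ≤ ∫ A in Ioc (0 : ℝ) d, f A * kk d A := by
    rw [← hv2, ← integral_const_mul]
    apply setIntegral_mono_on (hk1.const_mul c) hi1 measurableSet_Ioc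
    intro x hx
    have h1 : f 0 ≤ f x := hm (mem_Ici.mpr le_rfl) (mem_Ici.mpr hx.1.le) hx.1.le
    exact mul_le_mul_of_nonneg_right (hc.trans h1) (kk_nonneg d hd x hx.1.le)
  have hb2 : f d * (4 / (5 * d)) ≤ ∫ A in Ioi d, f A * kk d A := by
    rw [← hv1, ← integral_const_mul]
    apply setIntegral_mono_on (hk2.const_mul (f d)) hi2 measurableSet_Ioi
    intro x hx
    have hx' : d < x := hx
    have h1 : f d ≤ f x := hm (mem_Ici.mpr hd.le) (mem_Ici.mpr (hd.trans hx').le) hx'.le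
    exact mul_le_mul_of_nonneg_right h1 (kk_nonneg d hd x (hd.trans hx').le)
  rw [hsplit]
  calc c / 5 + 4 / 5 * f d = d * (c * (1 / (5 * d)) + f d * (4 / (5 * d))) := by
        field_simp
    _ ≤ d * ((∫ A in Ioc (0 : ℝ) d, f A * kk d A) + ∫ A in Ioi d, f A * kk d A) :=
        mul_le_mul_of_nonneg_left (add_le_add hb1 hb2) hd.le

/-- the error term -/
theorem err (C e : ℝ) (he : 0 < e) : ∃ q0 : ℕ, ∀ q : ℕ, q0 ≤ q → C / Real.sqrt (Real.log q) ≤ e := by
  have h : Tendsto (fun q : ℕ => C / Real.sqrt (Real.log q)) atTop (𝓝 0) := by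
    apply Tendsto.div_atTop tendsto_const_nhds
    exact Real.tendsto_sqrt_atTop.comp (Real.tendsto_log_atTop.comp tendsto_natCast_atTop_atTop)
  obtain ⟨q0, hq0⟩ := eventually_atTop.mp (h.eventually (ge_mem_nhds he))
  exact ⟨q0, hq0⟩

end ZIaH

theorem t_ZIa (hI : S_IrP) (hm : S_mono) (h0 : S_n0) : S_ZIa := by
  intro hG hU ε hε
  obtain ⟨d, hd, hd2⟩ := hU (ε / 3) (by linarith)
  obtain ⟨q1, hq1⟩ := hd2 d hd le_rfl
  obtain ⟨C, q2, hC, hq2⟩ := hI hG d hd
  obtain ⟨q3, hq3⟩ := h0 hG (ε / 3) (by linarith)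
  obtain ⟨q4, hq4⟩ := ZIaH.err (C * (1 + ε / 3 + d)) (ε / 3) (by linarith)
  refine ⟨d, hd, max (max (max q1 q2) (max q3 q4)) 3, ?_⟩
  intro q _ hq
  have a1 : q1 ≤ q := le_trans (by simp) hq
  have a2 : q2 ≤ q := le_trans (by simp) hq
  have a3 : q3 ≤ q := le_trans (by simp) hq
  have a4 : q4 ≤ q := le_trans (by simp) hq
  have a5 : 3 ≤ q := le_trans (by simp) hq
  obtain ⟨m1, m2, m3⟩ := hm q a5
  have b1 := hq1 q a1
  have b2 := hq2 q a2
  have b3 := hq3 q a3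
  have b4 := hq4 q a4
  have hl := ZIaH.lower (nq q) d (1 - ε / 3) hd m1 b3 (m3 d hd)
  have hP : Pq q d = ∫ A in Ioi (0 : ℝ), nq q A * kk d A := rfl
  rw [← hP] at hl
  have b5 : Pq q d ≤ Ir q d + C / Real.sqrt (Real.log q) * (Ir q d + 1) := by
    have := (abs_le.mp b2).1
    linarith
  have hs : 0 ≤ Real.sqrt (Real.log q) := Real.sqrt_nonneg _
  have hCs : 0 ≤ C / Real.sqrt (Real.log q) := div_nonneg hC.le hs
  have b6 : d * Pq q d ≤ d * Ir q d + C / Real.sqrt (Real.log q) * (d * Ir q d + d) := by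
    have := mul_le_mul_of_nonneg_left b5 hd.le
    calc d * Pq q d ≤ d * (Ir q d + C / Real.sqrt (Real.log q) * (Ir q d + 1)) := this
      _ = _ := by ring
  have b7 : C / Real.sqrt (Real.log q) * (d * Ir q d + d) ≤ ε / 3 := by
    calc C / Real.sqrt (Real.log q) * (d * Ir q d + d)
        ≤ C / Real.sqrt (Real.log q) * (1 + ε / 3 + d) :=
          mul_le_mul_of_nonneg_left (by linarith) hCs
      _ = C * (1 + ε / 3 + d) / Real.sqrt (Real.log q) := by ring
      _ ≤ ε / 3 := b4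
  linarith

end Pool.Agent.NH13.WV
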