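import Pool.Agent.NH13.WV.Stm4

/-!
# From the close pairs to the mean squares
-/

set_option autoImplicit false

open Complex MeasureTheory Filter Topology Set

namespace Pool.Agent.NH13.WV

open Pool.Agent.NH13.UV

namespace ZIb

theorem kk_deriv (d : ℝ) (hd : 0 < d) (A : ℝ) :
    HasDerivAt (fun A : ℝ => -(4 * d / (4 * d ^ 2 + A ^ 2))) (kk d A) A := by
  have h0 : 4 * d ^ 2 + A ^ 2 ≠ 0 := by positivity
  have h1 : HasDerivAt (fun A : ℝ => 4 * d ^ 2 + A ^ 2) (2 * A) A := by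
    have := (hasDerivAt_pow 2 A).const_add (4 * d ^ 2)
    refine this.congr_deriv ?_
    norm_num
  have h2 := (h1.inv h0).const_mul (-(4 * d))
  have h3 : (fun A : ℝ => -(4 * d / (4 * d ^ 2 + A ^ 2))) =
      fun A : ℝ => -(4 * d) * (4 * d ^ 2 + A ^ 2)⁻¹ := by
    funext A
    ring
  rw [h3]
  refine h2.congr_deriv ?_
  unfold kk
  field_simp
  ring

theorem kk_nonneg (d : ℝ) (hd : 0 < d) (A : ℝ) (hA : 0 ≤ A) : 0 ≤ kk d A := by
  unfold kk
  positivity

theorem kk_int (d : ℝ) (hd : 0 < d) :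
    IntegrableOn (kk d) (Ioi 0) ∧ ∫ A in Ioi (0 : ℝ), kk d A = 1 / d := by
  have hlim : Tendsto (fun A : ℝ => -(4 * d / (4 * d ^ 2 + A ^ 2))) atTop (𝓝 0) := by
    have h1 : Tendsto (fun A : ℝ => 4 * d ^ 2 + A ^ 2) atTop atTop :=
      tendsto_atTop_add_const_left _ _ (tendsto_pow_atTop two_ne_zero)
    have h2 := (tendsto_const_nhds (x := 4 * d)).div_atTop h1
    simpa using h2.neg
  have hpos : ∀ A ∈ Ioi (0 : ℝ), 0 ≤ kk d A := fun A hA => kk_nonneg d hd A (le_of_lt hA)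
  constructor
  · exact integrableOn_Ioi_deriv_of_nonneg' (fun A _ => kk_deriv d hd A) hpos hlim
  · have h3 := integral_Ioi_of_hasDerivAt_of_nonneg' (fun A _ => kk_deriv d hd A) hpos hlim
    rw [h3]
    field_simp
    ring

/-- the tail -/
theorem tail_le (d A0 A : ℝ) (hd : 0 < d) (hA0 : 0 < A0) (hA : A0 < A) :
    (1 + A) ^ (3 / 2 : ℝ) * kk d A ≤ (8 * (1 + 1 / A0) ^ (3 / 2 : ℝ) * d) * A ^ (-(3 / 2) : ℝ) := by
  have hApos : 0 < A := hA0.trans hA
  have h1 : 1 + A ≤ (1 + 1 / A0) * A := by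
    have : 1 ≤ 1 / A0 * A := by
      rw [one_div, ← div_eq_inv_mul, one_le_div hA0]
      exact hA.le
    linarith
  have h2 : (1 + A) ^ (3 / 2 : ℝ) ≤ (1 + 1 / A0) ^ (3 / 2 : ℝ) * A ^ (3 / 2 : ℝ) := by
    rw [← Real.mul_rpow (by positivity) hApos.le]
    exact Real.rpow_le_rpow (by positivity) h1 (by norm_num)
  have h3 : kk d A ≤ 8 * d * A ^ (-3 : ℝ) := by
    unfold kk
    rw [Real.rpow_neg hApos.le]
    have h4 : A ^ (3 : ℝ) = A ^ 3 := by
      rw [show (3 : ℝ) = ((3 : ℕ) : ℝ) by norm_num, Real.rpow_natCast]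
    rw [h4, ← div_eq_mul_inv, div_le_div_iff₀ (by positivity) (by positivity)]
    have h5 : A ^ 4 ≤ (4 * d ^ 2 + A ^ 2) ^ 2 := by
      have : A ^ 4 = (A ^ 2) ^ 2 := by ring
      rw [this]
      apply pow_le_pow_left₀ (by positivity)
      have : 0 ≤ 4 * d ^ 2 := by positivity
      linarith
    calc 8 * d * A * A ^ 3 = 8 * d * A ^ 4 := by ring
      _ ≤ 8 * d * (4 * d ^ 2 + A ^ 2) ^ 2 := by gcongr
  have h6 : A ^ (3 / 2 : ℝ) * A ^ (-3 : ℝ) = A ^ (-(3 / 2) : ℝ) := by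
    rw [← Real.rpow_add hApos]
    norm_num
  calc (1 + A) ^ (3 / 2 : ℝ) * kk d A
      ≤ ((1 + 1 / A0) ^ (3 / 2 : ℝ) * A ^ (3 / 2 : ℝ)) * (8 * d * A ^ (-3 : ℝ)) := by
        apply mul_le_mul h2 h3 (kk_nonneg d hd A hApos.le) (by positivity)
    _ = (8 * (1 + 1 / A0) ^ (3 / 2 : ℝ) * d) * (A ^ (3 / 2 : ℝ) * A ^ (-3 : ℝ)) := by ring
    _ = _ := by rw [h6]

/-- the bound for the smoothed pair sum -/
theorem Pq_le (f : ℝ → ℝ) (hf : MonotoneOn f (Ici 0)) (d A0 C e : ℝ) (hd : 0 < d) (hA0 : 0 < A0)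
    (hC : 0 < C) (he : 0 < e)
    (hi : IntegrableOn (fun A => f A * kk d A) (Ioi 0)) (h1 : f A0 ≤ 1 + e)
    (h2 : ∀ A, 0 ≤ A → f A ≤ C * (1 + A) ^ (3 / 2 : ℝ)) :
    ∫ A in Ioi (0 : ℝ), f A * kk d A ≤ (1 + e) / d +
      C * (8 * (1 + 1 / A0) ^ (3 / 2 : ℝ)) * (∫ t in Ioi A0, t ^ (-(3 / 2) : ℝ)) * d := by
  obtain ⟨hk1, hk2⟩ := kk_int d hd
  have hun : Ioc 0 A0 ∪ Ioi A0 = Ioi (0 : ℝ) := Ioc_union_Ioi_eq_Ioi hA0.le
  have hi1 : IntegrableOn (fun A => f A * kk d A) (Ioc 0 A0) := hi.mono_set (by rw [← hun]; exact subset_union_left)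
  have hi2 : IntegrableOn (fun A => f A * kk d A) (Ioi A0) := hi.mono_set (by rw [← hun]; exact subset_union_right)
  have hdis : Disjoint (Ioc 0 A0) (Ioi A0) := by
    rw [Set.disjoint_left]
    intro x hx hx'
    exact absurd hx.2 (not_le.2 hx')
  rw [← hun, setIntegral_union hdis measurableSet_Ioi hi1 hi2]
  apply add_le_add
  · have hk3 : IntegrableOn (kk d) (Ioc 0 A0) := hk1.mono_set (by rw [← hun]; exact subset_union_left)
    calc ∫ A in Ioc 0 A0, f A * kk d A ≤ ∫ A in Ioc 0 A0, (1 + e) * kk d A := by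
          refine setIntegral_mono_on hi1 (hk3.const_mul _) measurableSet_Ioc fun A hA => ?_
          have h3 : f A ≤ f A0 := hf (mem_Ici.2 hA.1.le) (mem_Ici.2 hA0.le) hA.2
          exact mul_le_mul_of_nonneg_right (h3.trans h1) (kk_nonneg d hd A hA.1.le)
      _ = (1 + e) * ∫ A in Ioc 0 A0, kk d A := integral_const_mul _ _
      _ ≤ (1 + e) * ∫ A in Ioi 0, kk d A := by
          apply mul_le_mul_of_nonneg_left _ (by linarith)
          refine setIntegral_mono_set hk1 ?_ ?_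
          · exact (ae_restrict_iff' measurableSet_Ioi).2
              (Eventually.of_forall fun A hA => kk_nonneg d hd A (le_of_lt hA))
          · exact Eventually.of_forall fun x hx => hx.1
      _ = (1 + e) / d := by rw [hk2]; ring
  · have hr : IntegrableOn (fun t : ℝ => t ^ (-(3 / 2) : ℝ)) (Ioi A0) :=
      integrableOn_Ioi_rpow_of_lt (by norm_num) hA0
    calc ∫ A in Ioi A0, f A * kk d A
        ≤ ∫ A in Ioi A0, (C * (8 * (1 + 1 / A0) ^ (3 / 2 : ℝ) * d)) * A ^ (-(3 / 2) : ℝ) := by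
          refine setIntegral_mono_on hi2 (hr.const_mul _) measurableSet_Ioi fun A hA => ?_
          have hA' : A0 < A := hA
          have hApos : 0 < A := hA0.trans hA'
          calc f A * kk d A ≤ (C * (1 + A) ^ (3 / 2 : ℝ)) * kk d A :=
                mul_le_mul_of_nonneg_right (h2 A hApos.le) (kk_nonneg d hd A hApos.le)
            _ = C * ((1 + A) ^ (3 / 2 : ℝ) * kk d A) := by ring
            _ ≤ C * ((8 * (1 + 1 / A0) ^ (3 / 2 : ℝ) * d) * A ^ (-(3 / 2) : ℝ)) :=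
                mul_le_mul_of_nonneg_left (tail_le d A0 A hd hA0 hA') hC.le
            _ = _ := by ring
      _ = (C * (8 * (1 + 1 / A0) ^ (3 / 2 : ℝ) * d)) * ∫ A in Ioi A0, A ^ (-(3 / 2) : ℝ) :=
          integral_const_mul _ _
      _ = _ := by ring

end ZIb

open ZIb in
theorem t_ZIb (hI : S_IrP) (hm : S_mono) (hu : S_unif) : S_ZIb := by
  rintro hG ⟨M, qM, hM, hqM⟩ hES ε hε
  obtain ⟨C, qC, hC, hqC⟩ := hu M hM
  obtain ⟨A0, hA0, qA, hqA⟩ := hES (ε / 4) (by positivity)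
  set J : ℝ := ∫ t in Ioi A0, t ^ (-(3 / 2) : ℝ) with hJ
  have hJ0 : 0 ≤ J := by
    refine setIntegral_nonneg measurableSet_Ioi fun t ht => ?_
    have : 0 < t := hA0.trans ht
    positivity
  set K : ℝ := C * (8 * (1 + 1 / A0) ^ (3 / 2 : ℝ)) * J with hK
  have hK0 : 0 ≤ K := by positivity
  refine ⟨min 1 (ε / (4 * (K + 1))), by positivity, fun d hd hd0 => ?_⟩
  have hd1 : d ≤ 1 := hd0.trans (min_le_left _ _)
  have hd2 : d * (4 * (K + 1)) ≤ ε := by
    have h1 : d ≤ ε / (4 * (K + 1)) := hd0.trans (min_le_right _ _)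
    rwa [le_div_iff₀ (by positivity)] at h1
  obtain ⟨C1, q1, hC1, hq1⟩ := hI hG d hd
  set η : ℝ := ε / (2 * (2 + ε)) with hη
  have hη0 : 0 < η := by positivity
  have hη1 : η * (2 * (2 + ε)) = ε := by
    rw [hη]
    field_simp
  have ht : Tendsto (fun q : ℕ => C1 / Real.sqrt (Real.log q)) atTop (𝓝 0) := by
    have h1 : Tendsto (fun q : ℕ => Real.sqrt (Real.log q)) atTop atTop :=
      (Real.tendsto_sqrt_atTop.comp Real.tendsto_log_atTop).comp tendsto_natCast_atTop_atTop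
    exact tendsto_const_nhds.div_atTop h1
  obtain ⟨q2, hq2⟩ := eventually_atTop.1 (ht.eventually_le_const hη0)
  refine ⟨max (max (max qM qC) (max qA q1)) (max q2 3), fun q _ hq => ?_⟩
  have e1 : qM ≤ q := le_trans (le_trans (le_trans (le_max_left _ _) (le_max_left _ _)) (le_max_left _ _)) hq
  have e2 : qC ≤ q := le_trans (le_trans (le_trans (le_max_right _ _) (le_max_left _ _)) (le_max_left _ _)) hq
  have e3 : qA ≤ q := le_trans (le_trans (le_trans (le_max_left _ _) (le_max_right _ _)) (le_max_left _ _)) hq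
  have e4 : q1 ≤ q := le_trans (le_trans (le_trans (le_max_right _ _) (le_max_right _ _)) (le_max_left _ _)) hq
  have e5 : q2 ≤ q := le_trans (le_trans (le_max_left _ _) (le_max_right _ _)) hq
  have e6 : 3 ≤ q := le_trans (le_trans (le_max_right _ _) (le_max_right _ _)) hq
  obtain ⟨m1, -, m3⟩ := hm q e6
  have hP : Pq q d ≤ (1 + ε / 4) / d + K * d := by
    have := Pq_le (nq q) m1 d A0 C (ε / 4) hd hA0 hC (by positivity) (m3 d hd) (hqA q e3)
      (hqC q e2 (hqM q e1))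
    exact this
  have hdP : d * Pq q d ≤ 1 + ε / 4 + K * d * d := by
    have h1 := mul_le_mul_of_nonneg_left hP hd.le
    have h2 : d * ((1 + ε / 4) / d + K * d) = 1 + ε / 4 + K * d * d := by
      field_simp
    rwa [h2] at h1
  have hKd : K * d * d ≤ ε / 4 := by
    have h1 : K * d * d ≤ K * d * 1 := mul_le_mul_of_nonneg_left hd1 (by positivity)
    nlinarith
  have h3 := hq1 q e4
  have h4 := hq2 q e5
  have hlogpos : 0 < Real.sqrt (Real.log q) := by
    apply Real.sqrt_pos.2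
    apply Real.log_pos
    have : (3 : ℝ) ≤ q := by exact_mod_cast e6
    linarith
  have h5 : 0 < C1 / Real.sqrt (Real.log q) := div_pos hC1 hlogpos
  have h6 : 0 ≤ Ir q d + 1 := by
    by_contra h7
    push Not at h7
    have h8 := mul_neg_of_pos_of_neg h5 h7
    have h9 := abs_nonneg (Ir q d - Pq q d)
    linarith
  have h7 : Ir q d - Pq q d ≤ η * (Ir q d + 1) :=
    (le_abs_self _).trans (h3.trans (mul_le_mul_of_nonneg_right h4 h6))
  have h8 : d * Ir q d * (1 - η) ≤ 1 + ε / 2 + η := by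
    have h9 : d * (Ir q d - Pq q d) ≤ d * (η * (Ir q d + 1)) := mul_le_mul_of_nonneg_left h7 hd.le
    have h10 : d * η ≤ 1 * η := mul_le_mul_of_nonneg_right hd1 hη0.le
    nlinarith
  have h9 : 0 < 1 - η := by
    by_contra h10
    push Not at h10
    nlinarith
  by_contra h10
  push Not at h10
  have h11 : (1 + ε) * (1 - η) < d * Ir q d * (1 - η) := mul_lt_mul_of_pos_right h10 h9
  nlinarith

end Pool.Agent.NH13.WV
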