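import Pool.Agent.NH13.WV.Fin
import Pool.Agent.NH13.WV.AbI
import Pool.Agent.NH13.WV.Asm3
import Pool.Agent.NH13.WV.FinA
import Pool.Agent.NH13.WV.N0
import Pool.Agent.NH13.WV.Simple
import Pool.Agent.NH13.WV.ZIa
import Pool.Agent.NH13.WV.ZIb

/-!
# Project WV, part 2: the main theorem
-/

set_option autoImplicit false

open Complex MeasureTheory Filter Topology Set

namespace Pool.Agent.NH13.WV.Fin3

open Pool.Agent.NH13.UV Pool.Agent.NH13.WV Pool.Agent.NH13.WV.Fin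

theorem n1 : S_N1 := t_N1 hdx UV.Fin1.bp ws
theorem n0 : S_n0 := t_n0 hdx UV.Fin1.bp ws Pool.Agent.NH13.WV.Fin.nr pwb t_mu
theorem abi : S_AbI := t_AbI UV.Fin1.rel UV.Fin2.gg
theorem zia : S_ZIa := t_ZIa irp mono n0
theorem zib : S_ZIb := t_ZIb irp mono unif

/-- **long averages of the variance and simple zeros** -/
theorem main : (AbU ↔ GRHall ∧ ES) ∧ (AbU → AS) := by
  have h := Asm.main3 (t_finA t_ref) t_Me UV.Fin2.gg t_RH (fun h => LV.t_psi h) abi zia zib af nb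
  exact ⟨h, fun ha => t_simple pwb t_mu Pool.Agent.NH13.WV.Fin.nr mono n1 (Asm.grh1_of (h.1 ha).1) (h.1 ha).2⟩

end Pool.Agent.NH13.WV.Fin3
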