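import Pool.Agent.NH13.WV.Stm5

/-!
# WVc-K2f: the mean square of `Re B` and finitely many zeros
-/

set_option autoImplicit false

open Complex MeasureTheory Filter Topology Set
open scoped ComplexConjugate

namespace Pool.Agent.NH13.WV

open Pool.Agent.NH13.UV

namespace K2fP

theorem re_inv (z a : ℂ) : (1 / (z - a)).re =
    (z.re - a.re) / ((z.re - a.re) ^ 2 + (z.im - a.im) ^ 2) := by
  rw [one_div, Complex.inv_re, Complex.normSq_apply, Complex.sub_re, Complex.sub_im]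
  congr 1
  ring

theorem pt_re (x t : ℝ) : (pt x t).re = x := by
  unfold pt
  simp

theorem pt_im (x t : ℝ) : (pt x t).im = t := by
  unfold pt
  simp

lemma sym {ι : Type} (P : Finset (ι × ι)) (m : ι → ℕ) (b g : ι → ℝ) (e : ι ≃ ι)
    (x σ : ℝ) (hx : 0 < x) (hσ : 0 < σ) (hb0 : ∀ i, 0 < b i) (hb2 : ∀ i, b i < 2 * x)
    (hbe : ∀ i, b (e i) = 2 * x - b i) (hme : ∀ i, m (e i) = m i) (hge : ∀ i, g (e i) = g i)
    (heP : ∀ p : ι × ι, (e p.1, e p.2) ∈ P ↔ p ∈ P) :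
    1 / (2 * x) * ∑ p ∈ P, (m p.1 : ℝ) * m p.2 / (σ ^ 2 + g p.1 ^ 2) ≤
      ∑ p ∈ P, (m p.1 : ℝ) * m p.2 / ((b p.1 + b p.2) * (σ ^ 2 + g p.1 ^ 2)) := by
  have h1 : ∑ p ∈ P, (m p.1 : ℝ) * m p.2 / ((b p.1 + b p.2) * (σ ^ 2 + g p.1 ^ 2)) =
      ∑ p ∈ P, (m p.1 : ℝ) * m p.2 / ((4 * x - (b p.1 + b p.2)) * (σ ^ 2 + g p.1 ^ 2)) := by
    symm
    refine Finset.sum_equiv (Equiv.prodCongr e e) (fun p => (heP p).symm) (fun p _ => ?_)
    simp only [Equiv.prodCongr_apply, Prod.map_fst, Prod.map_snd]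
    rw [hme, hme, hbe, hbe, hge]
    congr 2
    ring
  have h2 : 2 * (1 / (2 * x) * ∑ p ∈ P, (m p.1 : ℝ) * m p.2 / (σ ^ 2 + g p.1 ^ 2)) ≤
      ∑ p ∈ P, ((m p.1 : ℝ) * m p.2 / ((b p.1 + b p.2) * (σ ^ 2 + g p.1 ^ 2)) +
        (m p.1 : ℝ) * m p.2 / ((4 * x - (b p.1 + b p.2)) * (σ ^ 2 + g p.1 ^ 2))) := by
    rw [Finset.mul_sum, Finset.mul_sum]
    refine Finset.sum_le_sum fun p _ => ?_
    have hy0 : 0 < b p.1 + b p.2 := add_pos (hb0 _) (hb0 _)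
    have hy1 : 0 < 4 * x - (b p.1 + b p.2) := by linarith [hb2 p.1, hb2 p.2]
    generalize b p.1 + b p.2 = y at hy0 hy1 ⊢
    have hd : 0 < σ ^ 2 + g p.1 ^ 2 := by positivity
    generalize σ ^ 2 + g p.1 ^ 2 = d at hd ⊢
    have hm : 0 ≤ (m p.1 : ℝ) * m p.2 := by positivity
    generalize (m p.1 : ℝ) * m p.2 = M at hm ⊢
    have e1 : M / (y * d) + M / ((4 * x - y) * d) = M / d * (4 * x / (y * (4 * x - y))) := by
      field_simp
      ring
    have e2 : 2 * (1 / (2 * x) * (M / d)) = M / d * (1 / x) := by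
      field_simp
    rw [e1, e2]
    refine mul_le_mul_of_nonneg_left ?_ (div_nonneg hm hd.le)
    rw [div_le_div_iff₀ hx (mul_pos hy0 hy1)]
    nlinarith [sq_nonneg (y - 2 * x)]
  rw [Finset.sum_add_distrib, ← h1] at h2
  linarith

open Classical in
/-- the number of the zeros with the ordinate of `s` -/
lemma nr_eq {q : ℕ} [NeZero q] (χ : DirichletCharacter ℂ q) (F : Finset (Zs χ))
    (hF : ∀ s ∈ F, ∀ w : Zs χ, (w : ℂ).im = (s : ℂ).im → w ∈ F) (s : Zs χ) (hs : s ∈ F) :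
    nr χ 0 (s : ℂ).im = ∑ w ∈ F.filter (fun w : Zs χ => (w : ℂ).im = (s : ℂ).im), mu χ w := by
  unfold nr
  have h1 : {z : ℂ | z ∈ Zs χ ∧ |z.im - (s : ℂ).im| ≤ 0} =
      ↑((F.filter (fun w : Zs χ => (w : ℂ).im = (s : ℂ).im)).map
        (Function.Embedding.subtype (· ∈ Zs χ))) := by
    ext z
    simp only [Set.mem_ofPred_eq, Finset.coe_map, Function.Embedding.subtype_apply, Set.mem_image,
      Finset.mem_coe, Finset.mem_filter]
    constructor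
    · rintro ⟨hz, h0⟩
      have h2 : z.im = (s : ℂ).im := by
        have := abs_nonpos_iff.1 h0
        linarith
      exact ⟨⟨z, hz⟩, ⟨hF s hs ⟨z, hz⟩ h2, h2⟩, rfl⟩
    · rintro ⟨w, ⟨-, hw⟩, rfl⟩
      refine ⟨w.2, ?_⟩
      rw [hw]
      simp
  rw [h1, finsum_mem_coe_finset, Finset.sum_map]
  rfl

open Classical in
lemma dbl {ι : Type} (F : Finset ι) (g : ι → ℝ) (φ : ι → ι → ℝ) :
    ∑ p ∈ (F ×ˢ F).filter (fun p => g p.2 = g p.1), φ p.1 p.2 =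
      ∑ s ∈ F, ∑ w ∈ F.filter (fun w => g w = g s), φ s w := by
  rw [Finset.sum_filter, Finset.sum_product]
  refine Finset.sum_congr rfl fun s _ => ?_
  rw [Finset.sum_filter]

open Classical in
theorem core (hS : S_SZ2) (B : ℂ → ℂ) (h : ℝ) (ι : Type) (a : ι → ℂ) (m : ι → ℕ)
    (hB : HD B h ι a m) (x : ℝ) (hx : h < x) (hx16 : x ≤ 1 / 16)
    (hint : Integrable (fun t : ℝ => (B (pt x t)).re ^ 2 * wt x t)) (F : Finset ι)
    (hF : ∀ s ∈ F, ∀ w, (a w).im = (a s).im → w ∈ F) :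
    Real.pi * (1 - 8 * x) * (1 / (2 * x) * ∑ s ∈ F, ∑ w ∈ F.filter (fun w => (a w).im = (a s).im),
      (m s : ℝ) * m w / ((1 / 2 + x) ^ 2 + (a s).im ^ 2)) ≤
      ∫ t : ℝ, (B (pt x t)).re ^ 2 * wt x t := by
  have hx0 : 0 < x := lt_of_le_of_lt hB.h0 hx
  obtain ⟨e, he⟩ := hB.sym
  obtain ⟨σ, hσ⟩ : ∃ σ, σ = 1 / 2 + x := ⟨_, rfl⟩
  have hσ2 : 1 / 2 ≤ σ := by rw [hσ]; linarith
  have hσ0 : 0 < σ := by linarith
  have hβ : ∀ i, -x < (a i).re ∧ (a i).re < x := fun i =>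
    ⟨by have := (abs_le.1 (hB.strip i)).1; linarith, by have := (abs_le.1 (hB.strip i)).2; linarith⟩
  obtain ⟨b, hb⟩ : ∃ b : ι → ℝ, ∀ i, b i = x - (a i).re := ⟨_, fun _ => rfl⟩
  have hb0 : ∀ i, 0 < b i := fun i => by rw [hb]; linarith [(hβ i).2]
  have hb2 : ∀ i, b i < 2 * x := fun i => by rw [hb]; linarith [(hβ i).1]
  have hbe : ∀ i, b (e i) = 2 * x - b i := by
    intro i
    rw [hb, hb, (he i).1]
    simp only [Complex.neg_re, Complex.conj_re]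
    ring
  have hge : ∀ i, (a (e i)).im = (a i).im := by
    intro i
    rw [(he i).1]
    simp
  have heF : ∀ i, e i ∈ F ↔ i ∈ F := fun i =>
    ⟨fun hi => hF _ hi i (hge i).symm, fun hi => hF _ hi (e i) (hge i)⟩
  rw [← hσ, ← dbl F (fun i => (a i).im) (fun s w => (m s : ℝ) * m w / (σ ^ 2 + (a s).im ^ 2))]
  obtain ⟨P, hP⟩ : ∃ P, P = (F ×ˢ F).filter (fun p : ι × ι => (a p.2).im = (a p.1).im) := ⟨_, rfl⟩
  rw [← hP]
  have hpi := Real.pi_pos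
  have h8 : 0 ≤ 1 - 8 * x := by linarith
  have hsym := sym P m b (fun i => (a i).im) e x σ hx0 hσ0 hb0 hb2 hbe (fun i => (he i).2) hge (by
    intro p
    rw [hP]
    simp only [Finset.mem_filter, Finset.mem_product, heF, hge])
  refine (mul_le_mul_of_nonneg_left hsym (mul_nonneg hpi.le h8)).trans ?_
  have hpt : ∀ t : ℝ, ∑ p ∈ P, ((m p.1 : ℝ) * m p.2) *
      (b p.1 / (b p.1 ^ 2 + (t - (a p.1).im) ^ 2) * (b p.2 / (b p.2 ^ 2 + (t - (a p.1).im) ^ 2)) *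
        (1 / (σ ^ 2 + t ^ 2))) ≤ (B (pt x t)).re ^ 2 * wt x t := by
    intro t
    have g1 := hB.re (pt x t) (by rw [pt_re]; exact hx)
    have hQ : ∀ i, (1 / (pt x t - a i)).re = b i / (b i ^ 2 + (t - (a i).im) ^ 2) := by
      intro i
      rw [re_inv, pt_re, pt_im, ← hb]
    simp only [hQ] at g1
    have hP0 : ∀ i, 0 ≤ b i / (b i ^ 2 + (t - (a i).im) ^ 2) := fun i =>
      div_nonneg (hb0 i).le (by positivity)
    have hP1 : ∀ i, 0 ≤ (m i : ℝ) * (b i / (b i ^ 2 + (t - (a i).im) ^ 2)) := fun i =>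
      mul_nonneg (Nat.cast_nonneg _) (hP0 i)
    have g2 : ∑ i ∈ F, (m i : ℝ) * (b i / (b i ^ 2 + (t - (a i).im) ^ 2)) ≤ (B (pt x t)).re :=
      sum_le_hasSum F (fun i _ => hP1 i) g1
    have g3 : 0 ≤ ∑ i ∈ F, (m i : ℝ) * (b i / (b i ^ 2 + (t - (a i).im) ^ 2)) :=
      Finset.sum_nonneg fun i _ => hP1 i
    have g4 : ∑ p ∈ P, ((m p.1 : ℝ) * (b p.1 / (b p.1 ^ 2 + (t - (a p.1).im) ^ 2))) *
        ((m p.2 : ℝ) * (b p.2 / (b p.2 ^ 2 + (t - (a p.2).im) ^ 2))) ≤ (B (pt x t)).re ^ 2 := by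
      refine le_trans ?_ (pow_le_pow_left₀ g3 g2 2)
      rw [pow_two, Finset.sum_mul_sum, ← Finset.sum_product', hP]
      exact Finset.sum_le_sum_of_subset_of_nonneg (Finset.filter_subset _ _)
        fun p _ _ => mul_nonneg (hP1 _) (hP1 _)
    have hw : wt x t = 1 / (σ ^ 2 + t ^ 2) := by
      unfold wt
      rw [hσ]
    rw [hw]
    have hw0 : 0 ≤ 1 / (σ ^ 2 + t ^ 2) := by positivity
    refine le_trans (le_of_eq ?_) (mul_le_mul_of_nonneg_right g4 hw0)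
    rw [Finset.sum_mul]
    refine Finset.sum_congr rfl fun p hp => ?_
    have hpe : (a p.2).im = (a p.1).im := by
      rw [hP] at hp
      exact (Finset.mem_filter.1 hp).2
    rw [hpe]
    ring
  have hi : ∀ p ∈ P, Integrable (fun t : ℝ => ((m p.1 : ℝ) * m p.2) *
      (b p.1 / (b p.1 ^ 2 + (t - (a p.1).im) ^ 2) * (b p.2 / (b p.2 ^ 2 + (t - (a p.1).im) ^ 2)) *
        (1 / (σ ^ 2 + t ^ 2)))) := fun p _ =>
    ((hS (b p.1) (b p.2) (a p.1).im σ (hb0 _) (hb0 _) hσ2).1).const_mul _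
  have h6 := integral_mono (integrable_finsetSum P hi) hint hpt
  rw [integral_finsetSum P hi] at h6
  refine le_trans ?_ h6
  rw [Finset.mul_sum]
  refine Finset.sum_le_sum fun p _ => ?_
  rw [integral_const_mul]
  have g8 := (hS (b p.1) (b p.2) (a p.1).im σ (hb0 _) (hb0 _) hσ2).2
  have hden : 0 < σ ^ 2 + (a p.1).im ^ 2 := by positivity
  have hbb : 0 < b p.1 + b p.2 := add_pos (hb0 _) (hb0 _)
  have g9 : Real.pi / (b p.1 + b p.2) * (1 - 8 * x) / (σ ^ 2 + (a p.1).im ^ 2) ≤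
      Real.pi / (b p.1 + b p.2) * (1 - 4 * min (b p.1) (b p.2)) / (σ ^ 2 + (a p.1).im ^ 2) := by
    refine div_le_div_of_nonneg_right ?_ hden.le
    refine mul_le_mul_of_nonneg_left ?_ (div_nonneg hpi.le hbb.le)
    have := min_le_left (b p.1) (b p.2)
    have := hb2 p.1
    linarith
  have g10 := mul_le_mul_of_nonneg_left (g9.trans g8)
    (by positivity : (0 : ℝ) ≤ (m p.1 : ℝ) * m p.2)
  refine le_trans (le_of_eq ?_) g10
  have := hbb.ne'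
  have := hden.ne'
  field_simp

end K2fP

open K2fP in
open Classical in
theorem t_K2f (h2 : S_SZ2) (h1 : S_HDx) (hK : S_K1) (h3 : S_nr) : S_K2f := by
  intro q _ χ hχ h x hh hhx hx16 hne F hF
  have _ := h3
  have hB := h1 q χ hχ h hh (by linarith) hne
  have hint := (hK _ _ _ _ _ hB x hhx 0).2.1
  have hx0 : 0 < x := lt_of_le_of_lt hh hhx
  have him : ∀ s : Zs χ, ((s : ℂ) - 1 / 2).im = (s : ℂ).im := by
    intro s
    simp
  have hc := core h2 (Bq χ) h (Zs χ) (fun s => (s : ℂ) - 1 / 2) (fun s => mu χ s) hB x hhx hx16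
    hint F (by
      intro s hs w hw
      simp only [him] at hw
      exact hF s hs w hw)
  simp only [him] at hc
  refine le_trans ?_ hc
  have hpi := Real.pi_pos
  have h8 : 0 ≤ 1 - 8 * x := by linarith
  have hN : ∀ s ∈ F, (1 - 4 * x) * ((mu χ s : ℝ) * (nr χ 0 (s : ℂ).im : ℝ) /
      (1 / 4 + (s : ℂ).im ^ 2)) ≤
      ∑ w ∈ F.filter (fun w : Zs χ => (w : ℂ).im = (s : ℂ).im),
        (mu χ s : ℝ) * (mu χ w : ℝ) / ((1 / 2 + x) ^ 2 + (s : ℂ).im ^ 2) := by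
    intro s hs
    rw [nr_eq χ F hF s hs, ← Finset.sum_div, ← Finset.mul_sum]
    push_cast
    have hM : 0 ≤ (mu χ s : ℝ) *
        ∑ w ∈ F.filter (fun w : Zs χ => (w : ℂ).im = (s : ℂ).im), (mu χ w : ℝ) := by
      positivity
    generalize (mu χ s : ℝ) *
        ∑ w ∈ F.filter (fun w : Zs χ => (w : ℂ).im = (s : ℂ).im), (mu χ w : ℝ) = M at hM ⊢
    have d1 : 0 < 1 / 4 + (s : ℂ).im ^ 2 := by positivity
    have d2 : 0 < (1 / 2 + x) ^ 2 + (s : ℂ).im ^ 2 := by positivity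
    rw [mul_div_assoc', div_le_div_iff₀ d1 d2]
    have g0 := sq_nonneg (s : ℂ).im
    generalize (s : ℂ).im ^ 2 = g at g0 d1 d2 ⊢
    have g1 : (1 - 4 * x) * ((1 / 2 + x) ^ 2 + g) ≤ 1 / 4 + g := by
      have : 0 ≤ x * g := mul_nonneg hx0.le g0
      have : 0 ≤ x ^ 2 := sq_nonneg x
      have : 0 ≤ x ^ 3 := pow_nonneg hx0.le 3
      nlinarith
    calc (1 - 4 * x) * M * ((1 / 2 + x) ^ 2 + g) = M * ((1 - 4 * x) * ((1 / 2 + x) ^ 2 + g)) := by
          ring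
      _ ≤ M * (1 / 4 + g) := mul_le_mul_of_nonneg_left g1 hM
  have hS := Finset.sum_le_sum hN
  rw [← Finset.mul_sum] at hS
  obtain ⟨A, hA⟩ : ∃ A, A = ∑ s ∈ F, (mu χ s : ℝ) * (nr χ 0 (s : ℂ).im : ℝ) /
      (1 / 4 + (s : ℂ).im ^ 2) := ⟨_, rfl⟩
  rw [← hA] at hS ⊢
  have hA0 : 0 ≤ A := by
    rw [hA]
    exact Finset.sum_nonneg fun s _ => by positivity
  have hk : 0 ≤ Real.pi * (1 - 8 * x) * (1 / (2 * x)) := by positivity
  have h9 := mul_le_mul_of_nonneg_left hS hk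
  rw [← mul_assoc (Real.pi * (1 - 8 * x))]
  refine le_trans ?_ h9
  have e1 : Real.pi * (1 - 8 * x) * (1 / (2 * x)) * ((1 - 4 * x) * A) =
      Real.pi / (2 * x) * ((1 - 8 * x) * (1 - 4 * x)) * A := by
    ring
  rw [e1]
  refine mul_le_mul_of_nonneg_right ?_ hA0
  refine mul_le_mul_of_nonneg_left ?_ (by positivity)
  nlinarith [sq_nonneg x]

end Pool.Agent.NH13.WV
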