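import Pool.Agent.NH13.WV.Stm5

/-!
# The mean square of `Re B` and the zeros with the same ordinate
-/

set_option autoImplicit false

open Complex MeasureTheory Filter Topology Set
open scoped ComplexConjugate

namespace Pool.Agent.NH13.WV

open Pool.Agent.NH13.UV

theorem t_K2n (hf : S_K2f) (h3 : S_nr) (h4 : S_PWb) : S_K2n := by
  intro q _ χ hχ hq h x h0 hx hx16 hfree
  classical
  obtain ⟨_, -, hnr⟩ := h3
  obtain ⟨_, -, hpw⟩ := h4
  have hs := (hpw q χ hχ hq 0 le_rfl).1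
  have hx0 : 0 < x := h0.trans_lt hx
  have hc : 0 ≤ Real.pi / (2 * x) * (1 - 12 * x) := by
    have h1 : 0 ≤ 1 - 12 * x := by linarith
    have := Real.pi_pos
    positivity
  unfold PW
  rw [← tsum_mul_left]
  refine (hs.mul_left _).tsum_le_of_sum_le ?_
  intro F'
  have hA : {w : Zs χ | ∃ s ∈ F', (w : ℂ).im = (s : ℂ).im}.Finite := by
    have h1 : {w : Zs χ | ∃ s ∈ F', (w : ℂ).im = (s : ℂ).im} =
        ⋃ s ∈ (F' : Set (Zs χ)), {w : Zs χ | (w : ℂ).im = (s : ℂ).im} := by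
      ext w
      simp
    rw [h1]
    refine Set.Finite.biUnion F'.finite_toSet ?_
    intro s _
    have h2 := (hnr q χ hχ 0 (s : ℂ).im le_rfl).1
    refine (h2.preimage (f := (Subtype.val : Zs χ → ℂ)) Subtype.val_injective.injOn).subset ?_
    intro w hw
    have hw' : (w : ℂ).im = (s : ℂ).im := hw
    refine ⟨w.2, ?_⟩
    rw [hw', sub_self, abs_zero]
  have hF := hf q χ hχ h x h0 hx hx16 hfree hA.toFinset (by
    intro s hs w hw
    rw [Set.Finite.mem_toFinset] at hs ⊢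
    obtain ⟨r, hr, hr'⟩ := hs
    exact ⟨r, hr, hw.trans hr'⟩)
  refine le_trans ?_ hF
  rw [Finset.mul_sum]
  refine Finset.sum_le_sum_of_subset_of_nonneg ?_ ?_
  · intro s hs
    rw [Set.Finite.mem_toFinset]
    exact ⟨s, hs, rfl⟩
  · intro s _ _
    have : (0 : ℝ) < 1 / 4 + (s : ℂ).im ^ 2 := by positivity
    positivity

end Pool.Agent.NH13.WV
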