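import Pool.Agent.NH13.WV.Stm5

/-!
# Project WV: the mean square of `Re B` and the zeros with the same ordinate, for the family
-/

set_option autoImplicit false

open Complex MeasureTheory Filter Topology Set
open scoped ComplexConjugate

namespace Pool.Agent.NH13.WV

open Pool.Agent.NH13.UV

namespace lowN

lemma PW_nonneg {q : ℕ} [NeZero q] (χ : DirichletCharacter ℂ q) (d : ℝ) : 0 ≤ PW χ d := by
  unfold PW
  exact tsum_nonneg fun s => by positivity

/-- one character -/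
lemma one (hn : S_K2n) (hMe : S_Me) {q : ℕ} [NeZero q] {κ κ' : ℝ} (hq3 : 3 ≤ q)
    (hL : 0 < Real.log q) (hκ' : 0 < κ') (hκκ : κ' < κ) (hx : κ / Real.log q ≤ 1 / 16)
    (hFi : Fi q κ') (χ : DirichletCharacter ℂ q) (hχ : χ ∈ NT q) :
    Real.pi / (2 * (κ / Real.log q)) * (1 - 12 * (κ / Real.log q)) * PW χ 0 ≤
      ∫ t : ℝ, (Bq χ (pt (κ / Real.log q) t)).re ^ 2 * wt (κ / Real.log q) t := by
  have hχ1 : χ ≠ 1 := mem_NT.1 hχ
  have hx0 : 0 < κ' / Real.log q := div_pos hκ' hL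
  have hxx : κ' / Real.log q < κ / Real.log q := div_lt_div_of_pos_right hκκ hL
  have hF := hFi χ hχ
  have e1 : (-2 - 2 * κ' / Real.log q : ℝ) = -2 - 2 * (κ' / Real.log q) := by ring
  rw [e1] at hF
  exact hn q χ hχ1 hq3 (κ' / Real.log q) (κ / Real.log q) hx0.le hxx hx
    fun s hs => (hMe q χ hχ1 _ hx0 hF s hs).2.1

end lowN

theorem t_lowN (hn : S_K2n) (hMe : S_Me) : S_lowN := by
  intro κ ε hκ hε
  have hlog : Tendsto (fun q : ℕ => Real.log q) atTop atTop :=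
    Real.tendsto_log_atTop.comp tendsto_natCast_atTop_atTop
  obtain ⟨q2, hq2⟩ := eventually_atTop.1
    (hlog.eventually_ge_atTop (max (max 1 (16 * κ)) (12 * κ / ε)))
  refine ⟨max 3 q2, ?_⟩
  intro q _ hq ⟨κ', hκ'0, hκ', hFi⟩
  have hq3 : 3 ≤ q := le_trans (le_max_left _ _) hq
  have g2 := hq2 q (le_trans (le_max_right _ _) hq)
  have hL1 : 1 ≤ Real.log q := le_trans (le_trans (le_max_left _ _) (le_max_left _ _)) g2
  have hL16 : 16 * κ ≤ Real.log q := le_trans (le_trans (le_max_right _ _) (le_max_left _ _)) g2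
  have hLε : 12 * κ / ε ≤ Real.log q := le_trans (le_max_right _ _) g2
  have hL : 0 < Real.log q := by linarith
  have hx16 : κ / Real.log q ≤ 1 / 16 := by
    rw [div_le_iff₀ hL]; linarith
  have hone := fun χ hχ => lowN.one hn hMe hq3 hL hκ'0 hκ' hx16 hFi χ hχ
  have hqp : 0 < q := Nat.pos_of_ne_zero (NeZero.ne q)
  have hφ : 0 < (q.totient : ℝ) := by exact_mod_cast Nat.totient_pos.2 hqp
  have hS0 : 0 ≤ ∑ χ ∈ NT q, PW χ 0 := Finset.sum_nonneg fun χ _ => lowN.PW_nonneg χ 0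
  have hnq : nq q 0 = 1 / (Real.log q * q.totient) * ∑ χ ∈ NT q, PW χ 0 := by
    unfold nq
    rw [zero_div]
  have hnq0 : 0 ≤ nq q 0 := by
    rw [hnq]; positivity
  have hIr : Ir q κ = 2 / (Real.pi * (Real.log q ^ 2 * q.totient)) * ∑ χ ∈ NT q,
    ∫ t : ℝ, (Bq χ (pt (κ / Real.log q) t)).re ^ 2 * wt (κ / Real.log q) t := rfl
  have hI : Real.pi / (2 * (κ / Real.log q)) * (1 - 12 * (κ / Real.log q)) * ∑ χ ∈ NT q, PW χ 0 ≤
      ∑ χ ∈ NT q, ∫ t : ℝ, (Bq χ (pt (κ / Real.log q) t)).re ^ 2 * wt (κ / Real.log q) t := by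
    rw [Finset.mul_sum]
    exact Finset.sum_le_sum fun χ hχ => hone χ hχ
  set L : ℝ := Real.log q with hLd
  set φ : ℝ := (q.totient : ℝ) with hφd
  set S : ℝ := ∑ χ ∈ NT q, PW χ 0 with hSd
  have h2 : 2 / (Real.pi * (L ^ 2 * φ)) * (Real.pi / (2 * (κ / L)) * (1 - 12 * (κ / L)) * S) ≤
      Ir q κ := by
    rw [hIr]
    exact mul_le_mul_of_nonneg_left hI (by positivity)
  have hpi := Real.pi_ne_zero
  have e2 : κ * (2 / (Real.pi * (L ^ 2 * φ)) * (Real.pi / (2 * (κ / L)) * (1 - 12 * (κ / L)) * S))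
      = (1 - 12 * (κ / L)) * nq q 0 := by
    rw [hnq]
    field_simp
  have h3 : (1 - 12 * (κ / L)) * nq q 0 ≤ κ * Ir q κ := by
    rw [← e2]
    exact mul_le_mul_of_nonneg_left h2 hκ.le
  refine le_trans (mul_le_mul_of_nonneg_right ?_ hnq0) h3
  have h4 : 12 * κ ≤ L * ε := by rwa [div_le_iff₀ hε] at hLε
  have h5 : 12 * (κ / L) ≤ ε := by
    rw [mul_div_assoc', div_le_iff₀ hL]
    linarith
  linarith

end Pool.Agent.NH13.WV
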