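import Pool.Agent.NH13.WV.Stm5

/-!
# Project WV, part 3: the weighted number of zeros (job WVc-N1u, helper89; adapted from N0.lean)
-/

set_option autoImplicit false

open Complex MeasureTheory Filter Topology Set
open scoped ComplexConjugate

namespace Pool.Agent.NH13.WV

open Pool.Agent.NH13.UV

namespace N1u

theorem card_divisors_le (k : ℕ) : k.divisors.card ≤ 2 * Nat.sqrt k := by
  classical
  rcases Nat.eq_zero_or_pos k with rfl | hk
  · simp
  have h1 : k.divisors ⊆ (Finset.Icc 1 (Nat.sqrt k)) ∪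
      (Finset.Icc 1 (Nat.sqrt k)).image (fun d => k / d) := by
    intro d hd
    have hdk := Nat.dvd_of_mem_divisors hd
    have hd0 := Nat.pos_of_mem_divisors hd
    rw [Finset.mem_union]
    by_cases h : d ≤ Nat.sqrt k
    · left; rw [Finset.mem_Icc]; exact ⟨hd0, h⟩
    · right
      rw [Finset.mem_image]
      refine ⟨k / d, ?_, Nat.div_div_self hdk hk.ne'⟩
      rw [Finset.mem_Icc]
      constructor
      · exact Nat.div_pos (Nat.le_of_dvd hk hdk) hd0
      · by_contra hcon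
        push Not at h hcon
        have h2 : d * (k / d) = k := Nat.mul_div_cancel' hdk
        have h3 := Nat.lt_succ_sqrt k
        have h4 : (Nat.sqrt k + 1) * (Nat.sqrt k + 1) ≤ d * (k / d) := Nat.mul_le_mul h hcon
        rw [h2] at h4
        exact absurd h3 (not_lt.mpr h4)
  calc k.divisors.card ≤ ((Finset.Icc 1 (Nat.sqrt k)) ∪
      (Finset.Icc 1 (Nat.sqrt k)).image (fun d => k / d)).card := Finset.card_le_card h1
    _ ≤ (Finset.Icc 1 (Nat.sqrt k)).card +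
      ((Finset.Icc 1 (Nat.sqrt k)).image (fun d => k / d)).card := Finset.card_union_le _ _
    _ ≤ Nat.sqrt k + Nat.sqrt k := by
        apply add_le_add
        · simp
        · exact Finset.card_image_le.trans (by simp)
    _ = 2 * Nat.sqrt k := by ring

theorem sqrt_le_totient (k : ℕ) (hk : 1 ≤ k) : Real.sqrt k ≤ 2 * Nat.totient k := by
  have h1 : k ≤ k.divisors.card * Nat.totient k := by
    calc k = ∑ e ∈ k.divisors, Nat.totient e := (Nat.sum_totient k).symm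
      _ ≤ ∑ _e ∈ k.divisors, Nat.totient k := by
          apply Finset.sum_le_sum
          intro e he
          exact Nat.le_of_dvd (Nat.totient_pos.mpr (by omega))
            (Nat.totient_dvd_of_dvd (Nat.dvd_of_mem_divisors he))
      _ = k.divisors.card * Nat.totient k := by rw [Finset.sum_const, smul_eq_mul]
  have h2 := card_divisors_le k
  have h3 : k ≤ 2 * Nat.sqrt k * Nat.totient k := h1.trans (Nat.mul_le_mul_right _ h2)
  have h4 : (k : ℝ) ≤ 2 * (Nat.sqrt k : ℝ) * Nat.totient k := by exact_mod_cast h3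
  have h5 : (Nat.sqrt k : ℝ) ≤ Real.sqrt k := Real.nat_sqrt_le_real_sqrt
  have h6 : 0 < Real.sqrt k := Real.sqrt_pos.mpr (by exact_mod_cast (by omega : 0 < k))
  have h7 : Real.sqrt k * Real.sqrt k = k := Real.mul_self_sqrt (by positivity)
  have h8 : (0 : ℝ) ≤ Nat.totient k := by positivity
  have h9 : Real.sqrt k * Real.sqrt k ≤ Real.sqrt k * (2 * Nat.totient k) := by
    rw [h7]
    refine h4.trans ?_
    nlinarith
  exact le_of_mul_le_mul_left h9 h6


lemma card_NT (q : ℕ) [NeZero q] : ((NT q).card : ℝ) = q.totient - 1 := by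
  classical
  have h1 : Fintype.card (DirichletCharacter ℂ q) = q.totient := by
    rw [← Nat.card_eq_fintype_card]
    exact DirichletCharacter.card_eq_totient_of_hasEnoughRootsOfUnity ℂ q
  have h2 : (NT q).card + 1 = q.totient := by
    have h3 : NT q = Finset.univ.erase (1 : DirichletCharacter ℂ q) := by
      ext χ
      rw [mem_NT, Finset.mem_erase]
      simp
    rw [h3, Finset.card_erase_add_one (Finset.mem_univ _), Finset.card_univ, h1]
  have h4 : ((NT q).card : ℝ) + 1 = q.totient := by exact_mod_cast h2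
  linarith

/-- one character, the sum over the zeros -/
lemma char_low (h1 : S_HDx) (hw : S_ws)
    (q : ℕ) [NeZero q] (hq : 3 ≤ q) (χ : DirichletCharacter ℂ q) (hχ : χ ≠ 1) (h x : ℝ)
    (hh0 : 0 ≤ h) (hhx : h < x) (hx : x ≤ 1 / 8)
    (hG : ∀ s : ℂ, 1 / 2 + h < s.re → DirichletCharacter.LFunction χ s ≠ 0) :
    (Bq χ ((1 / 2 + 2 * x : ℝ) : ℂ)).re ≤
      (1 / 2 + 3 * x) * ∑' s : Zs χ, (mu χ s : ℝ) / (1 / 4 + (s : ℂ).im ^ 2) := by
  have hd : HD (Bq χ) h (Zs χ) (fun s => (s : ℂ) - 1 / 2) (fun s => mu χ s) :=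
    h1 q χ hχ h hh0 (by linarith) hG
  have h12 : (1 / 2 : ℂ).re = 1 / 2 ∧ (1 / 2 : ℂ).im = 0 := by
    constructor <;> norm_num
  have hre : ∀ s : Zs χ, |(s : ℂ).re - 1 / 2| ≤ h := by
    intro s
    have h5 := hd.strip s
    rw [Complex.sub_re, h12.1] at h5
    exact h5
  obtain ⟨p, hp⟩ : ∃ p : ℝ, 1 / 2 + 2 * x = p := ⟨_, rfl⟩
  rw [hp]
  have hB := hd.re (p : ℂ) (by rw [Complex.ofReal_re]; linarith)
  obtain ⟨C, hC, hW⟩ := hw
  have hsm : Summable (fun s : Zs χ => (mu χ s : ℝ) / (1 / 4 + (s : ℂ).im ^ 2)) := by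
    refine Summable.of_nonneg_of_le (fun s => by positivity) (fun s => ?_) (hW q χ hχ hq).1
    apply div_le_div_of_nonneg_right _ (by positivity)
    have h7 : 0 ≤ Real.log (2 + |(s : ℂ).im|) := by
      apply Real.log_nonneg
      have := abs_nonneg (s : ℂ).im
      linarith
    have h8 : (0 : ℝ) ≤ (mu χ (s : ℂ) : ℝ) := Nat.cast_nonneg _
    nlinarith
  have hS := hsm.hasSum.mul_left (1 / 2 + 3 * x)
  refine hasSum_le (fun s => ?_) hB hS
  obtain ⟨y, hy⟩ : ∃ y : ℝ, p - ((s : ℂ).re - 1 / 2) = y := ⟨_, rfl⟩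
  have hz1 : ((p : ℂ) - ((s : ℂ) - 1 / 2)).re = y := by
    rw [Complex.sub_re, Complex.sub_re, h12.1, Complex.ofReal_re]
    exact hy
  have hz2 : ((p : ℂ) - ((s : ℂ) - 1 / 2)).im = -(s : ℂ).im := by
    rw [Complex.sub_im, Complex.sub_im, h12.2, Complex.ofReal_im]
    ring
  have hterm : (1 / ((p : ℂ) - ((s : ℂ) - 1 / 2))).re = y / (y ^ 2 + (s : ℂ).im ^ 2) := by
    rw [one_div, Complex.inv_re, Complex.normSq_apply, hz1, hz2]
    congr 1
    ring
  rw [hterm]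
  have hab := abs_le.1 (hre s)
  have hy1 : 1 / 2 ≤ y := by linarith [hab.2]
  have hy2 : y ≤ 1 / 2 + 3 * x := by linarith [hab.1]
  have hm : (0 : ℝ) ≤ (mu χ (s : ℂ) : ℝ) := Nat.cast_nonneg _
  have hg : 0 ≤ (s : ℂ).im ^ 2 := sq_nonneg _
  have hden : (0 : ℝ) < 1 / 4 + (s : ℂ).im ^ 2 := by linarith
  have hp2 : 1 / 4 ≤ y ^ 2 := by nlinarith
  calc (mu χ (s : ℂ) : ℝ) * (y / (y ^ 2 + (s : ℂ).im ^ 2))
      ≤ (mu χ (s : ℂ) : ℝ) * ((1 / 2 + 3 * x) / (1 / 4 + (s : ℂ).im ^ 2)) := by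
        apply mul_le_mul_of_nonneg_left _ hm
        exact div_le_div₀ (by linarith) hy2 hden (by linarith)
    _ = (1 / 2 + 3 * x) * ((mu χ (s : ℂ) : ℝ) / (1 / 4 + (s : ℂ).im ^ 2)) := by ring

/-- the sum over the characters -/
lemma main (hB : S_Bp) (κ ε : ℝ) (hκ : 0 < κ) (hε : 0 < ε) :
    ∃ q0 : ℕ, 3 ≤ q0 ∧ ∀ (q : ℕ) [NeZero q], q0 ≤ q → κ / Real.log q ≤ 1 / 8 ∧
      ∀ F : DirichletCharacter ℂ q → ℝ,
      (∀ χ : DirichletCharacter ℂ q, χ ≠ 1 →
        (Bq χ ((1 / 2 + 2 * (κ / Real.log q) : ℝ) : ℂ)).re ≤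
          (1 / 2 + 3 * (κ / Real.log q)) * F χ) →
      (1 - ε) * (Real.log q * q.totient) ≤ ∑ χ ∈ NT q, F χ := by
  set δ : ℝ := ε / 12 with hδ
  have hδ0 : 0 < δ := by positivity
  obtain ⟨q0, hq0⟩ := hB κ (δ ^ 2) hκ (by positivity)
  have hlog : Tendsto (fun q : ℕ => Real.log (q : ℝ)) atTop atTop :=
    Real.tendsto_log_atTop.comp tendsto_natCast_atTop_atTop
  have hsq : Tendsto (fun q : ℕ => Real.sqrt (q : ℝ)) atTop atTop :=
    Real.tendsto_sqrt_atTop.comp tendsto_natCast_atTop_atTop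
  obtain ⟨q1, hq1⟩ := eventually_atTop.1 (hlog.eventually_ge_atTop (18 * κ / ε + 8 * κ + 1))
  obtain ⟨q2, hq2⟩ := eventually_atTop.1 (hsq.eventually_ge_atTop (6 / ε))
  refine ⟨max 3 (max q0 (max q1 q2)), le_max_left _ _, ?_⟩
  intro q _ hq
  have hq3 : 3 ≤ q := (le_max_left _ _).trans hq
  have hqq : max q0 (max q1 q2) ≤ q := (le_max_right _ _).trans hq
  have hqq0 : q0 ≤ q := (le_max_left _ _).trans hqq
  have hqq1 : q1 ≤ q := ((le_max_left _ _).trans (le_max_right _ _)).trans hqq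
  have hqq2 : q2 ≤ q := ((le_max_right _ _).trans (le_max_right _ _)).trans hqq
  have hq1' := hq1 q hqq1
  have hq2' := hq2 q hqq2
  have hsum := hq0 q hqq0
  obtain ⟨L, hLdef⟩ : ∃ L, Real.log (q : ℝ) = L := ⟨_, rfl⟩
  rw [hLdef] at hq1' hsum ⊢
  have h8 : 0 < 18 * κ / ε := by positivity
  have hL0 : 0 < L := by linarith
  have hLe : 18 * κ / ε ≤ L := by linarith
  refine ⟨by rw [div_le_iff₀ hL0]; linarith, fun F hF => ?_⟩
  have hq1n : 1 ≤ q := NeZero.one_le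
  have hφ0 : (0 : ℝ) < q.totient := by
    have : 0 < q.totient := Nat.totient_pos.2 hq1n
    exact_mod_cast this
  have hφ : 3 / ε ≤ q.totient := by
    have h1 := sqrt_le_totient q hq1n
    have h2 : 6 / ε = 2 * (3 / ε) := by ring
    linarith
  set p : ℝ := 1 / 2 + 2 * (κ / L) with hp
  have hx0 : 0 < κ / L := by positivity
  obtain ⟨P, hP⟩ : ∃ P : ℝ, 1 / 2 + 3 * (κ / L) = P := ⟨_, rfl⟩
  rw [hP] at hF
  have hpp : 0 < P := by linarith
  -- the sum over the characters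
  have hlow : ∀ χ ∈ NT q, L / 2 - (δ * L + 1 / (δ * L) * ‖Bq χ (p : ℂ) - ((L / 2 : ℝ) : ℂ)‖ ^ 2) ≤
      P * F χ := by
    intro χ hχ
    have h5 := hF χ (mem_NT.1 hχ)
    have h6 : L / 2 - ‖Bq χ (p : ℂ) - ((L / 2 : ℝ) : ℂ)‖ ≤ (Bq χ (p : ℂ)).re := by
      have h7 := Complex.abs_re_le_norm (Bq χ (p : ℂ) - ((L / 2 : ℝ) : ℂ))
      rw [Complex.sub_re, Complex.ofReal_re] at h7
      have h9 := (abs_le.1 h7).1
      linarith
    set D := ‖Bq χ (p : ℂ) - ((L / 2 : ℝ) : ℂ)‖ with hD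
    have hDL : D ≤ δ * L + 1 / (δ * L) * D ^ 2 := by
      have hdl : 0 < δ * L := by positivity
      have h10 : 0 ≤ (δ * L - D) ^ 2 / (δ * L) := by positivity
      have h11 : (δ * L - D) ^ 2 / (δ * L) = δ * L + 1 / (δ * L) * D ^ 2 - 2 * D := by
        field_simp
        ring
      have h12 : 0 ≤ D := norm_nonneg _
      linarith
    linarith
  have hsum2 := Finset.sum_le_sum hlow
  rw [Finset.sum_sub_distrib, Finset.sum_add_distrib, Finset.sum_const, Finset.sum_const,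
    nsmul_eq_mul, nsmul_eq_mul, ← Finset.mul_sum, ← Finset.mul_sum, card_NT] at hsum2
  set S := ∑ χ ∈ NT q, F χ with hS
  set φ : ℝ := (q.totient : ℝ) with hφd
  have h13 : 1 / (δ * L) * ∑ χ ∈ NT q, ‖Bq χ (p : ℂ) - ((L / 2 : ℝ) : ℂ)‖ ^ 2 ≤ δ * L * φ := by
    calc 1 / (δ * L) * ∑ χ ∈ NT q, ‖Bq χ (p : ℂ) - ((L / 2 : ℝ) : ℂ)‖ ^ 2
        ≤ 1 / (δ * L) * (δ ^ 2 * (L ^ 2 * φ)) :=
          mul_le_mul_of_nonneg_left hsum (by positivity)
      _ = δ * L * φ := by
          field_simp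
  have h14 : (φ - 1) * (L / 2) - ((φ - 1) * (δ * L) + δ * L * φ) ≤ P * S := by linarith
  -- the end
  have h15 : 1 ≤ ε / 3 * φ := by
    rw [div_le_iff₀ hε] at hφ
    linarith
  have h16 : 3 * (κ / L) ≤ ε / 6 := by
    rw [div_le_iff₀ hε] at hLe
    rw [← mul_div_assoc, div_le_iff₀ hL0]
    linarith
  have h17 : (1 - ε) * (L * φ) * P ≤ P * S := by
    refine le_trans ?_ h14
    have hLφ : 0 < L * φ := by positivity
    have h18 : (1 - ε) * P ≤ 1 / 2 - ε / 2 + ε / 6 := by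
      have h19 : (1 - ε) * P = 1 / 2 - ε / 2 + 3 * (κ / L) - ε * (3 * (κ / L)) := by
        rw [← hP]
        ring
      have h20 : 0 ≤ ε * (3 * (κ / L)) := by positivity
      linarith
    have h21 : (1 - ε) * (L * φ) * P ≤ (1 / 2 - ε / 2 + ε / 6) * (L * φ) := by
      have := mul_le_mul_of_nonneg_right h18 hLφ.le
      nlinarith
    have h22 : (φ - 1) * (L / 2) - ((φ - 1) * (δ * L) + δ * L * φ) =
        (L * φ) / 2 - L / 2 - 2 * δ * (L * φ) + δ * L := by ring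
    rw [h22]
    have h23 : L ≤ ε / 3 * (L * φ) := by nlinarith
    have h24 : 0 < δ * L := by positivity
    have h25 : 2 * δ * (L * φ) = ε / 6 * (L * φ) := by
      rw [hδ]
      ring
    rw [h25]
    linarith
  have h26 : (1 - ε) * (L * φ) ≤ S := by
    have h27 : (1 - ε) * (L * φ) * P ≤ S * P := by linarith
    exact le_of_mul_le_mul_right h27 hpp
  exact h26

end N1u

open N1u in
/-- **WVc-N1u.** -/
theorem t_N1u (h1 : S_HDx) (hB : S_Bp) (hMe : S_Me) (hw : S_ws) : S_N1u := by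
  intro κ ε hκ hε
  obtain ⟨q0, hq3, h⟩ := main hB κ ε hκ hε
  refine ⟨q0, fun q _ hq => ?_⟩
  rintro ⟨κ', hκ'0, hκ', hFi⟩
  obtain ⟨hx, hF⟩ := h q hq
  have hq1 : 3 ≤ q := hq3.trans hq
  have hL0 : 0 < Real.log q := Real.log_pos (by exact_mod_cast (by omega : 1 < q))
  refine hF (fun χ => ∑' s : Zs χ, (mu χ s : ℝ) / (1 / 4 + (s : ℂ).im ^ 2)) fun χ hχ => ?_
  have hh0 : 0 < κ' / Real.log q := by positivity
  refine char_low h1 hw q hq1 χ hχ (κ' / Real.log q) (κ / Real.log q) hh0.le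
    (div_lt_div_of_pos_right hκ' hL0) hx fun s hs => ?_
  have h2 := hFi χ (mem_NT.2 hχ)
  rw [mul_div_assoc] at h2
  exact (hMe q χ hχ _ hh0 h2 s hs).2.1

end Pool.Agent.NH13.WV
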