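import Pool.Agent.NH13.WV.Stm5

/-!
# Project WV, part 3, WVc-PN: primes and pairs of zeros with the same ordinate (helper70)
-/

set_option autoImplicit false

open Complex MeasureTheory Filter Topology Set
open scoped ComplexConjugate

namespace Pool.Agent.NH13.WV

open Pool.Agent.NH13.UV

namespace PN

lemma VV_nonneg (x : ℝ) (q : ℕ) : 0 ≤ VV x q := Finset.sum_nonneg fun _ _ => sq_nonneg _

lemma IV_anti (q : ℕ) {η η' : ℝ} (h : η ≤ η') : IV q η' ≤ IV q η := by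
  unfold IV
  refine setLIntegral_mono' measurableSet_Ioi fun x hx => ?_
  have hx1 : (1 : ℝ) ≤ x := le_of_lt hx
  exact ENNReal.ofReal_le_ofReal (mul_le_mul_of_nonneg_left
    (Real.rpow_le_rpow_of_exponent_le hx1 (by linarith)) (VV_nonneg x q))

lemma Gv_anti {q : ℕ} {κ κ' : ℝ} (h : κ ≤ κ') : Gv q κ' ≤ Gv q κ := by
  unfold Gv
  refine ENNReal.div_le_div_right (IV_anti q ?_) _
  have hL : 0 ≤ Real.log q := Real.log_natCast_nonneg q
  exact div_le_div_of_nonneg_right (by linarith) hL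

lemma PW_nonneg {q : ℕ} [NeZero q] (χ : DirichletCharacter ℂ q) (d : ℝ) : 0 ≤ PW χ d :=
  tsum_nonneg fun s => by positivity

lemma nq_nonneg (q : ℕ) [NeZero q] (A : ℝ) : 0 ≤ nq q A := by
  unfold nq
  refine mul_nonneg ?_ (Finset.sum_nonneg fun χ _ => PW_nonneg χ _)
  have := Real.log_natCast_nonneg q
  positivity

end PN

open PN in
/-- primes and pairs of zeros with the same ordinate -/
theorem t_PN (hr : S_rel) (hl : S_lowN) (hG : S_GG) : S_PN := by
  intro κ ε hκ hε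
  set e : ℝ := min (1 / 2) (min (ε / 3) (ε / κ)) with he
  have he0 : 0 < e := lt_min (by norm_num) (lt_min (by positivity) (by positivity))
  have he1 : e ≤ 1 / 2 := min_le_left _ _
  have he2 : 3 * e ≤ ε := by
    have h1 : e ≤ ε / 3 := (min_le_right _ _).trans (min_le_left _ _)
    linarith
  have he3 : e * κ ≤ ε := by
    have h1 : e ≤ ε / κ := (min_le_right _ _).trans (min_le_right _ _)
    rwa [le_div_iff₀ hκ] at h1
  set κ1 : ℝ := κ * (1 + e) with hκ1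
  have hlt : κ < κ1 := by
    rw [hκ1]
    nlinarith
  have hκ1p : 0 < κ1 := hκ.trans hlt
  obtain ⟨q0, hq0⟩ := hr κ1 e hκ1p he0
  obtain ⟨q1, hq1⟩ := hl κ1 e hκ1p he0
  refine ⟨max (max q0 q1) 2, fun q _ hq => ?_⟩
  have hq0' : q0 ≤ q := (le_max_left _ _).trans ((le_max_left _ _).trans hq)
  have hq1' : q1 ≤ q := (le_max_right _ _).trans ((le_max_left _ _).trans hq)
  have hq2 : 2 ≤ q := (le_max_right _ _).trans hq
  have h2κ : 0 < 2 * κ := by linarith
  unfold Mv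
  by_cases hT : Gv q κ = ⊤
  · rw [hT, ENNReal.mul_top (ENNReal.ofReal_pos.2 h2κ).ne']
    exact le_top
  have hT' : Gv q κ < ⊤ := lt_top_iff_ne_top.2 hT
  have hmono : Gv q κ1 ≤ Gv q κ := Gv_anti hlt.le
  have hF := (hG.1 q hq2 κ hκ hT').1
  have hex : ∃ κ' : ℝ, 0 < κ' ∧ κ' < κ1 ∧ Fi q κ' := ⟨κ, hκ, hlt, hF⟩
  have h1 := (abs_le.1 (hq0 q hq0' hex)).1
  have h2 := hq1 q hq1' hex
  have h3 := (hG.1 q hq2 κ1 hκ1p (hmono.trans_lt hT')).2
  have hN : 0 ≤ nq q 0 := nq_nonneg q 0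
  -- the real inequality
  have h4 : (1 - ε) * nq q 0 - κ - ε ≤ 2 * κ * Gn q κ1 := by
    -- 2 κ1 Gn ≥ (1 - e)² nq - κ1 (1 + e)
    have h5 : (1 - e) * ((1 - e) * nq q 0) ≤ (1 - e) * (κ1 * Ir q κ1) :=
      mul_le_mul_of_nonneg_left h2 (by linarith)
    have h6 : κ1 * ((1 - e) * Ir q κ1 - (1 + e)) ≤ κ1 * (2 * Gn q κ1) :=
      mul_le_mul_of_nonneg_left (by linarith) hκ1p.le
    have h7 : (1 - e) * ((1 - e) * nq q 0) - κ1 * (1 + e) ≤ κ1 * (2 * Gn q κ1) := by
      nlinarith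
    -- divide by 1 + e
    have h8 : (1 - e) * ((1 - e) * nq q 0) - κ1 * (1 + e) ≤ (1 + e) * (2 * κ * Gn q κ1) := by
      have : κ1 * (2 * Gn q κ1) = (1 + e) * (2 * κ * Gn q κ1) := by
        rw [hκ1]
        ring
      linarith
    have h9 : (1 + e) * ((1 - ε) * nq q 0 - κ - ε) ≤ (1 + e) * (2 * κ * Gn q κ1) := by
      refine le_trans ?_ h8
      have h10 : (1 + e) * ((1 - ε) * nq q 0) ≤ (1 - e) * ((1 - e) * nq q 0) := by
        have h11 : (1 + e) * (1 - ε) ≤ (1 - e) * (1 - e) := by nlinarith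
        nlinarith [mul_le_mul_of_nonneg_right h11 hN]
      have h12 : κ1 * (1 + e) = (1 + e) * (κ + e * κ) := by
        rw [hκ1]
        ring
      rw [h12]
      have h13 : (1 + e) * (e * κ) ≤ (1 + e) * ε := mul_le_mul_of_nonneg_left he3 (by linarith)
      nlinarith
    exact le_of_mul_le_mul_left h9 (by linarith)
  calc ENNReal.ofReal ((1 - ε) * nq q 0 - κ - ε) ≤ ENNReal.ofReal (2 * κ * Gn q κ1) :=
        ENNReal.ofReal_le_ofReal h4
    _ = ENNReal.ofReal (2 * κ) * ENNReal.ofReal (Gn q κ1) := ENNReal.ofReal_mul h2κ.le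
    _ ≤ ENNReal.ofReal (2 * κ) * Gv q κ := mul_le_mul_right (h3.trans hmono) _

end Pool.Agent.NH13.WV
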