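import Pool.Agent.NH13.WV.Stm5

/-!
# WVc-SZ2: two Poisson kernels and a weight
-/

set_option autoImplicit false

open Complex MeasureTheory Filter Topology Set
open scoped ComplexConjugate

namespace Pool.Agent.NH13.WV

open Pool.Agent.NH13.UV

namespace SZ2

/-- one kernel -/
lemma one (hHP : S_HP) (γ : ℝ) {c σ : ℝ} (hc : 0 < c) (hσ : 0 < σ) :
    Integrable (fun t : ℝ => c / (c ^ 2 + (t - γ) ^ 2) * (1 / (σ ^ 2 + t ^ 2))) ∧
    ∫ t : ℝ, c / (c ^ 2 + (t - γ) ^ 2) * (1 / (σ ^ 2 + t ^ 2)) =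
      Real.pi / σ * ((c + σ) / ((c + σ) ^ 2 + γ ^ 2)) := by
  have hinv : ∀ x y : ℝ, ((((x : ℂ) + (y : ℂ) * I) - (γ : ℂ) * I)⁻¹).re =
      x / (x ^ 2 + (y - γ) ^ 2) := by
    intro x y
    have h1 : ((x : ℂ) + (y : ℂ) * I) - (γ : ℂ) * I = ⟨x, y - γ⟩ := by
      apply Complex.ext <;> simp
    rw [h1, Complex.inv_re, Complex.normSq_mk, pow_two, pow_two]
  obtain ⟨hi, he⟩ := hHP (fun z => (z - (γ : ℂ) * I)⁻¹) c 0 σ hc hσ (by
    intro z hz
    apply DifferentiableAt.differentiableWithinAt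
    apply DifferentiableAt.fun_inv (by fun_prop)
    intro h0
    have := congrArg Complex.re h0
    simp at this
    have hz' : 0 < z.re := hz
    linarith) ⟨1 / c, by
    intro z hz
    have h1 : c ≤ ‖z - (γ : ℂ) * I‖ := by
      refine hz.trans ?_
      have := Complex.re_le_norm (z - (γ : ℂ) * I)
      simpa using this
    rw [norm_inv, ← one_div]
    calc 1 / ‖z - (γ : ℂ) * I‖ ≤ 1 / c := one_div_le_one_div_of_le hc h1
      _ ≤ 1 / c * (1 + ‖z‖) ^ (1 / 2 : ℝ) := by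
        apply le_mul_of_one_le_right (by positivity)
        apply Real.one_le_rpow _ (by norm_num)
        linarith [norm_nonneg z]⟩
  have hre : ∀ t : ℝ, (((pt c t - (γ : ℂ) * I)⁻¹ * ((1 / (σ ^ 2 + t ^ 2) : ℝ) : ℂ)).re) =
      c / (c ^ 2 + (t - γ) ^ 2) * (1 / (σ ^ 2 + t ^ 2)) := by
    intro t
    rw [Complex.re_mul_ofReal]
    unfold pt
    rw [hinv]
  have hi' : Integrable (fun t : ℝ => (((pt c t - (γ : ℂ) * I)⁻¹ *
      ((1 / (σ ^ 2 + t ^ 2) : ℝ) : ℂ)).re)) := hi.re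
  have he' : ∫ t : ℝ, (((pt c t - (γ : ℂ) * I)⁻¹ * ((1 / (σ ^ 2 + t ^ 2) : ℝ) : ℂ)).re) =
      (((Real.pi / σ : ℝ) : ℂ) * (((c + σ : ℝ) : ℂ) - (γ : ℂ) * I)⁻¹).re := by
    rw [← he]
    exact integral_re hi
  simp only [hre] at hi' he'
  refine ⟨hi', ?_⟩
  rw [he', Complex.re_ofReal_mul]
  have h2 := hinv (c + σ) 0
  rw [Complex.ofReal_zero, zero_mul, add_zero, zero_sub, neg_sq] at h2
  rw [h2]

/-- the case of two different parameters -/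
lemma two (hHP : S_HP) (γ : ℝ) {b c σ : ℝ} (hb : 0 < b) (hbc : b < c) (hσ : 1 / 2 ≤ σ) :
    Integrable (fun t : ℝ => b / (b ^ 2 + (t - γ) ^ 2) * (c / (c ^ 2 + (t - γ) ^ 2)) *
      (1 / (σ ^ 2 + t ^ 2))) ∧
    Real.pi / (b + c) * (1 - 4 * b) / (σ ^ 2 + γ ^ 2) ≤
      ∫ t : ℝ, b / (b ^ 2 + (t - γ) ^ 2) * (c / (c ^ 2 + (t - γ) ^ 2)) * (1 / (σ ^ 2 + t ^ 2)) := by
  have hc : 0 < c := hb.trans hbc
  have hσ0 : 0 < σ := by linarith
  obtain ⟨i1, e1⟩ := one hHP γ hb hσ0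
  obtain ⟨i2, e2⟩ := one hHP γ hc hσ0
  have hcb : 0 < c - b := by linarith
  have hd : 0 < c ^ 2 - b ^ 2 := by nlinarith
  have hfun : (fun t : ℝ => b / (b ^ 2 + (t - γ) ^ 2) * (c / (c ^ 2 + (t - γ) ^ 2)) *
      (1 / (σ ^ 2 + t ^ 2))) = fun t : ℝ =>
      c / (c ^ 2 - b ^ 2) * (b / (b ^ 2 + (t - γ) ^ 2) * (1 / (σ ^ 2 + t ^ 2))) -
        b / (c ^ 2 - b ^ 2) * (c / (c ^ 2 + (t - γ) ^ 2) * (1 / (σ ^ 2 + t ^ 2))) := by
    funext t
    have h1 : b ^ 2 + (t - γ) ^ 2 ≠ 0 := by positivity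
    have h2 : c ^ 2 + (t - γ) ^ 2 ≠ 0 := by positivity
    have h3 : σ ^ 2 + t ^ 2 ≠ 0 := by positivity
    have h4 : c ^ 2 - b ^ 2 ≠ 0 := hd.ne'
    field_simp
    ring
  rw [hfun]
  refine ⟨(i1.const_mul _).sub (i2.const_mul _), ?_⟩
  rw [integral_sub (i1.const_mul _) (i2.const_mul _), integral_const_mul, integral_const_mul,
    e1, e2]
  have hS : 0 < σ ^ 2 + γ ^ 2 := by positivity
  have hA : 0 < (b + σ) ^ 2 + γ ^ 2 := by positivity
  have hB : 0 < (c + σ) ^ 2 + γ ^ 2 := by positivity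
  have hπ := Real.pi_pos
  -- the first comparison
  have k1 : (1 - 4 * b) / (σ ^ 2 + γ ^ 2) ≤ 1 / ((b + σ) ^ 2 + γ ^ 2) := by
    rw [div_le_div_iff₀ hS hA]
    have p1 : 0 ≤ b * (σ * (2 * σ - 1)) := by
      apply mul_nonneg hb.le
      apply mul_nonneg hσ0.le
      linarith
    have p2 : 0 ≤ b * γ ^ 2 := by positivity
    have p3 : 0 ≤ b ^ 3 := by positivity
    have p4 : 0 ≤ b ^ 2 * (8 * σ - 1) := by
      apply mul_nonneg (by positivity)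
      linarith
    nlinarith
  -- the second comparison
  have k2 : Real.pi / (b + c) * (1 / ((b + σ) ^ 2 + γ ^ 2)) ≤
      c / (c ^ 2 - b ^ 2) * (Real.pi / σ * ((b + σ) / ((b + σ) ^ 2 + γ ^ 2))) -
      b / (c ^ 2 - b ^ 2) * (Real.pi / σ * ((c + σ) / ((c + σ) ^ 2 + γ ^ 2))) := by
    have e : c / (c ^ 2 - b ^ 2) * (Real.pi / σ * ((b + σ) / ((b + σ) ^ 2 + γ ^ 2))) -
      b / (c ^ 2 - b ^ 2) * (Real.pi / σ * ((c + σ) / ((c + σ) ^ 2 + γ ^ 2))) -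
      Real.pi / (b + c) * (1 / ((b + σ) ^ 2 + γ ^ 2)) =
      Real.pi / (σ * (b + c)) * (b * ((c + σ) ^ 2 + (b + σ) * (c + σ))) /
        (((b + σ) ^ 2 + γ ^ 2) * ((c + σ) ^ 2 + γ ^ 2)) := by
      have q : c ^ 2 - b ^ 2 = (c - b) * (b + c) := by ring
      rw [q]
      have q1 : c - b ≠ 0 := hcb.ne'
      have q2 : b + c ≠ 0 := by positivity
      have q3 := hA.ne'
      have q4 := hB.ne'
      have q5 := hσ0.ne'
      field_simp
      ring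
    have e3 : 0 ≤ Real.pi / (σ * (b + c)) * (b * ((c + σ) ^ 2 + (b + σ) * (c + σ))) /
        (((b + σ) ^ 2 + γ ^ 2) * ((c + σ) ^ 2 + γ ^ 2)) := by positivity
    linarith
  calc Real.pi / (b + c) * (1 - 4 * b) / (σ ^ 2 + γ ^ 2) =
      Real.pi / (b + c) * ((1 - 4 * b) / (σ ^ 2 + γ ^ 2)) := by ring
    _ ≤ Real.pi / (b + c) * (1 / ((b + σ) ^ 2 + γ ^ 2)) :=
        mul_le_mul_of_nonneg_left k1 (by positivity)
    _ ≤ _ := k2

end SZ2

open SZ2 in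
theorem t_SZ2 (hHP : S_HP) (hSZ : S_SZ) : S_SZ2 := by
  intro b c γ σ hb hc hσ
  rcases lt_trichotomy b c with h | h | h
  · obtain ⟨h1, h2⟩ := two hHP γ hb h hσ
    refine ⟨h1, ?_⟩
    rw [min_eq_left h.le]
    exact h2
  · subst h
    obtain ⟨h1, h2⟩ := hSZ b γ σ hb hσ
    simp only [pow_two (b / _)] at h1 h2
    refine ⟨h1, ?_⟩
    rw [min_self]
    by_cases hb1 : b ≤ 1
    · refine le_trans ?_ h2
      rw [two_mul b]
      have hS : 0 < σ ^ 2 + γ ^ 2 := by positivity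
      apply div_le_div_of_nonneg_right _ hS.le
      apply mul_le_mul_of_nonneg_left _ (by positivity)
      nlinarith
    · have hS : 0 < σ ^ 2 + γ ^ 2 := by positivity
      refine le_trans (b := 0) ?_ (integral_nonneg fun t => by positivity)
      apply div_nonpos_of_nonpos_of_nonneg _ hS.le
      apply mul_nonpos_of_nonneg_of_nonpos (by positivity)
      linarith
  · obtain ⟨h1, h2⟩ := two hHP γ hc h hσ
    have hfun : (fun t : ℝ => b / (b ^ 2 + (t - γ) ^ 2) * (c / (c ^ 2 + (t - γ) ^ 2)) *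
      (1 / (σ ^ 2 + t ^ 2))) = fun t : ℝ => c / (c ^ 2 + (t - γ) ^ 2) *
        (b / (b ^ 2 + (t - γ) ^ 2)) * (1 / (σ ^ 2 + t ^ 2)) := by
      funext t
      ring
    rw [hfun, min_eq_right h.le, add_comm b c]
    exact ⟨h1, h2⟩

end Pool.Agent.NH13.WV
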