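import Pool.Agent.NH13.WV.Fin
import Pool.Agent.NH13.WV.BZ
import Pool.Agent.NH13.WV.Bad
import Pool.Agent.NH13.WV.K2f
import Pool.Agent.NH13.WV.K2n
import Pool.Agent.NH13.WV.LowN
import Pool.Agent.NH13.WV.N1u
import Pool.Agent.NH13.WV.PN
import Pool.Agent.NH13.WV.SZ2

/-!
# Project WV, part 3: the main theorem
-/

set_option autoImplicit false

open Complex MeasureTheory Filter Topology Set

namespace Pool.Agent.NH13.WV.Fin5

open Pool.Agent.NH13.UV Pool.Agent.NH13.WV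

theorem sz2 : S_SZ2 := t_SZ2 t_HP t_SZ
theorem k2f : S_K2f := t_K2f sz2 Pool.Agent.NH13.WV.Fin.hdx UV.Fin1.k1 Pool.Agent.NH13.WV.Fin.nr
theorem k2n : S_K2n := t_K2n k2f Pool.Agent.NH13.WV.Fin.nr Pool.Agent.NH13.WV.Fin.pwb
theorem lowN : S_lowN := t_lowN k2n t_Me
theorem pn : S_PN := t_PN UV.Fin1.rel lowN UV.Fin2.gg
theorem n1u : S_N1u := t_N1u Pool.Agent.NH13.WV.Fin.hdx UV.Fin1.bp t_Me Pool.Agent.NH13.WV.Fin.ws
theorem badz : S_bad := t_bad Pool.Agent.NH13.WV.Fin.hdx t_mu Pool.Agent.NH13.WV.Fin.nr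
  Pool.Agent.NH13.WV.Fin.pwb

/-- **primes see the bad zeros** -/
theorem main : S_BZ := t_BZ pn n1u badz UV.Fin2.gg Pool.Agent.NH13.WV.Fin.ws

end Pool.Agent.NH13.WV.Fin5
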