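import Pool.Agent.NH13.WV.Stm2

/-!
# Project WV: the functions `nq`
-/

set_option autoImplicit false

open Complex MeasureTheory Filter Topology Set
open scoped ComplexConjugate

namespace Pool.Agent.NH13.WV

open Pool.Agent.NH13.UV

namespace Mono

theorem nr_mono (h3 : S_nr) {q : ℕ} [NeZero q] {χ : DirichletCharacter ℂ q} (hχ : χ ≠ 1)
    {d d' : ℝ} (hd : 0 ≤ d) (hdd : d ≤ d') (t : ℝ) : nr χ d t ≤ nr χ d' t := by
  obtain ⟨C, -, h⟩ := h3
  have f1 := (h q χ hχ d t hd).1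
  have f2 := (h q χ hχ d' t (hd.trans hdd)).1
  unfold nr
  rw [finsum_mem_eq_finite_toFinset_sum _ f1, finsum_mem_eq_finite_toFinset_sum _ f2]
  refine Finset.sum_le_sum_of_subset ?_
  intro s hs
  rw [Set.Finite.mem_toFinset] at hs ⊢
  exact ⟨hs.1, hs.2.trans hdd⟩

theorem PW_mono (h3 : S_nr) (h4 : S_PWb) {q : ℕ} [NeZero q] (hq : 3 ≤ q)
    {χ : DirichletCharacter ℂ q} (hχ : χ ≠ 1) {d d' : ℝ} (hd : 0 ≤ d) (hdd : d ≤ d') :
    PW χ d ≤ PW χ d' := by
  obtain ⟨C, -, h⟩ := h4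
  unfold PW
  refine (h q χ hχ hq d hd).1.tsum_le_tsum (fun s => ?_) (h q χ hχ hq d' (hd.trans hdd)).1
  have h1 : (nr χ d (s : ℂ).im : ℝ) ≤ nr χ d' (s : ℂ).im := by
    exact_mod_cast nr_mono h3 hχ hd hdd _
  have h2 : (0 : ℝ) ≤ mu χ s := Nat.cast_nonneg _
  have h3 : 0 ≤ 1 / 4 + (s : ℂ).im ^ 2 := by positivity
  exact div_le_div_of_nonneg_right (mul_le_mul_of_nonneg_left h1 h2) h3

theorem PW_nonneg {q : ℕ} [NeZero q] (χ : DirichletCharacter ℂ q) (d : ℝ) : 0 ≤ PW χ d := by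
  unfold PW
  refine tsum_nonneg fun s => ?_
  positivity

theorem scale {L κ A P : ℝ} (hL : 0 < L) (hκ : 0 < κ) :
    P * kk κ A = 2 / (Real.pi * L ^ 2) *
      (P * (4 * Real.pi * (κ / L) * (L⁻¹ * A) / (4 * (κ / L) ^ 2 + (L⁻¹ * A) ^ 2) ^ 2)) := by
  unfold kk
  have hpi : Real.pi ≠ 0 := Real.pi_ne_zero
  have h1 : 4 * (κ / L) ^ 2 + (L⁻¹ * A) ^ 2 = (4 * κ ^ 2 + A ^ 2) / L ^ 2 := by
    field_simp
  have h2 : 4 * κ ^ 2 + A ^ 2 ≠ 0 := by positivity
  rw [h1]
  field_simp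
  ring

end Mono

open Mono in
theorem t_mono (h3 : S_nr) (h4 : S_PWb) (hp : S_par) : S_mono := by
  intro q _ hq
  have hL : 0 < Real.log q := Real.log_pos (by
    have : (3 : ℝ) ≤ q := by exact_mod_cast hq
    linarith)
  have hne : ∀ χ ∈ NT q, χ ≠ 1 := fun χ hχ => by
    unfold NT at hχ
    simpa using hχ
  have hc : 0 ≤ 1 / (Real.log q * q.totient) := by positivity
  refine ⟨?_, ?_, ?_⟩
  · intro A hA A' hA' hAA
    unfold nq
    refine mul_le_mul_of_nonneg_left (Finset.sum_le_sum fun χ hχ => ?_) hc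
    exact PW_mono h3 h4 hq (hne χ hχ) (div_nonneg hA hL.le) (div_le_div_of_nonneg_right hAA hL.le)
  · intro A _
    unfold nq
    exact mul_nonneg hc (Finset.sum_nonneg fun χ _ => PW_nonneg χ _)
  · intro κ hκ
    have hone : ∀ χ ∈ NT q, IntegrableOn (fun A => PW χ (A / Real.log q) * kk κ A) (Ioi 0) := by
      intro χ hχ
      have h1 := (hp q χ (hne χ hχ) hq (κ / Real.log q) (by positivity)).1
      have h2 := (integrableOn_Ioi_comp_mul_left_iff (fun d : ℝ => PW χ d *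
        (4 * Real.pi * (κ / Real.log q) * d / (4 * (κ / Real.log q) ^ 2 + d ^ 2) ^ 2)) 0
        (inv_pos.2 hL)).2 (by rw [mul_zero]; exact h1)
      have h3 := Integrable.const_mul h2 (2 / (Real.pi * Real.log q ^ 2))
      refine h3.congr (Eventually.of_forall fun A => ?_)
      beta_reduce
      rw [div_eq_inv_mul A (Real.log q)]
      exact (scale hL hκ).symm
    have h5 : (fun A => nq q A * kk κ A) = fun A => ∑ χ ∈ NT q,
        1 / (Real.log q * q.totient) * (PW χ (A / Real.log q) * kk κ A) := by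
      funext A
      unfold nq
      rw [mul_assoc, Finset.sum_mul, Finset.mul_sum]
    rw [h5]
    exact integrable_finsetSum _ fun χ hχ => Integrable.const_mul (hone χ hχ) _

end Pool.Agent.NH13.WV
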