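import Pool.Agent.NH13.UV.Stm

/-!
# Project WV: the variance of the primes in the classes of one modulus and the pair correlation of the
zeros of the L-functions of this modulus: definitions and statements

`L = log q`, `x = κ / L`, `B = Bq χ` (see `NH13.UV.Defs`).
-/

set_option autoImplicit false

open Complex MeasureTheory Filter Topology Set
open scoped ComplexConjugate

namespace Pool.Agent.NH13.WV

open Pool.Agent.NH13.UV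

/-! ### zeros -/

/-- the nontrivial zeros of `L(s, χ)` -/
def Zs {q : ℕ} [NeZero q] (χ : DirichletCharacter ℂ q) : Set ℂ :=
  {s : ℂ | DirichletCharacter.LFunction χ s = 0 ∧ 0 < s.re ∧ s.re < 1}

/-- multiplicity of a zero -/
noncomputable def mu {q : ℕ} [NeZero q] (χ : DirichletCharacter ℂ q) (s : ℂ) : ℕ :=
  analyticOrderNatAt (DirichletCharacter.LFunction χ) s

/-- number of the nontrivial zeros with ordinate at distance at most `d` from `t` -/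
noncomputable def nr {q : ℕ} [NeZero q] (χ : DirichletCharacter ℂ q) (d t : ℝ) : ℕ :=
  ∑ᶠ s ∈ {s : ℂ | s ∈ Zs χ ∧ |s.im - t| ≤ d}, mu χ s

/-- weighted number of the pairs of zeros with ordinates at distance at most `d` -/
noncomputable def PW {q : ℕ} [NeZero q] (χ : DirichletCharacter ℂ q) (d : ℝ) : ℝ :=
  ∑' s : Zs χ, (mu χ s : ℝ) * (nr χ d (s : ℂ).im : ℝ) / (1 / 4 + (s : ℂ).im ^ 2)

/-- the normalised pair count at the scale `A / log q` -/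
noncomputable def nq (q : ℕ) [NeZero q] (A : ℝ) : ℝ :=
  1 / (Real.log q * q.totient) * ∑ χ ∈ NT q, PW χ (A / Real.log q)

/-- the limit -/
noncomputable def nl (A : ℝ) : ℝ :=
  1 + 1 / Real.pi * ∫ v in (0 : ℝ)..A, (1 - (Real.sin (v / 2) / (v / 2)) ^ 2)

/-- the kernel, `∫_0^∞ kk κ = 1 / κ` -/
noncomputable def kk (κ A : ℝ) : ℝ := 8 * κ * A / (4 * κ ^ 2 + A ^ 2) ^ 2

/-- the smoothed pair sum of one character -/
noncomputable def LS {q : ℕ} [NeZero q] (χ : DirichletCharacter ℂ q) (x : ℝ) : ℝ :=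
  ∑' s : Zs χ, (mu χ s : ℝ) / (1 / 4 + (s : ℂ).im ^ 2) *
    ∑' w : Zs χ, (mu χ w : ℝ) * (2 * Real.pi * x / (4 * x ^ 2 + ((s : ℂ).im - (w : ℂ).im) ^ 2))

/-- the smoothed pair sum of the family -/
noncomputable def Pq (q : ℕ) [NeZero q] (κ : ℝ) : ℝ := ∫ A in Ioi (0 : ℝ), nq q A * kk κ A

/-- WV-1: the structure `HD` with explicit zeros -/
def S_HDx : Prop := ∀ (q : ℕ) [NeZero q] (χ : DirichletCharacter ℂ q), χ ≠ 1 → ∀ h : ℝ, 0 ≤ h →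
  h ≤ 1 / 2 → (∀ s : ℂ, 1 / 2 + h < s.re → DirichletCharacter.LFunction χ s ≠ 0) →
  HD (Bq χ) h (Zs χ) (fun s => (s : ℂ) - 1 / 2) (fun s => mu χ s)

/-- WV-2: the number of zeros near `t` -/
def S_cnt : Prop := ∃ C : ℝ, 0 < C ∧ ∀ (q : ℕ) [NeZero q] (χ : DirichletCharacter ℂ q), χ ≠ 1 →
  ∀ t : ℝ, Summable (fun s : Zs χ => (mu χ s : ℝ) / (1 + (t - (s : ℂ).im) ^ 2)) ∧
    ∑' s : Zs χ, (mu χ s : ℝ) / (1 + (t - (s : ℂ).im) ^ 2) ≤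
      C * (1 + Real.log q + Real.log (2 + |t|))

/-- multiplicities are positive -/
def S_mu : Prop := ∀ (q : ℕ) [NeZero q] (χ : DirichletCharacter ℂ q), χ ≠ 1 → ∀ s ∈ Zs χ, 1 ≤ mu χ s

/-- WV-3: zeros in longer intervals -/
def S_nr : Prop := ∃ C : ℝ, 0 < C ∧ ∀ (q : ℕ) [NeZero q] (χ : DirichletCharacter ℂ q), χ ≠ 1 →
  ∀ d t : ℝ, 0 ≤ d → {s : ℂ | s ∈ Zs χ ∧ |s.im - t| ≤ d}.Finite ∧
    (nr χ d t : ℝ) ≤ C * (1 + d) * (1 + Real.log q + Real.log (2 + |t|) + Real.log (2 + d))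

/-- WV-3b: weighted sums over the zeros -/
def S_ws : Prop := ∃ C : ℝ, 0 < C ∧ ∀ (q : ℕ) [NeZero q] (χ : DirichletCharacter ℂ q), χ ≠ 1 →
  3 ≤ q →
    Summable (fun s : Zs χ => (mu χ s : ℝ) * (1 + Real.log (2 + |(s : ℂ).im|)) /
      (1 / 4 + (s : ℂ).im ^ 2)) ∧
    ∑' s : Zs χ, (mu χ s : ℝ) * (1 + Real.log (2 + |(s : ℂ).im|)) / (1 / 4 + (s : ℂ).im ^ 2) ≤
      C * Real.log q

/-- WV-4: crude bound for the pairs -/
def S_PWb : Prop := ∃ C : ℝ, 0 < C ∧ ∀ (q : ℕ) [NeZero q] (χ : DirichletCharacter ℂ q), χ ≠ 1 →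
  3 ≤ q → ∀ d : ℝ, 0 ≤ d →
    Summable (fun s : Zs χ => (mu χ s : ℝ) * (nr χ d (s : ℂ).im : ℝ) / (1 / 4 + (s : ℂ).im ^ 2)) ∧
    PW χ d ≤ C * Real.log q ^ 2 * (1 + d) ^ (3 / 2 : ℝ)

/-- WV-5: pairs at distance `d` and at distance `δ` -/
def S_sub : Prop := ∃ C : ℝ, 0 < C ∧ ∀ (q : ℕ) [NeZero q] (χ : DirichletCharacter ℂ q), χ ≠ 1 →
  3 ≤ q → ∀ δ d : ℝ, 0 < δ → δ ≤ d → d ≤ 1 → PW χ d ≤ C * (d / δ) * PW χ δ

/-- the sum of the Poisson kernels with the weights of the zeros -/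
noncomputable def QW {q : ℕ} [NeZero q] (χ : DirichletCharacter ℂ q) (x t : ℝ) : ℝ :=
  ∑' s : Zs χ, (mu χ s : ℝ) / (1 / 4 + (s : ℂ).im ^ 2) * (x / (x ^ 2 + (t - (s : ℂ).im) ^ 2))

/-- WV-6a: the smoothed pair sum as an integral -/
def S_S2a : Prop := ∀ (q : ℕ) [NeZero q] (χ : DirichletCharacter ℂ q), χ ≠ 1 → 3 ≤ q →
  (∀ s : ℂ, 1 / 2 < s.re → DirichletCharacter.LFunction χ s ≠ 0) → ∀ x : ℝ, 0 < x →
    Integrable (fun t : ℝ => (Bq χ (pt x t)).re * QW χ x t) ∧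
    LS χ x = ∫ t : ℝ, (Bq χ (pt x t)).re * QW χ x t

/-- WV-6b: the pointwise comparison of the weights -/
def S_S2b : Prop := ∃ C : ℝ, 0 < C ∧ ∀ (q : ℕ) [NeZero q] (χ : DirichletCharacter ℂ q), χ ≠ 1 →
  3 ≤ q → (∀ s : ℂ, 1 / 2 < s.re → DirichletCharacter.LFunction χ s ≠ 0) →
  ∀ x t : ℝ, 0 < x → x ≤ 1 / 8 → 0 ≤ (Bq χ (pt x t)).re ∧
    |(Bq χ (pt x t)).re * wt x t - QW χ x t| ≤
      C * Real.sqrt x * (wt x t * ((Bq χ (pt x t)).re + Real.log q + Real.log (2 + |t|)))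

/-- WV-6: the mean square of `Re B` and the pairs of zeros -/
def S_S2 : Prop := ∃ C : ℝ, 0 < C ∧ ∀ (q : ℕ) [NeZero q] (χ : DirichletCharacter ℂ q), χ ≠ 1 →
  3 ≤ q → (∀ s : ℂ, 1 / 2 < s.re → DirichletCharacter.LFunction χ s ≠ 0) →
  ∀ x : ℝ, 0 < x → x ≤ 1 / 8 →
    |(∫ t : ℝ, (Bq χ (pt x t)).re ^ 2 * wt x t) - LS χ x| ≤
      C * Real.sqrt x * ((∫ t : ℝ, (Bq χ (pt x t)).re ^ 2 * wt x t) + Real.log q ^ 2)

/-- WV-7: partial summation -/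
def S_par : Prop := ∀ (q : ℕ) [NeZero q] (χ : DirichletCharacter ℂ q), χ ≠ 1 → 3 ≤ q →
  ∀ x : ℝ, 0 < x →
    IntegrableOn (fun d : ℝ => PW χ d * (4 * Real.pi * x * d / (4 * x ^ 2 + d ^ 2) ^ 2)) (Ioi 0) ∧
    LS χ x = ∫ d in Ioi (0 : ℝ), PW χ d * (4 * Real.pi * x * d / (4 * x ^ 2 + d ^ 2) ^ 2)

/-- WV-8: the mean square of `Re B` and the smoothed pair sum of the family -/
def S_IrP : Prop := GRH1 → ∀ κ : ℝ, 0 < κ → ∃ (C : ℝ) (q0 : ℕ), 0 < C ∧ ∀ (q : ℕ) [NeZero q], q0 ≤ q →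
  |Ir q κ - Pq q κ| ≤ C / Real.sqrt (Real.log q) * (Ir q κ + 1)

/-- the functions `nq` (and integrability) -/
def S_mono : Prop := ∀ (q : ℕ) [NeZero q], 3 ≤ q → MonotoneOn (nq q) (Ici 0) ∧
  (∀ A, 0 ≤ A → 0 ≤ nq q A) ∧ ∀ κ : ℝ, 0 < κ → IntegrableOn (fun A => nq q A * kk κ A) (Ioi 0)

/-- WV-15: uniform bound -/
def S_unif : Prop := ∀ M : ℝ, 0 < M → ∃ (C : ℝ) (q0 : ℕ), 0 < C ∧ ∀ (q : ℕ) [NeZero q], q0 ≤ q →
  nq q 1 ≤ M → ∀ A : ℝ, 0 ≤ A → nq q A ≤ C * (1 + A) ^ (3 / 2 : ℝ)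

/-! ### Tauberian theorems -/

/-- WV-9: from the counts to the transforms -/
def S_TA : Prop := ∀ f : ℕ → ℝ → ℝ,
  (∀ᶠ q in atTop, MonotoneOn (f q) (Ici 0) ∧ (∀ A, 0 ≤ A → 0 ≤ f q A)) →
  (∃ C : ℝ, ∀ᶠ q in atTop, ∀ A : ℝ, 0 ≤ A → f q A ≤ C * (1 + A) ^ (3 / 2 : ℝ)) →
  (∀ A : ℝ, 0 < A → Tendsto (fun q => f q A) atTop (𝓝 (nl A))) →
  ∀ κ : ℝ, 0 < κ → Tendsto (fun q => ∫ A in Ioi (0 : ℝ), f q A * kk κ A) atTop
    (𝓝 (∫ A in Ioi (0 : ℝ), nl A * kk κ A))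

/-- WV-10: from the transforms to the counts -/
def S_TB : Prop := ∀ f : ℕ → ℝ → ℝ,
  (∀ᶠ q in atTop, MonotoneOn (f q) (Ici 0) ∧ (∀ A, 0 ≤ A → 0 ≤ f q A) ∧
    ∀ κ : ℝ, 0 < κ → IntegrableOn (fun A => f q A * kk κ A) (Ioi 0)) →
  (∀ κ : ℝ, 0 < κ → Tendsto (fun q => ∫ A in Ioi (0 : ℝ), f q A * kk κ A) atTop
    (𝓝 (∫ A in Ioi (0 : ℝ), nl A * kk κ A))) →
  ∀ A : ℝ, 0 < A → Tendsto (fun q => f q A) atTop (𝓝 (nl A))

/-- WV-11: the transform of the limit -/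
def S_comp : Prop := ∀ κ : ℝ, 0 < κ →
  ∫ A in Ioi (0 : ℝ), nl A * kk κ A = 1 + (1 - Real.exp (-2 * κ)) / (2 * κ ^ 2)

/-! ### the primes -/

/-- WV-12: finiteness under the Riemann hypothesis for one character -/
def S_Fi : Prop := ∀ (q : ℕ) [NeZero q] (χ : DirichletCharacter ℂ q), χ ≠ 1 →
  (∀ s : ℂ, 1 / 2 < s.re → DirichletCharacter.LFunction χ s ≠ 0) → ∀ x0 : ℝ, 0 < x0 →
  (∫⁻ u in Ioi (1 : ℝ), ENNReal.ofReal (‖psi χ u‖ ^ 2 * u ^ (-2 - 2 * x0))) < ⊤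

/-- WV-13: all the integrals are finite under GRH -/
def S_AF : Prop := GRH1 → PsiB → AllFin

/-- the limits of the mean squares of `Re B` -/
def IrT : Prop := ∀ κ ε : ℝ, 0 < κ → 0 < ε → ∃ q0 : ℕ, ∀ (q : ℕ) [NeZero q], q0 ≤ q →
  |Ir q κ - (1 + (1 - Real.exp (-2 * κ)) / (2 * κ ^ 2))| ≤ ε

/-- WV-14: the Abel means and the mean squares of `Re B` -/
def S_AI : Prop := AllFin → GRH1 → PsiB → (Abe ↔ IrT)

/-- the pair correlation of the zeros of the L-functions modulo `q`, `q → ∞` -/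
def PCF : Prop := ∀ A ε : ℝ, 0 < A → 0 < ε → ∃ q0 : ℕ, ∀ (q : ℕ) [NeZero q], q0 ≤ q →
  |nq q A - nl A| ≤ ε

end Pool.Agent.NH13.WV
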