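import Pool.Agent.NH13.WV.Stm

/-!
# Project WV: auxiliary statements
-/

set_option autoImplicit false

open Complex MeasureTheory Filter Topology Set
open scoped ComplexConjugate

namespace Pool.Agent.NH13.WV

open Pool.Agent.NH13.UV

/-- two Poisson kernels -/
def S_cau : Prop := ∀ x a b : ℝ, 0 < x →
  Integrable (fun t : ℝ => x / (x ^ 2 + (t - a) ^ 2) * (x / (x ^ 2 + (t - b) ^ 2))) ∧
  ∫ t : ℝ, x / (x ^ 2 + (t - a) ^ 2) * (x / (x ^ 2 + (t - b) ^ 2)) =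
    2 * Real.pi * x / (4 * x ^ 2 + (a - b) ^ 2)

/-- approximation by the kernels -/
def S_Wei : Prop := ∀ g : ℝ → ℝ, ContinuousOn g (Icc 0 1) → ∀ ε : ℝ, 0 < ε →
  ∃ (n : ℕ) (c b : Fin n → ℝ), (∀ i, 0 ≤ b i) ∧ ∀ y ∈ Icc (0 : ℝ) 1,
    |g y - ∑ i, c i / (1 + b i * y) ^ 2| ≤ ε

/-- from the transforms to continuous test functions -/
def S_TBw : Prop := ∀ f : ℕ → ℝ → ℝ,
  (∀ᶠ q in atTop, MonotoneOn (f q) (Ici 0) ∧ (∀ A, 0 ≤ A → 0 ≤ f q A) ∧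
    ∀ κ : ℝ, 0 < κ → IntegrableOn (fun A => f q A * kk κ A) (Ioi 0)) →
  (∀ κ : ℝ, 0 < κ → Tendsto (fun q => ∫ A in Ioi (0 : ℝ), f q A * kk κ A) atTop
    (𝓝 (∫ A in Ioi (0 : ℝ), nl A * kk κ A))) →
  ∀ (w : ℝ → ℝ) (a b : ℝ), 0 < a → a < b → Continuous w → (∀ A, A ∉ Icc a b → w A = 0) →
  Tendsto (fun q => ∫ A in Icc a b, f q A * w A) atTop (𝓝 (∫ A in Icc a b, nl A * w A))

/-- the function `nl` -/
def S_nl : Prop := Continuous nl ∧ MonotoneOn nl (Ici 0) ∧ (∀ A, 0 ≤ A → 1 ≤ nl A) ∧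
  (∀ A, 0 ≤ A → nl A ≤ 1 + A) ∧ ∀ κ : ℝ, 0 < κ → IntegrableOn (fun A => nl A * kk κ A) (Ioi 0)

/-- the transform of the limit, by parts -/
def S_cpa : Prop := ∀ κ : ℝ, 0 < κ →
  IntegrableOn (fun A => (1 - (Real.sin (A / 2) / (A / 2)) ^ 2) * (4 * κ / (4 * κ ^ 2 + A ^ 2)))
    (Ioi (0 : ℝ)) ∧
  ∫ A in Ioi (0 : ℝ), nl A * kk κ A = 1 / κ + 1 / Real.pi *
    ∫ A in Ioi (0 : ℝ), (1 - (Real.sin (A / 2) / (A / 2)) ^ 2) * (4 * κ / (4 * κ ^ 2 + A ^ 2))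

/-- a Fourier integral -/
def S_cpb : Prop := ∀ c : ℝ, 0 < c →
  IntegrableOn (fun A : ℝ => (1 - Real.cos A) / (A ^ 2 * (c ^ 2 + A ^ 2))) (Ioi 0) ∧
  ∫ A in Ioi (0 : ℝ), (1 - Real.cos A) / (A ^ 2 * (c ^ 2 + A ^ 2)) =
    1 / c ^ 2 * (Real.pi / 2 - Real.pi / (2 * c) * (1 - Real.exp (-c)))

/-- the mean square of `L'/L` on the line `Re s = 1/2 + w/2` -/
noncomputable def gL {q : ℕ} [NeZero q] (χ : DirichletCharacter ℂ q) (w : ℝ) : ℝ :=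
  1 / (2 * Real.pi) * ∫ t : ℝ, ‖LD χ (1 / 2 + pt (w / 2) t)‖ ^ 2 * wt (w / 2) t

/-- analyticity of the mean square -/
def S_Fa : Prop := ∀ (q : ℕ) [NeZero q] (χ : DirichletCharacter ℂ q), χ ≠ 1 →
  (∀ s : ℂ, 1 / 2 < s.re → DirichletCharacter.LFunction χ s ≠ 0) → ∀ w : ℝ, 0 < w →
  AnalyticAt ℝ (gL χ) w

/-- growth of `L'/L` -/
def S_Lg : Prop := ∀ (q : ℕ) [NeZero q] (χ : DirichletCharacter ℂ q), χ ≠ 1 →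
  (∀ s : ℂ, 1 / 2 < s.re → DirichletCharacter.LFunction χ s ≠ 0) → ∀ x : ℝ, 0 < x →
  ∃ C : ℝ, 0 < C ∧ ∀ z : ℂ, x ≤ z.re → ‖LD χ (1 / 2 + z)‖ ≤ C * Real.log (2 + ‖z‖)

end Pool.Agent.NH13.WV
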