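import Pool.Agent.NH13.WV.Stm2

/-!
# Project WV: one half of the pair correlation conjecture suffices
-/

set_option autoImplicit false

open Complex MeasureTheory Filter Topology Set
open scoped ComplexConjugate

namespace Pool.Agent.NH13.WV

open Pool.Agent.NH13.UV

/-- one-sided bounds suffice -/
def S_one : Prop := ∀ f : ℕ → ℝ → ℝ,
  (∀ᶠ q in atTop, MonotoneOn (f q) (Ici 0) ∧ (∀ A, 0 ≤ A → 0 ≤ f q A)) →
  (∃ C : ℝ, ∀ᶠ q in atTop, ∀ A : ℝ, 0 ≤ A → f q A ≤ C * (1 + A) ^ (3 / 2 : ℝ)) →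
  (∃ C : ℝ, ∀ κ : ℝ, 1 ≤ κ → ∀ᶠ q in atTop,
    |(∫ A in Ioi (0 : ℝ), f q A * kk κ A) - ∫ A in Ioi (0 : ℝ), nl A * kk κ A| ≤
      C * Real.exp (-κ)) →
  ((∀ A ε : ℝ, 0 < A → 0 < ε → ∀ᶠ q in atTop, f q A ≤ nl A + ε) ∨
    (∀ A ε : ℝ, 0 < A → 0 < ε → ∀ᶠ q in atTop, nl A - ε ≤ f q A)) →
  ∀ A : ℝ, 0 < A → Tendsto (fun q => f q A) atTop (𝓝 (nl A))

/-- the known range: the mean squares of `Re B` for large `κ` -/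
def S_tail : Prop := AllFin → GRH1 → PsiB → ∃ C : ℝ, ∀ κ : ℝ, 1 ≤ κ → ∃ q0 : ℕ,
  ∀ (q : ℕ) [NeZero q], q0 ≤ q →
    |Ir q κ - (1 + (1 - Real.exp (-2 * κ)) / (2 * κ ^ 2))| ≤ C * Real.exp (-κ)

/-- under GRH the normalised pair counts are bounded -/
def S_nb : Prop := AllFin → GRH1 → PsiB → ∃ (M : ℝ) (q0 : ℕ), 0 < M ∧ ∀ (q : ℕ) [NeZero q], q0 ≤ q →
  nq q 1 ≤ M

/-- the upper half of the pair correlation -/
def PCU : Prop := ∀ A ε : ℝ, 0 < A → 0 < ε → ∃ q0 : ℕ, ∀ (q : ℕ) [NeZero q], q0 ≤ q →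
  nq q A ≤ nl A + ε

/-- the lower half of the pair correlation -/
def PCL : Prop := ∀ A ε : ℝ, 0 < A → 0 < ε → ∃ q0 : ℕ, ∀ (q : ℕ) [NeZero q], q0 ≤ q →
  nl A - ε ≤ nq q A

end Pool.Agent.NH13.WV
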