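import Pool.Agent.NH13.WV.Stm3

/-!
# Project WV, part 2: long averages of the variance and simple zeros
-/

set_option autoImplicit false

open Complex MeasureTheory Filter Topology Set
open scoped ComplexConjugate

namespace Pool.Agent.NH13.WV

open Pool.Agent.NH13.UV

/-- the long Abel means of the variance are at most `1 + ε` -/
def AbU : Prop := ∀ ε : ℝ, 0 < ε → ∃ δ0 : ℝ, 0 < δ0 ∧ ∀ δ : ℝ, 0 < δ → δ ≤ δ0 →
  ∀ᶠ q : ℕ in atTop, Mv q δ ≤ ENNReal.ofReal (1 + ε)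

/-- almost all zeros are simple, and almost no pair of zeros is very close -/
def ES : Prop := ∀ ε : ℝ, 0 < ε → ∃ A : ℝ, 0 < A ∧ ∃ q0 : ℕ, ∀ (q : ℕ) [NeZero q], q0 ≤ q →
  nq q A ≤ 1 + ε

/-- the mean squares of `Re B` for small `κ` -/
def IrU : Prop := ∀ ε : ℝ, 0 < ε → ∃ δ0 : ℝ, 0 < δ0 ∧ ∀ δ : ℝ, 0 < δ → δ ≤ δ0 → ∃ q0 : ℕ,
  ∀ (q : ℕ) [NeZero q], q0 ≤ q → δ * Ir q δ ≤ 1 + ε

/-- the number of zeros -/
def S_n0 : Prop := GRH1 → ∀ ε : ℝ, 0 < ε → ∃ q0 : ℕ, ∀ (q : ℕ) [NeZero q], q0 ≤ q →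
  1 - ε ≤ nq q 0

/-- finiteness -/
def S_finA : Prop := AbU → AllFin

/-- primes and mean squares of `Re B` -/
def S_AbI : Prop := AllFin → GRH1 → PsiB → (AbU ↔ IrU)

/-- from the mean squares of `Re B` to the close pairs -/
def S_ZIa : Prop := GRH1 → IrU → ES

/-- from the close pairs to the mean squares of `Re B` -/
def S_ZIb : Prop := GRH1 → (∃ (M : ℝ) (q0 : ℕ), 0 < M ∧ ∀ (q : ℕ) [NeZero q], q0 ≤ q → nq q 1 ≤ M) →
  ES → IrU

end Pool.Agent.NH13.WV
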