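import Pool.Agent.NH13.WV.Stm2

/-!
# Project WV, part 3: multiple zeros and zeros off the line are seen by the primes
-/

set_option autoImplicit false

open Complex MeasureTheory Filter Topology Set
open scoped ComplexConjugate

namespace Pool.Agent.NH13.WV

open Pool.Agent.NH13.UV

/-- two zeros with the same ordinate -/
def S_SZ2 : Prop := ∀ b c γ σ : ℝ, 0 < b → 0 < c → 1 / 2 ≤ σ →
  Integrable (fun t : ℝ => b / (b ^ 2 + (t - γ) ^ 2) * (c / (c ^ 2 + (t - γ) ^ 2)) *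
    (1 / (σ ^ 2 + t ^ 2))) ∧
  Real.pi / (b + c) * (1 - 4 * min b c) / (σ ^ 2 + γ ^ 2) ≤
    ∫ t : ℝ, b / (b ^ 2 + (t - γ) ^ 2) * (c / (c ^ 2 + (t - γ) ^ 2)) * (1 / (σ ^ 2 + t ^ 2))

/-- finitely many zeros -/
def S_K2f : Prop := ∀ (q : ℕ) [NeZero q] (χ : DirichletCharacter ℂ q), χ ≠ 1 → ∀ h x : ℝ,
  0 ≤ h → h < x → x ≤ 1 / 16 →
  (∀ s : ℂ, 1 / 2 + h < s.re → DirichletCharacter.LFunction χ s ≠ 0) →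
  ∀ F : Finset (Zs χ), (∀ s ∈ F, ∀ w : Zs χ, (w : ℂ).im = (s : ℂ).im → w ∈ F) →
  Real.pi / (2 * x) * (1 - 12 * x) *
      ∑ s ∈ F, (mu χ s : ℝ) * (nr χ 0 (s : ℂ).im : ℝ) / (1 / 4 + (s : ℂ).im ^ 2) ≤
    ∫ t : ℝ, (Bq χ (pt x t)).re ^ 2 * wt x t

/-- the mean square of `Re B` and the zeros with the same ordinate -/
def S_K2n : Prop := ∀ (q : ℕ) [NeZero q] (χ : DirichletCharacter ℂ q), χ ≠ 1 → 3 ≤ q →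
  ∀ h x : ℝ, 0 ≤ h → h < x → x ≤ 1 / 16 →
  (∀ s : ℂ, 1 / 2 + h < s.re → DirichletCharacter.LFunction χ s ≠ 0) →
  Real.pi / (2 * x) * (1 - 12 * x) * PW χ 0 ≤ ∫ t : ℝ, (Bq χ (pt x t)).re ^ 2 * wt x t

/-- the family -/
def S_lowN : Prop := ∀ κ ε : ℝ, 0 < κ → 0 < ε → ∃ q0 : ℕ, ∀ (q : ℕ) [NeZero q], q0 ≤ q →
  (∃ κ' : ℝ, 0 < κ' ∧ κ' < κ ∧ Fi q κ') → (1 - ε) * nq q 0 ≤ κ * Ir q κ

/-- primes and pairs of zeros with the same ordinate -/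
def S_PN : Prop := ∀ κ ε : ℝ, 0 < κ → 0 < ε → ∃ q0 : ℕ, ∀ (q : ℕ) [NeZero q], q0 ≤ q →
  ENNReal.ofReal ((1 - ε) * nq q 0 - κ - ε) ≤ Mv q κ

/-- the weighted number of zeros -/
def S_N1u : Prop := ∀ κ ε : ℝ, 0 < κ → 0 < ε → ∃ q0 : ℕ, ∀ (q : ℕ) [NeZero q], q0 ≤ q →
  (∃ κ' : ℝ, 0 < κ' ∧ κ' < κ ∧ Fi q κ') → (1 - ε) * (Real.log q * q.totient) ≤
    ∑ χ ∈ NT q, ∑' s : Zs χ, (mu χ s : ℝ) / (1 / 4 + (s : ℂ).im ^ 2)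

/-- the zeros off the line or multiple, weighted, with multiplicity -/
noncomputable def BW {q : ℕ} [NeZero q] (χ : DirichletCharacter ℂ q) : ℝ :=
  ∑' s : {s : ℂ // s ∈ Zs χ ∧ (s.re ≠ 1 / 2 ∨ 2 ≤ mu χ s)}, (mu χ s : ℝ) / (1 / 4 + (s : ℂ).im ^ 2)

/-- the same for the family, normalised -/
noncomputable def bad (q : ℕ) [NeZero q] : ℝ :=
  1 / (Real.log q * q.totient) * ∑ χ ∈ NT q, BW χ

/-- bad zeros share their ordinate -/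
def S_bad : Prop := ∀ (q : ℕ) [NeZero q] (χ : DirichletCharacter ℂ q), χ ≠ 1 → 3 ≤ q →
  0 ≤ BW χ ∧ BW χ ≤ ∑' s : Zs χ, (mu χ s : ℝ) / (1 / 4 + (s : ℂ).im ^ 2) ∧
  (∑' s : Zs χ, (mu χ s : ℝ) / (1 / 4 + (s : ℂ).im ^ 2)) + BW χ ≤ PW χ 0

/-- **primes see the bad zeros** -/
def S_BZ : Prop := ∀ δ ε : ℝ, 0 < δ → 0 < ε → ∃ q0 : ℕ, ∀ (q : ℕ) [NeZero q], q0 ≤ q →
  ENNReal.ofReal (1 + bad q - δ - ε) ≤ Mv q δ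

end Pool.Agent.NH13.WV
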