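import Pool.Agent.NH13.WV.Stm2

/-!
# Project WV: the uniform bound for the normalised pair counts
-/

set_option autoImplicit false

open Complex MeasureTheory Filter Topology Set

namespace Pool.Agent.NH13.WV

open Pool.Agent.NH13.UV

namespace Unif

lemma card_NT (q : ℕ) [NeZero q] : ((NT q).card : ℝ) ≤ (q.totient : ℝ) := by
  have h1 : (NT q).card ≤ Fintype.card (DirichletCharacter ℂ q) := Finset.card_le_univ _
  have h2 : Fintype.card (DirichletCharacter ℂ q) = q.totient := by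
    rw [← Nat.card_eq_fintype_card]
    exact DirichletCharacter.card_eq_totient_of_hasEnoughRootsOfUnity ℂ q
  exact_mod_cast h2 ▸ h1

lemma one_le_log {q : ℕ} (hq : 3 ≤ q) : 1 ≤ Real.log q := by
  rw [Real.le_log_iff_exp_le (by positivity)]
  have h1 : Real.exp 1 < 2.7182818286 := Real.exp_one_lt_d9
  have h2 : (3 : ℝ) ≤ q := by exact_mod_cast hq
  linarith

lemma le_rpow_three_halves {y : ℝ} (hy : 1 ≤ y) : y ≤ y ^ (3 / 2 : ℝ) := by
  calc y = y ^ (1 : ℝ) := (Real.rpow_one y).symm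
    _ ≤ y ^ (3 / 2 : ℝ) := Real.rpow_le_rpow_of_exponent_le hy (by norm_num)

lemma large {L A : ℝ} (hL : 1 ≤ L) (hA : L ≤ A) :
    L * (1 + A / L) ^ (3 / 2 : ℝ) ≤ 4 * (1 + A) ^ (3 / 2 : ℝ) := by
  have hL0 : 0 < L := by linarith
  have h1 : 1 + A / L ≤ 2 / L * (1 + A) := by
    rw [div_mul_eq_mul_div, le_div_iff₀ hL0]
    have : (1 + A / L) * L = L + A := by field_simp
    rw [this]
    linarith
  have h2 : (1 + A / L) ^ (3 / 2 : ℝ) ≤ (2 / L) ^ (3 / 2 : ℝ) * (1 + A) ^ (3 / 2 : ℝ) := by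
    rw [← Real.mul_rpow (by positivity) (by linarith)]
    exact Real.rpow_le_rpow (by have : 0 ≤ A / L := div_nonneg (by linarith) hL0.le
                                linarith) h1 (by norm_num)
  have h3 : (2 / L : ℝ) ^ (3 / 2 : ℝ) ≤ 4 / L := by
    rw [Real.div_rpow (by norm_num) hL0.le]
    have h4 : (2 : ℝ) ^ (3 / 2 : ℝ) ≤ 4 := by
      calc (2 : ℝ) ^ (3 / 2 : ℝ) ≤ (2 : ℝ) ^ (2 : ℝ) :=
            Real.rpow_le_rpow_of_exponent_le (by norm_num) (by norm_num)
        _ = 4 := by norm_num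
    have h5 : L ≤ L ^ (3 / 2 : ℝ) := le_rpow_three_halves hL
    exact div_le_div₀ (by norm_num) h4 hL0 h5
  have hB : 0 ≤ (1 + A) ^ (3 / 2 : ℝ) := Real.rpow_nonneg (by linarith) _
  calc L * (1 + A / L) ^ (3 / 2 : ℝ) ≤ L * ((2 / L) ^ (3 / 2 : ℝ) * (1 + A) ^ (3 / 2 : ℝ)) :=
        mul_le_mul_of_nonneg_left h2 hL0.le
    _ ≤ L * (4 / L * (1 + A) ^ (3 / 2 : ℝ)) := by
        apply mul_le_mul_of_nonneg_left _ hL0.le
        exact mul_le_mul_of_nonneg_right h3 hB
    _ = 4 * (1 + A) ^ (3 / 2 : ℝ) := by field_simp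

end Unif

open Unif in
/-- WV-15: the uniform bound -/
theorem t_unif (h5 : S_sub) (h4 : S_PWb) (hm : S_mono) : S_unif := by
  obtain ⟨C5, hC5, H5⟩ := h5
  obtain ⟨C4, hC4, H4⟩ := h4
  intro M hM
  refine ⟨M + C5 * M + C4 * 4, 3, by positivity, ?_⟩
  intro q _ hq hq1 A hA
  have hL : 1 ≤ Real.log q := one_le_log hq
  have hL0 : 0 < Real.log q := by linarith
  have hphi : (0 : ℝ) < q.totient := by
    exact_mod_cast Nat.totient_pos.2 (by omega)
  have hk : (1 : ℝ) ≤ (1 + A) ^ (3 / 2 : ℝ) :=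
    Real.one_le_rpow (by linarith) (by norm_num)
  have hk2 : A ≤ (1 + A) ^ (3 / 2 : ℝ) := by
    have := le_rpow_three_halves (y := 1 + A) (by linarith)
    linarith
  have hk0 : (0 : ℝ) ≤ (1 + A) ^ (3 / 2 : ℝ) := by linarith
  have hcoef : 0 ≤ 1 / (Real.log q * q.totient) := by positivity
  obtain ⟨hmono, hnn, -⟩ := hm q hq
  have e1 : 0 ≤ C5 * M * (1 + A) ^ (3 / 2 : ℝ) := by positivity
  have e2 : 0 ≤ C4 * 4 * (1 + A) ^ (3 / 2 : ℝ) := by positivity
  have e3 : 0 ≤ M * (1 + A) ^ (3 / 2 : ℝ) := by positivity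
  have e4 : (M + C5 * M + C4 * 4) * (1 + A) ^ (3 / 2 : ℝ) =
      M * (1 + A) ^ (3 / 2 : ℝ) + C5 * M * (1 + A) ^ (3 / 2 : ℝ) +
        C4 * 4 * (1 + A) ^ (3 / 2 : ℝ) := by ring
  rw [e4]
  rcases le_total A 1 with h1 | h1
  · -- small `A`
    have h2 : nq q A ≤ nq q 1 := hmono (by simpa using hA) (by simp) h1
    have h3 : M ≤ M * (1 + A) ^ (3 / 2 : ℝ) := by nlinarith
    linarith
  rcases le_total A (Real.log q) with h2 | h2
  · -- middle range
    have hd1 : 0 < 1 / Real.log q := by positivity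
    have hd2 : 1 / Real.log q ≤ A / Real.log q := div_le_div_of_nonneg_right h1 hL0.le
    have hd3 : A / Real.log q ≤ 1 := (div_le_one hL0).2 h2
    have h3 : nq q A ≤ C5 * A * nq q 1 := by
      unfold nq
      calc 1 / (Real.log q * q.totient) * ∑ χ ∈ NT q, PW χ (A / Real.log q)
          ≤ 1 / (Real.log q * q.totient) * ∑ χ ∈ NT q, C5 * A * PW χ (1 / Real.log q) := by
            apply mul_le_mul_of_nonneg_left _ hcoef
            apply Finset.sum_le_sum
            intro χ hχ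
            have h := H5 q χ (mem_NT.1 hχ) hq (1 / Real.log q) (A / Real.log q) hd1 hd2 hd3
            have h6 : A / Real.log q / (1 / Real.log q) = A := by field_simp
            rw [h6] at h
            exact h
        _ = C5 * A * (1 / (Real.log q * q.totient) * ∑ χ ∈ NT q, PW χ (1 / Real.log q)) := by
            rw [← Finset.mul_sum]
            ring
    have h4 : C5 * A * nq q 1 ≤ C5 * A * M :=
      mul_le_mul_of_nonneg_left hq1 (by positivity)
    have h5 : C5 * A * M ≤ C5 * M * (1 + A) ^ (3 / 2 : ℝ) := by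
      have : C5 * A * M = C5 * M * A := by ring
      rw [this]
      exact mul_le_mul_of_nonneg_left hk2 (by positivity)
    linarith
  · -- large `A`
    have hd : 0 ≤ A / Real.log q := div_nonneg hA hL0.le
    have h3 : nq q A ≤ C4 * (Real.log q * (1 + A / Real.log q) ^ (3 / 2 : ℝ)) := by
      unfold nq
      have hB : 0 ≤ C4 * Real.log q ^ 2 * (1 + A / Real.log q) ^ (3 / 2 : ℝ) := by positivity
      calc 1 / (Real.log q * q.totient) * ∑ χ ∈ NT q, PW χ (A / Real.log q)
          ≤ 1 / (Real.log q * q.totient) *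
              ∑ _χ ∈ NT q, C4 * Real.log q ^ 2 * (1 + A / Real.log q) ^ (3 / 2 : ℝ) := by
            apply mul_le_mul_of_nonneg_left _ hcoef
            apply Finset.sum_le_sum
            intro χ hχ
            exact (H4 q χ (mem_NT.1 hχ) hq (A / Real.log q) hd).2
        _ = 1 / (Real.log q * q.totient) *
              (((NT q).card : ℝ) * (C4 * Real.log q ^ 2 * (1 + A / Real.log q) ^ (3 / 2 : ℝ))) := by
            rw [Finset.sum_const, nsmul_eq_mul]
        _ ≤ 1 / (Real.log q * q.totient) *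
              ((q.totient : ℝ) * (C4 * Real.log q ^ 2 * (1 + A / Real.log q) ^ (3 / 2 : ℝ))) := by
            apply mul_le_mul_of_nonneg_left _ hcoef
            exact mul_le_mul_of_nonneg_right (card_NT q) hB
        _ = C4 * (Real.log q * (1 + A / Real.log q) ^ (3 / 2 : ℝ)) := by
            field_simp
    have h4 : C4 * (Real.log q * (1 + A / Real.log q) ^ (3 / 2 : ℝ)) ≤
        C4 * (4 * (1 + A) ^ (3 / 2 : ℝ)) :=
      mul_le_mul_of_nonneg_left (large hL h2) hC4.le
    linarith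

end Pool.Agent.NH13.WV
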